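import Pool.Agent.Lib.MP_092512_nt.RT.Defs
import Pool.Agent.Lib.MP_092512_nt.P3.D1
import Pool.Agent.Lib.MP_092512_nt.P3.D0m

/-!
# A: limit of a product over primes

PROOF.  For `t ≥ 0`: `t - t² ≤ log (1 + t) ≤ t` (`Real.add_one_le_exp`, `Real.log_le_sub_one_of_pos`, `1 + t ≥ exp (t - t²)`: e.g.
`log (1+t) ≥ t/(1+t) ≥ t - t²`).  With `t = ψ(lg p)/p`: `∑ t = ∑ (ψ(u)/u) (lg p/p) → ∫ ψ(u)/u` (`D1_one` for `ψ(u)/u`, continuous on
`[δ, Λ]`), `∑ t² ≤ M² ∑ 1/p² ≤ M² x^(-δ) ∑ 1/p → 0` (`p > x^δ`, `D0_sum_inv_le`; `M` the maximum of `ψ`).  So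
`log ∏ → ∫ ψ/u`, and `exp` is continuous.  (`lg x p ∈ [δ, Λ]` for `p ∈ PP x δ Λ`, `x ≥ 2`: `PP_lg`.)
-/

set_option autoImplicit false

open Finset Filter

open scoped ArithmeticFunction.Moebius

namespace Pool.Agent.Lib.MP_092512_nt.RT

open Pool.Agent.Lib.SW Pool.Agent.Lib.MP_092512_nt.P3

private theorem AProd_log {t : ℝ} (ht : 0 ≤ t) : t - t ^ 2 ≤ Real.log (1 + t) := by
  have h1 : 0 < 1 + t := by linarith
  have h2 := Real.one_sub_inv_le_log_of_pos h1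
  refine le_trans ?_ h2
  have h3 : 1 - (1 + t)⁻¹ = t / (1 + t) := by
    field_simp
    ring
  rw [h3, le_div_iff₀ h1]
  nlinarith [mul_nonneg ht (sq_nonneg t)]

theorem prod_lim (δ Λ : ℝ) (hδ : 0 < δ) (hΛ : δ ≤ Λ) (ψ : ℝ → ℝ) (hψ : ContinuousOn ψ (Set.Icc δ Λ))
    (h0 : ∀ u ∈ Set.Icc δ Λ, 0 ≤ ψ u) :
    Tendsto (fun x : ℕ => ∏ p ∈ PP x δ Λ, (1 + ψ (lg x p) / (p : ℝ))) atTop
      (nhds (Real.exp (∫ u in δ..Λ, ψ u / u))) := by
  have hcont : ContinuousOn (fun u => ψ u / u) (Set.Icc δ Λ) :=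
    hψ.div continuousOn_id fun u hu => (lt_of_lt_of_le hδ hu.1).ne'
  have hS := D1_one δ Λ hδ hΛ (fun u => ψ u / u) hcont
  obtain ⟨M, hM⟩ := isCompact_Icc.exists_bound_of_continuousOn hψ
  have hM0 : 0 ≤ M := (norm_nonneg _).trans (hM δ ⟨le_rfl, hΛ⟩)
  -- the sum of the squares
  have hE : Tendsto (fun x : ℕ => M ^ 2 * ((Λ - δ + 1) / δ) * (x : ℝ) ^ (-δ)) atTop (nhds 0) := by
    have h1 : Tendsto (fun x : ℕ => (x : ℝ) ^ (-δ)) atTop (nhds 0) :=
      (tendsto_rpow_neg_atTop hδ).comp tendsto_natCast_atTop_atTop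
    simpa using h1.const_mul (M ^ 2 * ((Λ - δ + 1) / δ))
  have hmem : ∀ x : ℕ, 2 ≤ x → ∀ p ∈ PP x δ Λ, lg x p ∈ Set.Icc δ Λ := fun x hx p hp => by
    obtain ⟨h1, h2⟩ := PP_lg hx hp
    exact ⟨h1.le, h2⟩
  have hlog : Tendsto (fun x : ℕ => Real.log (∏ p ∈ PP x δ Λ, (1 + ψ (lg x p) / (p : ℝ)))) atTop
      (nhds (∫ u in δ..Λ, ψ u / u)) := by
    have hlow : Tendsto (fun x : ℕ => (∑ p ∈ PP x δ Λ, ψ (lg x p) / lg x p * (lg x p / (p : ℝ))) -
        M ^ 2 * ((Λ - δ + 1) / δ) * (x : ℝ) ^ (-δ)) atTop (nhds (∫ u in δ..Λ, ψ u / u)) := by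
      have := hS.sub hE
      rwa [sub_zero] at this
    have hrw : ∀ x : ℕ, 2 ≤ x → ∀ p ∈ PP x δ Λ,
        ψ (lg x p) / lg x p * (lg x p / (p : ℝ)) = ψ (lg x p) / (p : ℝ) := by
      intro x hx p hp
      have h1 : 0 < lg x p := lt_of_lt_of_le hδ (hmem x hx p hp).1
      have h2 : (0 : ℝ) < p := by exact_mod_cast (mem_PP.mp hp).1.pos
      field_simp
    have hlogsum : ∀ x : ℕ, 2 ≤ x → Real.log (∏ p ∈ PP x δ Λ, (1 + ψ (lg x p) / (p : ℝ))) =
        ∑ p ∈ PP x δ Λ, Real.log (1 + ψ (lg x p) / (p : ℝ)) := by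
      intro x hx
      refine Real.log_prod fun p hp => ?_
      have h1 := h0 _ (hmem x hx p hp)
      have h2 : (0 : ℝ) < p := by exact_mod_cast (mem_PP.mp hp).1.pos
      have h3 : 0 ≤ ψ (lg x p) / (p : ℝ) := by positivity
      linarith
    refine tendsto_of_tendsto_of_tendsto_of_le_of_le' hlow hS ?_ ?_
    · filter_upwards [D0_sum_inv_le δ Λ hδ hΛ, eventually_ge_atTop 2] with x hx hx2
      have hx0 : (0 : ℝ) < x := by exact_mod_cast (by omega : 0 < x)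
      rw [hlogsum x hx2, sum_congr rfl (hrw x hx2), sub_le_iff_le_add]
      have h1 : ∑ p ∈ PP x δ Λ, (ψ (lg x p) / (p : ℝ)) ^ 2 ≤
          M ^ 2 * ((Λ - δ + 1) / δ) * (x : ℝ) ^ (-δ) := by
        calc ∑ p ∈ PP x δ Λ, (ψ (lg x p) / (p : ℝ)) ^ 2
            ≤ ∑ p ∈ PP x δ Λ, M ^ 2 * (x : ℝ) ^ (-δ) * (1 / (p : ℝ)) := by
              refine sum_le_sum fun p hp => ?_
              obtain ⟨hpp, h2, _⟩ := mem_PP.mp hp
              have hp0 : (0 : ℝ) < p := by exact_mod_cast hpp.pos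
              have h3 := hM _ (hmem x hx2 p hp)
              rw [Real.norm_eq_abs] at h3
              have h4 : ψ (lg x p) ^ 2 ≤ M ^ 2 := by
                rw [← sq_abs]
                exact pow_le_pow_left₀ (abs_nonneg _) h3 2
              have h5 : 1 / (p : ℝ) ≤ (x : ℝ) ^ (-δ) := by
                rw [Real.rpow_neg hx0.le, one_div]
                exact inv_anti₀ (by positivity) h2.le
              have h6 : (ψ (lg x p) / (p : ℝ)) ^ 2 = ψ (lg x p) ^ 2 * (1 / (p : ℝ)) * (1 / (p : ℝ)) := by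
                field_simp
              rw [h6]
              refine mul_le_mul_of_nonneg_right ?_ (by positivity)
              exact mul_le_mul h4 h5 (by positivity) (by positivity)
          _ = M ^ 2 * (x : ℝ) ^ (-δ) * ∑ p ∈ PP x δ Λ, 1 / (p : ℝ) := by rw [mul_sum]
          _ ≤ M ^ 2 * (x : ℝ) ^ (-δ) * ((Λ - δ + 1) / δ) :=
              mul_le_mul_of_nonneg_left hx (by positivity)
          _ = _ := by ring
      have h2 : ∑ p ∈ PP x δ Λ, ψ (lg x p) / (p : ℝ) ≤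
          ∑ p ∈ PP x δ Λ, Real.log (1 + ψ (lg x p) / (p : ℝ)) +
            ∑ p ∈ PP x δ Λ, (ψ (lg x p) / (p : ℝ)) ^ 2 := by
        rw [← sum_add_distrib]
        refine sum_le_sum fun p hp => ?_
        have h3 := h0 _ (hmem x hx2 p hp)
        have h4 : (0 : ℝ) < p := by exact_mod_cast (mem_PP.mp hp).1.pos
        have h5 := AProd_log (t := ψ (lg x p) / (p : ℝ)) (by positivity)
        linarith
      linarith
    · filter_upwards [eventually_ge_atTop 2] with x hx2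
      rw [hlogsum x hx2, sum_congr rfl (hrw x hx2)]
      refine sum_le_sum fun p hp => ?_
      have h3 := h0 _ (hmem x hx2 p hp)
      have h4 : (0 : ℝ) < p := by exact_mod_cast (mem_PP.mp hp).1.pos
      have h5 : 0 < 1 + ψ (lg x p) / (p : ℝ) := by positivity
      have := Real.log_le_sub_one_of_pos h5
      linarith
  refine ((Real.continuous_exp.tendsto _).comp hlog).congr' ?_
  filter_upwards [eventually_ge_atTop 2] with x hx2
  refine Real.exp_log (prod_pos fun p hp => ?_)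
  have h3 := h0 _ (hmem x hx2 p hp)
  have h4 : (0 : ℝ) < p := by exact_mod_cast (mem_PP.mp hp).1.pos
  positivity

end Pool.Agent.Lib.MP_092512_nt.RT
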