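import Pool.Agent.Lib.MP_092512_nt.RT.APow
import Pool.Agent.Lib.MP_092512_nt.RT.AProd

/-!
# A: the bound for the cross terms

PROOF.  For `lgs x s ≤ 1`: `1 ≤ e · e^(-lgs)`, so the sum is at most `e ∑_{s ⊆ PP x δ 1} e^(-lgs) (2^|s| τ_i) rs = e ∏ (1 + 2 ψ(lg p)/p)`
(`sum_two`), `ψ(u) = e^(-u) (1 - e^(-iu)) ≤ i u`.  By `prod_lim` the product tends to `exp (∫_δ^1 2 ψ(u)/u) ≤ exp (2 i)`.  `C = e · (exp (2i) + 1)`.
-/

set_option autoImplicit false

open Finset Filter

open scoped ArithmeticFunction.Moebius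

namespace Pool.Agent.Lib.MP_092512_nt.RT

open Pool.Agent.Lib.SW Pool.Agent.Lib.MP_092512_nt.P3

private theorem ACross_int (i : ℕ) (δ : ℝ) (hδ : 0 < δ) (hδ1 : δ ≤ 1) :
    ∫ u in δ..1, 2 * (Real.exp (-u) * (1 - Real.exp (-((i : ℝ) * u)))) / u ≤ 2 * i := by
  have hc : ContinuousOn (fun u : ℝ => 2 * (Real.exp (-u) * (1 - Real.exp (-((i : ℝ) * u)))) / u)
      (Set.uIcc δ 1) := by
    refine ContinuousOn.div (by fun_prop) continuousOn_id ?_
    intro u hu
    rw [Set.uIcc_of_le hδ1] at hu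
    exact (lt_of_lt_of_le hδ hu.1).ne'
  have h1 : ∫ u in δ..1, 2 * (Real.exp (-u) * (1 - Real.exp (-((i : ℝ) * u)))) / u ≤
      ∫ _u in δ..1, 2 * (i : ℝ) := by
    refine intervalIntegral.integral_mono_on hδ1 hc.intervalIntegrable
      (by apply Continuous.intervalIntegrable; fun_prop) ?_
    intro u hu
    have hu0 : 0 < u := lt_of_lt_of_le hδ hu.1
    rw [div_le_iff₀ hu0]
    have e1 : Real.exp (-u) ≤ 1 := by
      rw [Real.exp_le_one_iff]
      linarith
    have e2 : 1 - Real.exp (-((i : ℝ) * u)) ≤ i * u := by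
      have := Real.add_one_le_exp (-((i : ℝ) * u))
      linarith
    have e3 : 0 ≤ 1 - Real.exp (-((i : ℝ) * u)) := by
      rw [sub_nonneg, Real.exp_le_one_iff]
      have : 0 ≤ (i : ℝ) * u := by positivity
      linarith
    have e4 : Real.exp (-u) * (1 - Real.exp (-((i : ℝ) * u))) ≤ 1 * (i * u) :=
      mul_le_mul e1 e2 e3 zero_le_one
    linarith
  refine h1.trans ?_
  rw [intervalIntegral.integral_const, smul_eq_mul]
  have : (0 : ℝ) ≤ 2 * i := by positivity
  nlinarith

theorem cross_bd (i : ℕ) : ∃ C : ℝ, 0 < C ∧ ∀ δ : ℝ, 0 < δ → δ ≤ 1 / 2 → ∀ᶠ x : ℕ in atTop,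
    ∑ s ∈ (PP x δ 1).powerset.filter (fun s => lgs x s ≤ 1), 2 ^ s.card * tau x i s * rs s ≤ C := by
  refine ⟨Real.exp 1 * (Real.exp (2 * i) + 1), by positivity, fun δ hδ hδ1 => ?_⟩
  have hlim := prod_lim δ 1 hδ (by linarith)
    (fun u => 2 * (Real.exp (-u) * (1 - Real.exp (-((i : ℝ) * u))))) (by fun_prop) (by
      intro u hu
      have hu0 : 0 < u := lt_of_lt_of_le hδ hu.1
      have e3 : 0 ≤ 1 - Real.exp (-((i : ℝ) * u)) := by
        rw [sub_nonneg, Real.exp_le_one_iff]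
        have : 0 ≤ (i : ℝ) * u := by positivity
        linarith
      positivity)
  have h1 : Real.exp (∫ u in δ..1, 2 * (Real.exp (-u) * (1 - Real.exp (-((i : ℝ) * u)))) / u) <
      Real.exp (2 * i) + 1 := by
    have := Real.exp_le_exp.mpr (ACross_int i δ hδ (by linarith))
    linarith
  filter_upwards [hlim.eventually_lt_const h1] with x hx
  have h2 : ∑ s ∈ (PP x δ 1).powerset.filter (fun s => lgs x s ≤ 1), 2 ^ s.card * tau x i s * rs s ≤
      ∑ s ∈ (PP x δ 1).powerset,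
        Real.exp 1 * (Real.exp (-lgs x s) * (2 ^ s.card * tau x i s) * rs s) := by
    have hnn : ∀ s : Finset ℕ, 0 ≤ (2 : ℝ) ^ s.card * tau x i s * rs s := fun s =>
      mul_nonneg (mul_nonneg (by positivity) (tau_nonneg x i s)) (rs_nonneg s)
    calc ∑ s ∈ (PP x δ 1).powerset.filter (fun s => lgs x s ≤ 1), (2 : ℝ) ^ s.card * tau x i s * rs s
        ≤ ∑ s ∈ (PP x δ 1).powerset.filter (fun s => lgs x s ≤ 1),
          Real.exp 1 * (Real.exp (-lgs x s) * (2 ^ s.card * tau x i s) * rs s) := by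
          refine sum_le_sum fun s hs => ?_
          have h3 := (mem_filter.mp hs).2
          have h4 : 1 ≤ Real.exp 1 * Real.exp (-lgs x s) := by
            rw [← Real.exp_add]
            exact Real.one_le_exp (by linarith)
          have h5 := mul_le_mul_of_nonneg_right h4 (hnn s)
          rw [one_mul] at h5
          refine h5.trans (le_of_eq ?_)
          ring
      _ ≤ _ := by
          refine sum_le_sum_of_subset_of_nonneg (filter_subset _ _) fun s _ _ => ?_
          have h5 := mul_nonneg (mul_nonneg (Real.exp_pos 1).le (Real.exp_pos (-lgs x s)).le) (hnn s)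
          refine h5.trans (le_of_eq ?_)
          ring
  refine h2.trans ?_
  rw [← mul_sum, sum_two]
  exact mul_le_mul_of_nonneg_left hx.le (Real.exp_pos 1).le

end Pool.Agent.Lib.MP_092512_nt.RT
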