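import Pool.Agent.Lib.MP_092512_nt.RT.Defs

/-!
# A: the Frullani integral

PROOF.  Put `I(δ, Λ) = ∫_δ^Λ cc i j g u/u`.  For `u > 0`, `(1 - e^(-iu))/u = ∫_0^i e^(-su) ds`, so
`cc i j g u/u = ∫_0^i (e^(-(g+s)u) - e^(-(g+s+j)u)) ds`; exchange the integrals (`intervalIntegral` on a rectangle,
continuous integrand: `MeasureTheory.integral_integral_swap` or `intervalIntegral_integral_interchange`):
`I = ∫_0^i [ (e^(-(g+s)δ) - e^(-(g+s)Λ))/(g+s) - (e^(-(g+s+j)δ) - e^(-(g+s+j)Λ))/(g+s+j) ] ds`.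
With `J = ∫_0^i (1/(g+s) - 1/(g+s+j)) ds = log ((g+i)/g) - log ((g+i+j)/(g+j))` and `|1 - e^(-aδ)|/a ≤ δ`,
`e^(-aΛ)/a ≤ e^(-Λ)` for `a ≥ 1`: `|I - J| ≤ i (2 δ + 2 e^(-Λ))`.  `exp J` is the claimed value; `exp` is continuous.
-/

set_option autoImplicit false

open Finset Filter

open scoped ArithmeticFunction.Moebius

namespace Pool.Agent.Lib.MP_092512_nt.RT

open Pool.Agent.Lib.SW Pool.Agent.Lib.MP_092512_nt.P3

private theorem AFrul_exp (a b c : ℝ) (hc : c ≠ 0) :
    ∫ u in a..b, Real.exp (-(c * u)) = (Real.exp (-(c * a)) - Real.exp (-(c * b))) / c := by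
  have h1 : ∀ u ∈ Set.uIcc a b, HasDerivAt (fun u => - Real.exp (-(c * u)) / c) (Real.exp (-(c * u))) u := by
    intro u _
    have h2 : HasDerivAt (fun u : ℝ => -(c * u)) (-(c * 1)) u := ((hasDerivAt_id u).const_mul c).neg
    have h3 := (h2.exp.neg).div_const c
    have h4 : -(Real.exp (-(c * u)) * -(c * 1)) / c = Real.exp (-(c * u)) := by
      field_simp
    rw [h4] at h3
    exact h3
  have h5 : IntervalIntegrable (fun u => Real.exp (-(c * u))) MeasureTheory.volume a b := by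
    apply Continuous.intervalIntegrable
    fun_prop
  rw [intervalIntegral.integral_eq_sub_of_hasDerivAt h1 h5]
  ring

private theorem AFrul_est (a δ Λ : ℝ) (ha : 1 ≤ a) (hδ : 0 < δ) (hΛ : 1 ≤ Λ) :
    |(Real.exp (-(a * δ)) - Real.exp (-(a * Λ))) / a - 1 / a| ≤ δ + Real.exp (-Λ) := by
  have h1 : 1 - a * δ ≤ Real.exp (-(a * δ)) := by
    have := Real.add_one_le_exp (-(a * δ))
    linarith
  have h2 : Real.exp (-(a * δ)) ≤ 1 := by
    rw [Real.exp_le_one_iff]
    nlinarith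
  have h3 : Real.exp (-(a * Λ)) ≤ Real.exp (-Λ) := by
    rw [Real.exp_le_exp]
    nlinarith
  have h4 : 0 < Real.exp (-(a * Λ)) := Real.exp_pos _
  have h5 : (Real.exp (-(a * δ)) - Real.exp (-(a * Λ))) / a - 1 / a =
      - ((1 - Real.exp (-(a * δ)) + Real.exp (-(a * Λ))) / a) := by
    ring
  have h6 : 0 ≤ (1 - Real.exp (-(a * δ)) + Real.exp (-(a * Λ))) / a :=
    div_nonneg (by linarith) (by linarith)
  rw [h5, abs_neg, abs_of_nonneg h6, div_le_iff₀ (by linarith)]
  nlinarith [Real.exp_pos (-Λ)]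

private theorem AFrul_swap (i j g : ℕ) (δ Λ : ℝ) (hg : 1 ≤ g) (hδ : 0 < δ) (hΛ : 1 ≤ Λ) :
    ∫ u in δ..Λ, cc i j g u / u = ∫ s in (0 : ℝ)..i,
      ((Real.exp (-(((g : ℝ) + s) * δ)) - Real.exp (-(((g : ℝ) + s) * Λ))) / ((g : ℝ) + s) -
      (Real.exp (-(((g : ℝ) + s + j) * δ)) - Real.exp (-(((g : ℝ) + s + j) * Λ))) / ((g : ℝ) + s + j)) := by
  have hg' : (1 : ℝ) ≤ g := by exact_mod_cast hg
  have hj' : (0 : ℝ) ≤ j := Nat.cast_nonneg j
  obtain ⟨F, hF⟩ : ∃ F : ℝ → ℝ → ℝ, F = fun u s =>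
      Real.exp (-(((g : ℝ) + s) * u)) - Real.exp (-(((g : ℝ) + s + j) * u)) := ⟨_, rfl⟩
  have hFc : Continuous (Function.uncurry F) := by
    rw [hF]
    unfold Function.uncurry
    fun_prop
  have h1 : ∫ u in δ..Λ, cc i j g u / u = ∫ u in δ..Λ, ∫ s in (0 : ℝ)..i, F u s := by
    refine intervalIntegral.integral_congr fun u hu => ?_
    have hu0 : 0 < u := by
      rcases le_total δ Λ with h | h
      · rw [Set.uIcc_of_le h] at hu
        exact lt_of_lt_of_le hδ hu.1
      · rw [Set.uIcc_of_ge h] at hu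
        exact lt_of_lt_of_le (by linarith) hu.1
    have h2 : ∀ s, F u s = (Real.exp (-((g : ℝ) * u)) - Real.exp (-(((g : ℝ) + j) * u))) *
        Real.exp (-(u * s)) := by
      intro s
      rw [hF, sub_mul, ← Real.exp_add, ← Real.exp_add]
      simp only
      congr 1
      · congr 1
        ring
      · congr 1
        ring
    simp only [h2]
    rw [intervalIntegral.integral_const_mul, AFrul_exp _ _ _ hu0.ne']
    have h3 : Real.exp (-(((g : ℝ) + j) * u)) = Real.exp (-((g : ℝ) * u)) * Real.exp (-((j : ℝ) * u)) := by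
      rw [← Real.exp_add]
      congr 1
      ring
    rw [h3, mul_zero, neg_zero, Real.exp_zero, mul_comm u (i : ℝ)]
    unfold cc
    ring
  have h2 : MeasureTheory.IntegrableOn (Function.uncurry F) (Set.uIoc δ Λ ×ˢ Set.uIoc (0 : ℝ) i) :=
    (hFc.continuousOn.integrableOn_compact (isCompact_uIcc.prod isCompact_uIcc)).mono_set
      (Set.prod_mono Set.uIoc_subset_uIcc Set.uIoc_subset_uIcc)
  rw [h1, MeasureTheory.intervalIntegral_intervalIntegral_swap h2]
  refine intervalIntegral.integral_congr fun s hs => ?_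
  have hs0 : 0 ≤ s := by
    rw [Set.uIcc_of_le (Nat.cast_nonneg i)] at hs
    exact hs.1
  have h3 : ∀ c : ℝ, IntervalIntegrable (fun u => Real.exp (-(c * u))) MeasureTheory.volume δ Λ := by
    intro c
    apply Continuous.intervalIntegrable
    fun_prop
  simp only [hF]
  rw [intervalIntegral.integral_sub (h3 _) (h3 _), AFrul_exp _ _ _ (by linarith),
    AFrul_exp _ _ _ (by linarith)]

private theorem AFrul_J (i j g : ℕ) (hg : 1 ≤ g) :
    ∫ s in (0 : ℝ)..i, (1 / ((g : ℝ) + s) - 1 / ((g : ℝ) + s + j)) =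
      Real.log (((g : ℝ) + i) * ((g : ℝ) + j) / ((g : ℝ) * ((g : ℝ) + i + j))) := by
  have hg' : (1 : ℝ) ≤ g := by exact_mod_cast hg
  have hj' : (0 : ℝ) ≤ j := Nat.cast_nonneg j
  have hi' : (0 : ℝ) ≤ i := Nat.cast_nonneg i
  have hpos : ∀ s ∈ Set.uIcc (0 : ℝ) i, 0 ≤ s := by
    intro s hs
    rw [Set.uIcc_of_le hi'] at hs
    exact hs.1
  have h1 : ∀ s ∈ Set.uIcc (0 : ℝ) i, HasDerivAt
      (fun s => Real.log ((g : ℝ) + s) - Real.log ((g : ℝ) + s + j))
      (1 / ((g : ℝ) + s) - 1 / ((g : ℝ) + s + j)) s := by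
    intro s hs
    have hs0 := hpos s hs
    have h2 : HasDerivAt (fun s : ℝ => (g : ℝ) + s) 1 s := (hasDerivAt_id s).const_add (g : ℝ)
    have h3 : HasDerivAt (fun s : ℝ => (g : ℝ) + s + j) 1 s := h2.add_const (j : ℝ)
    exact (h2.log (by linarith)).sub (h3.log (by linarith))
  have h5 : IntervalIntegrable (fun s => 1 / ((g : ℝ) + s) - 1 / ((g : ℝ) + s + j))
      MeasureTheory.volume 0 i := by
    apply ContinuousOn.intervalIntegrable
    apply ContinuousOn.sub
    · apply ContinuousOn.div continuousOn_const (by fun_prop)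
      intro s hs
      have := hpos s hs
      linarith
    · apply ContinuousOn.div continuousOn_const (by fun_prop)
      intro s hs
      have := hpos s hs
      linarith
  rw [intervalIntegral.integral_eq_sub_of_hasDerivAt h1 h5]
  rw [Real.log_div (by positivity) (by positivity), Real.log_mul (by positivity) (by positivity),
    Real.log_mul (by positivity) (by positivity), add_zero]
  ring

theorem frul (i j g : ℕ) (hi : 1 ≤ i) (hj : 1 ≤ j) (hg : 1 ≤ g) (ε : ℝ) (hε : 0 < ε) :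
    ∃ δ₀ : ℝ, 0 < δ₀ ∧ ∃ Λ₀ : ℝ, 1 ≤ Λ₀ ∧ ∀ δ : ℝ, 0 < δ → δ ≤ δ₀ → ∀ Λ : ℝ, Λ₀ ≤ Λ →
      |Real.exp (∫ u in δ..Λ, cc i j g u / u) -
        ((g : ℝ) + i) * ((g : ℝ) + j) / ((g : ℝ) * ((g : ℝ) + i + j))| ≤ ε := by
  have hg' : (1 : ℝ) ≤ g := by exact_mod_cast hg
  have hj' : (1 : ℝ) ≤ j := by exact_mod_cast hj
  have hi' : (1 : ℝ) ≤ i := by exact_mod_cast hi
  obtain ⟨J, hJ⟩ : ∃ J : ℝ, J = ∫ s in (0 : ℝ)..i, (1 / ((g : ℝ) + s) - 1 / ((g : ℝ) + s + j)) :=
    ⟨_, rfl⟩
  have hexpJ : Real.exp J = ((g : ℝ) + i) * ((g : ℝ) + j) / ((g : ℝ) * ((g : ℝ) + i + j)) := by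
    rw [hJ, AFrul_J i j g hg, Real.exp_log (by positivity)]
  obtain ⟨η, hη, hcont⟩ := Metric.continuousAt_iff.1 (Real.continuous_exp.continuousAt (x := J)) ε hε
  have hκ : 0 < η / (8 * i) := by positivity
  refine ⟨η / (8 * i), hκ, max 1 (- Real.log (η / (8 * i))), le_max_left _ _, ?_⟩
  intro δ hδ hδ₀ Λ hΛ
  have hΛ1 : 1 ≤ Λ := le_trans (le_max_left _ _) hΛ
  have hΛ2 : - Real.log (η / (8 * i)) ≤ Λ := le_trans (le_max_right _ _) hΛ
  have hexpΛ : Real.exp (-Λ) ≤ η / (8 * i) := by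
    rw [← Real.exp_log hκ, Real.exp_le_exp]
    linarith
  have hbound : |(∫ u in δ..Λ, cc i j g u / u) - J| ≤ (2 * δ + 2 * Real.exp (-Λ)) * |(i : ℝ) - 0| := by
    rw [AFrul_swap i j g δ Λ hg hδ hΛ1, hJ, ← intervalIntegral.integral_sub]
    · rw [← Real.norm_eq_abs]
      refine intervalIntegral.norm_integral_le_of_norm_le_const fun s hs => ?_
      rw [Set.uIoc_of_le (by linarith)] at hs
      have hs0 := hs.1
      have h1 := AFrul_est ((g : ℝ) + s) δ Λ (by linarith) hδ hΛ1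
      have h2 := AFrul_est ((g : ℝ) + s + j) δ Λ (by linarith) hδ hΛ1
      rw [Real.norm_eq_abs]
      rw [abs_le] at h1 h2 ⊢
      constructor
      · linarith [h1.1, h2.2]
      · linarith [h1.2, h2.1]
    · apply ContinuousOn.intervalIntegrable
      have hpos : ∀ s ∈ Set.uIcc (0 : ℝ) i, 0 ≤ s := by
        intro s hs
        rw [Set.uIcc_of_le (by linarith)] at hs
        exact hs.1
      apply ContinuousOn.sub
      · apply ContinuousOn.div (by fun_prop) (by fun_prop)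
        intro s hs
        have := hpos s hs
        linarith
      · apply ContinuousOn.div (by fun_prop) (by fun_prop)
        intro s hs
        have := hpos s hs
        linarith
    · have hpos : ∀ s ∈ Set.uIcc (0 : ℝ) i, 0 ≤ s := by
        intro s hs
        rw [Set.uIcc_of_le (by linarith)] at hs
        exact hs.1
      apply ContinuousOn.intervalIntegrable
      apply ContinuousOn.sub
      · apply ContinuousOn.div continuousOn_const (by fun_prop)
        intro s hs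
        have := hpos s hs
        linarith
      · apply ContinuousOn.div continuousOn_const (by fun_prop)
        intro s hs
        have := hpos s hs
        linarith
  have hlt : dist (∫ u in δ..Λ, cc i j g u / u) J < η := by
    rw [Real.dist_eq]
    refine lt_of_le_of_lt hbound ?_
    rw [sub_zero, abs_of_nonneg (by linarith)]
    have h3 : (2 * δ + 2 * Real.exp (-Λ)) * (i : ℝ) ≤ (4 * (η / (8 * i))) * i := by
      apply mul_le_mul_of_nonneg_right _ (by linarith)
      linarith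
    have h4 : (4 * (η / (8 * (i : ℝ)))) * i = η / 2 := by
      field_simp
      ring
    linarith
  have h5 := hcont hlt
  rw [Real.dist_eq, hexpJ] at h5
  exact h5.le

end Pool.Agent.Lib.MP_092512_nt.RT
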