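import Pool.Agent.Lib.MP_092512_nt.RT.Defs

/-!
# A: the step function; its approximation in square mean by exponentials

PROOFS.  `cl_int`: `cl er x u = ∫_0^u 1[x er ≤ t < (x+1) er] dt` for `u ≥ 0` (three cases; the integrand agrees with `1`, `0` on subintervals
up to an endpoint: `intervalIntegral.integral_congr_ae` or write the indicator as a `Set.indicator` of `Set.Ico` and use
`MeasureTheory.integral_indicator`/volume of the intersection `Ioc 0 u ∩ Ico`).  `VV_int`: sum over `x` (`integral_finset_sum`).  `QI_int`: the cells are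
disjoint, so `Fst t ^ 2 = ∑ v x ^ 2 1[..]`.
`l2_approx`: the indicator `χ` of one cell `[a, b)` differs from the continuous ramp function
`ρ(t) = min 1 (max 0 ((t - a)/e)) - min 1 (max 0 ((t - b)/e))` by at most `1` on `[a, a+e] ∪ [b, b+e]`, so `∫ (χ - ρ)² ≤ 2 e`.  `ρ(t) e^t` is a continuous
function of `q = e^(-t) ∈ [e^(-Y), 1]`, so for every `e > 0` there is a polynomial `P` with `|ρ(t) - e^(-t) P(e^(-t))| ≤ e` on `[0, Y]`
(`exists_polynomial_near_of_continuousOn` on `[e^(-Y), 1]`, multiply by `e^(-t) ≤ 1`); put `a_i = P.coeff (i-1)/i`.  Sum over the cells with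
`(∑_{x<len} v_x y_x)² ≤ (∑ v_x²)(∑ y_x²)` and `(y + y')² ≤ 2 y² + 2 y'²`; `v` finite, choose `e` small.
-/

set_option autoImplicit false

open Finset Filter

open scoped ArithmeticFunction.Moebius

namespace Pool.Agent.Lib.MP_092512_nt.RT

open Pool.Agent.Lib.SW Pool.Agent.Lib.MP_092512_nt.P3

private theorem AL2_er : (0 : ℝ) < er := by
  unfold er
  norm_num

open Classical in
private theorem AL2_ind (x : ℕ) (t : ℝ) :
    (if (x : ℝ) * er ≤ t ∧ t < ((x : ℝ) + 1) * er then (1 : ℝ) else 0) =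
      (Set.Ico ((x : ℝ) * er) (((x : ℝ) + 1) * er)).indicator 1 t := by
  rw [Set.indicator_apply]
  rfl

private theorem AL2_meas (x : ℕ) : Measurable
    (fun t : ℝ => if (x : ℝ) * er ≤ t ∧ t < ((x : ℝ) + 1) * er then (1 : ℝ) else 0) := by
  have h1 : (fun t : ℝ => if (x : ℝ) * er ≤ t ∧ t < ((x : ℝ) + 1) * er then (1 : ℝ) else 0) =
      (Set.Ico ((x : ℝ) * er) (((x : ℝ) + 1) * er)).indicator 1 := by
    funext t
    exact AL2_ind x t
  rw [h1]
  exact measurable_one.indicator measurableSet_Ico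

private theorem AL2_ii (x : ℕ) (a b : ℝ) : IntervalIntegrable
    (fun t : ℝ => if (x : ℝ) * er ≤ t ∧ t < ((x : ℝ) + 1) * er then (1 : ℝ) else 0)
    MeasureTheory.volume a b := by
  refine (intervalIntegrable_const (c := (1 : ℝ))).mono_fun (AL2_meas x).aestronglyMeasurable ?_
  refine MeasureTheory.ae_of_all _ fun t => ?_
  simp only
  split_ifs
  · exact le_rfl
  · rw [norm_zero]
    exact norm_nonneg _

private theorem AL2_meas2 (len : ℕ) (v : ℕ → ℝ) : Measurable (Fst len v) := by
  unfold Fst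
  exact Finset.measurable_fun_sum _ fun x _ => (AL2_meas x).const_mul (v x)

private theorem AL2_disj (x y : ℕ) (hxy : x ≠ y) (t : ℝ) :
    (if (x : ℝ) * er ≤ t ∧ t < ((x : ℝ) + 1) * er then (1 : ℝ) else 0) *
      (if (y : ℝ) * er ≤ t ∧ t < ((y : ℝ) + 1) * er then (1 : ℝ) else 0) = 0 := by
  by_cases h1 : (x : ℝ) * er ≤ t ∧ t < ((x : ℝ) + 1) * er
  · by_cases h2 : (y : ℝ) * er ≤ t ∧ t < ((y : ℝ) + 1) * er
    · exfalso
      have he := AL2_er
      rcases lt_or_gt_of_ne hxy with h3 | h3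
      · have h4 : (x : ℝ) + 1 ≤ y := by exact_mod_cast h3
        have h5 := mul_le_mul_of_nonneg_right h4 he.le
        linarith [h1.2, h2.1]
      · have h4 : (y : ℝ) + 1 ≤ x := by exact_mod_cast h3
        have h5 := mul_le_mul_of_nonneg_right h4 he.le
        linarith [h1.1, h2.2]
    · rw [if_neg h2, mul_zero]
  · rw [if_neg h1, zero_mul]

private theorem AL2_sq (len : ℕ) (v : ℕ → ℝ) (t : ℝ) : Fst len v t ^ 2 =
    ∑ x ∈ range len, v x ^ 2 * (if (x : ℝ) * er ≤ t ∧ t < ((x : ℝ) + 1) * er then (1 : ℝ) else 0) := by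
  unfold Fst
  rw [sq, sum_mul_sum]
  refine sum_congr rfl fun x hx => ?_
  rw [Finset.sum_eq_single_of_mem x hx]
  · by_cases h1 : (x : ℝ) * er ≤ t ∧ t < ((x : ℝ) + 1) * er
    · rw [if_pos h1]
      ring
    · rw [if_neg h1]
      ring
  · intro y _ hyx
    have h1 := AL2_disj x y (Ne.symm hyx) t
    linear_combination v x * v y * h1

theorem cl_int (x : ℕ) (u : ℝ) (hu : 0 ≤ u) :
    cl er x u = ∫ t in (0 : ℝ)..u, (if (x : ℝ) * er ≤ t ∧ t < ((x : ℝ) + 1) * er then (1 : ℝ) else 0) := by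
  have he := AL2_er
  have h0 : (0 : ℝ) ≤ (x : ℝ) * er := by positivity
  rw [intervalIntegral.integral_of_le hu]
  simp only [AL2_ind]
  rw [MeasureTheory.integral_indicator_one measurableSet_Ico,
    MeasureTheory.measureReal_restrict_apply measurableSet_Ico]
  have h1 : (Set.Ico ((x : ℝ) * er) (((x : ℝ) + 1) * er) ∩ Set.Ioc 0 u : Set ℝ)
      =ᵐ[MeasureTheory.volume] (Set.Ioc ((x : ℝ) * er) (((x : ℝ) + 1) * er) ∩ Set.Ioc 0 u : Set ℝ) :=
    MeasureTheory.Ico_ae_eq_Ioc.inter (Filter.EventuallyEq.refl _ _)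
  rw [MeasureTheory.measureReal_congr h1, Set.Ioc_inter_Ioc, Real.volume_real_Ioc, max_eq_left h0]
  unfold cl
  have h2 : ((x : ℝ) + 1) * er = (x : ℝ) * er + er := by ring
  rw [h2]
  rcases le_total u ((x : ℝ) * er) with h3 | h3
  · rw [max_eq_right (by linarith), min_eq_left he.le, min_eq_right (by linarith),
      max_eq_right (by linarith)]
  · rw [max_eq_left (by linarith)]
    rcases le_total u ((x : ℝ) * er + er) with h4 | h4
    · rw [min_eq_left (by linarith), min_eq_right h4, max_eq_left (by linarith)]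
    · rw [min_eq_right (by linarith), min_eq_left h4, max_eq_left (by linarith)]
      ring

theorem Fst_int (len : ℕ) (v : ℕ → ℝ) (a b : ℝ) : IntervalIntegrable (Fst len v) MeasureTheory.volume a b := by
  unfold Fst
  have h1 := IntervalIntegrable.sum (range len) (f := fun x t => v x *
    (if (x : ℝ) * er ≤ t ∧ t < ((x : ℝ) + 1) * er then (1 : ℝ) else 0))
    fun x _ => (AL2_ii x a b).const_mul (v x)
  have h2 : (∑ x ∈ range len, fun t : ℝ => v x *
      (if (x : ℝ) * er ≤ t ∧ t < ((x : ℝ) + 1) * er then (1 : ℝ) else 0)) =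
      fun t => ∑ x ∈ range len, v x *
        if (x : ℝ) * er ≤ t ∧ t < ((x : ℝ) + 1) * er then (1 : ℝ) else 0 := by
    funext t
    rw [Finset.sum_apply]
  rw [h2] at h1
  exact h1

theorem Fst_bdd (len : ℕ) (v : ℕ → ℝ) (t : ℝ) : |Fst len v t| ≤ ∑ x ∈ range len, |v x| := by
  unfold Fst
  refine (abs_sum_le_sum_abs _ _).trans (sum_le_sum fun x _ => ?_)
  split_ifs
  · rw [mul_one]
  · rw [mul_zero, abs_zero]
    exact abs_nonneg _

theorem VV_int (len : ℕ) (v : ℕ → ℝ) (u : ℝ) (hu : 0 ≤ u) : VV er len v u = ∫ t in (0 : ℝ)..u, Fst len v t := by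
  unfold VV Fst
  rw [intervalIntegral.integral_finsetSum]
  · refine sum_congr rfl fun x _ => ?_
    rw [intervalIntegral.integral_const_mul, cl_int x u hu]
  · intro x _
    exact (AL2_ii x 0 u).const_mul (v x)

theorem QI_int (len : ℕ) (v : ℕ → ℝ) (y : ℝ) (hy : 0 ≤ y) :
    QI len v y = ∫ t in (0 : ℝ)..y, Fst len v t ^ 2 := by
  unfold QI
  have h1 : ∫ t in (0 : ℝ)..y, Fst len v t ^ 2 = ∫ t in (0 : ℝ)..y, ∑ x ∈ range len,
      v x ^ 2 * (if (x : ℝ) * er ≤ t ∧ t < ((x : ℝ) + 1) * er then (1 : ℝ) else 0) :=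
    intervalIntegral.integral_congr fun t _ => AL2_sq len v t
  rw [h1, intervalIntegral.integral_finsetSum]
  · refine sum_congr rfl fun x _ => ?_
    rw [intervalIntegral.integral_const_mul, cl_int x y hy]
  · intro x _
    exact (AL2_ii x 0 y).const_mul (v x ^ 2)

theorem l2_approx (len : ℕ) (v : ℕ → ℝ) (Y ε : ℝ) (hY : 0 < Y) (hε : 0 < ε) :
    ∃ n : ℕ, ∃ a : ℕ → ℝ, ∫ t in (0 : ℝ)..Y,
      (Fst len v t - ∑ i ∈ Icc 1 n, a i * ((i : ℝ) * Real.exp (-((i : ℝ) * t)))) ^ 2 ≤ ε := by
  have hfin : MeasureTheory.IsFiniteMeasure (MeasureTheory.volume.restrict (Set.Ioc 0 Y)) := inferInstance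
  have hmem : MeasureTheory.MemLp (Fst len v) (ENNReal.ofReal 2)
      (MeasureTheory.volume.restrict (Set.Ioc 0 Y)) :=
    MeasureTheory.MemLp.of_bound (AL2_meas2 len v).aestronglyMeasurable (∑ x ∈ range len, |v x|)
      (MeasureTheory.ae_of_all _ fun t => Fst_bdd len v t)
  obtain ⟨g, hg, _⟩ := hmem.exists_boundedContinuous_integral_rpow_sub_le (by norm_num : (0 : ℝ) < 2)
    (ε := ε / 4) (by linarith)
  obtain ⟨e, he0, heY⟩ : ∃ e : ℝ, 0 < e ∧ Y * e ^ 2 ≤ ε / 4 := by
    refine ⟨Real.sqrt (ε / (4 * Y)), Real.sqrt_pos.2 (by positivity), ?_⟩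
    rw [Real.sq_sqrt (by positivity)]
    have h1 : Y * (ε / (4 * Y)) = ε / 4 := by
      field_simp
    exact h1.le
  have hcont : ContinuousOn (fun q => g (-Real.log q) / q) (Set.Icc (Real.exp (-Y)) 1) := by
    apply ContinuousOn.div
    · apply g.continuous.comp_continuousOn
      apply ContinuousOn.neg
      apply Real.continuousOn_log.mono
      intro q hq
      exact (lt_of_lt_of_le (Real.exp_pos _) hq.1).ne'
    · exact continuousOn_id
    · intro q hq
      exact (lt_of_lt_of_le (Real.exp_pos _) hq.1).ne'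
  obtain ⟨p, hp⟩ := exists_polynomial_near_of_continuousOn _ _ _ hcont e he0
  have hS : ∀ t : ℝ, ∑ i ∈ Icc 1 (p.natDegree + 1), (p.coeff (i - 1) / i) *
      ((i : ℝ) * Real.exp (-((i : ℝ) * t))) = Real.exp (-t) * p.eval (Real.exp (-t)) := by
    intro t
    rw [Polynomial.eval_eq_sum_range, mul_sum]
    have h1 : Icc 1 (p.natDegree + 1) = (range (p.natDegree + 1)).image (fun k => k + 1) := by
      ext i
      rw [mem_Icc, mem_image]
      constructor
      · intro h2
        exact ⟨i - 1, mem_range.2 (by omega), by omega⟩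
      · rintro ⟨k, hk, rfl⟩
        have := mem_range.1 hk
        omega
    rw [h1, sum_image (fun a _ b _ hab => by simpa using hab)]
    refine sum_congr rfl fun k _ => ?_
    have h2 : ((k + 1 : ℕ) : ℝ) ≠ 0 := Nat.cast_ne_zero.2 (Nat.succ_ne_zero k)
    rw [Nat.add_sub_cancel, ← Real.exp_nat_mul]
    have h3 : Real.exp (-(((k + 1 : ℕ) : ℝ) * t)) = Real.exp (-t) * Real.exp ((k : ℝ) * -t) := by
      rw [← Real.exp_add]
      congr 1
      push_cast
      ring
    rw [h3]
    field_simp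
  have hgc : ∀ t ∈ Set.Icc 0 Y, |g t - Real.exp (-t) * p.eval (Real.exp (-t))| ≤ e := by
    intro t ht
    have h1 : Real.exp (-t) ∈ Set.Icc (Real.exp (-Y)) 1 := by
      constructor
      · rw [Real.exp_le_exp]
        linarith [ht.2]
      · rw [Real.exp_le_one_iff]
        linarith [ht.1]
    have h2 := hp _ h1
    rw [Real.log_exp, neg_neg] at h2
    have h3 : g t - Real.exp (-t) * p.eval (Real.exp (-t)) =
        - (Real.exp (-t) * (p.eval (Real.exp (-t)) - g t / Real.exp (-t))) := by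
      have := (Real.exp_pos (-t)).ne'
      field_simp
      ring
    rw [h3, abs_neg, abs_mul, abs_of_pos (Real.exp_pos _)]
    nlinarith [h1.2, abs_nonneg (p.eval (Real.exp (-t)) - g t / Real.exp (-t)), Real.exp_pos (-t)]
  refine ⟨p.natDegree + 1, fun i => p.coeff (i - 1) / i, ?_⟩
  simp only [hS]
  have hgcont : Continuous (fun t => g t) := g.continuous
  have hScont : Continuous (fun t => Real.exp (-t) * p.eval (Real.exp (-t))) := by
    have := p.continuous
    fun_prop
  have hF2 : IntervalIntegrable (fun t => (Fst len v t - g t) ^ 2) MeasureTheory.volume 0 Y := by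
    have h1 : (fun t => (Fst len v t - g t) ^ 2) = fun t => Fst len v t ^ 2 - (Fst len v t * (2 * g t)) + g t ^ 2 := by
      funext t
      ring
    rw [h1]
    refine IntervalIntegrable.add (IntervalIntegrable.sub ?_ ?_) ?_
    · have h2 : (fun t => Fst len v t ^ 2) = fun t => ∑ x ∈ range len, v x ^ 2 *
          (if (x : ℝ) * er ≤ t ∧ t < ((x : ℝ) + 1) * er then (1 : ℝ) else 0) := by
        funext t
        exact AL2_sq len v t
      rw [h2]
      have h3 := Fst_int len (fun x => v x ^ 2) 0 Y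
      unfold Fst at h3
      exact h3
    · exact (Fst_int len v 0 Y).mul_continuousOn (by fun_prop)
    · apply Continuous.intervalIntegrable
      fun_prop
  have hF3 : IntervalIntegrable (fun t => (g t - Real.exp (-t) * p.eval (Real.exp (-t))) ^ 2)
      MeasureTheory.volume 0 Y := by
    apply Continuous.intervalIntegrable
    fun_prop
  have hF1 : IntervalIntegrable (fun t => (Fst len v t - Real.exp (-t) * p.eval (Real.exp (-t))) ^ 2)
      MeasureTheory.volume 0 Y := by
    have h1 : (fun t => (Fst len v t - Real.exp (-t) * p.eval (Real.exp (-t))) ^ 2) =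
        fun t => Fst len v t ^ 2 - (Fst len v t * (2 * (Real.exp (-t) * p.eval (Real.exp (-t))))) +
          (Real.exp (-t) * p.eval (Real.exp (-t))) ^ 2 := by
      funext t
      ring
    rw [h1]
    refine IntervalIntegrable.add (IntervalIntegrable.sub ?_ ?_) ?_
    · have h2 : (fun t => Fst len v t ^ 2) = fun t => ∑ x ∈ range len, v x ^ 2 *
          (if (x : ℝ) * er ≤ t ∧ t < ((x : ℝ) + 1) * er then (1 : ℝ) else 0) := by
        funext t
        exact AL2_sq len v t
      rw [h2]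
      have h3 := Fst_int len (fun x => v x ^ 2) 0 Y
      unfold Fst at h3
      exact h3
    · exact (Fst_int len v 0 Y).mul_continuousOn (by fun_prop)
    · apply Continuous.intervalIntegrable
      fun_prop
  have hI1 : ∫ t in (0 : ℝ)..Y, (Fst len v t - g t) ^ 2 ≤ ε / 4 := by
    rw [intervalIntegral.integral_of_le hY.le]
    have h1 : ∫ t in Set.Ioc 0 Y, (Fst len v t - g t) ^ 2 =
        ∫ t in Set.Ioc 0 Y, ‖Fst len v t - g t‖ ^ (2 : ℝ) := by
      congr 1
      funext t
      rw [Real.rpow_two, Real.norm_eq_abs, sq_abs]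
    rw [h1]
    exact hg
  have hI2 : ∫ t in (0 : ℝ)..Y, (g t - Real.exp (-t) * p.eval (Real.exp (-t))) ^ 2 ≤ ε / 4 := by
    have h1 : ∫ t in (0 : ℝ)..Y, (g t - Real.exp (-t) * p.eval (Real.exp (-t))) ^ 2 ≤
        ∫ _ in (0 : ℝ)..Y, e ^ 2 := by
      refine intervalIntegral.integral_mono_on hY.le hF3 (by simp) fun t ht => ?_
      rw [← sq_abs]
      exact pow_le_pow_left₀ (abs_nonneg _) (hgc t ht) 2
    rw [intervalIntegral.integral_const, smul_eq_mul, sub_zero] at h1
    exact h1.trans heY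
  have h3 : ∫ t in (0 : ℝ)..Y, (Fst len v t - Real.exp (-t) * p.eval (Real.exp (-t))) ^ 2 ≤
      ∫ t in (0 : ℝ)..Y, (2 * (Fst len v t - g t) ^ 2 +
        2 * (g t - Real.exp (-t) * p.eval (Real.exp (-t))) ^ 2) := by
    refine intervalIntegral.integral_mono_on hY.le hF1 ((hF2.const_mul 2).add (hF3.const_mul 2))
      fun t _ => ?_
    nlinarith [sq_nonneg ((Fst len v t - g t) - (g t - Real.exp (-t) * p.eval (Real.exp (-t))))]
  refine h3.trans ?_
  rw [intervalIntegral.integral_add (hF2.const_mul 2) (hF3.const_mul 2),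
    intervalIntegral.integral_const_mul, intervalIntegral.integral_const_mul]
  linarith

end Pool.Agent.Lib.MP_092512_nt.RT
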