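import Pool.Agent.Lib.MP_092512_nt.RT.APow
import Pool.Agent.Lib.MP_092512_nt.P3.C4
import Pool.Agent.Lib.MP_092512_nt.P3.C1
import Pool.Agent.Lib.MP_092512_nt.P3.D2

/-!
# A: `LV` of a product of few large primes

PROOF.  `m = ∏ p ∈ s, p` is squarefree, its divisors are the products of the subsets `t` (bijection `t ↦ ∏ p ∈ t, p`:
`Finset.prod` over distinct primes; `Nat.divisors` of a squarefree number, `Nat.sum_divisors_filter_squarefree`/`Nat.Squarefree`-API or
`Finset.sum_bij`), `μ = (-1)^|t|`, `log (∏) / log x = lgs x t`, and `|s| ≤ 1/δ` as `δ |s| ≤ lgs x s ≤ 1` (`PP_lg`).  All prime factors are `> x^δ > z` (`C1_zB_le_rpow`), so the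
divisors are rough.  By `C4_lamS_asymp` (`ε'`; `ρ = (j+1) er, j er ≤ 1` as `j ≤ 864`): `lamC_j d = (-1)^|t| (max 0 ((j+1) er - u) - max 0 (j er - u)) + O(2 ε')
= (-1)^|t| (er - cl er j u) + O(2ε')` with `u = lgs x t` (`D2_cl_eq`), and `cl er j 1 = er` (`(j+1) er ≤ 1`), so
`∑_j v_j lamC_j d = (-1)^|t| (VV 1 - VV u) + O(2 ε' ∑ |v_j|)`.  Sum over at most `2^(1/δ)` subsets.
-/

set_option autoImplicit false

open Finset Filter

open scoped ArithmeticFunction.Moebius

namespace Pool.Agent.Lib.MP_092512_nt.RT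

open Pool.Agent.Lib.SW Pool.Agent.Lib.MP_092512_nt.P3

private theorem ALV_er : (0 : ℝ) < er := by unfold er; norm_num

private theorem ALV_sq (s : Finset ℕ) (hs : ∀ p ∈ s, p.Prime) : Squarefree (∏ p ∈ s, p) := by
  apply Finset.squarefree_prod_of_pairwise_isCoprime
  · intro a ha b hb hab
    exact Nat.coprime_iff_isRelPrime.1 ((Nat.coprime_primes (hs a ha) (hs b hb)).2 hab)
  · intro a ha
    exact (hs a ha).squarefree

/-- the divisors of a product of distinct primes -/
private theorem ALV_div (s : Finset ℕ) (hs : ∀ p ∈ s, p.Prime) (F : ℕ → ℝ) :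
    ∑ d ∈ (∏ p ∈ s, p).divisors, F d = ∑ t ∈ s.powerset, F (∏ p ∈ t, p) := by
  have hsq := ALV_sq s hs
  have hpf : (∏ p ∈ s, p).primeFactors = s := Nat.primeFactors_prod hs
  refine sum_nbij' (fun d => d.primeFactors) (fun t => ∏ p ∈ t, p) ?_ ?_ ?_ ?_ ?_
  · intro d hd
    rw [Nat.mem_divisors] at hd
    rw [mem_powerset, ← hpf]
    exact Nat.primeFactors_mono hd.1 hd.2
  · intro t ht
    rw [mem_powerset] at ht
    rw [Nat.mem_divisors]
    exact ⟨Finset.prod_dvd_prod_of_subset _ _ _ ht, hsq.ne_zero⟩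
  · intro d hd
    rw [Nat.mem_divisors] at hd
    exact Nat.prod_primeFactors_of_squarefree (hsq.squarefree_of_dvd hd.1)
  · intro t ht
    rw [mem_powerset] at ht
    exact Nat.primeFactors_prod fun p hp => hs p (ht hp)
  · intro d hd
    rw [Nat.mem_divisors] at hd
    rw [Nat.prod_primeFactors_of_squarefree (hsq.squarefree_of_dvd hd.1)]

private theorem ALV_mu (t : Finset ℕ) (ht : ∀ p ∈ t, p.Prime) :
    ((μ (∏ p ∈ t, p) : ℤ) : ℝ) = (-1) ^ t.card := by
  have h1 : μ (∏ p ∈ t, p) = ∏ p ∈ t, μ p :=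
    ArithmeticFunction.IsMultiplicative.map_prod_of_prime ArithmeticFunction.isMultiplicative_moebius t ht
  rw [h1]
  have h2 : ∏ p ∈ t, μ p = ∏ _p ∈ t, (-1 : ℤ) :=
    prod_congr rfl fun p hp => ArithmeticFunction.moebius_apply_prime (ht p hp)
  rw [h2, prod_const]
  push_cast
  rfl

theorem LV_XP (B : ℕ) (hB : 3 ≤ B) (len : ℕ) (hlen : len ≤ 865) (v : ℕ → ℝ) (δ : ℝ) (hδ : 0 < δ) (ε : ℝ)
    (hε : 0 < ε) : ∀ᶠ x : ℕ in atTop, ∀ s ⊆ PP x δ 1, lgs x s ≤ 1 →
      |LV x (zB B x) er len v (∏ p ∈ s, p) - XP x (fun u => VV er len v 1 - VV er len v u) s| ≤ ε := by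
  have her := ALV_er
  obtain ⟨W, hW⟩ : ∃ W : ℝ, W = ∑ j ∈ range len, |v j| := ⟨_, rfl⟩
  have hW0 : 0 ≤ W := by
    rw [hW]
    exact sum_nonneg fun _ _ => abs_nonneg _
  obtain ⟨n, hn⟩ : ∃ n : ℕ, n = ⌊1 / δ⌋₊ := ⟨_, rfl⟩
  obtain ⟨e, he⟩ : ∃ e : ℝ, e = ε / (2 ^ n * (2 * (W + 1))) := ⟨_, rfl⟩
  have he0 : 0 < e := by
    rw [he]
    positivity
  have hee : 2 ^ n * (2 * e * W) ≤ ε := by
    have h1 : 2 ^ n * (2 * e * (W + 1)) = ε := by
      rw [he]
      field_simp
    rw [← h1]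
    apply mul_le_mul_of_nonneg_left _ (by positivity)
    apply mul_le_mul_of_nonneg_left _ (by positivity)
    linarith
  have hlen1 : (len : ℝ) * er ≤ 1 := by
    have h1 : (len : ℝ) ≤ 865 := by exact_mod_cast hlen
    have h2 : (865 : ℝ) * er ≤ 1 := by
      unfold er
      norm_num
    exact (mul_le_mul_of_nonneg_right h1 her.le).trans h2
  filter_upwards [C4_lamS_asymp B hB e he0, C1_zB_le_rpow B δ hδ, eventually_ge_atTop 2] with x hA hz hx
  intro s hs hs1
  have hx1 : (1 : ℝ) < x := by exact_mod_cast hx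
  have hL : 0 < Real.log x := Real.log_pos hx1
  have hprime : ∀ p ∈ s, p.Prime := fun p hp => (mem_PP.1 (hs hp)).1
  have hcop : ∀ t ⊆ s, Nat.Coprime (∏ p ∈ t, p) (primorial (zB B x)) := by
    intro t ht
    apply Nat.Coprime.prod_left
    intro p hp
    have h1 := mem_PP.1 (hs (ht hp))
    rw [h1.1.coprime_iff_not_dvd, h1.1.dvd_primorial_iff, not_le]
    have h2 : (zB B x : ℝ) < p := hz.trans h1.2.1
    exact_mod_cast h2
  have hlog : ∀ t ⊆ s, Real.log ((∏ p ∈ t, p : ℕ) : ℝ) / Real.log x = lgs x t := by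
    intro t ht
    unfold lgs lg
    rw [Nat.cast_prod, Real.log_prod, sum_div]
    intro p hp
    exact_mod_cast (hprime p (ht hp)).ne_zero
  -- the number of elements of `s`
  have hcard : s.card ≤ n := by
    rw [hn]
    apply Nat.le_floor
    rw [le_div_iff₀ hδ]
    refine le_trans ?_ hs1
    unfold lgs
    rw [← nsmul_eq_mul, ← sum_const]
    exact sum_le_sum fun p hp => (PP_lg hx (hs hp)).1.le
  -- one divisor
  have hone : ∀ t ⊆ s, |∑ j ∈ range len, v j * lamC x (zB B x) er j (∏ p ∈ t, p) -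
      (-1) ^ t.card * (VV er len v 1 - VV er len v (lgs x t))| ≤ 2 * e * W := by
    intro t ht
    have hsq := ALV_sq t fun p hp => hprime p (ht hp)
    have hmu := ALV_mu t fun p hp => hprime p (ht hp)
    have h1 : ∀ j ∈ range len, |lamC x (zB B x) er j (∏ p ∈ t, p) -
        (-1) ^ t.card * (cl er j 1 - cl er j (lgs x t))| ≤ 2 * e := by
      intro j hj
      rw [mem_range] at hj
      have hj1 : ((j : ℝ) + 1) * er ≤ 1 := by
        have h4 : ((j : ℝ) + 1) ≤ len := by exact_mod_cast hj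
        exact (mul_le_mul_of_nonneg_right h4 her.le).trans hlen1
      have hj2 : 0 ≤ (j : ℝ) * er := by positivity
      have a1 := hA (((j : ℝ) + 1) * er) (by linarith) hj1 _ hsq (hcop t ht)
      have a2 := hA ((j : ℝ) * er) hj2 (by linarith) _ hsq (hcop t ht)
      rw [hlog t ht, hmu] at a1 a2
      have h2 : cl er j 1 = er := by
        unfold cl
        have h3 : er ≤ 1 - (j : ℝ) * er := by linarith
        rw [max_eq_left (by linarith), min_eq_right h3]
      rw [h2, D2_cl_eq er her j (lgs x t)]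
      unfold lamC
      have h3 : lamS x (zB B x) (((j : ℝ) + 1) * er) (∏ p ∈ t, p) - lamS x (zB B x) ((j : ℝ) * er) (∏ p ∈ t, p) -
          (-1) ^ t.card * (er - (er - (max 0 (((j : ℝ) + 1) * er - lgs x t) - max 0 ((j : ℝ) * er - lgs x t)))) =
          (lamS x (zB B x) (((j : ℝ) + 1) * er) (∏ p ∈ t, p) -
            (-1) ^ t.card * max 0 (((j : ℝ) + 1) * er - lgs x t)) -
          (lamS x (zB B x) ((j : ℝ) * er) (∏ p ∈ t, p) - (-1) ^ t.card * max 0 ((j : ℝ) * er - lgs x t)) := by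
        ring
      rw [h3]
      refine (abs_sub _ _).trans ?_
      linarith
    have h4 : ∑ j ∈ range len, v j * lamC x (zB B x) er j (∏ p ∈ t, p) -
        (-1) ^ t.card * (VV er len v 1 - VV er len v (lgs x t)) =
        ∑ j ∈ range len, v j * (lamC x (zB B x) er j (∏ p ∈ t, p) -
          (-1) ^ t.card * (cl er j 1 - cl er j (lgs x t))) := by
      unfold VV
      rw [← sum_sub_distrib, mul_sum, ← sum_sub_distrib]
      refine sum_congr rfl fun j _ => ?_
      ring
    rw [h4, hW, mul_sum]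
    refine (abs_sum_le_sum_abs _ _).trans (sum_le_sum fun j hj => ?_)
    rw [abs_mul, mul_comm]
    exact mul_le_mul_of_nonneg_right (h1 j hj) (abs_nonneg _)
  -- the sum
  have h5 : LV x (zB B x) er len v (∏ p ∈ s, p) =
      ∑ t ∈ s.powerset, ∑ j ∈ range len, v j * lamC x (zB B x) er j (∏ p ∈ t, p) := by
    unfold LV LC
    rw [sum_comm]
    refine sum_congr rfl fun j _ => ?_
    rw [ALV_div s hprime, mul_sum]
  rw [h5]
  unfold XP
  rw [← sum_sub_distrib]
  refine (abs_sum_le_sum_abs _ _).trans ?_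
  refine (sum_le_sum fun t ht => hone t (mem_powerset.1 ht)).trans ?_
  rw [sum_const, card_powerset, nsmul_eq_mul]
  push_cast
  refine le_trans ?_ hee
  apply mul_le_mul_of_nonneg_right _ (by positivity)
  exact pow_le_pow_right₀ (by norm_num) hcard

end Pool.Agent.Lib.MP_092512_nt.RT
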