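import Pool.Agent.Lib.MP_092512_nt.RT.Defs

/-!
# A: sums over sets of primes

PROOFS.  `XP_exp`: `exp(-i lgs t) = ∏_{p ∈ t} exp(-i lg p)` and `∏_{p ∈ s} (1 - a_p) = ∑_{t ⊆ s} (-1)^|t| ∏_{p ∈ t} a_p`
(`Finset.prod_one_sub` or `Finset.prod_add` with `1 + (-a_p)`, `Finset.prod_neg`).  `XP_add`, `XP_sum`, `XP_const`: `∑_{t ⊆ s} (-1)^|t| = 0` for
nonempty `s` (`Finset.sum_powerset_neg_one_pow_card_of_nonempty`, an integer statement).  `XP_abs`: `|XP| ≤ ∑_{t ⊆ s} M = 2^|s| M`, and `lgs x t ≤ lgs x s`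
(`lg ≥ 0`).  `sum_cc`, `sum_two`: every factor is a product over `p ∈ s`; `∑_{s ⊆ P} ∏_{p ∈ s} f p = ∏_{p ∈ P} (1 + f p)` (`Finset.prod_one_add` or
`Finset.prod_add_one`).
-/

set_option autoImplicit false

open Finset Filter

open scoped ArithmeticFunction.Moebius

namespace Pool.Agent.Lib.MP_092512_nt.RT

open Pool.Agent.Lib.SW Pool.Agent.Lib.MP_092512_nt.P3

theorem lg_nonneg (x p : ℕ) : 0 ≤ lg x p := by
  unfold lg
  exact div_nonneg (Real.log_natCast_nonneg p) (Real.log_natCast_nonneg x)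

theorem lgs_nonneg (x : ℕ) (s : Finset ℕ) : 0 ≤ lgs x s := sum_nonneg fun p _ => lg_nonneg x p

theorem lgs_mono (x : ℕ) {t s : Finset ℕ} (h : t ⊆ s) : lgs x t ≤ lgs x s :=
  sum_le_sum_of_subset_of_nonneg h fun p _ _ => lg_nonneg x p

theorem rs_nonneg (s : Finset ℕ) : 0 ≤ rs s := prod_nonneg fun p _ => by positivity

private theorem APow_le (x i p : ℕ) : Real.exp (-((i : ℝ) * lg x p)) ≤ 1 := by
  rw [Real.exp_le_one_iff]
  have := mul_nonneg (Nat.cast_nonneg (α := ℝ) i) (lg_nonneg x p)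
  linarith

private theorem APow_exp (x : ℕ) (c : ℝ) (s : Finset ℕ) :
    Real.exp (-(c * lgs x s)) = ∏ p ∈ s, Real.exp (-(c * lg x p)) := by
  unfold lgs
  rw [← Real.exp_sum, mul_sum, sum_neg_distrib]

theorem tau_nonneg (x i : ℕ) (s : Finset ℕ) : 0 ≤ tau x i s := by
  unfold tau
  exact prod_nonneg fun p _ => sub_nonneg.2 (APow_le x i p)

theorem tau_le_one (x i : ℕ) (s : Finset ℕ) : tau x i s ≤ 1 := by
  unfold tau
  refine prod_le_one (fun p _ => sub_nonneg.2 (APow_le x i p)) fun p _ => ?_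
  have := Real.exp_pos (-((i : ℝ) * lg x p))
  linarith

theorem XP_exp (x i : ℕ) (s : Finset ℕ) : XP x (fun u => Real.exp (-((i : ℝ) * u))) s = tau x i s := by
  unfold XP tau
  have h1 : ∀ p ∈ s, 1 - Real.exp (-((i : ℝ) * lg x p)) = 1 + -Real.exp (-((i : ℝ) * lg x p)) :=
    fun p _ => sub_eq_add_neg _ _
  rw [prod_congr rfl h1, prod_one_add]
  refine sum_congr rfl fun t _ => ?_
  rw [prod_neg, ← APow_exp]

theorem XP_add (x : ℕ) (Φ Ψ : ℝ → ℝ) (s : Finset ℕ) :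
    XP x (fun u => Φ u + Ψ u) s = XP x Φ s + XP x Ψ s := by
  unfold XP
  rw [← sum_add_distrib]
  exact sum_congr rfl fun t _ => mul_add _ _ _

theorem XP_sum (x n : ℕ) (a : ℕ → ℝ) (s : Finset ℕ) :
    XP x (fun u => ∑ i ∈ Icc 1 n, a i * Real.exp (-((i : ℝ) * u))) s = ∑ i ∈ Icc 1 n, a i * tau x i s := by
  have h1 : ∀ i, tau x i s = ∑ t ∈ s.powerset, (-1 : ℝ) ^ t.card * Real.exp (-((i : ℝ) * lgs x t)) :=
    fun i => (XP_exp x i s).symm
  simp only [h1]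
  unfold XP
  simp only [mul_sum]
  rw [sum_comm]
  refine sum_congr rfl fun i _ => sum_congr rfl fun t _ => ?_
  ring

theorem XP_const (x : ℕ) (c : ℝ) (s : Finset ℕ) (hs : s.Nonempty) : XP x (fun _ => c) s = 0 := by
  unfold XP
  rw [← sum_mul]
  have h1 : ∑ t ∈ s.powerset, (-1 : ℝ) ^ t.card = 0 := by
    have h2 := (prod_one_add (s := s) (f := fun _ : ℕ => (-1 : ℝ)))
    simp only [prod_const] at h2
    rw [← h2, add_neg_cancel]
    exact zero_pow (card_ne_zero.2 hs)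
  rw [h1, zero_mul]

/-- a bound for `Φ` on `[0, Y]` is enough -/
theorem XP_abs (x : ℕ) (Φ : ℝ → ℝ) (Y M : ℝ) (h : ∀ u, 0 ≤ u → u ≤ Y → |Φ u| ≤ M) (s : Finset ℕ)
    (hs : lgs x s ≤ Y) : |XP x Φ s| ≤ 2 ^ s.card * M := by
  unfold XP
  refine (abs_sum_le_sum_abs _ _).trans ?_
  have h1 : ∑ t ∈ s.powerset, |(-1 : ℝ) ^ t.card * Φ (lgs x t)| ≤ ∑ _t ∈ s.powerset, M := by
    refine sum_le_sum fun t ht => ?_
    rw [abs_mul, abs_pow, abs_neg, abs_one, one_pow, one_mul]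
    exact h _ (lgs_nonneg x t) ((lgs_mono x (mem_powerset.1 ht)).trans hs)
  rw [sum_const, card_powerset, nsmul_eq_mul] at h1
  push_cast at h1
  exact h1

theorem sum_cc (x i j g : ℕ) (P : Finset ℕ) :
    ∑ s ∈ P.powerset, Real.exp (-((g : ℝ) * lgs x s)) * (tau x i s * tau x j s) * rs s =
      ∏ p ∈ P, (1 + cc i j g (lg x p) / (p : ℝ)) := by
  rw [prod_one_add]
  refine sum_congr rfl fun s _ => ?_
  rw [APow_exp]
  unfold tau rs cc
  rw [← prod_mul_distrib, ← prod_mul_distrib, ← prod_mul_distrib]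
  refine prod_congr rfl fun p _ => ?_
  ring

theorem sum_two (x i : ℕ) (P : Finset ℕ) :
    ∑ s ∈ P.powerset, Real.exp (-lgs x s) * (2 ^ s.card * tau x i s) * rs s =
      ∏ p ∈ P, (1 + 2 * (Real.exp (-lg x p) * (1 - Real.exp (-((i : ℝ) * lg x p)))) / (p : ℝ)) := by
  rw [prod_one_add]
  refine sum_congr rfl fun s _ => ?_
  have h1 := APow_exp x 1 s
  rw [one_mul] at h1
  rw [h1, ← prod_const]
  unfold tau rs
  rw [← prod_mul_distrib, ← prod_mul_distrib, ← prod_mul_distrib]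
  refine prod_congr rfl fun p _ => ?_
  rw [one_mul]
  ring

end Pool.Agent.Lib.MP_092512_nt.RT
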