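import Pool.Agent.Lib.MP_092512_nt.RT.Defs

/-!
# A: approximation of the weight by exponentials

PROOF.  `H(q) = w(-log q)/q` for `0 < q ≤ 1`, `H(0) = 0` is continuous on `[0, 1]` (it vanishes for `q ≤ e^(-Y)`).  Weierstrass
(`exists_polynomial_near_of_continuousOn`): a real polynomial `P` with `|H - P| ≤ ε` on `[0, 1]`.  For `y ≥ 0` take `q = e^(-y)`:
`|w y - e^(-y) P(e^(-y))| ≤ ε e^(-y)`, and `e^(-y) P(e^(-y)) = ∑_{g = 1}^{deg P + 1} P.coeff (g - 1) e^(-gy)`.
-/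

set_option autoImplicit false

open Finset Filter

namespace Pool.Agent.Lib.MP_092512_nt.RT

private theorem AW_cont (w : ℝ → ℝ) (hw : ContinuousOn w (Set.Ici 0)) (Y : ℝ) (hY : ∀ y, Y ≤ y → w y = 0) :
    ContinuousOn (fun q : ℝ => w (-Real.log q) / q) (Set.Icc 0 1) := by
  intro q hq
  rcases eq_or_lt_of_le hq.1 with h0 | h0
  · rw [← h0]
    have hz : (fun _ : ℝ => (0 : ℝ)) =ᶠ[nhdsWithin 0 (Set.Icc 0 1)] (fun q : ℝ => w (-Real.log q) / q) := by
      have h1 : Set.Iio (Real.exp (-Y)) ∈ nhdsWithin (0 : ℝ) (Set.Icc 0 1) :=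
        mem_nhdsWithin_of_mem_nhds (Iio_mem_nhds (Real.exp_pos _))
      filter_upwards [h1, self_mem_nhdsWithin] with t ht ht1
      rcases eq_or_lt_of_le ht1.1 with h2 | h2
      · rw [← h2, div_zero]
      · have h3 : Real.log t ≤ -Y := by
          rw [Real.log_le_iff_le_exp h2]
          exact (Set.mem_Iio.mp ht).le
        rw [hY _ (by linarith), zero_div]
    have h4 : ContinuousWithinAt (fun _ : ℝ => (0 : ℝ)) (Set.Icc 0 1) 0 := continuousWithinAt_const
    refine h4.congr_of_eventuallyEq hz.symm ?_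
    simp
  · have h1 : ContinuousWithinAt (fun q : ℝ => -Real.log q) (Set.Icc 0 1) q :=
      ((Real.continuousAt_log h0.ne').neg).continuousWithinAt
    have h2 : Set.MapsTo (fun q : ℝ => -Real.log q) (Set.Icc 0 1) (Set.Ici 0) := by
      intro t ht
      have := Real.log_nonpos ht.1 ht.2
      exact Set.mem_Ici.mpr (by linarith)
    have h3 : ContinuousWithinAt w (Set.Ici 0) ((fun q : ℝ => -Real.log q) q) := hw _ (h2 hq)
    exact (ContinuousWithinAt.comp (f := fun q : ℝ => -Real.log q) h3 h1 h2).div continuousWithinAt_id h0.ne'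

theorem w_approx (w : ℝ → ℝ) (hw : ContinuousOn w (Set.Ici 0)) (Y : ℝ) (hY : ∀ y, Y ≤ y → w y = 0)
    (ε : ℝ) (hε : 0 < ε) : ∃ n : ℕ, ∃ b : ℕ → ℝ, ∀ y : ℝ, 0 ≤ y →
      |w y - ∑ g ∈ Icc 1 n, b g * Real.exp (-((g : ℝ) * y))| ≤ ε * Real.exp (-y) := by
  obtain ⟨P, hP⟩ := exists_polynomial_near_of_continuousOn 0 1 _ (AW_cont w hw Y hY) ε hε
  refine ⟨P.natDegree + 1, fun g => P.coeff (g - 1), fun y hy => ?_⟩
  have hq0 : 0 < Real.exp (-y) := Real.exp_pos _
  have hq1 : Real.exp (-y) ≤ 1 := Real.exp_le_one_iff.mpr (by linarith)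
  have h1 := hP (Real.exp (-y)) ⟨hq0.le, hq1⟩
  simp only [Real.log_exp, neg_neg] at h1
  have h2 : ∑ g ∈ Icc 1 (P.natDegree + 1), P.coeff (g - 1) * Real.exp (-((g : ℝ) * y)) =
      Real.exp (-y) * P.eval (Real.exp (-y)) := by
    rw [Polynomial.eval_eq_sum_range, mul_sum,
      show Icc 1 (P.natDegree + 1) = Ico 1 (P.natDegree + 1 + 1) by ext k; simp only [mem_Icc, mem_Ico]; omega,
      sum_Ico_eq_sum_range, Nat.add_sub_cancel]
    refine sum_congr rfl fun i _ => ?_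
    rw [Nat.add_sub_cancel_left, show -(((1 + i : ℕ) : ℝ) * y) = -y + (i : ℝ) * (-y) by push_cast; ring,
      Real.exp_add, Real.exp_nat_mul]
    ring
  rw [h2, show w y - Real.exp (-y) * P.eval (Real.exp (-y)) =
    -(Real.exp (-y) * (P.eval (Real.exp (-y)) - w y / Real.exp (-y))) by field_simp; ring,
    abs_neg, abs_mul, abs_of_pos hq0, mul_comm]
  exact mul_le_mul_of_nonneg_right h1.le hq0.le

end Pool.Agent.Lib.MP_092512_nt.RT
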