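import Pool.Agent.Lib.MP_092512_nt.RT.AFrul
import Pool.Agent.Lib.MP_092512_nt.RT.AProd
import Pool.Agent.Lib.MP_092512_nt.RT.APow
import Pool.Agent.Lib.MP_092512_nt.RT.AW

/-!
# A: two exponential functions, every weight

PROOF.  `M = i j/(i+j)`.  Let `e > 0` be small, `(n, b)` from `w_approx` with `e`, `w̃ = ∑ b_g e^(-gy)`.  Take `δ₀`, `Λ₀` good for `frul` for all
`g ∈ {1, .., n}` (finitely many) with an error `e' = e/(1 + ∑ |b_g|)`, and for `g = 1`; `Λ = max Λ₀ 1`.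
The sum over the subsets of `PP x δ 1` equals the sum over the subsets of `PP x δ Λ` with the same summand: if `s ⊆ PP x δ Λ` has an element
`p > x`, then `lgs x s > 1 ≥ Y` and `w (lgs x s) = 0` (`PP x δ 1 ⊆ PP x δ Λ`).  On `PP x δ Λ`:
`|∑ w(lgs) τ_i τ_j rs - ∑_g b_g ∑_s e^(-g lgs) τ_i τ_j rs| ≤ e ∑_s e^(-lgs) τ_i τ_j rs`; by `sum_cc` and `prod_lim` the sums tend to
`exp (∫_δ^Λ cc i j g u/u)`, which is within `e'` of `(g+i)(g+j)/(g(g+i+j)) = 1 + ij/(g(g+i+j))`.
`∑_g b_g (1 + ij/(g(g+i+j))) = w̃(0) + ∫_0^∞ w̃(y) M (1 - e^(-(i+j)y)) dy`; to avoid the infinite interval: with `|w - w̃| ≤ e e^(-y)`, for `T ≥ Y`: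
`|∫_0^T (w - w̃) M (1 - e^(-(i+j) y))| ≤ e M`, `∫_0^T w.. = ∫_0^Y w..` (`w = 0` on `[Y, T]`), and
`∫_0^T e^(-gy) M (1 - e^(-(i+j)y)) dy = M ((1 - e^(-gT))/g - (1 - e^(-(g+i+j)T))/(g+i+j))` is within `2 M e^(-T)` of `ij/(g(g+i+j))`; let `T` be large.
The total error is at most `e (C_{ij} + 1) + e' ∑|b_g| + ..`, `C_{ij} = (1+i)(1+j)/(1+i+j) + 1`.
-/

set_option autoImplicit false

open Finset Filter

open scoped ArithmeticFunction.Moebius

namespace Pool.Agent.Lib.MP_092512_nt.RT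

open Pool.Agent.Lib.SW Pool.Agent.Lib.MP_092512_nt.P3

/-- the integral of an exponential function -/
private theorem apair_exp (c T : ℝ) (hc : c ≠ 0) :
    ∫ y in (0 : ℝ)..T, Real.exp (-(c * y)) = (1 - Real.exp (-(c * T))) / c := by
  have h : ∀ y ∈ Set.uIcc 0 T, HasDerivAt (fun y => -(Real.exp (-(c * y))) / c) (Real.exp (-(c * y))) y := by
    intro y _
    have h1 : HasDerivAt (fun y : ℝ => -(c * y)) (-c) y := by
      have h0 := ((hasDerivAt_id y).const_mul c).neg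
      rw [mul_one] at h0
      exact h0
    have h2 := ((h1.exp).neg).div_const c
    refine h2.congr_deriv ?_
    field_simp
  rw [intervalIntegral.integral_eq_sub_of_hasDerivAt h
    (Continuous.intervalIntegrable (by fun_prop) _ _)]
  rw [mul_zero, neg_zero, Real.exp_zero]
  ring

private theorem apair_tail (c : ℝ) (hc : 0 < c) :
    Tendsto (fun T : ℝ => (1 - Real.exp (-(c * T))) / c) atTop (nhds (1 / c)) := by
  have h1 : Tendsto (fun T : ℝ => Real.exp (-(c * T))) atTop (nhds 0) :=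
    Real.tendsto_exp_neg_atTop_nhds_zero.comp (tendsto_id.const_mul_atTop hc)
  have h2 := (h1.const_sub 1).div_const c
  rw [sub_zero] at h2
  exact h2

private theorem apair_int (i j : ℕ) (hi : 1 ≤ i) (hj : 1 ≤ j) (w : ℝ → ℝ) (hw : ContinuousOn w (Set.Ici 0)) (Y : ℝ)
    (hY0 : 0 ≤ Y) (hY : ∀ y, Y ≤ y → w y = 0) (n : ℕ) (b : ℕ → ℝ) (e : ℝ)
    (hb : ∀ y : ℝ, 0 ≤ y → |w y - ∑ g ∈ Icc 1 n, b g * Real.exp (-((g : ℝ) * y))| ≤ e * Real.exp (-y)) :
    |∑ g ∈ Icc 1 n, b g * (((g : ℝ) + i) * ((g : ℝ) + j) / ((g : ℝ) * ((g : ℝ) + i + j))) -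
      (w 0 + ∫ y in (0 : ℝ)..Y, w y *
          ((i : ℝ) * j / ((i : ℝ) + j) * (1 - Real.exp (-(((i : ℝ) + j) * y)))))| ≤
      e * (1 + (i : ℝ) * j / ((i : ℝ) + j)) := by
  have hi0 : (1 : ℝ) ≤ i := by exact_mod_cast hi
  have hj0 : (1 : ℝ) ≤ j := by exact_mod_cast hj
  have hij : (0 : ℝ) < (i : ℝ) + j := by linarith
  set M : ℝ := (i : ℝ) * j / ((i : ℝ) + j) with hM
  have hM0 : 0 ≤ M := by positivity
  set φ : ℝ → ℝ := fun y => M * (1 - Real.exp (-(((i : ℝ) + j) * y))) with hφ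
  have hφc : Continuous φ := by
    rw [hφ]
    fun_prop
  set W : ℝ → ℝ := fun y => ∑ g ∈ Icc 1 n, b g * Real.exp (-((g : ℝ) * y)) with hW
  have hWc : Continuous W := by
    rw [hW]
    fun_prop
  have he : 0 ≤ e := by
    have h1 := hb 0 le_rfl
    rw [neg_zero, Real.exp_zero, mul_one] at h1
    exact (abs_nonneg _).trans h1
  -- the closed form
  set F : ℝ → ℝ := fun T => ∑ g ∈ Icc 1 n, b g * (M * ((1 - Real.exp (-((g : ℝ) * T))) / g -
    (1 - Real.exp (-(((g : ℝ) + i + j) * T))) / ((g : ℝ) + i + j))) with hF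
  have h1 : ∀ T : ℝ, ∫ y in (0 : ℝ)..T, W y * φ y = F T := by
    intro T
    have h2 : ∀ y : ℝ, W y * φ y = ∑ g ∈ Icc 1 n, b g * (M * (Real.exp (-((g : ℝ) * y)) -
        Real.exp (-(((g : ℝ) + i + j) * y)))) := by
      intro y
      rw [hW, hφ]
      simp only
      rw [sum_mul]
      refine sum_congr rfl fun g _ => ?_
      have h3 : Real.exp (-(((g : ℝ) + i + j) * y)) =
          Real.exp (-((g : ℝ) * y)) * Real.exp (-(((i : ℝ) + j) * y)) := by
        rw [← Real.exp_add]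
        congr 1
        ring
      rw [h3]
      ring
    simp_rw [h2]
    rw [intervalIntegral.integral_finsetSum
      (fun g _ => Continuous.intervalIntegrable (by fun_prop) _ _), hF]
    refine sum_congr rfl fun g hg => ?_
    have hg1 : (1 : ℝ) ≤ g := by exact_mod_cast (mem_Icc.1 hg).1
    rw [intervalIntegral.integral_const_mul, intervalIntegral.integral_const_mul,
      intervalIntegral.integral_sub (Continuous.intervalIntegrable (by fun_prop) _ _)
        (Continuous.intervalIntegrable (by fun_prop) _ _),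
      apair_exp _ _ (by linarith), apair_exp _ _ (by linarith)]
  -- the limit
  have h2 : Tendsto F atTop (nhds (∑ g ∈ Icc 1 n, b g * (M * (1 / g - 1 / ((g : ℝ) + i + j))))) := by
    rw [hF]
    refine tendsto_finsetSum _ fun g hg => ?_
    have hg1 : (1 : ℝ) ≤ g := by exact_mod_cast (mem_Icc.1 hg).1
    exact (((apair_tail (g : ℝ) (by linarith)).sub
      (apair_tail ((g : ℝ) + i + j) (by linarith))).const_mul M).const_mul (b g)
  set I : ℝ := ∫ y in (0 : ℝ)..Y, w y * φ y with hI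
  have h3 : ∀ T : ℝ, Y ≤ T → |F T - I| ≤ e * M := by
    intro T hT
    have hT0 : 0 ≤ T := hY0.trans hT
    have hwT : IntervalIntegrable (fun y => w y * φ y) MeasureTheory.volume 0 T := by
      refine ContinuousOn.intervalIntegrable_of_Icc hT0 ?_
      exact (hw.mono fun y hy => hy.1).mul hφc.continuousOn
    have hwY : IntervalIntegrable (fun y => w y * φ y) MeasureTheory.volume 0 Y := by
      refine ContinuousOn.intervalIntegrable_of_Icc hY0 ?_
      exact (hw.mono fun y hy => hy.1).mul hφc.continuousOn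
    have hwYT : IntervalIntegrable (fun y => w y * φ y) MeasureTheory.volume Y T := by
      refine ContinuousOn.intervalIntegrable_of_Icc hT ?_
      exact (hw.mono fun y hy => hY0.trans hy.1).mul hφc.continuousOn
    have h4 : ∫ y in (0 : ℝ)..T, w y * φ y = I := by
      rw [← intervalIntegral.integral_add_adjacent_intervals hwY hwYT, hI]
      have h5 : ∫ y in Y..T, w y * φ y = ∫ y in Y..T, (0 : ℝ) := by
        refine intervalIntegral.integral_congr fun y hy => ?_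
        rw [Set.uIcc_of_le hT] at hy
        show w y * φ y = 0
        rw [hY y hy.1, zero_mul]
      rw [h5, intervalIntegral.integral_zero, add_zero]
    have hWT : IntervalIntegrable (fun y => W y * φ y) MeasureTheory.volume 0 T :=
      (hWc.mul hφc).intervalIntegrable _ _
    rw [← h1 T, ← h4, ← intervalIntegral.integral_sub hWT hwT]
    have h6 : ∫ y in (0 : ℝ)..T, e * M * Real.exp (-(1 * y)) = e * M * (1 - Real.exp (-(1 * T))) := by
      rw [intervalIntegral.integral_const_mul, apair_exp 1 T one_ne_zero, div_one]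
    have h7 : ‖∫ y in (0 : ℝ)..T, (W y * φ y - w y * φ y)‖ ≤
        ∫ y in (0 : ℝ)..T, e * M * Real.exp (-(1 * y)) := by
      refine intervalIntegral.norm_integral_le_of_norm_le hT0 ?_
        (Continuous.intervalIntegrable (by fun_prop) _ _)
      refine Filter.Eventually.of_forall fun y hy => ?_
      have hy0 : 0 ≤ y := hy.1.le
      have h8 : W y * φ y - w y * φ y = -((w y - W y) * φ y) := by ring
      rw [h8, norm_neg, norm_mul, Real.norm_eq_abs, Real.norm_eq_abs, one_mul]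
      have h9 : |φ y| ≤ M := by
        have h10 : Real.exp (-(((i : ℝ) + j) * y)) ≤ 1 := by
          rw [Real.exp_le_one_iff]
          have : 0 ≤ ((i : ℝ) + j) * y := by positivity
          linarith
        have h11 : 0 < Real.exp (-(((i : ℝ) + j) * y)) := Real.exp_pos _
        rw [hφ]
        simp only
        rw [abs_of_nonneg (mul_nonneg hM0 (by linarith))]
        exact mul_le_of_le_one_right hM0 (by linarith)
      calc |w y - W y| * |φ y| ≤ (e * Real.exp (-y)) * M :=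
            mul_le_mul (hb y hy0) h9 (abs_nonneg _) (by positivity)
        _ = e * M * Real.exp (-y) := by ring
    rw [h6, Real.norm_eq_abs] at h7
    refine h7.trans ?_
    have h8 : 0 < Real.exp (-(1 * T)) := Real.exp_pos _
    exact mul_le_of_le_one_right (by positivity) (by linarith)
  have h4 : |∑ g ∈ Icc 1 n, b g * (M * (1 / g - 1 / ((g : ℝ) + i + j))) - I| ≤ e * M := by
    refine le_of_tendsto ((h2.sub_const I).abs) ?_
    filter_upwards [eventually_ge_atTop Y] with T hT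
    exact h3 T hT
  have h5 : ∑ g ∈ Icc 1 n, b g * (((g : ℝ) + i) * ((g : ℝ) + j) / ((g : ℝ) * ((g : ℝ) + i + j))) =
      W 0 + ∑ g ∈ Icc 1 n, b g * (M * (1 / g - 1 / ((g : ℝ) + i + j))) := by
    rw [hW]
    simp only
    rw [← sum_add_distrib]
    refine sum_congr rfl fun g hg => ?_
    have hg1 : (1 : ℝ) ≤ g := by exact_mod_cast (mem_Icc.1 hg).1
    have hg0 : (g : ℝ) ≠ 0 := by linarith
    have hg2 : (g : ℝ) + i + j ≠ 0 := by linarith
    rw [mul_zero, neg_zero, Real.exp_zero, hM]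
    field_simp
    ring
  have h6 := hb 0 le_rfl
  rw [neg_zero, Real.exp_zero, mul_one] at h6
  rw [h5]
  have h7 : |W 0 - w 0| ≤ e := by
    rw [abs_sub_comm]
    exact h6
  have h8 : W 0 + ∑ g ∈ Icc 1 n, b g * (M * (1 / g - 1 / ((g : ℝ) + i + j))) - (w 0 + I) =
      (W 0 - w 0) + (∑ g ∈ Icc 1 n, b g * (M * (1 / g - 1 / ((g : ℝ) + i + j))) - I) := by ring
  rw [h8]
  calc _ ≤ |W 0 - w 0| + |∑ g ∈ Icc 1 n, b g * (M * (1 / g - 1 / ((g : ℝ) + i + j))) - I| := abs_add_le _ _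
    _ ≤ e + e * M := add_le_add h7 h4
    _ = _ := by ring

/-- uniform choice of the parameters for finitely many exponents -/
private theorem apair_unif (i j : ℕ) (hi : 1 ≤ i) (hj : 1 ≤ j) (e : ℝ) (he : 0 < e) (n : ℕ) :
    ∃ δ₀ : ℝ, 0 < δ₀ ∧ ∃ Λ₀ : ℝ, 1 ≤ Λ₀ ∧ ∀ δ : ℝ, 0 < δ → δ ≤ δ₀ → ∀ Λ : ℝ, Λ₀ ≤ Λ → ∀ g ∈ Icc 1 n,
      |Real.exp (∫ u in δ..Λ, cc i j g u / u) -
        ((g : ℝ) + i) * ((g : ℝ) + j) / ((g : ℝ) * ((g : ℝ) + i + j))| ≤ e := by
  induction n with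
  | zero =>
    refine ⟨1, one_pos, 1, le_rfl, ?_⟩
    intro δ _ _ Λ _ g hg
    rw [mem_Icc] at hg
    omega
  | succ n ih =>
    obtain ⟨d1, hd1, L1, hL1, h1⟩ := ih
    obtain ⟨d2, hd2, L2, hL2, h2⟩ := frul i j (n + 1) hi hj (by omega) e he
    refine ⟨min d1 d2, lt_min hd1 hd2, max L1 L2, hL1.trans (le_max_left _ _), ?_⟩
    intro δ hδ hδ1 Λ hΛ g hg
    rw [mem_Icc] at hg
    rcases Nat.lt_or_ge g (n + 1) with h | h
    · exact h1 δ hδ (hδ1.trans (min_le_left _ _)) Λ ((le_max_left _ _).trans hΛ) g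
        (mem_Icc.2 ⟨hg.1, by omega⟩)
    · have h3 : g = n + 1 := by omega
      subst h3
      exact h2 δ hδ (hδ1.trans (min_le_right _ _)) Λ ((le_max_right _ _).trans hΛ)

private theorem apair_cc_nonneg (i j g : ℕ) {u : ℝ} (hu : 0 ≤ u) : 0 ≤ cc i j g u := by
  have h : ∀ k : ℕ, 0 ≤ 1 - Real.exp (-((k : ℝ) * u)) := by
    intro k
    have h1 : Real.exp (-((k : ℝ) * u)) ≤ 1 := by
      rw [Real.exp_le_one_iff]
      have : 0 ≤ (k : ℝ) * u := by positivity
      linarith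
    linarith
  unfold cc
  exact mul_nonneg (Real.exp_pos _).le (mul_nonneg (h i) (h j))

private theorem apair_prod (i j g : ℕ) (δ Λ : ℝ) (hδ : 0 < δ) (hΛ : δ ≤ Λ) (e : ℝ) (he : 0 < e) :
    ∀ᶠ x : ℕ in atTop, |∏ p ∈ PP x δ Λ, (1 + cc i j g (lg x p) / (p : ℝ)) -
      Real.exp (∫ u in δ..Λ, cc i j g u / u)| ≤ e := by
  have hc : Continuous (cc i j g) := by
    unfold cc
    fun_prop
  have h1 := prod_lim δ Λ hδ hΛ (cc i j g) hc.continuousOn
    (fun u hu => apair_cc_nonneg i j g (hδ.le.trans hu.1))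
  have h2 := (Metric.tendsto_nhds.1 h1) e he
  filter_upwards [h2] with x hx
  rw [Real.dist_eq] at hx
  exact hx.le

/-- the primes above `x` do not matter -/
private theorem apair_ext (i j : ℕ) (w : ℝ → ℝ) (Y : ℝ) (hY1 : Y ≤ 1) (hY : ∀ y, Y ≤ y → w y = 0)
    (δ Λ : ℝ) (hΛ : 1 ≤ Λ) (x : ℕ) (hx : 2 ≤ x) :
    ∑ s ∈ (PP x δ 1).powerset, w (lgs x s) * (tau x i s * tau x j s) * rs s =
      ∑ s ∈ (PP x δ Λ).powerset, w (lgs x s) * (tau x i s * tau x j s) * rs s := by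
  have hx1 : (1 : ℝ) < x := by exact_mod_cast (by omega : 1 < x)
  have hlx : 0 < Real.log x := Real.log_pos hx1
  have hsub : PP x δ 1 ⊆ PP x δ Λ := by
    intro p hp
    rw [mem_PP] at hp ⊢
    exact ⟨hp.1, hp.2.1, hp.2.2.trans (Real.rpow_le_rpow_of_exponent_le hx1.le hΛ)⟩
  refine sum_subset (powerset_mono.2 hsub) ?_
  intro s hs hs1
  rw [mem_powerset] at hs hs1
  rw [not_subset] at hs1
  obtain ⟨p, hp, hp1⟩ := hs1
  have h1 := mem_PP.1 (hs hp)
  have h2 : (x : ℝ) < p := by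
    by_contra hcon
    push Not at hcon
    exact hp1 (mem_PP.2 ⟨h1.1, h1.2.1, by rw [Real.rpow_one]; exact hcon⟩)
  have h3 : 1 ≤ lg x p := by
    unfold lg
    rw [one_le_div hlx]
    exact Real.log_le_log (by linarith) h2.le
  have h4 : lg x p ≤ lgs x s := by
    have h5 := lgs_mono x (singleton_subset_iff.2 hp)
    unfold lgs at h5 ⊢
    rwa [sum_singleton] at h5
  rw [hY _ (hY1.trans (h3.trans h4)), zero_mul, zero_mul]

theorem pair_lim (i j : ℕ) (hi : 1 ≤ i) (hj : 1 ≤ j) (w : ℝ → ℝ) (hw : ContinuousOn w (Set.Ici 0)) (Y : ℝ)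
    (hY0 : 0 ≤ Y) (hY1 : Y ≤ 1) (hY : ∀ y, Y ≤ y → w y = 0) (ε : ℝ) (hε : 0 < ε) :
    ∃ δ₀ : ℝ, 0 < δ₀ ∧ ∀ δ : ℝ, 0 < δ → δ ≤ δ₀ → ∀ᶠ x : ℕ in atTop,
      |∑ s ∈ (PP x δ 1).powerset, w (lgs x s) * (tau x i s * tau x j s) * rs s -
        (w 0 + ∫ y in (0 : ℝ)..Y, w y *
          ((i : ℝ) * j / ((i : ℝ) + j) * (1 - Real.exp (-(((i : ℝ) + j) * y)))))| ≤ ε := by
  have hi0 : (1 : ℝ) ≤ i := by exact_mod_cast hi
  have hj0 : (1 : ℝ) ≤ j := by exact_mod_cast hj
  set M : ℝ := (i : ℝ) * j / ((i : ℝ) + j) with hM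
  have hM0 : 0 ≤ M := by positivity
  set l : ℕ → ℝ := fun g => ((g : ℝ) + i) * ((g : ℝ) + j) / ((g : ℝ) * ((g : ℝ) + i + j)) with hl
  have hl1 : 0 ≤ l 1 := by
    rw [hl]
    positivity
  set e : ℝ := min 1 (ε / (l 1 + 5 + M)) with he
  have he0 : 0 < e := lt_min one_pos (by positivity)
  have he1 : e ≤ 1 := min_le_left _ _
  have he2 : e * (l 1 + 5 + M) ≤ ε := by
    have h1 : e ≤ ε / (l 1 + 5 + M) := min_le_right _ _
    rwa [le_div_iff₀ (by positivity)] at h1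
  obtain ⟨n, b, hb⟩ := w_approx w hw Y hY e he0
  set B : ℝ := ∑ g ∈ Icc 1 n, |b g| with hB
  have hB0 : 0 ≤ B := sum_nonneg fun _ _ => abs_nonneg _
  set e' : ℝ := e / (1 + B) with he'
  have he'0 : 0 < e' := by positivity
  have he'1 : e' ≤ e := div_le_self he0.le (by linarith)
  have he'2 : B * e' ≤ e := by
    rw [he', mul_div_assoc', div_le_iff₀ (by positivity)]
    nlinarith
  obtain ⟨d, hd, L, hL, hfr⟩ := apair_unif i j hi hj e' he'0 (n + 1)
  refine ⟨min d 1, lt_min hd one_pos, ?_⟩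
  intro δ hδ hδ1
  have hδd : δ ≤ d := hδ1.trans (min_le_left _ _)
  have hδL : δ ≤ L := (hδ1.trans (min_le_right _ _)).trans hL
  have hev : ∀ᶠ x : ℕ in atTop, ∀ g ∈ Icc 1 (n + 1),
      |∏ p ∈ PP x δ L, (1 + cc i j g (lg x p) / (p : ℝ)) -
        Real.exp (∫ u in δ..L, cc i j g u / u)| ≤ e' := by
    rw [Filter.eventually_all_finset]
    intro g _
    exact apair_prod i j g δ L hδ hδL e' he'0
  filter_upwards [hev, eventually_ge_atTop 2] with x hx hx2
  -- the sums with exponential weights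
  set E : ℕ → ℝ := fun g => ∑ s ∈ (PP x δ L).powerset,
    Real.exp (-((g : ℝ) * lgs x s)) * (tau x i s * tau x j s) * rs s with hE
  have hEl : ∀ g ∈ Icc 1 (n + 1), |E g - l g| ≤ 2 * e' := by
    intro g hg
    have h1 := hx g hg
    have h2 := hfr δ hδ hδd L le_rfl g hg
    rw [hE, hl]
    simp only
    rw [sum_cc x i j g (PP x δ L)]
    have h3 := abs_sub_le (∏ p ∈ PP x δ L, (1 + cc i j g (lg x p) / (p : ℝ)))
      (Real.exp (∫ u in δ..L, cc i j g u / u))
      (((g : ℝ) + i) * ((g : ℝ) + j) / ((g : ℝ) * ((g : ℝ) + i + j)))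
    linarith
  rw [apair_ext i j w Y hY1 hY δ L hL x hx2]
  have h1 : |∑ s ∈ (PP x δ L).powerset, w (lgs x s) * (tau x i s * tau x j s) * rs s -
      ∑ g ∈ Icc 1 n, b g * E g| ≤ e * E 1 := by
    have h2 : ∑ g ∈ Icc 1 n, b g * E g = ∑ s ∈ (PP x δ L).powerset,
        (∑ g ∈ Icc 1 n, b g * Real.exp (-((g : ℝ) * lgs x s))) * (tau x i s * tau x j s) * rs s := by
      rw [hE]
      simp only
      simp_rw [mul_sum, sum_mul]
      rw [sum_comm]
      refine sum_congr rfl fun s _ => sum_congr rfl fun g _ => ?_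
      ring
    rw [h2, ← sum_sub_distrib, hE]
    simp only
    rw [mul_sum]
    refine (abs_sum_le_sum_abs _ _).trans (sum_le_sum fun s _ => ?_)
    have h3 := hb (lgs x s) (lgs_nonneg x s)
    have h4 : 0 ≤ tau x i s * tau x j s := mul_nonneg (tau_nonneg x i s) (tau_nonneg x j s)
    have h5 := rs_nonneg s
    have h6 : w (lgs x s) * (tau x i s * tau x j s) * rs s -
        (∑ g ∈ Icc 1 n, b g * Real.exp (-((g : ℝ) * lgs x s))) * (tau x i s * tau x j s) * rs s =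
        (w (lgs x s) - ∑ g ∈ Icc 1 n, b g * Real.exp (-((g : ℝ) * lgs x s))) *
          ((tau x i s * tau x j s) * rs s) := by ring
    rw [h6, abs_mul, abs_of_nonneg (mul_nonneg h4 h5), Nat.cast_one, one_mul]
    calc _ ≤ (e * Real.exp (-lgs x s)) * ((tau x i s * tau x j s) * rs s) :=
          mul_le_mul_of_nonneg_right h3 (mul_nonneg h4 h5)
      _ = _ := by ring
  have h2 : |∑ g ∈ Icc 1 n, b g * E g - ∑ g ∈ Icc 1 n, b g * l g| ≤ 2 * e := by
    rw [← sum_sub_distrib]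
    calc _ ≤ ∑ g ∈ Icc 1 n, |b g * E g - b g * l g| := abs_sum_le_sum_abs _ _
      _ ≤ ∑ g ∈ Icc 1 n, |b g| * (2 * e') := by
          refine sum_le_sum fun g hg => ?_
          rw [← mul_sub, abs_mul]
          refine mul_le_mul_of_nonneg_left (hEl g ?_) (abs_nonneg _)
          rw [mem_Icc] at hg ⊢
          omega
      _ = 2 * (B * e') := by
          rw [← sum_mul, hB]
          ring
      _ ≤ 2 * e := by linarith
  have h3 := apair_int i j hi hj w hw Y hY0 hY n b e hb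
  rw [← hM] at h3
  have h4 := (abs_le.1 (hEl 1 (mem_Icc.2 ⟨le_rfl, by omega⟩))).2
  have h5 : e * E 1 ≤ e * (l 1 + 2) := by
    refine mul_le_mul_of_nonneg_left ?_ he0.le
    linarith
  have h6 := abs_sub_le (∑ s ∈ (PP x δ L).powerset, w (lgs x s) * (tau x i s * tau x j s) * rs s)
    (∑ g ∈ Icc 1 n, b g * E g) (∑ g ∈ Icc 1 n, b g * l g)
  have h7 := abs_sub_le (∑ s ∈ (PP x δ L).powerset, w (lgs x s) * (tau x i s * tau x j s) * rs s)
    (∑ g ∈ Icc 1 n, b g * l g)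
    (w 0 + ∫ y in (0 : ℝ)..Y, w y * (M * (1 - Real.exp (-(((i : ℝ) + j) * y)))))
  linarith

end Pool.Agent.Lib.MP_092512_nt.RT
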