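import Pool.Agent.Lib.MP_092512_nt.RT.APair
import Pool.Agent.Lib.MP_092512_nt.RT.ACross
import Pool.Agent.Lib.MP_092512_nt.RT.AL2

/-!
# A: the lower bound for the sum over all sets of primes

PROOF.  `Y = 1 - ur`, `w = wf` (continuous on `[0, ∞)`, `wf (1 - ur) = 0`, `0 ≤ wf ≤ 1/ur`, `wf y = 0` for `y ≥ Y`), `F = Fst len v`, `Φ u = VV 1 - VV u`,
`|Φ u - Φ u'| ≤ |∫ F|`.
(1) `l2_approx` with `Y`, `ε₁`: `(n, a)`, `G(t) = ∑ a_i i e^(-it)`, `Θ(s) = ∑ a_i τ_i(s)`, `A = ∑ |a_i|`.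
(2) Let `C` be the sum of the constants of `cross_bd` for `i ≤ n`.  `l2_approx` with `ε₂`: `(n', a')`, `G'`, `Θ' = ∑ a'_i τ_i`.  With `Φ'(u) = ∑ a'_i e^(-iu)`:
`(Φ u - Φ' u) - (Φ 0 - Φ' 0) = -∫_0^u (F - G')` for `0 ≤ u ≤ Y` (`VV_int`; derivative of `Φ'` is `-G'`), of absolute value `≤ (Y ε₂)^(1/2)` (Cauchy-Schwarz,
`MeasureTheory`/`intervalIntegral` version or `(∫ f)² ≤ Y ∫ f²` from `∫ (f - c)² ≥ 0`).  By `XP_const`, `XP_add`, `XP_sum`, `XP_abs`: for `s ≠ ∅`, `lgs x s ≤ Y`: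
`|X - Θ'| ≤ 2^|s| (Y ε₂)^(1/2)`, `X = XP x Φ s`.
(3) `X² ≥ 2 X Θ - Θ² ≥ 2 Θ' Θ - Θ² - 2 |Θ| 2^|s| (Y ε₂)^(1/2)`, multiply by `wf (lgs) rs ≥ 0` and sum over `s ≠ ∅` (the terms with `lgs > Y` vanish):
`∑ ≥ ∑_{s ≠ ∅} wf (2 Θ' Θ - Θ²) rs - (2/ur) A C (Y ε₂)^(1/2)`.
(4) `pair_lim` for all pairs `(i, j)` with `i ≤ n'` or `i ≤ n`, `j ≤ n` (finitely many; the term `s = ∅` is `wf 0` times the product of the coefficients and cancels the
term `w 0`): `∑_{s ≠ ∅} wf τ_i τ_j rs → ∫_0^Y wf(y) ∫_0^y i e^(-it) j e^(-jt) dt dy` up to `ε₃`, as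
`∫_0^y i e^(-it) j e^(-jt) dt = (ij/(i+j)) (1 - e^(-(i+j)y))`.  So the main term is `∫_0^Y wf(y) ∫_0^y (2 G' G - G²)` up to `ε₃ (..)`.
(5) `∫_0^y (2 G'G - G²) = ∫_0^y (2FG - G²) + 2 ∫_0^y (G' - F) G ≥ ∫_0^y F² - ∫_0^y (F - G)² - 2 (ε₂ ∫_0^Y G²)^(1/2)`, `∫_0^y F² = QI y` (`QI_int`).
Choose `ε₁`, then `(n, a)`, then `ε₂`, `(n', a')`, then `ε₃`.
-/

set_option autoImplicit false

open Finset Filter

open scoped ArithmeticFunction.Moebius

namespace Pool.Agent.Lib.MP_092512_nt.RT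

open Pool.Agent.Lib.SW Pool.Agent.Lib.MP_092512_nt.P3

private theorem Star_ur : 0 < ur ∧ ur < 1 := by
  unfold ur
  constructor <;> norm_num

private theorem Star_wf (y : ℝ) : wf y = 1 / ur - 1 / max (1 - y) ur := by
  unfold wf
  split_ifs with h
  · rw [max_eq_left (by linarith)]
  · rw [max_eq_right (by linarith), sub_self]

theorem wf_cont : ContinuousOn wf (Set.Ici 0) := by
  have h : wf = fun y => 1 / ur - 1 / max (1 - y) ur := funext Star_wf
  rw [h]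
  apply Continuous.continuousOn
  refine continuous_const.sub (continuous_const.div (by fun_prop) fun y => ?_)
  have h1 := le_max_right (1 - y) ur
  have h2 := Star_ur.1
  linarith

private theorem Star_nonneg (y : ℝ) : 0 ≤ wf y := by
  rw [Star_wf]
  have h1 := le_max_right (1 - y) ur
  have h2 := Star_ur.1
  have h3 := one_div_le_one_div_of_le h2 h1
  linarith

private theorem Star_le (y : ℝ) : wf y ≤ 1 / ur := by
  rw [Star_wf]
  have h1 := le_max_right (1 - y) ur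
  have h2 := Star_ur.1
  have h3 : 0 ≤ 1 / max (1 - y) ur := by
    apply div_nonneg zero_le_one
    linarith
  linarith

theorem wf_nonneg (y : ℝ) (hy : 0 ≤ y) : 0 ≤ wf y := Star_nonneg y

theorem wf_le (y : ℝ) (hy : 0 ≤ y) : wf y ≤ 1 / ur := Star_le y

private theorem Star_zero (y : ℝ) (hy : 1 - ur ≤ y) : wf y = 0 := by
  rw [Star_wf, max_eq_right (by linarith), sub_self]

/-! ### bounded measurable functions -/

private def BM (f : ℝ → ℝ) : Prop := Measurable f ∧ ∃ C : ℝ, ∀ t, 0 ≤ t → |f t| ≤ C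

private theorem BM_ii {f : ℝ → ℝ} (h : BM f) {y : ℝ} (hy : 0 ≤ y) :
    IntervalIntegrable f MeasureTheory.volume 0 y := by
  obtain ⟨hm, C, hC⟩ := h
  refine (intervalIntegrable_const (c := C)).mono_fun hm.aestronglyMeasurable ?_
  refine (MeasureTheory.ae_restrict_iff' measurableSet_uIoc).2 (Eventually.of_forall fun t ht => ?_)
  rw [Set.uIoc_of_le hy] at ht
  show ‖f t‖ ≤ ‖C‖
  rw [Real.norm_eq_abs, Real.norm_eq_abs]
  exact (hC t ht.1.le).trans (le_abs_self C)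

private theorem BM_mul {f g : ℝ → ℝ} (hf : BM f) (hg : BM g) : BM (fun t => f t * g t) := by
  obtain ⟨hm, C, hC⟩ := hf
  obtain ⟨hm', C', hC'⟩ := hg
  refine ⟨hm.mul hm', C * C', fun t ht => ?_⟩
  rw [abs_mul]
  exact mul_le_mul (hC t ht) (hC' t ht) (abs_nonneg _) ((abs_nonneg _).trans (hC t ht))

private theorem BM_sub {f g : ℝ → ℝ} (hf : BM f) (hg : BM g) : BM (fun t => f t - g t) := by
  obtain ⟨hm, C, hC⟩ := hf
  obtain ⟨hm', C', hC'⟩ := hg
  refine ⟨hm.sub hm', C + C', fun t ht => ?_⟩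
  have h1 := hC t ht
  have h2 := hC' t ht
  exact (abs_sub _ _).trans (by linarith)

private theorem BM_add {f g : ℝ → ℝ} (hf : BM f) (hg : BM g) : BM (fun t => f t + g t) := by
  obtain ⟨hm, C, hC⟩ := hf
  obtain ⟨hm', C', hC'⟩ := hg
  refine ⟨hm.add hm', C + C', fun t ht => ?_⟩
  have h1 := hC t ht
  have h2 := hC' t ht
  exact (abs_add_le _ _).trans (by linarith)

private theorem BM_const (c : ℝ) : BM (fun _ => c) := ⟨measurable_const, |c|, fun _ _ => le_rfl⟩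

private theorem BM_sq {f : ℝ → ℝ} (hf : BM f) : BM (fun t => f t ^ 2) := by
  have h := BM_mul hf hf
  have e : (fun t => f t ^ 2) = fun t => f t * f t := funext fun t => pow_two _
  rw [e]
  exact h

private theorem BM_F (len : ℕ) (v : ℕ → ℝ) : BM (Fst len v) := by
  refine ⟨?_, _, fun t _ => Fst_bdd len v t⟩
  unfold Fst
  refine Finset.measurable_fun_sum _ fun x _ => ?_
  refine Measurable.const_mul (Measurable.ite ?_ measurable_const measurable_const) _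
  exact measurableSet_Ico

private noncomputable def GF (n : ℕ) (a : ℕ → ℝ) (t : ℝ) : ℝ :=
  ∑ i ∈ Icc 1 n, a i * ((i : ℝ) * Real.exp (-((i : ℝ) * t)))

private theorem BM_G (n : ℕ) (a : ℕ → ℝ) : BM (GF n a) := by
  refine ⟨?_, ∑ i ∈ Icc 1 n, |a i| * (i : ℝ), fun t ht => ?_⟩
  · have h : Continuous (GF n a) := by
      unfold GF
      fun_prop
    exact h.measurable
  · unfold GF
    refine (abs_sum_le_sum_abs _ _).trans (sum_le_sum fun i _ => ?_)
    rw [abs_mul, abs_mul, abs_of_nonneg (Nat.cast_nonneg i : (0 : ℝ) ≤ i), abs_of_pos (Real.exp_pos _)]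
    have h1 : Real.exp (-((i : ℝ) * t)) ≤ 1 := by
      rw [Real.exp_le_one_iff]
      have := mul_nonneg (Nat.cast_nonneg i : (0 : ℝ) ≤ i) ht
      linarith
    refine mul_le_mul_of_nonneg_left ?_ (abs_nonneg _)
    calc (i : ℝ) * Real.exp (-((i : ℝ) * t)) ≤ (i : ℝ) * 1 :=
          mul_le_mul_of_nonneg_left h1 (Nat.cast_nonneg _)
      _ = i := mul_one _

private theorem Star_mono {f : ℝ → ℝ} (hf : BM f) {y Y : ℝ} (hy : 0 ≤ y) (hyY : y ≤ Y) (h0 : ∀ t, 0 ≤ f t) :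
    ∫ t in (0 : ℝ)..y, f t ≤ ∫ t in (0 : ℝ)..Y, f t := by
  have h1 := BM_ii hf hy
  have h2 := BM_ii hf (hy.trans hyY)
  have h3 := intervalIntegral.integral_add_adjacent_intervals h1 (h1.symm.trans h2)
  have h4 : 0 ≤ ∫ t in y..Y, f t := intervalIntegral.integral_nonneg hyY fun t _ => h0 t
  linarith

private theorem Star_amgm {f g : ℝ → ℝ} (hf : BM f) (hg : BM g) {y c : ℝ} (hy : 0 ≤ y) (hc : 0 < c) :
    2 * |∫ t in (0 : ℝ)..y, f t * g t| ≤ c * (∫ t in (0 : ℝ)..y, g t ^ 2) + 1 / c * ∫ t in (0 : ℝ)..y, f t ^ 2 := by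
  have i1 := BM_ii (BM_mul hf hg) hy
  have i2 := BM_ii (BM_sq hf) hy
  have i3 := BM_ii (BM_sq hg) hy
  have e : c * (∫ t in (0 : ℝ)..y, g t ^ 2) + 1 / c * ∫ t in (0 : ℝ)..y, f t ^ 2 =
      ∫ t in (0 : ℝ)..y, (c * g t ^ 2 + 1 / c * f t ^ 2) := by
    rw [intervalIntegral.integral_add (i3.const_mul c) (i2.const_mul (1 / c)), intervalIntegral.integral_const_mul,
      intervalIntegral.integral_const_mul]
  have k1 : 2 * (∫ t in (0 : ℝ)..y, f t * g t) ≤ ∫ t in (0 : ℝ)..y, (c * g t ^ 2 + 1 / c * f t ^ 2) := by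
    rw [← intervalIntegral.integral_const_mul]
    refine intervalIntegral.integral_mono_on hy (i1.const_mul 2) ((i3.const_mul c).add (i2.const_mul (1 / c)))
      fun t _ => ?_
    have h1 : c * g t ^ 2 + 1 / c * f t ^ 2 - 2 * (f t * g t) = (c * g t - f t) ^ 2 / c := by
      field_simp
      ring
    have h2 : 0 ≤ (c * g t - f t) ^ 2 / c := by positivity
    linarith
  have k2 : -(2 * (∫ t in (0 : ℝ)..y, f t * g t)) ≤ ∫ t in (0 : ℝ)..y, (c * g t ^ 2 + 1 / c * f t ^ 2) := by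
    rw [← intervalIntegral.integral_const_mul, ← intervalIntegral.integral_neg]
    refine intervalIntegral.integral_mono_on hy (i1.const_mul 2).neg ((i3.const_mul c).add (i2.const_mul (1 / c)))
      fun t _ => ?_
    have h1 : c * g t ^ 2 + 1 / c * f t ^ 2 + 2 * (f t * g t) = (c * g t + f t) ^ 2 / c := by
      field_simp
      ring
    have h2 : 0 ≤ (c * g t + f t) ^ 2 / c := by positivity
    linarith
  rw [e]
  rcases abs_cases (∫ t in (0 : ℝ)..y, f t * g t) with h | h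
  · rw [h.1]
    exact k1
  · rw [h.1]
    linarith

/-! ### exponentials -/

private theorem Star_int1 (i : ℕ) (u : ℝ) :
    ∫ t in (0 : ℝ)..u, (i : ℝ) * Real.exp (-((i : ℝ) * t)) = 1 - Real.exp (-((i : ℝ) * u)) := by
  have h1 : ∀ t ∈ Set.uIcc (0 : ℝ) u, HasDerivAt (fun t => -Real.exp (-((i : ℝ) * t)))
      ((i : ℝ) * Real.exp (-((i : ℝ) * t))) t := by
    intro t _
    have h2 : HasDerivAt (fun t : ℝ => -((i : ℝ) * t)) (-((i : ℝ) * 1)) t :=
      ((hasDerivAt_id t).const_mul (i : ℝ)).neg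
    have h3 := h2.exp.neg
    refine h3.congr_deriv ?_
    ring
  rw [intervalIntegral.integral_eq_sub_of_hasDerivAt h1 (Continuous.intervalIntegrable (by fun_prop) _ _)]
  rw [mul_zero, neg_zero, Real.exp_zero]
  ring

private noncomputable def KF (i j : ℕ) (y : ℝ) : ℝ :=
  (i : ℝ) * j / ((i : ℝ) + j) * (1 - Real.exp (-(((i : ℝ) + j) * y)))

private theorem Star_int2 (i j : ℕ) (hi : 1 ≤ i) (u : ℝ) :
    ∫ t in (0 : ℝ)..u, ((i : ℝ) * Real.exp (-((i : ℝ) * t))) * ((j : ℝ) * Real.exp (-((j : ℝ) * t))) = KF i j u := by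
  have hij : (i : ℝ) + j ≠ 0 := by
    have h1 : (1 : ℝ) ≤ i := by exact_mod_cast hi
    have h2 : (0 : ℝ) ≤ j := Nat.cast_nonneg j
    linarith
  have h1 : ∀ t ∈ Set.uIcc (0 : ℝ) u, HasDerivAt (fun t => -((i : ℝ) * j / ((i : ℝ) + j)) *
      Real.exp (-(((i : ℝ) + j) * t)))
      (((i : ℝ) * Real.exp (-((i : ℝ) * t))) * ((j : ℝ) * Real.exp (-((j : ℝ) * t)))) t := by
    intro t _
    have h2 : HasDerivAt (fun t : ℝ => -(((i : ℝ) + j) * t)) (-(((i : ℝ) + j) * 1)) t :=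
      ((hasDerivAt_id t).const_mul ((i : ℝ) + j)).neg
    have h3 := h2.exp.const_mul (-((i : ℝ) * j / ((i : ℝ) + j)))
    refine h3.congr_deriv ?_
    have h4 : Real.exp (-(((i : ℝ) + j) * t)) = Real.exp (-((i : ℝ) * t)) * Real.exp (-((j : ℝ) * t)) := by
      rw [← Real.exp_add]
      congr 1
      ring
    rw [h4]
    field_simp
  rw [intervalIntegral.integral_eq_sub_of_hasDerivAt h1 (Continuous.intervalIntegrable (by fun_prop) _ _)]
  unfold KF
  rw [mul_zero, neg_zero, Real.exp_zero]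
  ring

private noncomputable def PF (n : ℕ) (a : ℕ → ℝ) (u : ℝ) : ℝ := ∑ i ∈ Icc 1 n, a i * Real.exp (-((i : ℝ) * u))

private theorem Star_intG (n : ℕ) (a : ℕ → ℝ) (u : ℝ) :
    ∫ t in (0 : ℝ)..u, GF n a t = PF n a 0 - PF n a u := by
  unfold GF PF
  rw [intervalIntegral.integral_finsetSum (fun i _ => Continuous.intervalIntegrable (by fun_prop) _ _),
    ← sum_sub_distrib]
  refine sum_congr rfl fun i _ => ?_
  rw [intervalIntegral.integral_const_mul, Star_int1, mul_zero, neg_zero, Real.exp_zero]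
  ring

private theorem Star_intGG (n n' : ℕ) (a a' : ℕ → ℝ) (u : ℝ) :
    ∫ t in (0 : ℝ)..u, GF n' a' t * GF n a t = ∑ i ∈ Icc 1 n', ∑ j ∈ Icc 1 n, a' i * a j * KF i j u := by
  have h : ∀ t, GF n' a' t * GF n a t = ∑ i ∈ Icc 1 n', ∑ j ∈ Icc 1 n, a' i * a j *
      (((i : ℝ) * Real.exp (-((i : ℝ) * t))) * ((j : ℝ) * Real.exp (-((j : ℝ) * t)))) := by
    intro t
    unfold GF
    rw [sum_mul_sum]
    exact sum_congr rfl fun i _ => sum_congr rfl fun j _ => by ring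
  rw [intervalIntegral.integral_congr fun t _ => h t,
    intervalIntegral.integral_finsetSum (fun i _ => Continuous.intervalIntegrable (by fun_prop) _ _)]
  refine sum_congr rfl fun i hi => ?_
  rw [intervalIntegral.integral_finsetSum (fun i _ => Continuous.intervalIntegrable (by fun_prop) _ _)]
  refine sum_congr rfl fun j _ => ?_
  rw [intervalIntegral.integral_const_mul, Star_int2 i j (mem_Icc.1 hi).1]

/-! ### the integral in `y` -/

private theorem Star_y (len : ℕ) (v : ℕ → ℝ) (n n' : ℕ) (a a' : ℕ → ℝ) {Y y e η : ℝ} (hy : 0 ≤ y) (hyY : y ≤ Y)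
    (hη : 0 < η) (h1 : ∫ t in (0 : ℝ)..Y, (Fst len v t - GF n a t) ^ 2 ≤ e)
    (h2 : ∫ t in (0 : ℝ)..Y, (Fst len v t - GF n' a' t) ^ 2 ≤ η ^ 2) :
    QI len v y - (e + η * (1 + ∫ t in (0 : ℝ)..Y, GF n a t ^ 2)) ≤
      2 * (∑ i ∈ Icc 1 n', ∑ j ∈ Icc 1 n, a' i * a j * KF i j y) -
        ∑ i ∈ Icc 1 n, ∑ j ∈ Icc 1 n, a i * a j * KF i j y := by
  have bF := BM_F len v
  have bG := BM_G n a
  have bG' := BM_G n' a'
  rw [← Star_intGG, ← Star_intGG, QI_int len v y hy]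
  have iF := BM_ii (BM_sq bF) hy
  have iFG := BM_ii (BM_sq (BM_sub bF bG)) hy
  have i5 := BM_ii (BM_mul (BM_sub bG' bF) bG) hy
  have iG'G := BM_ii (BM_mul bG' bG) hy
  have iGG := BM_ii (BM_mul bG bG) hy
  have e1 : ∫ t in (0 : ℝ)..y, (Fst len v t ^ 2 - (Fst len v t - GF n a t) ^ 2 +
      2 * ((GF n' a' t - Fst len v t) * GF n a t)) =
      (∫ t in (0 : ℝ)..y, Fst len v t ^ 2) - (∫ t in (0 : ℝ)..y, (Fst len v t - GF n a t) ^ 2) +
      2 * ∫ t in (0 : ℝ)..y, (GF n' a' t - Fst len v t) * GF n a t := by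
    rw [intervalIntegral.integral_add (iF.sub iFG) (i5.const_mul 2), intervalIntegral.integral_sub iF iFG,
      intervalIntegral.integral_const_mul]
  have e2 : ∫ t in (0 : ℝ)..y, (2 * (GF n' a' t * GF n a t) - GF n a t * GF n a t) =
      2 * (∫ t in (0 : ℝ)..y, GF n' a' t * GF n a t) - ∫ t in (0 : ℝ)..y, GF n a t * GF n a t := by
    rw [intervalIntegral.integral_sub (iG'G.const_mul 2) iGG, intervalIntegral.integral_const_mul]
  have e3 : ∫ t in (0 : ℝ)..y, (Fst len v t ^ 2 - (Fst len v t - GF n a t) ^ 2 +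
      2 * ((GF n' a' t - Fst len v t) * GF n a t)) =
      ∫ t in (0 : ℝ)..y, (2 * (GF n' a' t * GF n a t) - GF n a t * GF n a t) := by
    refine intervalIntegral.integral_congr fun t _ => ?_
    ring
  rw [← e2, ← e3, e1]
  have m1 := Star_mono (BM_sq (BM_sub bF bG)) hy hyY (fun t => sq_nonneg _)
  have m2 := Star_mono (BM_sq (BM_sub bF bG')) hy hyY (fun t => sq_nonneg _)
  have m3 := Star_mono (BM_sq bG) hy hyY (fun t => sq_nonneg _)
  have m4 : ∫ t in (0 : ℝ)..y, (GF n' a' t - Fst len v t) ^ 2 = ∫ t in (0 : ℝ)..y, (Fst len v t - GF n' a' t) ^ 2 := by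
    refine intervalIntegral.integral_congr fun t _ => ?_
    ring
  have k := Star_amgm (BM_sub bG' bF) bG hy hη
  rw [m4] at k
  have k1 : 1 / η * ∫ t in (0 : ℝ)..y, (Fst len v t - GF n' a' t) ^ 2 ≤ η := by
    calc 1 / η * ∫ t in (0 : ℝ)..y, (Fst len v t - GF n' a' t) ^ 2 ≤ 1 / η * η ^ 2 :=
          mul_le_mul_of_nonneg_left (m2.trans h2) (by positivity)
      _ = η := by field_simp
  have k2 : η * ∫ t in (0 : ℝ)..y, GF n a t ^ 2 ≤ η * ∫ t in (0 : ℝ)..Y, GF n a t ^ 2 :=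
    mul_le_mul_of_nonneg_left m3 hη.le
  have k3 := neg_abs_le (∫ t in (0 : ℝ)..y, (GF n' a' t - Fst len v t) * GF n a t)
  have k4 : η * (1 + ∫ t in (0 : ℝ)..Y, GF n a t ^ 2) = η + η * ∫ t in (0 : ℝ)..Y, GF n a t ^ 2 := by ring
  rw [k4]
  linarith

private theorem Star_wfc : Continuous wf := by
  have h : wf = fun y => 1 / ur - 1 / max (1 - y) ur := funext Star_wf
  rw [h]
  refine continuous_const.sub (continuous_const.div (by fun_prop) fun y => ?_)
  have h1 := le_max_right (1 - y) ur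
  have h2 := Star_ur.1
  linarith

private theorem Star_KFc (i j : ℕ) : Continuous (KF i j) := by
  unfold KF
  fun_prop

private theorem Star_QIc (len : ℕ) (v : ℕ → ℝ) : Continuous (QI len v) := by
  unfold QI cl
  fun_prop

private noncomputable def JF (i j : ℕ) : ℝ := ∫ y in (0 : ℝ)..(1 - ur), wf y * KF i j y

private theorem Star_lin (n n' : ℕ) (a a' : ℕ → ℝ) :
    ∫ y in (0 : ℝ)..(1 - ur), wf y * ∑ i ∈ Icc 1 n', ∑ j ∈ Icc 1 n, a' i * a j * KF i j y =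
      ∑ i ∈ Icc 1 n', ∑ j ∈ Icc 1 n, a' i * a j * JF i j := by
  have hc := Star_wfc
  have hk := Star_KFc
  have h : ∀ y, wf y * ∑ i ∈ Icc 1 n', ∑ j ∈ Icc 1 n, a' i * a j * KF i j y =
      ∑ i ∈ Icc 1 n', ∑ j ∈ Icc 1 n, a' i * a j * (wf y * KF i j y) := by
    intro y
    rw [mul_sum]
    refine sum_congr rfl fun i _ => ?_
    rw [mul_sum]
    exact sum_congr rfl fun j _ => by ring
  have hij : ∀ i j, Continuous fun y => a' i * a j * (wf y * KF i j y) := fun i j =>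
    continuous_const.mul (hc.mul (hk i j))
  have hi : ∀ i, Continuous fun y => ∑ j ∈ Icc 1 n, a' i * a j * (wf y * KF i j y) := fun i =>
    continuous_finsetSum _ fun j _ => hij i j
  rw [intervalIntegral.integral_congr fun y _ => h y, intervalIntegral.integral_finsetSum
    (fun i _ => (hi i).intervalIntegrable _ _)]
  refine sum_congr rfl fun i _ => ?_
  rw [intervalIntegral.integral_finsetSum (fun j _ => (hij i j).intervalIntegrable _ _)]
  refine sum_congr rfl fun j _ => ?_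
  rw [intervalIntegral.integral_const_mul]
  rfl

private theorem Star_int (len : ℕ) (v : ℕ → ℝ) (n n' : ℕ) (a a' : ℕ → ℝ) {e η : ℝ} (he : 0 ≤ e)
    (hη : 0 < η) (h1 : ∫ t in (0 : ℝ)..(1 - ur), (Fst len v t - GF n a t) ^ 2 ≤ e)
    (h2 : ∫ t in (0 : ℝ)..(1 - ur), (Fst len v t - GF n' a' t) ^ 2 ≤ η ^ 2) :
    (∫ y in (0 : ℝ)..(1 - ur), wf y * QI len v y) -
      1 / ur * (e + η * (1 + ∫ t in (0 : ℝ)..(1 - ur), GF n a t ^ 2)) ≤
      2 * (∑ i ∈ Icc 1 n', ∑ j ∈ Icc 1 n, a' i * a j * JF i j) -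
        ∑ i ∈ Icc 1 n, ∑ j ∈ Icc 1 n, a i * a j * JF i j := by
  obtain ⟨u0, u1⟩ := Star_ur
  have hY : (0 : ℝ) ≤ 1 - ur := by linarith
  have hc := Star_wfc
  have hk := Star_KFc
  have hq := Star_QIc len v
  obtain ⟨c, hce⟩ : ∃ c : ℝ, c = e + η * (1 + ∫ t in (0 : ℝ)..(1 - ur), GF n a t ^ 2) := ⟨_, rfl⟩
  have hc0 : 0 ≤ c := by
    have h3 : 0 ≤ ∫ t in (0 : ℝ)..(1 - ur), GF n a t ^ 2 :=
      intervalIntegral.integral_nonneg hY fun t _ => sq_nonneg _
    rw [hce]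
    positivity
  rw [← Star_lin, ← Star_lin, ← hce]
  have c1 : Continuous fun y => ∑ i ∈ Icc 1 n', ∑ j ∈ Icc 1 n, a' i * a j * KF i j y :=
    continuous_finsetSum _ fun i _ => continuous_finsetSum _ fun j _ => continuous_const.mul (hk i j)
  have c2 : Continuous fun y => ∑ i ∈ Icc 1 n, ∑ j ∈ Icc 1 n, a i * a j * KF i j y :=
    continuous_finsetSum _ fun i _ => continuous_finsetSum _ fun j _ => continuous_const.mul (hk i j)
  have e1 : 2 * (∫ y in (0 : ℝ)..(1 - ur), wf y * ∑ i ∈ Icc 1 n', ∑ j ∈ Icc 1 n, a' i * a j * KF i j y) -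
      (∫ y in (0 : ℝ)..(1 - ur), wf y * ∑ i ∈ Icc 1 n, ∑ j ∈ Icc 1 n, a i * a j * KF i j y) =
      ∫ y in (0 : ℝ)..(1 - ur), wf y * (2 * (∑ i ∈ Icc 1 n', ∑ j ∈ Icc 1 n, a' i * a j * KF i j y) -
        ∑ i ∈ Icc 1 n, ∑ j ∈ Icc 1 n, a i * a j * KF i j y) := by
    have g1 : Continuous fun y => 2 * (wf y * ∑ i ∈ Icc 1 n', ∑ j ∈ Icc 1 n, a' i * a j * KF i j y) :=
      continuous_const.mul (hc.mul c1)
    have g2 : Continuous fun y => wf y * ∑ i ∈ Icc 1 n, ∑ j ∈ Icc 1 n, a i * a j * KF i j y := hc.mul c2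
    rw [← intervalIntegral.integral_const_mul, ← intervalIntegral.integral_sub
      (g1.intervalIntegrable _ _) (g2.intervalIntegrable _ _)]
    refine intervalIntegral.integral_congr fun y _ => ?_
    ring
  rw [e1]
  have e2 : (∫ y in (0 : ℝ)..(1 - ur), wf y * (QI len v y - c)) ≤
      ∫ y in (0 : ℝ)..(1 - ur), wf y * (2 * (∑ i ∈ Icc 1 n', ∑ j ∈ Icc 1 n, a' i * a j * KF i j y) -
        ∑ i ∈ Icc 1 n, ∑ j ∈ Icc 1 n, a i * a j * KF i j y) := by
    refine intervalIntegral.integral_mono_on hY (Continuous.intervalIntegrable (hc.mul (hq.sub continuous_const)) _ _)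
      (Continuous.intervalIntegrable (hc.mul ((continuous_const.mul c1).sub c2)) _ _) fun y hy => ?_
    refine mul_le_mul_of_nonneg_left ?_ (Star_nonneg y)
    rw [hce]
    exact Star_y len v n n' a a' hy.1 hy.2 hη h1 h2
  refine le_trans ?_ e2
  have e3 : (∫ y in (0 : ℝ)..(1 - ur), wf y * (QI len v y - c)) =
      (∫ y in (0 : ℝ)..(1 - ur), wf y * QI len v y) - c * ∫ y in (0 : ℝ)..(1 - ur), wf y := by
    have g1 : Continuous fun y => wf y * QI len v y := hc.mul hq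
    have g2 : Continuous fun y => c * wf y := continuous_const.mul hc
    rw [← intervalIntegral.integral_const_mul, ← intervalIntegral.integral_sub
      (g1.intervalIntegrable _ _) (g2.intervalIntegrable _ _)]
    refine intervalIntegral.integral_congr fun y _ => ?_
    ring
  rw [e3]
  have e4 : ∫ y in (0 : ℝ)..(1 - ur), wf y ≤ 1 / ur := by
    have h3 : ∫ y in (0 : ℝ)..(1 - ur), wf y ≤ ∫ y in (0 : ℝ)..(1 - ur), (1 / ur : ℝ) :=
      intervalIntegral.integral_mono_on hY (hc.intervalIntegrable _ _) intervalIntegrable_const fun y _ => Star_le y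
    rw [intervalIntegral.integral_const, smul_eq_mul, sub_zero] at h3
    refine h3.trans ?_
    have h4 : 0 ≤ 1 / ur := by positivity
    calc (1 - ur) * (1 / ur) ≤ 1 * (1 / ur) := mul_le_mul_of_nonneg_right (by linarith) h4
      _ = 1 / ur := one_mul _
  have e5 := mul_le_mul_of_nonneg_left e4 hc0
  rw [mul_comm (1 / ur) c]
  linarith

/-! ### the sums over sets of primes -/

private noncomputable def TH (x n : ℕ) (a : ℕ → ℝ) (s : Finset ℕ) : ℝ := ∑ i ∈ Icc 1 n, a i * tau x i s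

private theorem Star_XP (len : ℕ) (v : ℕ → ℝ) (n : ℕ) (a : ℕ → ℝ) {η : ℝ} (hη : 0 < η)
    (h2 : ∫ t in (0 : ℝ)..(1 - ur), (Fst len v t - GF n a t) ^ 2 ≤ η ^ 2) (x : ℕ) (s : Finset ℕ) (hs : s.Nonempty)
    (hl : lgs x s ≤ 1 - ur) :
    |XP x (fun u => VV er len v 1 - VV er len v u) s - TH x n a s| ≤ 2 ^ s.card * η := by
  obtain ⟨u0, u1⟩ := Star_ur
  have bF := BM_F len v
  have bG := BM_G n a
  obtain ⟨c, hc⟩ : ∃ c : ℝ, c = VV er len v 1 - PF n a 0 := ⟨_, rfl⟩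
  obtain ⟨Dd, hDd⟩ : ∃ Dd : ℝ → ℝ, Dd = fun u => VV er len v 1 - VV er len v u - PF n a u - c := ⟨_, rfl⟩
  have e1 : XP x (fun u => VV er len v 1 - VV er len v u) s = XP x Dd s + TH x n a s := by
    have e2 : (fun u => VV er len v 1 - VV er len v u) =
        fun u => Dd u + ((∑ i ∈ Icc 1 n, a i * Real.exp (-((i : ℝ) * u))) + c) := by
      funext u
      rw [hDd]
      unfold PF
      ring
    rw [e2, XP_add x Dd (fun u => (∑ i ∈ Icc 1 n, a i * Real.exp (-((i : ℝ) * u))) + c) s,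
      XP_add x (fun u => ∑ i ∈ Icc 1 n, a i * Real.exp (-((i : ℝ) * u))) (fun _ => c) s, XP_sum, XP_const x c s hs,
      add_zero]
    rfl
  rw [e1, add_sub_cancel_right]
  refine XP_abs x Dd (1 - ur) η (fun u hu huY => ?_) s hl
  have e3 : Dd u = ∫ t in (0 : ℝ)..u, (GF n a t - Fst len v t) * 1 := by
    have i1 := BM_ii bG hu
    have i2 := BM_ii bF hu
    have e4 : ∫ t in (0 : ℝ)..u, (GF n a t - Fst len v t) * 1 = ∫ t in (0 : ℝ)..u, (GF n a t - Fst len v t) := by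
      refine intervalIntegral.integral_congr fun t _ => ?_
      ring
    rw [e4, intervalIntegral.integral_sub i1 i2, Star_intG, ← VV_int len v u hu, hDd, hc]
    ring
  rw [e3]
  have k := Star_amgm (BM_sub bG bF) (BM_const 1) hu hη
  have m2 := Star_mono (BM_sq (BM_sub bF bG)) hu huY (fun t => sq_nonneg _)
  have m4 : ∫ t in (0 : ℝ)..u, (GF n a t - Fst len v t) ^ 2 = ∫ t in (0 : ℝ)..u, (Fst len v t - GF n a t) ^ 2 := by
    refine intervalIntegral.integral_congr fun t _ => ?_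
    ring
  have m5 : ∫ t in (0 : ℝ)..u, (1 : ℝ) ^ 2 = u := by
    rw [one_pow, intervalIntegral.integral_const, smul_eq_mul, sub_zero, mul_one]
  rw [m4, m5] at k
  have k1 : 1 / η * ∫ t in (0 : ℝ)..u, (Fst len v t - GF n a t) ^ 2 ≤ η := by
    calc 1 / η * ∫ t in (0 : ℝ)..u, (Fst len v t - GF n a t) ^ 2 ≤ 1 / η * η ^ 2 :=
          mul_le_mul_of_nonneg_left (m2.trans h2) (by positivity)
      _ = η := by field_simp
  have k2 : η * u ≤ η * 1 := mul_le_mul_of_nonneg_left (by linarith) hη.le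
  linarith

private theorem Star_TH (x n : ℕ) (a : ℕ → ℝ) (s : Finset ℕ) : |TH x n a s| ≤ TH x n (fun i => |a i|) s := by
  unfold TH
  refine (abs_sum_le_sum_abs _ _).trans (sum_le_sum fun i _ => ?_)
  rw [abs_mul, abs_of_nonneg (tau_nonneg x i s)]

private theorem Star_s (len : ℕ) (v : ℕ → ℝ) (n n' : ℕ) (a a' : ℕ → ℝ) {η : ℝ} (hη : 0 < η)
    (h2 : ∫ t in (0 : ℝ)..(1 - ur), (Fst len v t - GF n' a' t) ^ 2 ≤ η ^ 2) (x : ℕ) (s : Finset ℕ) (hs : s.Nonempty) :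
    wf (lgs x s) * (2 * (TH x n' a' s * TH x n a s) - TH x n a s * TH x n a s) * rs s -
      (if lgs x s ≤ 1 then 2 * η / ur * (2 ^ s.card * TH x n (fun i => |a i|) s * rs s) else 0) ≤
      wf (lgs x s) * XP x (fun u => VV er len v 1 - VV er len v u) s ^ 2 * rs s := by
  obtain ⟨u0, u1⟩ := Star_ur
  have hr := rs_nonneg s
  have hT0 : 0 ≤ TH x n (fun i => |a i|) s := (abs_nonneg _).trans (Star_TH x n a s)
  by_cases hl : lgs x s ≤ 1 - ur
  · have hl1 : lgs x s ≤ 1 := by linarith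
    rw [if_pos hl1]
    have hX := Star_XP len v n' a' hη h2 x s hs hl
    obtain ⟨X, hXe⟩ : ∃ X : ℝ, X = XP x (fun u => VV er len v 1 - VV er len v u) s := ⟨_, rfl⟩
    obtain ⟨T, hTe⟩ : ∃ T : ℝ, T = TH x n a s := ⟨_, rfl⟩
    obtain ⟨T', hTe'⟩ : ∃ T' : ℝ, T' = TH x n' a' s := ⟨_, rfl⟩
    obtain ⟨W, hWe⟩ : ∃ W : ℝ, W = wf (lgs x s) := ⟨_, rfl⟩
    have hT := Star_TH x n a s
    rw [← hXe, ← hTe'] at hX
    rw [← hTe] at hT
    rw [← hXe, ← hTe, ← hTe', ← hWe]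
    have hW0 : 0 ≤ W := by rw [hWe]; exact Star_nonneg _
    have hW1 : W ≤ 1 / ur := by rw [hWe]; exact Star_le _
    obtain ⟨m, hm⟩ : ∃ m : ℝ, m = 2 ^ s.card * η := ⟨_, rfl⟩
    rw [← hm] at hX
    have hm0 : 0 ≤ m := by rw [hm]; positivity
    -- pointwise
    have k2 : 2 * (T' * T) - T * T - 2 * (m * TH x n (fun i => |a i|) s) ≤ X ^ 2 := by
      have k3 : -(m * TH x n (fun i => |a i|) s) ≤ (X - T') * T := by
        have k4 : |(X - T') * T| ≤ m * TH x n (fun i => |a i|) s := by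
          rw [abs_mul]
          exact mul_le_mul hX hT (abs_nonneg _) hm0
        exact (abs_le.1 k4).1
      nlinarith [sq_nonneg (X - T)]
    have k5 : W * (2 * (T' * T) - T * T - 2 * (m * TH x n (fun i => |a i|) s)) * rs s ≤ W * X ^ 2 * rs s :=
      mul_le_mul_of_nonneg_right (mul_le_mul_of_nonneg_left k2 hW0) hr
    have k6 : W * (2 * (m * TH x n (fun i => |a i|) s)) * rs s ≤
        2 * η / ur * (2 ^ s.card * TH x n (fun i => |a i|) s * rs s) := by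
      have k7 : W * ((2 * (m * TH x n (fun i => |a i|) s)) * rs s) ≤
          1 / ur * ((2 * (m * TH x n (fun i => |a i|) s)) * rs s) :=
        mul_le_mul_of_nonneg_right hW1 (by positivity)
      calc W * (2 * (m * TH x n (fun i => |a i|) s)) * rs s =
          W * ((2 * (m * TH x n (fun i => |a i|) s)) * rs s) := by ring
        _ ≤ 1 / ur * ((2 * (m * TH x n (fun i => |a i|) s)) * rs s) := k7
        _ = 2 * η / ur * (2 ^ s.card * TH x n (fun i => |a i|) s * rs s) := by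
            rw [hm]
            ring
    have k8 : W * (2 * (T' * T) - T * T - 2 * (m * TH x n (fun i => |a i|) s)) * rs s =
        W * (2 * (T' * T) - T * T) * rs s - W * (2 * (m * TH x n (fun i => |a i|) s)) * rs s := by ring
    linarith
  · rw [Star_zero (lgs x s) (by linarith), zero_mul, zero_mul, zero_mul, zero_mul]
    have h : 0 ≤ (if lgs x s ≤ 1 then 2 * η / ur * (2 ^ s.card * TH x n (fun i => |a i|) s * rs s) else 0) := by
      split_ifs
      · positivity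
      · exact le_rfl
    linarith

private theorem Star_fin (S : Finset (ℕ × ℕ)) (d : ℕ × ℕ → ℝ) (hd : ∀ p ∈ S, 0 < d p) :
    ∃ D : ℝ, 0 < D ∧ ∀ p ∈ S, D ≤ d p := by
  classical
  induction S using Finset.induction_on with
  | empty => exact ⟨1, one_pos, fun p hp => absurd hp (notMem_empty p)⟩
  | insert p S _ ih =>
    obtain ⟨D, hD, h⟩ := ih fun q hq => hd q (mem_insert_of_mem hq)
    refine ⟨min D (d p), lt_min hD (hd p (mem_insert_self _ _)), fun q hq => ?_⟩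
    rcases mem_insert.1 hq with rfl | hq
    · exact min_le_right _ _
    · exact (min_le_left _ _).trans (h q hq)

private noncomputable def TT (x : ℕ) (δ : ℝ) (i j : ℕ) : ℝ :=
  ∑ s ∈ (PP x δ 1).powerset.erase ∅, wf (lgs x s) * (tau x i s * tau x j s) * rs s

private theorem Star_pair1 (i j : ℕ) (hi : 1 ≤ i) (hj : 1 ≤ j) (e : ℝ) (he : 0 < e) :
    ∃ δ₀ : ℝ, 0 < δ₀ ∧ ∀ δ : ℝ, 0 < δ → δ ≤ δ₀ → ∀ᶠ x : ℕ in atTop, |TT x δ i j - JF i j| ≤ e := by
  obtain ⟨u0, u1⟩ := Star_ur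
  obtain ⟨δ₀, h0, h⟩ := pair_lim i j hi hj wf wf_cont (1 - ur) (by linarith) (by linarith) (fun y hy => Star_zero y hy) e he
  refine ⟨δ₀, h0, fun δ hδ hδ' => ?_⟩
  filter_upwards [h δ hδ hδ'] with x hx
  have h1 := sum_erase_add ((PP x δ 1).powerset) (fun s => wf (lgs x s) * (tau x i s * tau x j s) * rs s)
    (empty_mem_powerset (PP x δ 1))
  have h2 : wf (lgs x ∅) * (tau x i ∅ * tau x j ∅) * rs ∅ = wf 0 := by
    unfold lgs tau rs
    simp
  rw [h2] at h1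
  rw [← h1] at hx
  refine le_trans (le_of_eq ?_) hx
  congr 1
  unfold TT JF KF
  ring

private theorem Star_pairs (m : ℕ) (e : ℝ) (he : 0 < e) :
    ∃ δ₀ : ℝ, 0 < δ₀ ∧ ∀ δ : ℝ, 0 < δ → δ ≤ δ₀ → ∀ᶠ x : ℕ in atTop, ∀ i ∈ Icc 1 m, ∀ j ∈ Icc 1 m,
      |TT x δ i j - JF i j| ≤ e := by
  classical
  have h : ∀ p : ℕ × ℕ, ∃ d : ℝ, p ∈ Icc 1 m ×ˢ Icc 1 m → (0 < d ∧ ∀ δ : ℝ, 0 < δ → δ ≤ d →
      ∀ᶠ x : ℕ in atTop, |TT x δ p.1 p.2 - JF p.1 p.2| ≤ e) := by
    intro p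
    by_cases hp : p ∈ Icc 1 m ×ˢ Icc 1 m
    · rw [mem_product, mem_Icc, mem_Icc] at hp
      obtain ⟨d, hd⟩ := Star_pair1 p.1 p.2 hp.1.1 hp.2.1 e he
      exact ⟨d, fun _ => hd⟩
    · exact ⟨0, fun h => absurd h hp⟩
  choose d hd using h
  obtain ⟨D, hD, hDd⟩ := Star_fin (Icc 1 m ×ˢ Icc 1 m) d fun p hp => (hd p hp).1
  refine ⟨D, hD, fun δ hδ hδD => ?_⟩
  have h1 : ∀ᶠ x : ℕ in atTop, ∀ p ∈ Icc 1 m ×ˢ Icc 1 m, |TT x δ p.1 p.2 - JF p.1 p.2| ≤ e := by
    rw [eventually_all_finset]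
    exact fun p hp => (hd p hp).2 δ hδ (hδD.trans (hDd p hp))
  filter_upwards [h1] with x hx i hi j hj
  exact hx (i, j) (mem_product.2 ⟨hi, hj⟩)

private theorem Star_bil (S : Finset (Finset ℕ)) (w r : Finset ℕ → ℝ) (x n n' : ℕ) (a a' : ℕ → ℝ) :
    ∑ s ∈ S, w s * (TH x n' a' s * TH x n a s) * r s =
      ∑ i ∈ Icc 1 n', ∑ j ∈ Icc 1 n, a' i * a j * ∑ s ∈ S, w s * (tau x i s * tau x j s) * r s := by
  have h : ∀ s ∈ S, w s * (TH x n' a' s * TH x n a s) * r s =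
      ∑ i ∈ Icc 1 n', ∑ j ∈ Icc 1 n, a' i * a j * (w s * (tau x i s * tau x j s) * r s) := by
    intro s _
    unfold TH
    rw [sum_mul_sum, mul_sum, sum_mul]
    refine sum_congr rfl fun i _ => ?_
    rw [mul_sum, sum_mul]
    exact sum_congr rfl fun j _ => by ring
  rw [sum_congr rfl h, sum_comm]
  refine sum_congr rfl fun i _ => ?_
  rw [sum_comm]
  refine sum_congr rfl fun j _ => ?_
  rw [mul_sum]

private theorem Star_close (n n' m : ℕ) (hn : n ≤ m) (hn' : n' ≤ m) (a a' : ℕ → ℝ) (T J : ℕ → ℕ → ℝ) (e : ℝ)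
    (h : ∀ i ∈ Icc 1 m, ∀ j ∈ Icc 1 m, |T i j - J i j| ≤ e) :
    |∑ i ∈ Icc 1 n', ∑ j ∈ Icc 1 n, a' i * a j * T i j - ∑ i ∈ Icc 1 n', ∑ j ∈ Icc 1 n, a' i * a j * J i j| ≤
      (∑ i ∈ Icc 1 n', |a' i|) * (∑ j ∈ Icc 1 n, |a j|) * e := by
  rw [← sum_sub_distrib, sum_mul_sum, sum_mul]
  refine (abs_sum_le_sum_abs _ _).trans (sum_le_sum fun i hi => ?_)
  rw [← sum_sub_distrib, sum_mul]
  refine (abs_sum_le_sum_abs _ _).trans (sum_le_sum fun j hj => ?_)
  rw [← mul_sub, abs_mul, abs_mul]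
  rw [mem_Icc] at hi hj
  exact mul_le_mul_of_nonneg_left (h i (mem_Icc.2 ⟨hi.1, by omega⟩) j (mem_Icc.2 ⟨hj.1, by omega⟩))
    (mul_nonneg (abs_nonneg _) (abs_nonneg _))

theorem star0 (len : ℕ) (v : ℕ → ℝ) (ε : ℝ) (hε : 0 < ε) :
    ∃ δ₀ : ℝ, 0 < δ₀ ∧ ∀ δ : ℝ, 0 < δ → δ ≤ δ₀ → ∀ᶠ x : ℕ in atTop,
      (∫ y in (0 : ℝ)..(1 - ur), wf y * QI len v y) - ε ≤
        ∑ s ∈ (PP x δ 1).powerset.erase ∅,
          wf (lgs x s) * XP x (fun u => VV er len v 1 - VV er len v u) s ^ 2 * rs s := by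
  classical
  obtain ⟨u0, u1⟩ := Star_ur
  have hY : (0 : ℝ) < 1 - ur := by linarith
  -- the first approximation
  obtain ⟨n, a, h1⟩ := l2_approx len v (1 - ur) (ur * ε / 4) hY (by positivity)
  have h1' : ∫ t in (0 : ℝ)..(1 - ur), (Fst len v t - GF n a t) ^ 2 ≤ ur * ε / 4 := h1
  obtain ⟨B, hB⟩ : ∃ B : ℝ, B = ∫ t in (0 : ℝ)..(1 - ur), GF n a t ^ 2 := ⟨_, rfl⟩
  have hB0 : 0 ≤ B := by
    rw [hB]
    exact intervalIntegral.integral_nonneg hY.le fun t _ => sq_nonneg _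
  choose Cc hCc0 hCc using cross_bd
  obtain ⟨Lam, hLam⟩ : ∃ Lam : ℝ, Lam = ∑ i ∈ Icc 1 n, |a i| * Cc i := ⟨_, rfl⟩
  have hLam0 : 0 ≤ Lam := by
    rw [hLam]
    exact sum_nonneg fun i _ => mul_nonneg (abs_nonneg _) (hCc0 i).le
  obtain ⟨η, hη⟩ : ∃ η : ℝ, η = ur * ε / (4 * (1 + B + 2 * Lam)) := ⟨_, rfl⟩
  have hη0 : 0 < η := by
    rw [hη]
    positivity
  have hηe : η * (1 + B + 2 * Lam) = ur * (ε / 4) := by
    rw [hη]
    field_simp
  -- the second approximation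
  obtain ⟨n', a', h2⟩ := l2_approx len v (1 - ur) (η ^ 2) hY (by positivity)
  have h2' : ∫ t in (0 : ℝ)..(1 - ur), (Fst len v t - GF n' a' t) ^ 2 ≤ η ^ 2 := h2
  obtain ⟨A, hA⟩ : ∃ A : ℝ, A = ∑ i ∈ Icc 1 n, |a i| := ⟨_, rfl⟩
  obtain ⟨A', hA'⟩ : ∃ A' : ℝ, A' = ∑ i ∈ Icc 1 n', |a' i| := ⟨_, rfl⟩
  have hA0 : 0 ≤ A := by
    rw [hA]
    exact sum_nonneg fun i _ => abs_nonneg _
  have hA0' : 0 ≤ A' := by
    rw [hA']
    exact sum_nonneg fun i _ => abs_nonneg _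
  obtain ⟨e3, he3⟩ : ∃ e3 : ℝ, e3 = ε / (4 * (2 * (A' * A) + A * A + 1)) := ⟨_, rfl⟩
  have he30 : 0 < e3 := by
    rw [he3]
    positivity
  have he3e : (2 * (A' * A) + A * A) * e3 ≤ ε / 4 := by
    have h3 : (2 * (A' * A) + A * A + 1) * e3 = ε / 4 := by
      rw [he3]
      field_simp
    nlinarith
  obtain ⟨δ₁, hδ₁, hpair⟩ := Star_pairs (max n n') e3 he30
  refine ⟨min δ₁ (1 / 2), lt_min hδ₁ (by norm_num), fun δ hδ hδ' => ?_⟩
  have hcr : ∀ᶠ x : ℕ in atTop, ∀ i ∈ Icc 1 n, ∑ s ∈ (PP x δ 1).powerset.filter (fun s => lgs x s ≤ 1),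
      2 ^ s.card * tau x i s * rs s ≤ Cc i := by
    rw [eventually_all_finset]
    exact fun i _ => hCc i δ hδ (hδ'.trans (min_le_right _ _))
  filter_upwards [hpair δ hδ (hδ'.trans (min_le_left _ _)), hcr] with x hx hxc
  -- pointwise inequality
  have hsum : ∑ s ∈ (PP x δ 1).powerset.erase ∅,
      (wf (lgs x s) * (2 * (TH x n' a' s * TH x n a s) - TH x n a s * TH x n a s) * rs s -
      (if lgs x s ≤ 1 then 2 * η / ur * (2 ^ s.card * TH x n (fun i => |a i|) s * rs s) else 0)) ≤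
      ∑ s ∈ (PP x δ 1).powerset.erase ∅,
          wf (lgs x s) * XP x (fun u => VV er len v 1 - VV er len v u) s ^ 2 * rs s := by
    refine sum_le_sum fun s hs => ?_
    exact Star_s len v n n' a a' hη0 h2' x s (nonempty_iff_ne_empty.2 (mem_erase.1 hs).1)
  refine le_trans ?_ hsum
  rw [sum_sub_distrib]
  have p1 : ∑ s ∈ (PP x δ 1).powerset.erase ∅,
      wf (lgs x s) * (2 * (TH x n' a' s * TH x n a s) - TH x n a s * TH x n a s) * rs s =
      2 * (∑ i ∈ Icc 1 n', ∑ j ∈ Icc 1 n, a' i * a j * TT x δ i j) -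
        ∑ i ∈ Icc 1 n, ∑ j ∈ Icc 1 n, a i * a j * TT x δ i j := by
    unfold TT
    rw [← Star_bil _ (fun s => wf (lgs x s)) rs, ← Star_bil _ (fun s => wf (lgs x s)) rs, mul_sum, ← sum_sub_distrib]
    exact sum_congr rfl fun s _ => by ring
  have p2 : ∑ s ∈ (PP x δ 1).powerset.erase ∅,
      (if lgs x s ≤ 1 then 2 * η / ur * (2 ^ s.card * TH x n (fun i => |a i|) s * rs s) else 0) ≤ 2 * η / ur * Lam := by
    have hc0 : 0 ≤ 2 * η / ur := by positivity
    have hT0 : ∀ s, 0 ≤ TH x n (fun i => |a i|) s := fun s => (abs_nonneg _).trans (Star_TH x n a s)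
    calc ∑ s ∈ (PP x δ 1).powerset.erase ∅,
        (if lgs x s ≤ 1 then 2 * η / ur * (2 ^ s.card * TH x n (fun i => |a i|) s * rs s) else 0)
        ≤ ∑ s ∈ (PP x δ 1).powerset,
        (if lgs x s ≤ 1 then 2 * η / ur * (2 ^ s.card * TH x n (fun i => |a i|) s * rs s) else 0) := by
          refine sum_le_sum_of_subset_of_nonneg (erase_subset _ _) fun s _ _ => ?_
          have hr := rs_nonneg s
          have ht := hT0 s
          split_ifs
          · positivity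
          · exact le_rfl
      _ = ∑ s ∈ (PP x δ 1).powerset.filter (fun s => lgs x s ≤ 1),
          2 * η / ur * (2 ^ s.card * TH x n (fun i => |a i|) s * rs s) := by rw [sum_filter]
      _ = 2 * η / ur * ∑ i ∈ Icc 1 n, |a i| * ∑ s ∈ (PP x δ 1).powerset.filter (fun s => lgs x s ≤ 1),
          2 ^ s.card * tau x i s * rs s := by
          rw [← mul_sum]
          congr 1
          have e1 : ∀ s ∈ (PP x δ 1).powerset.filter (fun s => lgs x s ≤ 1),
              2 ^ s.card * TH x n (fun i => |a i|) s * rs s =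
              ∑ i ∈ Icc 1 n, |a i| * (2 ^ s.card * tau x i s * rs s) := by
            intro s _
            unfold TH
            rw [mul_sum, sum_mul]
            exact sum_congr rfl fun i _ => by ring
          rw [sum_congr rfl e1, sum_comm]
          exact sum_congr rfl fun i _ => by rw [mul_sum]
      _ ≤ 2 * η / ur * ∑ i ∈ Icc 1 n, |a i| * Cc i :=
          mul_le_mul_of_nonneg_left (sum_le_sum fun i hi => mul_le_mul_of_nonneg_left (hxc i hi) (abs_nonneg _)) hc0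
      _ = 2 * η / ur * Lam := by rw [hLam]
  have p3 := Star_close n n' (max n n') (le_max_left _ _) (le_max_right _ _) a a' (TT x δ) JF e3 hx
  have p4 := Star_close n n (max n n') (le_max_left _ _) (le_max_left _ _) a a (TT x δ) JF e3 hx
  rw [← hA, ← hA'] at p3
  rw [← hA] at p4
  have p5 := Star_int len v n n' a a' (e := ur * ε / 4) (by positivity) hη0 h1' h2'
  rw [← hB] at p5
  rw [p1]
  have p6 : 1 / ur * (ur * ε / 4 + η * (1 + B)) + 2 * η / ur * Lam = ε / 4 + ε / 4 := by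
    have e1 : 1 / ur * (ur * ε / 4 + η * (1 + B)) + 2 * η / ur * Lam =
        1 / ur * (ur * (ε / 4) + η * (1 + B + 2 * Lam)) := by ring
    rw [e1, hηe]
    field_simp
  have p7 := (abs_le.1 p3).1
  have p8 := (abs_le.1 p4).2
  have p9 : 2 * (A' * A * e3) + A * A * e3 = (2 * (A' * A) + A * A) * e3 := by ring
  linarith

end Pool.Agent.Lib.MP_092512_nt.RT
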