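import Pool.Agent.Lib.MP_092512_nt.RT.Defs
import Pool.Agent.Lib.MP_092512_nt.P3.D2

/-!
# A: the weight `GG` and the sum over the cofactors

PROOFS.  Let `x < m ≤ 3x`, `p ∣ m` prime, `a = m/p`, `Gs x δ a`.  `a ≤ x^(1-ur) ≤ x`, `lg x a ≤ 1 - ur`, so `wt (lg x a) ≥ 0`, and `≤ 1/ur ≤ 3`; `p = m/a ≤ 3x/a`, so
`0 ≤ log p ≤ log (3x/a)` and the quotient is in `[0, 1]`; `p > x/a ≥ x^ur ≥ x^δ`, and the other prime factors of `m` divide `a`: all prime factors are `> x^δ`.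
`GG_nonneg`, `GG_rough`.  `GG_le`: `GG m ≤ 3 · #primeFactors m`, and if `GG m ≠ 0` then `m` has at most `log (3x)/(δ log x) ≤ 2/δ` prime factors
counted with multiplicity (all are `> x^δ`, `x ≥ 3`), so `GG m ≤ 6/δ` and `m` has at most `2^(2/δ)` divisors (`Nat.divisors` of a product of `k` primes: at most
`2^k`; e.g. `Nat.card_divisors`, `∏ (e_p + 1) ≤ ∏ 2^(e_p)`).
`Y_sum`: for `a ∈ A` and a prime `b` with `x + h0 < a b ≤ 2x + h0` the number `m = a b` is in the interval, `b ∈ m.primeFactors`, `m/b = a`, and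
`LV (a b) = LV a` (`LV_mul_prime`: `b > x/a ≥ x^ur > x^(1/3)`, `865 er ≤ 1/3`).  The map `(a, b) ↦ (a b, b)` is injective into the pairs `(m, p)` of the sum `Yr`; all terms of `Yr` are
`≥ 0` (`m ≤ 2x + h0 ≤ 3x`).  `TS` is the sum of `log b` over these `b`.
-/

set_option autoImplicit false

open Finset Filter

open scoped ArithmeticFunction.Moebius

namespace Pool.Agent.Lib.MP_092512_nt.RT

open Pool.Agent.Lib.SW Pool.Agent.Lib.MP_092512_nt.P3

private theorem AYeq_ur : (0 : ℝ) < ur ∧ er ≤ ur ∧ ur < 1 ∧ 1 / ur ≤ 4 ∧ (1 : ℝ) / 3 < ur := by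
  unfold ur er
  norm_num

private theorem AYeq_term (x : ℕ) (hx : 3 ≤ x) (δ : ℝ) (a p : ℕ) (hp : p.Prime) (ha : Gs x δ a)
    (h1 : x < a * p) (h2 : a * p ≤ 3 * x) :
    0 ≤ wt (lg x a) ∧ wt (lg x a) ≤ 3 ∧ 0 ≤ Real.log p ∧ Real.log p ≤ Real.log (3 * x / (a : ℝ)) ∧
      (x : ℝ) ^ ur < p := by
  obtain ⟨u1, u2, u3, u4, u5⟩ := AYeq_ur
  obtain ⟨g1, g2, g3⟩ := ha
  have ha0 : 0 < a := Nat.pos_of_ne_zero g1.ne_zero
  have haR : (0 : ℝ) < a := by exact_mod_cast ha0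
  have hx0 : (0 : ℝ) < x := by
    have : 0 < x := by omega
    exact_mod_cast this
  have hx1 : (1 : ℝ) < x := by
    have : 1 < x := by omega
    exact_mod_cast this
  have hlx : 0 < Real.log x := Real.log_pos hx1
  have h1R : (x : ℝ) < a * p := by exact_mod_cast h1
  have h2R : (a : ℝ) * p ≤ 3 * x := by exact_mod_cast h2
  have hpR : (0 : ℝ) < p := by exact_mod_cast hp.pos
  have hlg : lg x a ≤ 1 - ur := by
    unfold lg
    rw [div_le_iff₀ hlx]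
    have h3 := Real.log_le_log haR g3
    rw [Real.log_rpow hx0] at h3
    exact h3
  have hlg0 : 0 ≤ lg x a := by
    unfold lg
    exact div_nonneg (Real.log_natCast_nonneg a) hlx.le
  refine ⟨?_, ?_, Real.log_natCast_nonneg p, ?_, ?_⟩
  · unfold wt
    rw [sub_nonneg, le_div_iff₀ u1]
    linarith
  · unfold wt
    have h3 : (1 - lg x a) / ur ≤ 1 / ur := div_le_div_of_nonneg_right (by linarith) u1.le
    linarith
  · apply Real.log_le_log hpR
    rw [le_div_iff₀ haR, mul_comm]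
    exact h2R
  · have h3 : (x : ℝ) = (x : ℝ) ^ ur * (x : ℝ) ^ (1 - ur) := by
      rw [← Real.rpow_add hx0]
      have h4 : ur + (1 - ur) = 1 := by ring
      rw [h4, Real.rpow_one]
    have h5 : (x : ℝ) ^ ur * a ≤ x := by
      calc (x : ℝ) ^ ur * a ≤ (x : ℝ) ^ ur * (x : ℝ) ^ (1 - ur) :=
            mul_le_mul_of_nonneg_left g3 (Real.rpow_nonneg hx0.le _)
        _ = x := h3.symm
    have h6 : (x : ℝ) ^ ur * a < p * a := by linarith [mul_comm (a : ℝ) p]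
    exact lt_of_mul_lt_mul_right h6 haR.le

open Classical in
private theorem AYeq_mem (x : ℕ) (hx : 3 ≤ x) (δ : ℝ) (m : ℕ) (h1 : x < m) (h2 : m ≤ 3 * x) (p : ℕ)
    (hp : p ∈ m.primeFactors.filter (fun p => Gs x δ (m / p))) :
    0 ≤ wt (lg x (m / p)) * (Real.log p / Real.log (3 * x / ((m / p : ℕ) : ℝ))) ∧
    wt (lg x (m / p)) * (Real.log p / Real.log (3 * x / ((m / p : ℕ) : ℝ))) ≤ 3 ∧
    (x : ℝ) ^ ur < p := by
  obtain ⟨h3, h4⟩ := mem_filter.1 hp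
  obtain ⟨h5, h6, h7⟩ := Nat.mem_primeFactors.1 h3
  have h8 : m / p * p = m := Nat.div_mul_cancel h6
  obtain ⟨a1, a2, a3, a4, a5⟩ := AYeq_term x hx δ (m / p) p h5 h4 (by rw [h8]; exact h1)
    (by rw [h8]; exact h2)
  have b1 : Real.log p / Real.log (3 * x / ((m / p : ℕ) : ℝ)) ≤ 1 :=
    div_le_one_of_le₀ a4 (a3.trans a4)
  have b2 : 0 ≤ Real.log p / Real.log (3 * x / ((m / p : ℕ) : ℝ)) := div_nonneg a3 (a3.trans a4)
  refine ⟨mul_nonneg a1 b2, ?_, a5⟩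
  nlinarith

theorem GG_nonneg (x : ℕ) (hx : 3 ≤ x) (δ : ℝ) (m : ℕ) (h1 : x < m) (h2 : m ≤ 3 * x) : 0 ≤ GG x δ m := by
  classical
  unfold GG
  exact sum_nonneg fun p hp => (AYeq_mem x hx δ m h1 h2 p hp).1

theorem GG_rough (x : ℕ) (hx : 3 ≤ x) (δ : ℝ) (hδ : δ ≤ er) (m : ℕ) (h1 : x < m) (h2 : m ≤ 3 * x)
    (h : GG x δ m ≠ 0) : ∀ p ∈ m.primeFactors, (x : ℝ) ^ δ < p := by
  classical
  obtain ⟨u1, u2, u3, u4, u5⟩ := AYeq_ur
  unfold GG at h
  obtain ⟨q, hq, _⟩ := Finset.exists_ne_zero_of_sum_ne_zero h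
  intro p hp
  obtain ⟨h3, h4⟩ := mem_filter.1 hq
  obtain ⟨h5, h6, h7⟩ := Nat.mem_primeFactors.1 h3
  obtain ⟨p1, p2, _⟩ := Nat.mem_primeFactors.1 hp
  have h8 : m / q * q = m := Nat.div_mul_cancel h6
  have hx1 : (1 : ℝ) ≤ x := by
    have : 1 ≤ x := by omega
    exact_mod_cast this
  rw [← h8] at p2
  rcases (Nat.Prime.dvd_mul p1).1 p2 with h9 | h9
  · exact h4.2.1 p (Nat.mem_primeFactors.2 ⟨p1, h9, h4.1.ne_zero⟩)
  · have h10 : p = q := (Nat.prime_dvd_prime_iff_eq p1 h5).1 h9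
    rw [h10]
    refine lt_of_le_of_lt ?_ (AYeq_mem x hx δ m h1 h2 q hq).2.2
    exact Real.rpow_le_rpow_of_exponent_le hx1 (hδ.trans u2)

theorem GG_le (δ : ℝ) (hδ : 0 < δ) (hδ1 : δ ≤ er) : ∃ K : ℕ, ∀ x : ℕ, 3 ≤ x → ∀ m : ℕ, x < m → m ≤ 3 * x →
    GG x δ m ≤ K ∧ (GG x δ m ≠ 0 → m.divisors.card ≤ K) := by
  classical
  refine ⟨⌈6 / δ⌉₊ + 2 ^ ⌈2 / δ⌉₊, fun x hx m h1 h2 => ?_⟩
  by_cases h0 : GG x δ m = 0
  · rw [h0]
    exact ⟨Nat.cast_nonneg _, fun h => absurd rfl h⟩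
  have hm0 : m ≠ 0 := by omega
  have hx0 : (0 : ℝ) < x := by
    have : 0 < x := by omega
    exact_mod_cast this
  have hx3 : (3 : ℝ) ≤ x := by exact_mod_cast hx
  have hlx : 0 < Real.log x := Real.log_pos (by linarith)
  obtain ⟨k, hk⟩ : ∃ k, k = ∑ p ∈ m.primeFactors, m.factorization p := ⟨_, rfl⟩
  have hfac : ∏ p ∈ m.primeFactors, p ^ m.factorization p = m := by
    have := Nat.prod_factorization_pow_eq_self hm0
    exact this
  have hkm : ((x : ℝ) ^ δ) ^ k ≤ m := by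
    have h3 : ((x : ℝ) ^ δ) ^ k = ∏ p ∈ m.primeFactors, ((x : ℝ) ^ δ) ^ m.factorization p := by
      rw [hk, prod_pow_eq_pow_sum]
    have h4 : (m : ℝ) = ∏ p ∈ m.primeFactors, (p : ℝ) ^ m.factorization p := by
      rw [← Nat.cast_inj (R := ℝ)] at hfac
      push_cast at hfac
      exact hfac.symm
    rw [h3, h4]
    refine prod_le_prod (fun p _ => by positivity) fun p hp => ?_
    exact pow_le_pow_left₀ (Real.rpow_nonneg hx0.le _) (GG_rough x hx δ hδ1 m h1 h2 h0 p hp).le _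
  have hk2 : (k : ℝ) ≤ 2 / δ := by
    have h3 : (m : ℝ) ≤ (x : ℝ) ^ 2 := by
      have h4 : (m : ℝ) ≤ 3 * x := by exact_mod_cast h2
      nlinarith
    have h5 := Real.log_le_log (by positivity) (hkm.trans h3)
    rw [Real.log_pow, Real.log_pow, Real.log_rpow hx0] at h5
    rw [le_div_iff₀ hδ]
    have h6 : ((k : ℝ) * δ) * Real.log x ≤ 2 * Real.log x := by
      push_cast at h5
      linarith
    exact le_of_mul_le_mul_right h6 hlx
  have hone : ∀ p ∈ m.primeFactors, 1 ≤ m.factorization p := by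
    intro p hp
    obtain ⟨p1, p2, _⟩ := Nat.mem_primeFactors.1 hp
    exact (p1.dvd_iff_one_le_factorization hm0).1 p2
  have hcard : m.primeFactors.card ≤ k := by
    rw [hk, card_eq_sum_ones]
    exact sum_le_sum hone
  constructor
  · have h3 : GG x δ m ≤ 3 * m.primeFactors.card := by
      unfold GG
      refine (sum_le_sum fun p hp => (AYeq_mem x hx δ m h1 h2 p hp).2.1).trans ?_
      rw [sum_const, nsmul_eq_mul, mul_comm]
      have h4 : ((m.primeFactors.filter (fun p => Gs x δ (m / p))).card : ℝ) ≤ m.primeFactors.card := by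
        exact_mod_cast card_filter_le _ _
      linarith
    have h5 : (m.primeFactors.card : ℝ) ≤ 2 / δ := le_trans (by exact_mod_cast hcard) hk2
    have h6 : 6 / δ ≤ ⌈6 / δ⌉₊ := Nat.le_ceil _
    have h7 : 3 * (2 / δ) = 6 / δ := by ring
    push_cast
    have h8 : (0 : ℝ) ≤ 2 ^ ⌈2 / δ⌉₊ := by positivity
    linarith
  · intro _
    have h3 : m.divisors.card ≤ 2 ^ k := by
      rw [Nat.card_divisors hm0, hk, ← prod_pow_eq_pow_sum]
      exact prod_le_prod' fun p _ => Nat.lt_two_pow_self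
    have h4 : k ≤ ⌈2 / δ⌉₊ := by
      have h5 : (k : ℝ) ≤ ⌈2 / δ⌉₊ := hk2.trans (Nat.le_ceil _)
      exact_mod_cast h5
    have h5 : 2 ^ k ≤ 2 ^ ⌈2 / δ⌉₊ := Nat.pow_le_pow_right (by norm_num) h4
    omega

theorem Y_sum (x z h0 : ℕ) (hx : 3 ≤ x) (hh : h0 ≤ x) (δ : ℝ) (hδ : δ ≤ er) (A : Finset ℕ)
    (hA : ∀ a ∈ A, Gs x δ a) (b : Fin 3 → ℕ) :
    ∑ a ∈ A, wt (lg x a) * LV x z er (lenr b) (vz (∑ j, b j)) a ^ 2 * TS x h0 a /
        Real.log (3 * x / (a : ℝ)) ≤ Yr x z δ h0 b := by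
  classical
  obtain ⟨u1, u2, u3, u4, u5⟩ := AYeq_ur
  have her : (0 : ℝ) < er := by
    unfold er
    norm_num
  have hx1 : (1 : ℝ) ≤ x := by
    have : 1 ≤ x := by omega
    exact_mod_cast this
  obtain ⟨T, hT⟩ : ∃ T : ℕ → Finset ℕ, T = fun a =>
      (Icc 1 (2 * x + h0)).filter (fun p => p.Prime ∧ x + h0 < a * p ∧ a * p ≤ 2 * x + h0) := ⟨_, rfl⟩
  obtain ⟨v, hv⟩ : ∃ v : ℕ → ℝ, v = vz (∑ j, b j) := ⟨_, rfl⟩
  obtain ⟨G, hG⟩ : ∃ G : (Σ _ : ℕ, ℕ) → ℝ, G = fun y =>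
      wt (lg x (y.1 / y.2)) * (Real.log y.2 / Real.log (3 * x / ((y.1 / y.2 : ℕ) : ℝ))) *
        LV x z er (lenr b) v y.1 ^ 2 := ⟨_, rfl⟩
  have hR : Yr x z δ h0 b = ∑ y ∈ (Ioc (x + h0) (2 * x + h0)).sigma
      (fun m => m.primeFactors.filter (fun p => Gs x δ (m / p))), G y := by
    rw [sum_sigma, hG]
    unfold Yr GG
    refine sum_congr rfl fun m _ => ?_
    rw [sum_mul, hv]
  have hmem : ∀ a ∈ A, ∀ p ∈ T a, p.Prime ∧ x < a * p ∧ a * p ≤ 3 * x ∧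
      a * p ∈ Ioc (x + h0) (2 * x + h0) := by
    intro a _ p hp
    rw [hT] at hp
    obtain ⟨_, h2, h3, h4⟩ := mem_filter.1 hp
    exact ⟨h2, by omega, by omega, mem_Ioc.2 ⟨h3, h4⟩⟩
  have hL : ∑ a ∈ A, wt (lg x a) * LV x z er (lenr b) (vz (∑ j, b j)) a ^ 2 * TS x h0 a /
        Real.log (3 * x / (a : ℝ)) = ∑ y ∈ A.sigma T, G ⟨y.1 * y.2, y.2⟩ := by
    rw [sum_sigma]
    refine sum_congr rfl fun a ha => ?_
    have h1 : TS x h0 a = ∑ p ∈ T a, Real.log p := by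
      rw [hT]
      rfl
    rw [h1, mul_sum, sum_div]
    refine sum_congr rfl fun p hp => ?_
    obtain ⟨p1, p2, p3, _⟩ := hmem a ha p hp
    have hga := hA a ha
    have h2 : a * p / p = a := Nat.mul_div_cancel a p1.pos
    have h3 : (x : ℝ) ^ (1 / 3 : ℝ) < p :=
      lt_of_le_of_lt (Real.rpow_le_rpow_of_exponent_le hx1 u5.le)
        (AYeq_term x hx δ a p p1 hga p2 p3).2.2.2.2
    have h4 : LV x z er (lenr b) v (a * p) = LV x z er (lenr b) v a := by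
      refine LV_mul_prime x z (by omega) er her (lenr b) v ?_ a p hga.1.ne_zero p1 h3
      have h5 : ((lenr b : ℕ) : ℝ) ≤ 865 := by
        have h6 : lenr b ≤ 865 := by
          unfold lenr
          exact (min_le_left _ _).trans (Nat.sub_le _ _)
        exact_mod_cast h6
      have h7 : (865 : ℝ) * er ≤ 1 / 3 := by
        unfold er
        norm_num
      nlinarith
    rw [hG]
    simp only
    rw [h2, h4, hv]
    ring
  rw [hL, hR, ← sum_image (f := G) (g := fun y : (Σ _ : ℕ, ℕ) => ⟨y.1 * y.2, y.2⟩)]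
  · refine sum_le_sum_of_subset_of_nonneg ?_ ?_
    · intro y hy
      obtain ⟨⟨a, p⟩, h1, rfl⟩ := mem_image.1 hy
      rw [mem_sigma] at h1
      obtain ⟨p1, p2, p3, p4⟩ := hmem a h1.1 p h1.2
      have h2 : a * p / p = a := Nat.mul_div_cancel a p1.pos
      refine mem_sigma.2 ⟨p4, mem_filter.2 ⟨Nat.mem_primeFactors.2 ⟨p1, Dvd.intro_left a rfl, ?_⟩, ?_⟩⟩
      · simp only
        omega
      · simp only
        rw [h2]
        exact hA a h1.1
    · rintro ⟨m, p⟩ hy _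
      rw [mem_sigma] at hy
      have h1 := mem_Ioc.1 hy.1
      simp only at h1
      have h2 := (AYeq_mem x hx δ m (by omega) (by omega) p hy.2).1
      rw [hG]
      exact mul_nonneg h2 (sq_nonneg _)
  · rintro ⟨a, p⟩ h1 ⟨a', p'⟩ h2 h3
    rw [mem_coe, mem_sigma] at h1
    obtain ⟨p1, _, _, _⟩ := hmem a h1.1 p h1.2
    simp only [Sigma.mk.injEq, heq_eq_eq] at h3
    obtain ⟨h4, h5⟩ := h3
    rw [← h5] at h4
    have h6 := Nat.eq_of_mul_eq_mul_right p1.pos h4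
    rw [h6, h5]

end Pool.Agent.Lib.MP_092512_nt.RT
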