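import Pool.Agent.Lib.MP_092512_nt.RT.AStar
import Pool.Agent.Lib.MP_092512_nt.RT.ALV
import Pool.Agent.Lib.MP_092512_nt.RT.AYeq
import Pool.Agent.Lib.MP_092512_nt.P3.D0
import Pool.Agent.Lib.MP_092512_nt.P3.D2b

/-!
# A: the lower bound for `Yr`

PROOF.  Fix `b` (finitely many: take the minimum of the `δ₀` and intersect the eventual sets, `Filter.eventually_all_finset`), `len = lenr b ≤ 865`, `v = vz (∑ b)`,
`Φ u = VV 1 - VV u`, `δ₀` from `star0` with `ε/4` (and `δ₀ ≤ er`).  `A` = the products `a_s = ∏ p ∈ s, p` of the subsets `s` of `PP x δ 1` with `lgs x s ≤ 1 - ur`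
(all in `Gs x δ`; injective: unique factorization; `a_s ≤ x^(1-ur)` iff `lgs x s ≤ 1 - ur`).  By `Y_sum`, `Yr ≥ ∑_s wt(lgs) LV(a_s)² TS(a_s)/log(3x/a_s)`;
`TS ≥ (1 - ε') x/a_s` (`D0_TS_asymp` with `κ = ur`), `log (3x/a_s) = L (1 - lgs + log 3/L)` so `L/log(3x/a_s) ≥ 1/(1 - lgs) - ε'` (as `1 - lgs ≥ ur`), and
`wt(y)/(1 - y) = wf y` for `y ≤ 1 - ur`.  So `Yr ≥ (x/L) ∑_s (wf(lgs) - 4ε'/ur²..) LV(a_s)² rs s - ..`: all quantities are bounded (`|LV| ≤ 2^(1/δ) C`, number of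
prime factors at most `1/δ`, `∑_s rs s ≤ ∏ (1 + 1/p) ≤ exp (∑ 1/p)` bounded by `D0_sum_inv_le`), so the error is `≤ ε/4` for small `ε'`.  `s = ∅`: `a = 1`,
`LV 1 → VV 1` (`LV_XP` with `s = ∅`: `XP = VV 1 - VV 0 = VV 1`), `wf 0 = 1/ur - 1`.  `s ≠ ∅`: `LV(a_s)² ≥ XP² - ..` (`LV_XP`), `star0`.
-/

set_option autoImplicit false

open Finset Filter

open scoped ArithmeticFunction.Moebius

namespace Pool.Agent.Lib.MP_092512_nt.RT

open Pool.Agent.Lib.SW Pool.Agent.Lib.MP_092512_nt.P3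

private theorem AYge_er : (0 : ℝ) < er ∧ (0 : ℝ) < ur ∧ ur < 1 ∧ 1 / ur ≤ 3 ∧ er ≤ 1 := by
  unfold er ur
  norm_num

private theorem AYge_sq (s : Finset ℕ) (hs : ∀ p ∈ s, p.Prime) : Squarefree (∏ p ∈ s, p) := by
  apply Finset.squarefree_prod_of_pairwise_isCoprime
  · intro a ha b hb hab
    exact Nat.coprime_iff_isRelPrime.1 ((Nat.coprime_primes (hs a ha) (hs b hb)).2 hab)
  · intro a ha
    exact (hs a ha).squarefree

private theorem AYge_VV (len : ℕ) (v : ℕ → ℝ) (u : ℝ) : |VV er len v u| ≤ ∑ j ∈ range len, |v j| := by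
  obtain ⟨r0, -, -, -, r4⟩ := AYge_er
  unfold VV
  refine (abs_sum_le_sum_abs _ _).trans (sum_le_sum fun j _ => ?_)
  rw [abs_mul]
  have h1 : |cl er j u| ≤ 1 := by
    unfold cl
    have h2 : 0 ≤ max (u - j * er) 0 := le_max_right _ _
    rw [abs_of_nonneg (le_min h2 r0.le)]
    exact (min_le_right _ _).trans r4
  exact mul_le_of_le_one_right (abs_nonneg _) h1

private theorem AYge_VV0 (len : ℕ) (v : ℕ → ℝ) : VV er len v 0 = 0 := by
  obtain ⟨r0, -⟩ := AYge_er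
  unfold VV
  refine sum_eq_zero fun j _ => ?_
  have h1 : cl er j 0 = 0 := by
    unfold cl
    have h2 : 0 ≤ (j : ℝ) * er := by positivity
    rw [max_eq_right (by linarith), min_eq_left r0.le]
  rw [h1, mul_zero]

/-- elementary inequality for one term -/
private theorem AYge_frac {L y e w l3 : ℝ} (hL : 0 < L) (hy : y ≤ 1 - ur) (hw : 0 ≤ w) (he : 0 ≤ e)
    (he1 : e ≤ 1) (h3 : 0 ≤ l3) (hu : 0 < ur) :
    (1 / L) * (1 - e - l3 / (L * ur)) * (w / (1 - y)) ≤ w * (1 - e) / (L * (1 - y) + l3) := by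
  have hq : 0 < 1 - y := by linarith
  have hLq : 0 < L * (1 - y) := by positivity
  have h1 : (1 / L) * (1 - e - l3 / (L * ur)) * (w / (1 - y)) =
      w * (1 - e - l3 / (L * ur)) / (L * (1 - y)) := by
    field_simp
  rw [h1, div_le_div_iff₀ hLq (by linarith)]
  have h4 : l3 ≤ l3 / (L * ur) * (L * (1 - y)) := by
    have h5 : l3 / (L * ur) * (L * (1 - y)) = l3 * ((1 - y) / ur) := by
      field_simp
    rw [h5]
    have h6 : 1 ≤ (1 - y) / ur := by
      rw [le_div_iff₀ hu]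
      linarith
    nlinarith
  have h7 : 0 ≤ l3 / (L * ur) := by positivity
  have h8 : (1 - e - l3 / (L * ur)) * (L * (1 - y) + l3) ≤ (1 - e) * (L * (1 - y)) := by
    nlinarith [mul_nonneg h7 h3, mul_nonneg he h3]
  calc w * (1 - e - l3 / (L * ur)) * (L * (1 - y) + l3) =
        w * ((1 - e - l3 / (L * ur)) * (L * (1 - y) + l3)) := by ring
    _ ≤ w * ((1 - e) * (L * (1 - y))) := mul_le_mul_of_nonneg_left h8 hw
    _ = w * (1 - e) * (L * (1 - y)) := by ring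

private theorem AYge_one (b : Fin 3 → ℕ) (ε : ℝ) (hε : 0 < ε) : ∃ δ₀ : ℝ, 0 < δ₀ ∧ ∀ δ : ℝ, 0 < δ → δ ≤ δ₀ →
    ∀ B : ℕ, 3 ≤ B → ∀ h0 : ℕ, ∀ᶠ x : ℕ in atTop,
      x / Real.log x * (Pf (lenr b) (vz (∑ j, b j)) - ε) ≤ Yr x (zB B x) δ h0 b := by
  classical
  obtain ⟨r0, r1, r2, r3, r4⟩ := AYge_er
  obtain ⟨len, hlen⟩ : ∃ len, len = lenr b := ⟨_, rfl⟩
  obtain ⟨v, hv⟩ : ∃ v, v = vz (∑ j, b j) := ⟨_, rfl⟩
  have hlen1 : len ≤ 865 := by
    rw [hlen]
    unfold lenr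
    omega
  rw [← hlen, ← hv]
  obtain ⟨δ₁, hδ₁, hstar⟩ := star0 len v (ε / 4) (by positivity)
  refine ⟨min δ₁ er, lt_min hδ₁ r0, fun δ hδ hδ2 B hB h0 => ?_⟩
  have hδ3 : δ ≤ δ₁ := hδ2.trans (min_le_left _ _)
  have hδ4 : δ ≤ er := hδ2.trans (min_le_right _ _)
  have hδ5 : δ ≤ 1 := hδ4.trans r4
  obtain ⟨W, hW⟩ : ∃ W : ℝ, W = ∑ j ∈ range len, |v j| := ⟨_, rfl⟩
  have hW0 : 0 ≤ W := by
    rw [hW]
    exact sum_nonneg fun _ _ => abs_nonneg _
  obtain ⟨n, hn⟩ : ∃ n : ℕ, n = ⌊1 / δ⌋₊ := ⟨_, rfl⟩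
  obtain ⟨K, hK⟩ : ∃ K : ℝ, K = 2 ^ n * (2 * W) := ⟨_, rfl⟩
  have hK0 : 0 ≤ K := by
    rw [hK]
    positivity
  obtain ⟨R, hR⟩ : ∃ R : ℝ, R = Real.exp ((1 - δ + 1) / δ) := ⟨_, rfl⟩
  have hR0 : 0 < R := by
    rw [hR]
    exact Real.exp_pos _
  obtain ⟨e, he⟩ : ∃ e : ℝ, e = min (1 / 4) (ε / (12 * R * (K ^ 2 + K + 1))) := ⟨_, rfl⟩
  have hD : 0 < 12 * R * (K ^ 2 + K + 1) := by positivity
  have he0 : 0 < e := by
    rw [he]
    exact lt_min (by norm_num) (div_pos hε hD)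
  have he1 : e ≤ 1 / 4 := by
    rw [he]
    exact min_le_left _ _
  have he2 : e * (12 * R * (K ^ 2 + K + 1)) ≤ ε := by
    rw [← le_div_iff₀ hD, he]
    exact min_le_right _ _
  have hlog : Tendsto (fun x : ℕ => Real.log (x : ℝ)) atTop atTop :=
    Real.tendsto_log_atTop.comp tendsto_natCast_atTop_atTop
  have hl3 : 0 < Real.log 3 := Real.log_pos (by norm_num)
  filter_upwards [hstar δ hδ hδ3, LV_XP B hB len hlen1 v δ hδ e he0, D0_TS_asymp h0 ur r1 e he0,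
    D0_sum_inv_le δ 1 hδ hδ5, eventually_ge_atTop 3, eventually_ge_atTop h0,
    hlog.eventually_ge_atTop (Real.log 3 / (ur * e))] with x hx1 hx2 hx3 hx4 hx5 hx6 hx7
  have hxR1 : (1 : ℝ) < x := by
    have : 1 < x := by omega
    exact_mod_cast this
  have hxR0 : (0 : ℝ) < x := by linarith
  obtain ⟨L, hL⟩ : ∃ L : ℝ, L = Real.log x := ⟨_, rfl⟩
  have hL0 : 0 < L := by
    rw [hL]
    exact Real.log_pos hxR1
  rw [← hL] at hx7 ⊢
  have hmu : Real.log 3 / (L * ur) ≤ e := by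
    rw [div_le_iff₀ (by positivity)] at hx7
    rw [div_le_iff₀ (by positivity)]
    linarith
  -- the sets
  obtain ⟨S, hS⟩ : ∃ S : Finset (Finset ℕ), S = (PP x δ 1).powerset.filter (fun s => lgs x s ≤ 1 - ur) := ⟨_, rfl⟩
  have hSs : ∀ s ∈ S, s ⊆ PP x δ 1 ∧ lgs x s ≤ 1 - ur := by
    intro s hs
    rw [hS, mem_filter, mem_powerset] at hs
    exact hs
  have hprime : ∀ s ∈ S, ∀ p ∈ s, p.Prime := fun s hs p hp => (mem_PP.1 ((hSs s hs).1 hp)).1
  have hlgs : ∀ s ∈ S, lg x (∏ p ∈ s, p) = lgs x s := by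
    intro s hs
    unfold lgs lg
    rw [Nat.cast_prod, Real.log_prod, sum_div]
    intro p hp
    exact_mod_cast (hprime s hs p hp).ne_zero
  have hpos : ∀ s ∈ S, 0 < ∏ p ∈ s, p := fun s hs => prod_pos fun p hp => (hprime s hs p hp).pos
  have hle : ∀ s ∈ S, ((∏ p ∈ s, p : ℕ) : ℝ) ≤ (x : ℝ) ^ (1 - ur) := by
    intro s hs
    have h1 := (hSs s hs).2
    rw [← hlgs s hs] at h1
    unfold lg at h1
    rw [← hL, div_le_iff₀ hL0] at h1
    have h2 : (0 : ℝ) < ((∏ p ∈ s, p : ℕ) : ℝ) := by exact_mod_cast hpos s hs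
    rw [← Real.log_le_log_iff h2 (Real.rpow_pos_of_pos hxR0 _), Real.log_rpow hxR0, ← hL]
    exact h1
  have hinj : Set.InjOn (fun s : Finset ℕ => ∏ p ∈ s, p) (S : Set (Finset ℕ)) := by
    intro s hs t ht hst
    have h1 : (∏ p ∈ s, p).primeFactors = s := Nat.primeFactors_prod (hprime s (mem_coe.1 hs))
    have h2 : (∏ p ∈ t, p).primeFactors = t := Nat.primeFactors_prod (hprime t (mem_coe.1 ht))
    have hst' : (∏ p ∈ s, p) = ∏ p ∈ t, p := hst
    rw [← h1, ← h2, hst']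
  have hGs : ∀ a ∈ S.image (fun s => ∏ p ∈ s, p), Gs x δ a := by
    intro a ha
    obtain ⟨s, hs, rfl⟩ := mem_image.1 ha
    refine ⟨AYge_sq s (hprime s hs), ?_, hle s hs⟩
    intro p hp
    have h1 : (∏ p ∈ s, p).primeFactors = s := Nat.primeFactors_prod (hprime s hs)
    rw [h1] at hp
    exact (mem_PP.1 ((hSs s hs).1 hp)).2.1
  have hY := Y_sum x (zB B x) h0 hx5 hx6 δ hδ4 (S.image (fun s => ∏ p ∈ s, p)) hGs b
  rw [← hlen, ← hv, sum_image hinj] at hY
  refine le_trans ?_ hY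
  -- number of elements
  have hcard : ∀ s ∈ S, s.card ≤ n := by
    intro s hs
    rw [hn]
    apply Nat.le_floor
    rw [le_div_iff₀ hδ]
    have h1 : lgs x s ≤ 1 := by
      have := (hSs s hs).2
      linarith
    refine le_trans ?_ h1
    unfold lgs
    rw [← nsmul_eq_mul, ← sum_const]
    exact sum_le_sum fun p hp => (PP_lg (by omega) ((hSs s hs).1 hp)).1.le
  obtain ⟨X, hX⟩ : ∃ X : Finset ℕ → ℝ, X = fun s => XP x (fun u => VV er len v 1 - VV er len v u) s := ⟨_, rfl⟩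
  have hXK : ∀ s ∈ S, |X s| ≤ K := by
    intro s hs
    rw [hX, hK]
    have h1 := XP_abs x (fun u => VV er len v 1 - VV er len v u) 1 (2 * W) (fun u _ _ => by
      have a1 := AYge_VV len v 1
      have a2 := AYge_VV len v u
      rw [← hW] at a1 a2
      have a3 := abs_sub (VV er len v 1) (VV er len v u)
      linarith) s (by
        have := (hSs s hs).2
        linarith)
    refine h1.trans ?_
    exact mul_le_mul_of_nonneg_right (pow_le_pow_right₀ (by norm_num) (hcard s hs)) (by positivity)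
  -- the masses
  have hRs : ∑ s ∈ S, wf (lgs x s) * rs s ≤ 3 * R := by
    have h1 : ∑ s ∈ S, wf (lgs x s) * rs s ≤ ∑ s ∈ S, 3 * rs s :=
      sum_le_sum fun s _ => mul_le_mul_of_nonneg_right ((wf_le _ (lgs_nonneg x s)).trans r3) (rs_nonneg s)
    have h2 : ∑ s ∈ S, rs s ≤ ∑ s ∈ (PP x δ 1).powerset, rs s := by
      rw [hS]
      exact sum_le_sum_of_subset_of_nonneg (filter_subset _ _) fun s _ _ => rs_nonneg s
    have h3 : ∑ s ∈ (PP x δ 1).powerset, rs s = ∏ p ∈ PP x δ 1, (1 + 1 / (p : ℝ)) := by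
      rw [prod_one_add]
      rfl
    have h4 : ∏ p ∈ PP x δ 1, (1 + 1 / (p : ℝ)) ≤ R := by
      rw [hR]
      have h5 : ∏ p ∈ PP x δ 1, (1 + 1 / (p : ℝ)) ≤ ∏ p ∈ PP x δ 1, Real.exp (1 / (p : ℝ)) :=
        prod_le_prod (fun p _ => by positivity) fun p _ => by
          have := Real.add_one_le_exp (1 / (p : ℝ))
          linarith
      rw [← Real.exp_sum] at h5
      exact h5.trans (Real.exp_le_exp.2 hx4)
    rw [← mul_sum] at h1
    rw [← h3] at h4
    have h6 := h2.trans h4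
    linarith
  -- one term
  have hterm : ∀ s ∈ S, x / L * (wf (lgs x s) * rs s * (X s ^ 2 - 2 * e * (K ^ 2 + K))) ≤
      wt (lg x (∏ p ∈ s, p)) * LV x (zB B x) er len v (∏ p ∈ s, p) ^ 2 * TS x h0 (∏ p ∈ s, p) /
        Real.log (3 * x / ((∏ p ∈ s, p : ℕ) : ℝ)) := by
    intro s hs
    obtain ⟨a, ha⟩ : ∃ a : ℕ, a = ∏ p ∈ s, p := ⟨_, rfl⟩
    have hy := (hSs s hs).2
    have hsX := hx2 s (hSs s hs).1 (by linarith)
    have ha0 : 0 < a := by
      rw [ha]
      exact hpos s hs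
    have haR : (0 : ℝ) < a := by exact_mod_cast ha0
    have hlga := hlgs s hs
    have hle' := hle s hs
    rw [← ha] at hlga hsX hle' ⊢
    have hTS := hx3 a ha0 hle'
    have hXs : |LV x (zB B x) er len v a - X s| ≤ e := by
      rw [hX]
      exact hsX
    obtain ⟨V, hV⟩ : ∃ V : ℝ, V = LV x (zB B x) er len v a := ⟨_, rfl⟩
    rw [← hV] at hXs ⊢
    obtain ⟨y, hyy⟩ : ∃ y : ℝ, y = lgs x s := ⟨_, rfl⟩
    rw [hlga, ← hyy]
    rw [← hyy] at hy hlga
    have hrs : rs s = 1 / (a : ℝ) := by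
      unfold rs
      rw [ha, Nat.cast_prod]
      simp only [one_div, prod_inv_distrib]
    have hloga : Real.log a = y * L := by
      have h1 := hlga
      unfold lg at h1
      rw [← hL, div_eq_iff hL0.ne'] at h1
      exact h1
    have hlog3 : Real.log (3 * x / (a : ℝ)) = L * (1 - y) + Real.log 3 := by
      rw [Real.log_div (by positivity) haR.ne', Real.log_mul (by norm_num) hxR0.ne', hloga, ← hL]
      ring
    have hwt : 0 ≤ wt y := by
      unfold wt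
      rw [sub_nonneg, le_div_iff₀ r1]
      linarith
    have hwf : wf y = wt y / (1 - y) := by
      have h1 : (1 - y) ≠ 0 := by
        have : 0 < 1 - y := by linarith
        exact this.ne'
      unfold wf wt
      rw [if_pos hy]
      field_simp
    have hwf0 : 0 ≤ wf y := by
      rw [hwf]
      exact div_nonneg hwt (by linarith)
    have hTS' : (1 - e) * ((x : ℝ) / a) ≤ TS x h0 a := by
      have h1 := (abs_le.1 hTS).1
      linarith
    have hden : 0 < L * (1 - y) + Real.log 3 := by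
      have : 0 < L * (1 - y) := mul_pos hL0 (by linarith)
      linarith
    have hfr := AYge_frac (L := L) (y := y) (e := e) (w := wt y) (l3 := Real.log 3) hL0 hy hwt he0.le (by linarith) hl3.le r1
    have hV2 : X s ^ 2 - 2 * e * K ≤ V ^ 2 := by
      have h1 := abs_le.1 (hXK s hs)
      have h2 := abs_le.1 hXs
      have h3 : V ^ 2 = X s ^ 2 + 2 * X s * (V - X s) + (V - X s) ^ 2 := by ring
      have h4 : -(K * e) ≤ X s * (V - X s) := by
        have h5 : |X s * (V - X s)| ≤ K * e := by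
          rw [abs_mul]
          exact mul_le_mul (hXK s hs) hXs (abs_nonneg _) hK0
        exact (abs_le.1 h5).1
      nlinarith [sq_nonneg (V - X s)]
    have hX2 : X s ^ 2 ≤ K ^ 2 := by
      rw [← sq_abs (X s)]
      exact pow_le_pow_left₀ (abs_nonneg _) (hXK s hs) 2
    rw [hlog3]
    have hc : 0 ≤ 1 - e - Real.log 3 / (L * ur) := by linarith
    have hc0 : 0 ≤ Real.log 3 / (L * ur) := by positivity
    have hlow : X s ^ 2 - 2 * e * (K ^ 2 + K) ≤ (1 - e - Real.log 3 / (L * ur)) * V ^ 2 := by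
      have h1 : (1 - e - Real.log 3 / (L * ur)) * (X s ^ 2 - 2 * e * K) ≤
          (1 - e - Real.log 3 / (L * ur)) * V ^ 2 := mul_le_mul_of_nonneg_left hV2 hc
      refine le_trans ?_ h1
      have h2 : (e + Real.log 3 / (L * ur)) * X s ^ 2 ≤ (2 * e) * K ^ 2 :=
        mul_le_mul (by linarith) hX2 (sq_nonneg _) (by linarith)
      have h3 : 0 ≤ (e + Real.log 3 / (L * ur)) * (2 * e * K) := by positivity
      nlinarith
    calc x / L * (wf y * rs s * (X s ^ 2 - 2 * e * (K ^ 2 + K))) ≤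
          x / L * (wf y * rs s * ((1 - e - Real.log 3 / (L * ur)) * V ^ 2)) := by
          refine mul_le_mul_of_nonneg_left ?_ (by positivity)
          exact mul_le_mul_of_nonneg_left hlow (mul_nonneg hwf0 (rs_nonneg s))
      _ = ((1 / L) * (1 - e - Real.log 3 / (L * ur)) * (wt y / (1 - y))) * (V ^ 2 * (x / a)) := by
          rw [hwf, hrs]
          ring
      _ ≤ (wt y * (1 - e) / (L * (1 - y) + Real.log 3)) * (V ^ 2 * (x / a)) :=
          mul_le_mul_of_nonneg_right hfr (by positivity)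
      _ = (wt y * V ^ 2 * ((1 - e) * (x / a))) / (L * (1 - y) + Real.log 3) := by ring
      _ ≤ wt y * V ^ 2 * TS x h0 a / (L * (1 - y) + Real.log 3) := by
          refine div_le_div_of_nonneg_right ?_ hden.le
          exact mul_le_mul_of_nonneg_left hTS' (mul_nonneg hwt (sq_nonneg _))
  refine le_trans ?_ (sum_le_sum hterm)
  rw [← mul_sum]
  refine mul_le_mul_of_nonneg_left ?_ (by positivity)
  have hsplit : ∑ s ∈ S, wf (lgs x s) * rs s * (X s ^ 2 - 2 * e * (K ^ 2 + K)) =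
      ∑ s ∈ S, wf (lgs x s) * X s ^ 2 * rs s - 2 * e * (K ^ 2 + K) * ∑ s ∈ S, wf (lgs x s) * rs s := by
    rw [mul_sum, ← sum_sub_distrib]
    exact sum_congr rfl fun s _ => by ring
  rw [hsplit]
  have hempty : (∅ : Finset ℕ) ∈ S := by
    rw [hS, mem_filter]
    refine ⟨empty_mem_powerset _, ?_⟩
    unfold lgs
    rw [sum_empty]
    linarith
  have h0term : wf (lgs x ∅) * X ∅ ^ 2 * rs ∅ = (1 / ur - 1) * VV er len v 1 ^ 2 := by
    have h1 : lgs x ∅ = 0 := by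
      unfold lgs
      rw [sum_empty]
    have h2 : rs ∅ = 1 := by
      unfold rs
      rw [prod_empty]
    have h3 : X ∅ = VV er len v 1 := by
      rw [hX]
      show XP x (fun u => VV er len v 1 - VV er len v u) ∅ = VV er len v 1
      unfold XP
      rw [powerset_empty, sum_singleton, card_empty, pow_zero, one_mul]
      show VV er len v 1 - VV er len v (lgs x ∅) = VV er len v 1
      rw [h1, AYge_VV0, sub_zero]
    have h4 : wf 0 = 1 / ur - 1 := by
      unfold wf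
      rw [if_pos (by linarith), sub_zero, div_one]
    rw [h1, h2, h3, h4, mul_one]
  have hT : (1 / ur - 1) * VV er len v 1 ^ 2 + ((∫ y in (0 : ℝ)..(1 - ur), wf y * QI len v y) - ε / 4) ≤
      ∑ s ∈ S, wf (lgs x s) * X s ^ 2 * rs s := by
    rw [← add_sum_erase S _ hempty, h0term]
    refine add_le_add le_rfl (hx1.trans (le_of_eq ?_))
    have h1 : ∑ s ∈ S.erase ∅, wf (lgs x s) * X s ^ 2 * rs s =
        ∑ s ∈ (PP x δ 1).powerset.erase ∅, wf (lgs x s) * X s ^ 2 * rs s := by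
      apply sum_subset
      · rw [hS]
        exact erase_subset_erase _ (filter_subset _ _)
      · intro s hs hs'
        rw [mem_erase] at hs
        have h2 : ¬ lgs x s ≤ 1 - ur := by
          intro h3
          apply hs'
          rw [mem_erase, hS, mem_filter]
          exact ⟨hs.1, hs.2, h3⟩
        have h4 : wf (lgs x s) = 0 := by
          unfold wf
          rw [if_neg h2]
        rw [h4, zero_mul, zero_mul]
    rw [h1, hX]
  have hPf : Pf len v = (1 / ur - 1) * VV er len v 1 ^ 2 + ∫ y in (0 : ℝ)..(1 - ur), wf y * QI len v y := rfl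
  have hfin : 2 * e * (K ^ 2 + K) * ∑ s ∈ S, wf (lgs x s) * rs s ≤ ε / 2 := by
    calc 2 * e * (K ^ 2 + K) * ∑ s ∈ S, wf (lgs x s) * rs s ≤ 2 * e * (K ^ 2 + K) * (3 * R) :=
          mul_le_mul_of_nonneg_left hRs (by positivity)
      _ ≤ 2 * e * (K ^ 2 + K + 1) * (3 * R) := by
          refine mul_le_mul_of_nonneg_right ?_ (by positivity)
          exact mul_le_mul_of_nonneg_left (by linarith) (by positivity)
      _ = (e * (12 * R * (K ^ 2 + K + 1))) / 2 := by ring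
      _ ≤ ε / 2 := by linarith
  rw [hPf]
  linarith

theorem Y_ge (ε : ℝ) (hε : 0 < ε) : ∃ δ₀ : ℝ, 0 < δ₀ ∧ ∀ δ : ℝ, 0 < δ → δ ≤ δ₀ → ∀ B : ℕ, 3 ≤ B →
    ∀ h0 : ℕ, ∃ x₀ : ℕ, ∀ x : ℕ, x₀ ≤ x → ∀ b ∈ BR,
      x / Real.log x * (Pf (lenr b) (vz (∑ j, b j)) - ε) ≤ Yr x (zB B x) δ h0 b := by
  classical
  have key : ∀ Q : Finset (Fin 3 → ℕ), ∃ δ₀ : ℝ, 0 < δ₀ ∧ ∀ δ : ℝ, 0 < δ → δ ≤ δ₀ → ∀ B : ℕ, 3 ≤ B →
      ∀ h0 : ℕ, ∀ᶠ x : ℕ in atTop, ∀ b ∈ Q,
        x / Real.log x * (Pf (lenr b) (vz (∑ j, b j)) - ε) ≤ Yr x (zB B x) δ h0 b := by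
    intro Q
    induction Q using Finset.induction_on with
    | empty => exact ⟨1, one_pos, fun δ _ _ B _ h0 => Eventually.of_forall fun x b hb => absurd hb (notMem_empty b)⟩
    | insert b0 Q _ ih =>
      obtain ⟨δ₁, h1, h2⟩ := ih
      obtain ⟨δ₂, h3, h4⟩ := AYge_one b0 ε hε
      refine ⟨min δ₁ δ₂, lt_min h1 h3, fun δ hδ hδ' B hB h0 => ?_⟩
      filter_upwards [h2 δ hδ (hδ'.trans (min_le_left _ _)) B hB h0,
        h4 δ hδ (hδ'.trans (min_le_right _ _)) B hB h0] with x hx1 hx2 b hb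
      rcases mem_insert.1 hb with rfl | hb
      · exact hx2
      · exact hx1 b hb
  obtain ⟨δ₀, h1, h2⟩ := key BR
  refine ⟨δ₀, h1, fun δ hδ hδ' B hB h0 => ?_⟩
  obtain ⟨x₀, hx₀⟩ := eventually_atTop.1 (h2 δ hδ hδ' B hB h0)
  exact ⟨x₀, fun x hx => hx₀ x hx⟩

end Pool.Agent.Lib.MP_092512_nt.RT
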