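import Pool.Agent.Lib.MP_092512_nt.RT.BLevA
import Pool.Agent.Lib.MP_092512_nt.P3.LevC
import Pool.Agent.Lib.MP_092512_nt.P3.C4
import Pool.Agent.Lib.BV.Main

/-!
# B: level of distribution (adapt the proof of `LevC_main` in Lib/.../P3/LevC.lean)

PROOF.  As `LevC_main`, with `64` replaced by the bound `K` of `gR_bd`, `LevC_supp` by `gR_supp`, `LevB_decomp` by `GR_decomp`, and the constant
`κ = (1/ur - 1) lamC_j 1 lamC_j' 1/log (3x)`, `|κ| ≤ 8`.  `lamC_le` with `jm = 864`: `865 er ≤ 1`.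
-/

set_option autoImplicit false

open Finset Filter

open scoped ArithmeticFunction.Moebius

namespace Pool.Agent.Lib.MP_092512_nt.RT

open Pool.Agent.Lib.SW Pool.Agent.Lib.MP_092512_nt.P3

open Pool.Agent.Lib.BV in
theorem level_GG (h0 B : ℕ) (hB : 3 ≤ B) (δ : ℝ) (hδ : 0 < δ) (hδ1 : δ ≤ er) (A K : ℕ) (ε : ℝ) (hε : 0 < ε) :
    ∃ x₀ : ℕ, ∀ x : ℕ, x₀ ≤ x → ∀ j ≤ 864, ∀ j' ≤ 864,
      LevelBd (FR x (zB B x) δ h0 j j') (3 * x) ⌊(x : ℝ) ^ (1 / 2 - ε)⌋₊ K (x / (Real.log x) ^ A) := by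
  have her : (0 : ℝ) < er := by unfold er; norm_num
  obtain ⟨x1, hx1⟩ := lamC_le B 864 hB er her (by unfold er; norm_num)
  obtain ⟨K1, hK1, hbd⟩ := gR_bd δ hδ hδ1
  obtain ⟨δ', hδ'0, hsupp⟩ := gR_supp δ hδ hδ1
  obtain ⟨x2, hx2⟩ := bvp (A + 1) K ε hε
  obtain ⟨x3, hx3⟩ := bvb (A + 1) K ε δ' hε hδ'0
  obtain ⟨x4, hx4⟩ := exists_nat_ge (Real.exp (48 + 6 * K1))
  have hK0 : (0 : ℝ) < K1 := by exact_mod_cast hK1
  refine ⟨max 3 (max h0 (max x1 (max x2 (max x3 x4)))), fun x hx j hj j' hj' => ?_⟩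
  simp only [max_le_iff] at hx
  obtain ⟨hxa, hxb, hxc, hxd, hxe, hxf⟩ := hx
  have hx0 : (0 : ℝ) < x := by exact_mod_cast (by omega : 0 < x)
  set z := zB B x with hz
  have hl := hx1 x hxc j hj
  have hl' := hx1 x hxc j' hj'
  have hlog : 48 + 6 * (K1 : ℝ) ≤ Real.log x := by
    rw [Real.le_log_iff_exp_le hx0]
    exact hx4.trans (by exact_mod_cast hxf)
  have hur : 1 ≤ ur * Real.log x := by
    have h1 : (48 : ℝ) ≤ Real.log x := by linarith
    unfold ur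
    linarith
  intro l hl0
  have hlc : ∀ q ∈ Icc 1 ⌊(x : ℝ) ^ (1 / 2 - ε)⌋₊, (l q).Coprime q := fun q hq =>
    hl0 q (mem_Icc.mp hq).1
  -- the four mean values
  set G : ℕ → ℝ := fun a => gR x z δ j j' a / K1 with hG
  have hG1 : ∀ m, |G m| ≤ 1 := by
    intro m
    simp only [hG]
    rw [abs_div, abs_of_pos hK0, div_le_one hK0]
    exact hbd x hxa hur z j j' hl hl' m
  have hG2 : ∀ m, G m ≠ 0 → ((3 * x : ℕ) : ℝ) ^ δ' ≤ m ∧ (m : ℝ) ≤ ((3 * x : ℕ) : ℝ) ^ (1 - δ') := by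
    intro m hm
    refine hsupp x hxa z j j' m ?_
    intro h
    exact hm (by simp only [hG]; rw [h, zero_div])
  have hFB : ∀ (b : ℕ → ℕ) (n : ℕ), FB (gR x z δ j j') b n = K1 * FB G b n := by
    intro b n
    unfold FB
    rw [mul_sum]
    refine sum_congr rfl fun p _ => ?_
    simp only [hG]
    field_simp
  have bd : ∀ Y : ℕ, x ≤ Y → Y ≤ 3 * x →
      (Y : ℝ) / (Real.log Y) ^ (A + 1) ≤ 3 * x / (Real.log x) ^ (A + 1) := by
    intro Y hY1 hY2
    have h1 : Real.log x ≤ Real.log Y := Real.log_le_log hx0 (by exact_mod_cast hY1)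
    have h2 : (Y : ℝ) ≤ 3 * x := by exact_mod_cast hY2
    have h3 : (Real.log x) ^ (A + 1) ≤ (Real.log Y) ^ (A + 1) :=
      pow_le_pow_left₀ (by linarith) h1 _
    have h4 : 0 < (Real.log x) ^ (A + 1) := pow_pos (by linarith) _
    exact div_le_div₀ (by positivity) h2 h4 h3
  have s1 := (hx2 (2 * x + h0) (by omega) _ (LevC_Q (by omega) (by omega)) l hlc).trans
    (bd (2 * x + h0) (by omega) (by omega))
  have s2 := (hx2 (x + h0) (by omega) _ (LevC_Q (by omega) (by omega)) l hlc).trans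
    (bd (x + h0) (by omega) (by omega))
  have s3 := (hx3 (3 * x) (by omega) _ (LevC_Q (by omega) (by omega)) G
    (fun a => (2 * x + h0) / a) hG1 hG2 l hlc).trans (bd (3 * x) (by omega) le_rfl)
  have s4 := (hx3 (3 * x) (by omega) _ (LevC_Q (by omega) (by omega)) G
    (fun a => (x + h0) / a) hG1 hG2 l hlc).trans (bd (3 * x) (by omega) le_rfl)
  set κ : ℝ := (1 / ur - 1) * (lamC x z er j 1 * lamC x z er j' 1) / Real.log (3 * x) with hκ
  have hκ4 : |κ| ≤ 8 := by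
    have h1 : 1 ≤ Real.log (3 * x) := by
      have : Real.log x ≤ Real.log (3 * x) := Real.log_le_log hx0 (by linarith)
      linarith
    rw [hκ, abs_div, abs_mul, abs_mul, abs_of_pos (by linarith : 0 < Real.log (3 * x)),
      div_le_iff₀ (by linarith)]
    have h5 : |lamC x z er j 1| * |lamC x z er j' 1| ≤ 2 * 2 :=
      mul_le_mul (hl 1) (hl' 1) (abs_nonneg _) (by norm_num)
    have h6 : |1 / ur - 1| ≤ 2 := by
      unfold ur
      rw [abs_le]
      norm_num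
    have h7 : |1 / ur - 1| * (|lamC x z er j 1| * |lamC x z er j' 1|) ≤ 2 * (2 * 2) :=
      mul_le_mul h6 h5 (by positivity) (by norm_num)
    linarith
  have key : ∀ q, |disc (FR x z δ h0 j j') (3 * x) q (l q)| ≤
      8 * (|EE th (2 * x + h0) q (l q)| + |EE th (x + h0) q (l q)|) +
      K1 * (|EE (FB G (fun a => (2 * x + h0) / a)) (3 * x) q (l q)| +
        |EE (FB G (fun a => (x + h0) / a)) (3 * x) q (l q)|) := by
    intro q
    rw [LevA_disc, LevA_EE_congr _ _ (3 * x) q (l q)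
      (fun n hn => GR_decomp h0 x z hxa hxb δ hδ hδ1 j j' hj hj' n hn),
      LevA_EE_add, LevA_EE_mul, LevA_EE_Ioc th (3 * x) (x + h0) (2 * x + h0) q (l q) (by omega)
      (by omega), LevA_EE_sub]
    have e1 : ∀ b : ℕ → ℕ, EE (FB (gR x z δ j j') b) (3 * x) q (l q) =
        K1 * EE (FB G b) (3 * x) q (l q) := by
      intro b
      rw [← LevA_EE_mul]
      exact LevA_EE_congr _ _ _ _ _ fun n _ => hFB b n
    rw [e1, e1, ← hκ]
    refine (abs_add_le _ _).trans (add_le_add ?_ ?_)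
    · rw [abs_mul]
      exact mul_le_mul hκ4 (abs_sub _ _) (abs_nonneg _) (by norm_num)
    · rw [← mul_sub, abs_mul, abs_of_pos hK0]
      exact mul_le_mul_of_nonneg_left (abs_sub _ _) hK0.le
  calc ∑ q ∈ Icc 1 ⌊(x : ℝ) ^ (1 / 2 - ε)⌋₊, (K : ℝ) ^ q.primeFactors.card *
        |disc (FR x z δ h0 j j') (3 * x) q (l q)|
      ≤ ∑ q ∈ Icc 1 ⌊(x : ℝ) ^ (1 / 2 - ε)⌋₊, (K : ℝ) ^ q.primeFactors.card *
        (8 * (|EE th (2 * x + h0) q (l q)| + |EE th (x + h0) q (l q)|) +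
      K1 * (|EE (FB G (fun a => (2 * x + h0) / a)) (3 * x) q (l q)| +
        |EE (FB G (fun a => (x + h0) / a)) (3 * x) q (l q)|)) :=
        sum_le_sum fun q _ => mul_le_mul_of_nonneg_left (key q) (by positivity)
    _ = 8 * (∑ q ∈ Icc 1 ⌊(x : ℝ) ^ (1 / 2 - ε)⌋₊, (K : ℝ) ^ q.primeFactors.card *
          |EE th (2 * x + h0) q (l q)| + ∑ q ∈ Icc 1 ⌊(x : ℝ) ^ (1 / 2 - ε)⌋₊,
          (K : ℝ) ^ q.primeFactors.card * |EE th (x + h0) q (l q)|) +
        K1 * (∑ q ∈ Icc 1 ⌊(x : ℝ) ^ (1 / 2 - ε)⌋₊, (K : ℝ) ^ q.primeFactors.card *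
          |EE (FB G (fun a => (2 * x + h0) / a)) (3 * x) q (l q)| +
          ∑ q ∈ Icc 1 ⌊(x : ℝ) ^ (1 / 2 - ε)⌋₊, (K : ℝ) ^ q.primeFactors.card *
          |EE (FB G (fun a => (x + h0) / a)) (3 * x) q (l q)|) := by
        rw [← sum_add_distrib, ← sum_add_distrib, mul_sum, mul_sum, ← sum_add_distrib]
        exact sum_congr rfl fun q _ => by ring
    _ ≤ 8 * (3 * x / (Real.log x) ^ (A + 1) + 3 * x / (Real.log x) ^ (A + 1)) +
        K1 * (3 * x / (Real.log x) ^ (A + 1) + 3 * x / (Real.log x) ^ (A + 1)) := by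
        gcongr
    _ = (48 + 6 * K1) / Real.log x * (x / (Real.log x) ^ A) := by
        have hl0' : Real.log x ≠ 0 := by linarith
        rw [pow_succ]
        field_simp
        ring
    _ ≤ x / (Real.log x) ^ A := by
        have hl0' : 0 < Real.log x := by linarith
        refine mul_le_of_le_one_left (by positivity) ?_
        rw [div_le_one hl0']
        exact hlog

end Pool.Agent.Lib.MP_092512_nt.RT
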