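import Pool.Agent.Lib.MP_092512_nt.RT.AYeq
import Pool.Agent.Lib.MP_092512_nt.P3.LevB

/-!
# B: the coefficients of the bilinear part (adapt Lib/.../P3/LevB.lean)

`gR a = wt(lg a) LC_j(a) LC_j'(a)/log(3x/a)` for `a ∈ Gs`, `a > 1`, `0` else.
PROOFS.  `a ∈ Gs`, `a > 1`: `a > x^δ` (it has a prime factor), `a ≤ x^(1-ur)`, at most `1/δ` prime factors, so at most `2^(1/δ)` divisors and `|LC| ≤ 2 · 2^(1/δ)` (`hl`: `|lamC| ≤ 2`).
`log (3x/a) ≥ log (x^ur) = ur log x ≥ 1`, `0 ≤ wt ≤ 3`.  `GR_decomp`: for `x + h0 < m ≤ 2x + h0` the sum `GG m` runs over `p ∣ m` with `m/p = 1` (then `m = p` is prime, `wt 0 = 1/ur - 1`,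
`log m/log (3x)`), and `p ∣ m` with `a = m/p > 1`; `LC_j(m) = LC_j(a)` as `m = a p`, `p > x^ur > x^(1/3) ≥ x^((j+1) er)` (`LC_mul_prime`), and `LC_j(m) = lamC_j 1` for prime `m`
(`LevA_LC_prime`).  `FB g b n = ∑_{p ∣ n, p ≤ b(n/p)} g(n/p) log p` as in `LevB_FB` (see LevB_decomp, copy it).
-/

set_option autoImplicit false

open Finset Filter

open scoped ArithmeticFunction.Moebius

open Pool.Agent.Lib.BV

namespace Pool.Agent.Lib.MP_092512_nt.RT

open Pool.Agent.Lib.SW Pool.Agent.Lib.MP_092512_nt.P3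

open Classical in
noncomputable def gR (x z : ℕ) (δ : ℝ) (j j' a : ℕ) : ℝ :=
  if Gs x δ a ∧ 1 < a then
    wt (lg x a) * (LC x z er j a * LC x z er j' a) / Real.log (3 * x / (a : ℝ)) else 0

private theorem BLevA_ur : 0 < ur ∧ ur < 1 ∧ er < ur ∧ 1 / ur ≤ 3 := by
  unfold ur er
  norm_num

private theorem BLevA_er : 0 < er ∧ er < 1 := by
  unfold er
  norm_num

/-- the number of divisors of a member of `Gs` -/
private theorem BLevA_card (δ : ℝ) (hδ : 0 < δ) (x a : ℕ) (hx : 3 ≤ x) (hG : Gs x δ a) :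
    a.divisors.card ≤ 2 ^ ⌊1 / δ⌋₊ := by
  obtain ⟨hu0, hu1, hu2, hu3⟩ := BLevA_ur
  have hx1 : (1 : ℝ) < x := by
    have : (3 : ℝ) ≤ x := by exact_mod_cast hx
    linarith
  have hx0 : (0 : ℝ) < x := by linarith
  obtain ⟨h1, h2, h3⟩ := hG
  have ha0 : a ≠ 0 := h1.ne_zero
  have h4 : a.divisors.card = 2 ^ a.primeFactors.card := by
    rw [Nat.card_divisors ha0, ← prod_const]
    refine prod_congr rfl fun p hp => ?_
    have h5 := Nat.prime_of_mem_primeFactors hp
    have h6 := h1.natFactorization_le_one p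
    have h7 : 0 < a.factorization p :=
      h5.factorization_pos_of_dvd ha0 (Nat.dvd_of_mem_primeFactors hp)
    omega
  rw [h4]
  refine Nat.pow_le_pow_right (by norm_num) ?_
  rw [Nat.le_floor_iff (by positivity), le_div_iff₀ hδ]
  have h5 : ((x : ℝ) ^ δ) ^ a.primeFactors.card ≤ a := by
    have h6 : ∏ p ∈ a.primeFactors, (x : ℝ) ^ δ ≤ ∏ p ∈ a.primeFactors, (p : ℝ) :=
      prod_le_prod (fun _ _ => by positivity) fun p hp => (h2 p hp).le
    rw [prod_const] at h6
    refine h6.trans (le_of_eq ?_)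
    rw [← Nat.cast_prod, Nat.prod_primeFactors_of_squarefree h1]
  have h6 : ((x : ℝ) ^ δ) ^ a.primeFactors.card = (x : ℝ) ^ ((a.primeFactors.card : ℝ) * δ) := by
    rw [mul_comm, Real.rpow_mul_natCast hx0.le]
  have h7 : (x : ℝ) ^ (1 - ur) ≤ (x : ℝ) ^ (1 : ℝ) :=
    Real.rpow_le_rpow_of_exponent_le hx1.le (by linarith)
  rw [h6] at h5
  have h8 : (x : ℝ) ^ ((a.primeFactors.card : ℝ) * δ) ≤ (x : ℝ) ^ (1 : ℝ) := h5.trans (h3.trans h7)
  exact (Real.rpow_le_rpow_left_iff hx1).mp h8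

private theorem BLevA_LC (x z : ℕ) (j a N : ℕ) (hN : a.divisors.card ≤ N)
    (hl : ∀ d, |lamC x z er j d| ≤ 2) : |LC x z er j a| ≤ 2 * N := by
  unfold LC
  refine (abs_sum_le_sum_abs _ _).trans ?_
  refine (sum_le_card_nsmul _ _ 2 fun d _ => hl d).trans ?_
  rw [nsmul_eq_mul]
  have h1 : (a.divisors.card : ℝ) ≤ N := by exact_mod_cast hN
  linarith

theorem gR_bd (δ : ℝ) (hδ : 0 < δ) (hδ1 : δ ≤ er) : ∃ K : ℕ, 1 ≤ K ∧ ∀ x : ℕ, 3 ≤ x → 1 ≤ ur * Real.log x →
    ∀ z j j' : ℕ, (∀ d, |lamC x z er j d| ≤ 2) → (∀ d, |lamC x z er j' d| ≤ 2) → ∀ a : ℕ,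
      |gR x z δ j j' a| ≤ K := by
  classical
  have _ := hδ1
  obtain ⟨hu0, hu1, hu2, hu3⟩ := BLevA_ur
  set N : ℕ := 2 ^ ⌊1 / δ⌋₊ with hN
  have hN1 : 1 ≤ N := Nat.one_le_two_pow
  refine ⟨3 * ((2 * N) * (2 * N)), by nlinarith, fun x hx hux z j j' hl hl' a => ?_⟩
  have hx1 : (1 : ℝ) < x := by
    have : (3 : ℝ) ≤ x := by exact_mod_cast hx
    linarith
  have hx0 : (0 : ℝ) < x := by linarith
  have hlx : 0 < Real.log x := Real.log_pos hx1
  unfold gR
  split_ifs with hA
  · obtain ⟨hG, ha1⟩ := hA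
    have hc := BLevA_card δ hδ x a hx hG
    have k1 := BLevA_LC x z j a N hc hl
    have k2 := BLevA_LC x z j' a N hc hl'
    have haR : (1 : ℝ) < a := by exact_mod_cast ha1
    have ha0 : (0 : ℝ) < a := by linarith
    have hlg0 : 0 ≤ lg x a := by
      unfold lg
      exact div_nonneg (Real.log_nonneg haR.le) hlx.le
    have hlg1 : lg x a ≤ 1 - ur := by
      unfold lg
      rw [div_le_iff₀ hlx, ← Real.log_rpow hx0]
      exact Real.log_le_log ha0 hG.2.2
    have hw : |wt (lg x a)| ≤ 3 := by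
      unfold wt
      have e1 : 1 ≤ (1 - lg x a) / ur := by
        rw [le_div_iff₀ hu0]
        linarith
      have e2 : (1 - lg x a) / ur ≤ 1 / ur := div_le_div_of_nonneg_right (by linarith) hu0.le
      rw [abs_le]
      constructor <;> linarith
    have hlog : 1 ≤ Real.log (3 * x / (a : ℝ)) := by
      refine hux.trans ?_
      rw [← Real.log_rpow hx0]
      refine Real.log_le_log (Real.rpow_pos_of_pos hx0 _) ?_
      rw [le_div_iff₀ ha0]
      have e1 : (x : ℝ) ^ ur * (x : ℝ) ^ (1 - ur) = x := by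
        rw [← Real.rpow_add hx0, show ur + (1 - ur) = 1 by ring, Real.rpow_one]
      have e2 : (x : ℝ) ^ ur * a ≤ (x : ℝ) ^ ur * (x : ℝ) ^ (1 - ur) :=
        mul_le_mul_of_nonneg_left hG.2.2 (Real.rpow_nonneg hx0.le _)
      linarith
    rw [abs_div, abs_mul, abs_mul, abs_of_pos (lt_of_lt_of_le one_pos hlog)]
    rw [div_le_iff₀ (lt_of_lt_of_le one_pos hlog)]
    have e3 : |wt (lg x a)| * (|LC x z er j a| * |LC x z er j' a|) ≤ 3 * ((2 * N) * (2 * N)) :=
      mul_le_mul hw (mul_le_mul k1 k2 (abs_nonneg _) (by positivity))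
        (mul_nonneg (abs_nonneg _) (abs_nonneg _)) (by norm_num)
    refine e3.trans ?_
    push_cast
    exact le_mul_of_one_le_right (by positivity) hlog
  · rw [abs_zero]
    positivity

theorem gR_supp (δ : ℝ) (hδ : 0 < δ) (hδ1 : δ ≤ er) : ∃ δ' : ℝ, 0 < δ' ∧ ∀ x : ℕ, 3 ≤ x → ∀ z j j' a : ℕ,
    gR x z δ j j' a ≠ 0 → ((3 * x : ℕ) : ℝ) ^ δ' ≤ a ∧ (a : ℝ) ≤ ((3 * x : ℕ) : ℝ) ^ (1 - δ') := by
  classical
  obtain ⟨hu0, hu1, hu2, hu3⟩ := BLevA_ur
  refine ⟨δ / 2, by positivity, fun x hx z j j' a ha => ?_⟩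
  have hx3 : (3 : ℝ) ≤ x := by exact_mod_cast hx
  have hx1 : (1 : ℝ) < x := by linarith
  have hx0 : (0 : ℝ) < x := by linarith
  have hA : Gs x δ a ∧ 1 < a := by
    by_contra hc
    apply ha
    unfold gR
    rw [if_neg hc]
  obtain ⟨hG, ha1⟩ := hA
  have h3x : ((3 * x : ℕ) : ℝ) = 3 * x := by push_cast; ring
  rw [h3x]
  constructor
  · obtain ⟨p, hp, hpa⟩ := Nat.exists_prime_and_dvd (show a ≠ 1 by omega)
    have h1 := hG.2.1 p (Nat.mem_primeFactors.mpr ⟨hp, hpa, by omega⟩)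
    have h2 : (p : ℝ) ≤ a := by exact_mod_cast Nat.le_of_dvd (by omega) hpa
    have h3 : (3 * (x : ℝ)) ^ (δ / 2) ≤ ((x : ℝ) ^ (2 : ℝ)) ^ (δ / 2) := by
      refine Real.rpow_le_rpow (by positivity) ?_ (by positivity)
      rw [Real.rpow_two]
      nlinarith
    rw [← Real.rpow_mul hx0.le, show 2 * (δ / 2) = δ by ring] at h3
    linarith
  · refine hG.2.2.trans ?_
    have h1 : (x : ℝ) ^ (1 - ur) ≤ (3 * (x : ℝ)) ^ (1 - ur) :=
      Real.rpow_le_rpow hx0.le (by linarith) (by linarith)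
    refine h1.trans (Real.rpow_le_rpow_of_exponent_le (by linarith) (by linarith))

theorem GR_decomp (h0 x z : ℕ) (hx : 3 ≤ x) (hh : h0 ≤ x) (δ : ℝ) (hδ : 0 < δ) (hδ1 : δ ≤ er) (j j' : ℕ)
    (hj : j ≤ 864) (hj' : j' ≤ 864) (n : ℕ) (hn : n ∈ Icc 1 (3 * x)) :
    FR x z δ h0 j j' n =
      (1 / ur - 1) * (lamC x z er j 1 * lamC x z er j' 1) / Real.log (3 * x) *
          (if x + h0 < n ∧ n ≤ 2 * x + h0 then th n else 0) +
        (FB (gR x z δ j j') (fun a => (2 * x + h0) / a) n - FB (gR x z δ j j') (fun a => (x + h0) / a) n) := by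
  classical
  have _ := hδ
  have _ := hδ1
  have _ := hh
  obtain ⟨hu0, hu1, hu2, hu3⟩ := BLevA_ur
  obtain ⟨he0, he1⟩ := BLevA_er
  have hx1 : (1 : ℝ) < x := by
    have : (3 : ℝ) ≤ x := by exact_mod_cast hx
    linarith
  have hx0 : (0 : ℝ) < x := by linarith
  have hlx : 0 < Real.log x := Real.log_pos hx1
  rw [mem_Icc] at hn
  rw [LevB_FB _ _ n hn.1, LevB_FB _ _ n hn.1]
  unfold FR
  by_cases hI : x + h0 < n ∧ n ≤ 2 * x + h0
  · rw [if_pos hI, if_pos hI, if_pos hI.2, if_neg (by omega), sub_zero]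
    have hxn : (x : ℝ) < n := by exact_mod_cast (by omega : x < n)
    have hpow : ∀ i : ℕ, i ≤ 864 → (x : ℝ) ^ (((i : ℝ) + 1) * er) ≤ (x : ℝ) ^ ur := by
      intro i hi
      refine Real.rpow_le_rpow_of_exponent_le hx1.le ?_
      have hi' : (i : ℝ) + 1 ≤ 865 := by
        have : (i : ℝ) ≤ 864 := by exact_mod_cast hi
        linarith
      refine (mul_le_mul_of_nonneg_right hi' he0.le).trans ?_
      unfold er ur
      norm_num
    have hxu : (x : ℝ) ^ ur ≤ x := by
      calc (x : ℝ) ^ ur ≤ (x : ℝ) ^ (1 : ℝ) :=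
            Real.rpow_le_rpow_of_exponent_le hx1.le hu1.le
        _ = x := Real.rpow_one _
    -- `Gs 1`
    have hG1 : Gs x δ 1 := by
      refine ⟨squarefree_one, ?_, ?_⟩
      · intro p hp
        simp at hp
      · rw [Nat.cast_one]
        exact Real.one_le_rpow hx1.le (by linarith)
    -- the value of one term
    have hterm : ∀ p ∈ n.primeFactors, (if Gs x δ (n / p) then
        wt (lg x (n / p)) * (Real.log p / Real.log (3 * x / ((n / p : ℕ) : ℝ))) else 0) *
          (LC x z er j n * LC x z er j' n) =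
        (if n / p = 1 then (1 / ur - 1) * (lamC x z er j 1 * lamC x z er j' 1) /
          Real.log (3 * x) * Real.log p else 0) + gR x z δ j j' (n / p) * Real.log p := by
      intro p hp
      have hpp := Nat.prime_of_mem_primeFactors hp
      have hpn := Nat.dvd_of_mem_primeFactors hp
      have hab : n / p * p = n := Nat.div_mul_cancel hpn
      have hd0 : 0 < n / p := Nat.div_pos (Nat.le_of_dvd (by omega) hpn) hpp.pos
      by_cases h1 : n / p = 1
      · have hnp : n = p := by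
          rw [h1, one_mul] at hab
          exact hab.symm
        have hprime : n.Prime := hnp ▸ hpp
        rw [h1, if_pos hG1, if_pos rfl]
        have e1 : gR x z δ j j' 1 = 0 := by
          unfold gR
          exact if_neg (fun h => absurd h.2 (lt_irrefl _))
        have e2 : lg x 1 = 0 := by
          unfold lg
          simp
        rw [e1, e2, LevA_LC_prime x z (by omega) er he0 j n hprime
          (((hpow j hj).trans hxu).trans_lt hxn),
          LevA_LC_prime x z (by omega) er he0 j' n hprime (((hpow j' hj').trans hxu).trans_lt hxn)]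
        unfold wt
        rw [Nat.cast_one, div_one]
        ring
      · rw [if_neg h1, zero_add]
        unfold gR
        by_cases hG : Gs x δ (n / p)
        · rw [if_pos hG, if_pos ⟨hG, by omega⟩]
          have ha1 : (0 : ℝ) < ((n / p : ℕ) : ℝ) := by exact_mod_cast hd0
          have h2 : (x : ℝ) ^ ur < p := by
            have h3 : (x : ℝ) < ((n / p : ℕ) : ℝ) * p := by
              rw [← Nat.cast_mul, hab]
              exact hxn
            have h4 : (x : ℝ) ^ (1 - ur) * (x : ℝ) ^ ur = x := by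
              rw [← Real.rpow_add hx0, show 1 - ur + ur = 1 by ring, Real.rpow_one]
            by_contra h5
            rw [not_lt] at h5
            have h6 : ((n / p : ℕ) : ℝ) * p ≤ (x : ℝ) ^ (1 - ur) * (x : ℝ) ^ ur :=
              mul_le_mul hG.2.2 h5 (by positivity) (by positivity)
            linarith
          have e1 : ∀ i : ℕ, i ≤ 864 → LC x z er i n = LC x z er i (n / p) := by
            intro i hi
            conv_lhs => rw [← hab]
            exact LevA_LC_mul x z (by omega) er he0 i (n / p) p hd0.ne' hpp ((hpow i hi).trans_lt h2)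
          rw [e1 j hj, e1 j' hj']
          ring
        · rw [if_neg hG, if_neg (fun h => hG h.1), zero_mul, zero_mul]
    unfold GG
    rw [sum_filter, sum_mul, sum_congr rfl hterm, sum_add_distrib]
    congr 1
    unfold th
    split_ifs with hp
    · rw [hp.primeFactors, sum_singleton, Nat.div_self hp.pos, if_pos rfl]
    · rw [mul_zero]
      refine sum_eq_zero fun p hp' => ?_
      rw [if_neg]
      intro h1
      apply hp
      have hpn := Nat.dvd_of_mem_primeFactors hp'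
      have hab : n / p * p = n := Nat.div_mul_cancel hpn
      rw [h1, one_mul] at hab
      rw [← hab]
      exact Nat.prime_of_mem_primeFactors hp'
  · rw [if_neg hI, if_neg hI, mul_zero, zero_add]
    by_cases h3 : n ≤ x + h0
    · rw [if_pos (by omega), if_pos h3, sub_self]
    · rw [if_neg (by omega), if_neg h3, sub_self]

end Pool.Agent.Lib.MP_092512_nt.RT
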