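import Pool.Agent.Lib.MP_092512_nt.RT.Defs
import Pool.Agent.Lib.MP_092512_nt.P3.C5

/-!
# C: the coefficients `bet`

PROOFS.  `bet_id`: `LC_j LC_j'(m) = ∑_{r ∣ m} alp r` (`LC_mul`), `alp r ≠ 0` only for squarefree `r` (`alp_supp`).  For a prime `p ∣ m`:
`∑_{r ∣ m} alp r = ∑_{r ∣ m, p ∣ r} alp r + ∑_{r ∣ m, p ∤ r, r squarefree} alp r`, and `r ↦ p r` is a bijection from the squarefree `r ∣ m` with `p ∤ r` to the squarefree `r' ∣ m`
with `p ∣ r'` (coprime `p`, `r` dividing `m`); so it is `∑_{r ∣ m, p ∣ r, r squarefree} (alp r + alp (r/p))`.  Multiply by `ω p`, sum over `p ∣ m`, exchange.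
`bet_supp`: some `p ∣ r` has `ω p ≠ 0` (so `z < p`, `p` is coprime to `primorial z`, `p ≤ x^ur`) and `alp r ≠ 0` or `alp (r/p) ≠ 0`; in the second case `r = p (r/p)`.
`bet_le`: `alp_le` (`jm = 864`): `|alp r| + |alp (r/p)| ≤ 4 · 3^ω(r) + 4 · 3^ω(r/p) ≤ 8 · 3^ω(r)` and `r` has at most `2 log x` prime factors (`2^ω(r) ≤ r ≤ x`,
`log 2 ≥ 1/2`).
-/

set_option autoImplicit false

open Finset Filter

open scoped ArithmeticFunction.Moebius

namespace Pool.Agent.Lib.MP_092512_nt.RT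

open Pool.Agent.Lib.SW Pool.Agent.Lib.MP_092512_nt.P3

private theorem CBet_key (p m : ℕ) (hp : p.Prime) (hpm : p ∣ m) (a : ℕ → ℝ)
    (ha : ∀ r, a r ≠ 0 → Squarefree r) : ∑ r ∈ m.divisors, a r =
      ∑ r ∈ m.divisors.filter (fun r => Squarefree r ∧ p ∣ r), (a r + a (r / p)) := by
  classical
  have h1 : ∑ r ∈ m.divisors, a r = ∑ r ∈ m.divisors.filter (fun r => Squarefree r), a r :=
    (sum_filter_of_ne fun r _ h => ha r h).symm
  have h2 : ∑ r ∈ m.divisors.filter (fun r => Squarefree r), a r =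
      ∑ r ∈ m.divisors.filter (fun r => Squarefree r ∧ p ∣ r), a r +
      ∑ r ∈ m.divisors.filter (fun r => Squarefree r ∧ ¬ p ∣ r), a r := by
    rw [← sum_filter_add_sum_filter_not (m.divisors.filter (fun r => Squarefree r)) (fun r => p ∣ r),
      filter_filter, filter_filter]
  have h3 : ∑ r ∈ m.divisors.filter (fun r => Squarefree r ∧ ¬ p ∣ r), a r =
      ∑ r ∈ m.divisors.filter (fun r => Squarefree r ∧ p ∣ r), a (r / p) := by
    refine sum_nbij' (fun r => p * r) (fun r => r / p) ?_ ?_ ?_ ?_ ?_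
    · intro r hr
      obtain ⟨h4, h5, h6⟩ := mem_filter.1 hr
      have h7 : Nat.Coprime p r := (Nat.Prime.coprime_iff_not_dvd hp).2 h6
      refine mem_filter.2 ⟨Nat.mem_divisors.2 ⟨?_, (Nat.mem_divisors.1 h4).2⟩, ?_, Dvd.intro _ rfl⟩
      · exact h7.mul_dvd_of_dvd_of_dvd hpm (Nat.mem_divisors.1 h4).1
      · exact (Nat.squarefree_mul h7).2 ⟨hp.prime.squarefree, h5⟩
    · intro r hr
      obtain ⟨h4, h5, h6⟩ := mem_filter.1 hr
      have h7 : r / p ∣ r := Nat.div_dvd_of_dvd h6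
      refine mem_filter.2 ⟨Nat.mem_divisors.2 ⟨h7.trans (Nat.mem_divisors.1 h4).1,
        (Nat.mem_divisors.1 h4).2⟩, h5.squarefree_of_dvd h7, ?_⟩
      intro h8
      have h9 : p * p ∣ r := by
        have h10 := Nat.mul_dvd_mul_left p h8
        rw [Nat.mul_div_cancel' h6] at h10
        exact h10
      have h11 := h5 p h9
      exact hp.one_lt.ne' (Nat.isUnit_iff.1 h11)
    · intro r _
      exact Nat.mul_div_cancel_left r hp.pos
    · intro r hr
      exact Nat.mul_div_cancel' (mem_filter.1 hr).2.2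
    · intro r _
      rw [Nat.mul_div_cancel_left r hp.pos]
  rw [h1, h2, h3, ← sum_add_distrib]

private theorem CBet_ur : (0 : ℝ) ≤ ur := by
  unfold ur
  norm_num

private theorem CBet_rough {p z : ℕ} (hp : p.Prime) (hz : z < p) : Nat.Coprime p (primorial z) := by
  unfold primorial
  rw [Nat.coprime_prod_right_iff]
  intro q hq
  rw [mem_filter, mem_range] at hq
  exact (Nat.coprime_primes hp hq.2).2 (by omega)

private theorem CBet_card (r x : ℕ) (hr : r ≠ 0) (hrx : (r : ℝ) ≤ x) :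
    (r.primeFactors.card : ℝ) ≤ 2 * Real.log x := by
  have h1 : 2 ^ r.primeFactors.card ≤ r := by
    have h2 : 2 ^ r.primeFactors.card ≤ ∏ p ∈ r.primeFactors, p :=
      pow_card_le_prod _ _ _ fun p hp => (Nat.prime_of_mem_primeFactors hp).two_le
    exact h2.trans (Nat.le_of_dvd (Nat.pos_of_ne_zero hr) (Nat.prod_primeFactors_dvd r))
  have h3 : ((2 : ℝ)) ^ r.primeFactors.card ≤ x := by
    have h4 : (((2 : ℕ) ^ r.primeFactors.card : ℕ) : ℝ) ≤ r := by exact_mod_cast h1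
    push_cast at h4
    exact h4.trans hrx
  have h5 := Real.log_le_log (by positivity) h3
  rw [Real.log_pow] at h5
  have h6 : (1 : ℝ) / 2 ≤ Real.log 2 := by
    have := Real.log_two_gt_d9
    linarith
  nlinarith [Nat.cast_nonneg (α := ℝ) r.primeFactors.card]

theorem bet_id (x z : ℕ) (hx : 1 ≤ x) (η : ℝ) (hη : 0 < η) (ω : ℕ → ℝ) (j j' m : ℕ) (hm : m ≠ 0) :
    ps ω m * (LC x z η j m * LC x z η j' m) = ∑ r ∈ m.divisors, bet x z η ω j j' r := by
  classical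
  have hsq : ∀ r, alp x z η j j' r ≠ 0 → Squarefree r := fun r hr => (alp_supp x z hx η hη j j' r hr).1
  rw [LC_mul x z η j j' m hm]
  have h1 : ∑ r ∈ m.divisors, bet x z η ω j j' r = ∑ r ∈ m.divisors.filter (fun r => Squarefree r),
      ∑ p ∈ r.primeFactors, ω p * (alp x z η j j' r + alp x z η j j' (r / p)) := by
    rw [sum_filter]
    rfl
  have h2 : ∑ r ∈ m.divisors.filter (fun r => Squarefree r),
      ∑ p ∈ r.primeFactors, ω p * (alp x z η j j' r + alp x z η j j' (r / p)) =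
      ∑ p ∈ m.primeFactors, ∑ r ∈ m.divisors.filter (fun r => Squarefree r ∧ p ∣ r),
        ω p * (alp x z η j j' r + alp x z η j j' (r / p)) := by
    refine sum_comm' fun r p => ?_
    rw [mem_filter, mem_filter, Nat.mem_divisors, Nat.mem_primeFactors, Nat.mem_primeFactors]
    constructor
    · rintro ⟨⟨⟨h3, h4⟩, h5⟩, h6, h7, _⟩
      exact ⟨⟨⟨h3, h4⟩, h5, h7⟩, h6, h7.trans h3, h4⟩
    · rintro ⟨⟨⟨h3, h4⟩, h5, h7⟩, h6, _, _⟩
      exact ⟨⟨⟨h3, h4⟩, h5⟩, h6, h7, fun h8 => h4 (by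
        rw [h8] at h3
        exact Nat.eq_zero_of_zero_dvd h3)⟩
  rw [h1, h2]
  unfold ps
  rw [sum_mul]
  refine sum_congr rfl fun p hp => ?_
  have hp' := Nat.mem_primeFactors.1 hp
  rw [CBet_key p m hp'.1 hp'.2.1 (alp x z η j j') hsq, mul_sum]

theorem bet_supp (x z : ℕ) (hx : 1 ≤ x) (η : ℝ) (hη : 0 < η) (ω : ℕ → ℝ)
    (hω : ∀ p, ω p ≠ 0 → z < p ∧ (p : ℝ) ≤ (x : ℝ) ^ ur) (j j' r : ℕ) (hr : bet x z η ω j j' r ≠ 0) :
    Squarefree r ∧ Nat.Coprime r (primorial z) ∧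
      (r : ℝ) ≤ (x : ℝ) ^ (((j : ℝ) + 1 + (j' + 1)) * η + ur) := by
  unfold bet at hr
  have hsq : Squarefree r := by
    by_contra h
    rw [if_neg h] at hr
    exact hr rfl
  rw [if_pos hsq] at hr
  obtain ⟨p, hp, hp2⟩ := Finset.exists_ne_zero_of_sum_ne_zero hr
  have hp' := Nat.mem_primeFactors.1 hp
  obtain ⟨hz, hpx⟩ := hω p (left_ne_zero_of_mul hp2)
  have h1 := right_ne_zero_of_mul hp2
  have hx0 : (0 : ℝ) < x := by exact_mod_cast hx
  have hx1 : (1 : ℝ) ≤ x := by exact_mod_cast hx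
  by_cases h2 : alp x z η j j' r = 0
  · rw [h2, zero_add] at h1
    obtain ⟨_, h4, h5⟩ := alp_supp x z hx η hη j j' (r / p) h1
    have h6 : p * (r / p) = r := Nat.mul_div_cancel' hp'.2.1
    refine ⟨hsq, ?_, ?_⟩
    · rw [← h6]
      exact Nat.Coprime.mul_left (CBet_rough hp'.1 hz) h4
    · have h7 : (r : ℝ) = (p : ℝ) * ((r / p : ℕ) : ℝ) := by
        rw [← Nat.cast_mul, h6]
      rw [h7, Real.rpow_add hx0, mul_comm]
      exact mul_le_mul h5 hpx (Nat.cast_nonneg _) (Real.rpow_nonneg hx0.le _)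
  · obtain ⟨_, h4, h5⟩ := alp_supp x z hx η hη j j' r h2
    refine ⟨hsq, h4, h5.trans ?_⟩
    exact Real.rpow_le_rpow_of_exponent_le hx1 (by linarith [CBet_ur])

theorem bet_le (B : ℕ) (hB : 3 ≤ B) : ∃ x₀ : ℕ, ∀ x : ℕ, x₀ ≤ x → ∀ ω : ℕ → ℝ,
    (∀ p, 0 ≤ ω p ∧ ω p ≤ 1) → ∀ j ≤ 864, ∀ j' ≤ 864, ∀ r : ℕ, (r : ℝ) ≤ x →
      |bet x (zB B x) er ω j j' r| ≤ 16 * Real.log x * 3 ^ r.primeFactors.card := by
  have her : (0 : ℝ) < er := by
    unfold er
    norm_num
  obtain ⟨x₀, hx₀⟩ := alp_le B 864 hB er her (by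
    unfold er
    norm_num)
  refine ⟨x₀, fun x hx ω hω j hj j' hj' r hr => ?_⟩
  unfold bet
  by_cases hsq : Squarefree r
  swap
  · rw [if_neg hsq, abs_zero]
    have := Real.log_natCast_nonneg x
    positivity
  rw [if_pos hsq]
  have hr0 : r ≠ 0 := hsq.ne_zero
  have h1 : ∀ p ∈ r.primeFactors, |ω p * (alp x (zB B x) er j j' r + alp x (zB B x) er j j' (r / p))| ≤
      8 * 3 ^ r.primeFactors.card := by
    intro p hp
    have hp' := Nat.mem_primeFactors.1 hp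
    have h2 := hx₀ x hx j hj j' hj' r
    have h3 := hx₀ x hx j hj j' hj' (r / p)
    have h4 : (r / p).primeFactors.card ≤ r.primeFactors.card :=
      card_le_card (Nat.primeFactors_mono (Nat.div_dvd_of_dvd hp'.2.1) hr0)
    have h5 : (3 : ℝ) ^ (r / p).primeFactors.card ≤ 3 ^ r.primeFactors.card :=
      pow_le_pow_right₀ (by norm_num) h4
    have h6 : |alp x (zB B x) er j j' r + alp x (zB B x) er j j' (r / p)| ≤
        8 * 3 ^ r.primeFactors.card := by
      refine (abs_add_le _ _).trans ?_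
      linarith
    rw [abs_mul, abs_of_nonneg (hω p).1]
    nlinarith [(hω p).2, (hω p).1, abs_nonneg (alp x (zB B x) er j j' r + alp x (zB B x) er j j' (r / p))]
  refine (abs_sum_le_sum_abs _ _).trans ((sum_le_sum h1).trans ?_)
  rw [sum_const, nsmul_eq_mul]
  have h2 := CBet_card r x hr0 hr
  have h3 : (0 : ℝ) < 3 ^ r.primeFactors.card := by positivity
  nlinarith [mul_le_mul_of_nonneg_right h2 h3.le]

end Pool.Agent.Lib.MP_092512_nt.RT
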