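import Pool.Agent.Lib.MP_092512_nt.RT.Defs
import Pool.Agent.Lib.MP_092512_nt.P3.C3
import Pool.Agent.Lib.MP_092512_nt.P3.C3d

/-!
# C: exact diagonalisation with a prime `p`

PROOF.  `1/[d,e] = (d,e)/(d e) = (1/(de)) ∑_{k ∣ d, k ∣ e} φ(k)`.  Only squarefree rough `d`, `e` matter (`C3_lamC_support`).  Write `d = d₁` or `d = p d₁`, `e = e₁` or `p e₁` with
`d₁, e₁` prime to `p`: `kp p d e = 1/[d₁, e₁]` in all four cases (`[d,e] = [d₁,e₁]` or `p [d₁,e₁]`).  So the left side is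
`∑_{d₁,e₁ prime to p} (λ(d₁) + λ(p d₁)) (λ'(e₁) + λ'(p e₁))/[d₁,e₁] = ∑_{k prime to p} φ(k) T_k T'_k`, where (for squarefree rough `k` prime to `p`, the others give `0`)
`T_k = ∑_{k ∣ d₁, p ∤ d₁} (λ(d₁) + λ(p d₁))/d₁ = ∑_{k ∣ d, p ∤ d} λ(d)/d + p ∑_{p k ∣ d} λ(d)/d = S_k + (p - 1) S_{pk}`, `S_k = ∑_{k ∣ d} λ(d)/d`.
`C3_sum_lamC_div`: `S_k = μ(k)/(φ(k) V L) ic j k`, `S_{pk} = μ(p k)/(φ(p k) V L) ic j (p k) = -μ(k)/((p-1) φ(k) V L) ic j (p k)` (`p > z` is prime to `primorial z`).  So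
`T_k = μ(k)/(φ(k) V L) (ic j k - ic j (p k))`, `μ(k)² = 1`.  (All sums over `Icc 1 N`; for `d₁ ≤ N` with `p d₁ > N`: `λ(p d₁) = 0`.)
Compare `C3_diag_eq` for the same argument without `p`.
-/

set_option autoImplicit false

open Finset Filter

open scoped ArithmeticFunction.Moebius

namespace Pool.Agent.Lib.MP_092512_nt.RT

open Pool.Agent.Lib.SW Pool.Agent.Lib.MP_092512_nt.P3

private theorem CDiag_er_pos : (0 : ℝ) < er := by
  unfold er
  norm_num

/-- removing a prime from a number not divisible by its square -/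
private theorem CDiag_strip {p d : ℕ} (hp : p.Prime) (hd : Squarefree d) :
    ∃ d1 : ℕ, ¬ p ∣ d1 ∧ d = (if p ∣ d then p else 1) * d1 := by
  by_cases h : p ∣ d
  · obtain ⟨m, rfl⟩ := h
    refine ⟨m, ?_, by rw [if_pos (dvd_mul_right p m)]⟩
    rintro ⟨r, rfl⟩
    have h1 : p * p ∣ p * (p * r) := ⟨r, by ring⟩
    exact hp.one_lt.ne' (Nat.isUnit_iff.1 (hd p h1))
  · exact ⟨d, h, by rw [if_neg h, one_mul]⟩

private theorem CDiag_lcm {p d e : ℕ} (hp : p.Prime) (hd : ¬ p ∣ d) (he : ¬ p ∣ e) (a b : Bool) :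
    Nat.lcm ((if a then p else 1) * d) ((if b then p else 1) * e) =
      (if a ∨ b then p else 1) * Nat.lcm d e := by
  have hpd : Nat.Coprime p d := (Nat.Prime.coprime_iff_not_dvd hp).2 hd
  have hpe : Nat.Coprime p e := (Nat.Prime.coprime_iff_not_dvd hp).2 he
  have key : ∀ {u v : ℕ}, Nat.Coprime p u → Nat.lcm (p * v) u = p * Nat.lcm v u := by
    intro u v huv
    unfold Nat.lcm
    rw [Nat.Coprime.gcd_mul_left_cancel v huv]
    have h1 : Nat.gcd v u ∣ v * u := (Nat.gcd_dvd_left v u).trans (dvd_mul_right v u)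
    rw [mul_assoc, Nat.mul_div_assoc _ h1]
  cases a <;> cases b
  · simp
  · simp only [Bool.false_eq_true, if_false, one_mul, if_true, false_or, or_true]
    rw [Nat.lcm_comm, key hpd, Nat.lcm_comm]
  · simp only [Bool.false_eq_true, if_false, one_mul, if_true, or_false]
    exact key hpe
  · simp only [if_true, or_self]
    exact Nat.lcm_mul_left p d e

/-- `kp` is the reciprocal of the lcm of the parts prime to `p` -/
private theorem CDiag_kp {p d e : ℕ} (hp : p.Prime) {d1 e1 : ℕ} (hd1 : ¬ p ∣ d1) (he1 : ¬ p ∣ e1)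
    (hd : d = (if p ∣ d then p else 1) * d1) (he : e = (if p ∣ e then p else 1) * e1) :
    kp p d e = 1 / (Nat.lcm d1 e1 : ℝ) := by
  have h1 := CDiag_lcm hp hd1 he1 (decide (p ∣ d)) (decide (p ∣ e))
  simp only [decide_eq_true_eq] at h1
  rw [← hd, ← he] at h1
  have hp0 : (p : ℝ) ≠ 0 := by exact_mod_cast hp.ne_zero
  have h2 : p ∣ Nat.lcm d e ↔ p ∣ d ∨ p ∣ e := by
    constructor
    · intro h
      by_contra hcon
      rw [h1, if_neg hcon, one_mul] at h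
      have h3 : p ∣ d1 * e1 := h.trans (Nat.lcm_dvd_mul d1 e1)
      rcases (Nat.Prime.dvd_mul hp).1 h3 with h4 | h4
      · exact hd1 h4
      · exact he1 h4
    · rintro (h | h)
      · exact h.trans (Nat.dvd_lcm_left d e)
      · exact h.trans (Nat.dvd_lcm_right d e)
  unfold kp
  by_cases h : p ∣ d ∨ p ∣ e
  · rw [if_pos (h2.2 h), h1, if_pos h]
    push_cast
    rw [← div_div, div_self hp0]
  · rw [if_neg (fun h3 => h (h2.1 h3)), h1, if_neg h, one_mul]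

/-- expansion of the kernel -/
private theorem CDiag_term {p d e N : ℕ} (hp : p.Prime) (hd : 1 ≤ d ∧ d ≤ N) (he : 1 ≤ e ∧ e ≤ N)
    (hds : Squarefree d) (hes : Squarefree e) :
    kp p d e = ∑ k ∈ Icc 1 N, if ¬ p ∣ k ∧ k ∣ d ∧ k ∣ e then
      (Nat.totient k : ℝ) * ((if p ∣ d then (p : ℝ) else 1) / d * ((if p ∣ e then (p : ℝ) else 1) / e)) else 0 := by
  obtain ⟨d1, hd1, hd2⟩ := CDiag_strip hp hds
  obtain ⟨e1, he1, he2⟩ := CDiag_strip hp hes
  have hp0 : (p : ℝ) ≠ 0 := by exact_mod_cast hp.ne_zero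
  have hd10 : d1 ≠ 0 := by
    rintro rfl
    omega
  have he10 : e1 ≠ 0 := by
    rintro rfl
    omega
  have hcd : (if p ∣ d then (p : ℝ) else 1) / d = 1 / d1 := by
    have h : (d : ℝ) = (if p ∣ d then (p : ℝ) else 1) * d1 := by
      conv_lhs => rw [hd2]
      push_cast
      rfl
    have h0 : (if p ∣ d then (p : ℝ) else 1) ≠ 0 := by
      split_ifs
      · exact hp0
      · exact one_ne_zero
    rw [h, ← div_div, div_self h0]
  have hce : (if p ∣ e then (p : ℝ) else 1) / e = 1 / e1 := by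
    have h : (e : ℝ) = (if p ∣ e then (p : ℝ) else 1) * e1 := by
      conv_lhs => rw [he2]
      push_cast
      rfl
    have h0 : (if p ∣ e then (p : ℝ) else 1) ≠ 0 := by
      split_ifs
      · exact hp0
      · exact one_ne_zero
    rw [h, ← div_div, div_self h0]
  rw [CDiag_kp hp hd1 he1 hd2 he2, hcd, hce, ← Finset.sum_filter, ← Finset.sum_mul]
  have hg0 : 0 < Nat.gcd d1 e1 := Nat.gcd_pos_of_pos_left _ (Nat.pos_of_ne_zero hd10)
  have hd1d : d1 ∣ d := ⟨_, (hd2.trans (mul_comm _ _))⟩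
  have he1e : e1 ∣ e := ⟨_, (he2.trans (mul_comm _ _))⟩
  have hset : (Icc 1 N).filter (fun k => ¬ p ∣ k ∧ k ∣ d ∧ k ∣ e) = (Nat.gcd d1 e1).divisors := by
    ext k
    rw [mem_filter, mem_Icc, Nat.mem_divisors]
    constructor
    · rintro ⟨_, hk, h4, h5⟩
      have hkp : Nat.Coprime k p := ((Nat.Prime.coprime_iff_not_dvd hp).2 hk).symm
      have hkc : ∀ P : Prop, [Decidable P] → Nat.Coprime k (if P then p else 1) := by
        intro P _
        split_ifs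
        · exact hkp
        · exact Nat.coprime_one_right k
      rw [hd2] at h4
      rw [he2] at h5
      exact ⟨Nat.dvd_gcd ((hkc _).dvd_of_dvd_mul_left h4) ((hkc _).dvd_of_dvd_mul_left h5), hg0.ne'⟩
    · rintro ⟨h4, _⟩
      have h5 := h4.trans (Nat.gcd_dvd_left d1 e1)
      have h6 := h4.trans (Nat.gcd_dvd_right d1 e1)
      exact ⟨⟨Nat.pos_of_dvd_of_pos h4 hg0, (Nat.le_of_dvd (by omega) (h5.trans hd1d)).trans hd.2⟩,
        fun h => hd1 (h.trans h5), h5.trans hd1d, h6.trans he1e⟩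
  rw [hset, ← Nat.cast_sum, Nat.sum_totient]
  have h4 : (Nat.gcd d1 e1 : ℝ) * (Nat.lcm d1 e1 : ℝ) = d1 * e1 := by
    exact_mod_cast Nat.gcd_mul_lcm d1 e1
  have hl0 : (Nat.lcm d1 e1 : ℝ) ≠ 0 := by
    have : Nat.lcm d1 e1 ≠ 0 := Nat.lcm_ne_zero hd10 he10
    exact_mod_cast this
  have hd0' : (d1 : ℝ) ≠ 0 := by exact_mod_cast hd10
  have he0' : (e1 : ℝ) ≠ 0 := by exact_mod_cast he10
  rw [div_eq_iff hl0]
  calc (1 : ℝ) = (d1 * e1) * (1 / d1 * (1 / e1)) := by field_simp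
    _ = (Nat.gcd d1 e1 : ℝ) * (1 / d1 * (1 / e1)) * (Nat.lcm d1 e1 : ℝ) := by rw [← h4]; ring

private theorem CDiag_sum (f g : ℕ → ℝ) (p N : ℕ) (hp : p.Prime) (hf : ∀ d, f d ≠ 0 → Squarefree d)
    (hg : ∀ d, g d ≠ 0 → Squarefree d) :
    ∑ d ∈ Icc 1 N, ∑ e ∈ Icc 1 N, f d * g e * kp p d e =
      ∑ k ∈ Icc 1 N, if ¬ p ∣ k then (Nat.totient k : ℝ) *
        ((∑ d ∈ (Icc 1 N).filter (fun d => k ∣ d), f d * (if p ∣ d then (p : ℝ) else 1) / d) *
          ∑ e ∈ (Icc 1 N).filter (fun e => k ∣ e), g e * (if p ∣ e then (p : ℝ) else 1) / e) else 0 := by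
  classical
  have key : ∀ d ∈ Icc 1 N, ∀ e ∈ Icc 1 N, f d * g e * kp p d e =
      ∑ k ∈ Icc 1 N, if ¬ p ∣ k ∧ k ∣ d ∧ k ∣ e then
        (Nat.totient k : ℝ) * (f d * (if p ∣ d then (p : ℝ) else 1) / d *
          (g e * (if p ∣ e then (p : ℝ) else 1) / e)) else 0 := by
    intro d hd e he
    rw [mem_Icc] at hd he
    by_cases h : f d = 0
    · rw [h]
      simp
    by_cases h' : g e = 0
    · rw [h']
      simp
    rw [CDiag_term hp hd he (hf d h) (hg e h'), Finset.mul_sum]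
    refine Finset.sum_congr rfl fun k _ => ?_
    by_cases h1 : ¬ p ∣ k ∧ k ∣ d ∧ k ∣ e
    · rw [if_pos h1, if_pos h1]
      ring
    · rw [if_neg h1, if_neg h1, mul_zero]
  have h1 : ∀ k ∈ Icc 1 N, (if ¬ p ∣ k then (Nat.totient k : ℝ) *
        ((∑ d ∈ (Icc 1 N).filter (fun d => k ∣ d), f d * (if p ∣ d then (p : ℝ) else 1) / d) *
          ∑ e ∈ (Icc 1 N).filter (fun e => k ∣ e), g e * (if p ∣ e then (p : ℝ) else 1) / e) else 0) =
      ∑ d ∈ Icc 1 N, ∑ e ∈ Icc 1 N, if ¬ p ∣ k ∧ k ∣ d ∧ k ∣ e then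
        (Nat.totient k : ℝ) * (f d * (if p ∣ d then (p : ℝ) else 1) / d *
          (g e * (if p ∣ e then (p : ℝ) else 1) / e)) else 0 := by
    intro k _
    by_cases hk : ¬ p ∣ k
    · rw [if_pos hk, Finset.sum_filter, Finset.sum_filter, Finset.sum_mul_sum, Finset.mul_sum]
      refine Finset.sum_congr rfl fun d _ => ?_
      rw [Finset.mul_sum]
      refine Finset.sum_congr rfl fun e _ => ?_
      by_cases hd : k ∣ d
      · by_cases he : k ∣ e
        · rw [if_pos hd, if_pos he, if_pos (show ¬ p ∣ k ∧ k ∣ d ∧ k ∣ e from ⟨hk, hd, he⟩)]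
        · rw [if_neg he, if_neg (fun h : ¬ p ∣ k ∧ k ∣ d ∧ k ∣ e => he h.2.2), mul_zero, mul_zero]
      · rw [if_neg hd, if_neg (fun h : ¬ p ∣ k ∧ k ∣ d ∧ k ∣ e => hd h.2.1), zero_mul, mul_zero]
    · rw [if_neg hk]
      symm
      refine Finset.sum_eq_zero fun d _ => Finset.sum_eq_zero fun e _ => ?_
      rw [if_neg (fun h => hk h.1)]
  calc ∑ d ∈ Icc 1 N, ∑ e ∈ Icc 1 N, f d * g e * kp p d e =
        ∑ d ∈ Icc 1 N, ∑ e ∈ Icc 1 N, ∑ k ∈ Icc 1 N, if ¬ p ∣ k ∧ k ∣ d ∧ k ∣ e then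
          (Nat.totient k : ℝ) * (f d * (if p ∣ d then (p : ℝ) else 1) / d *
          (g e * (if p ∣ e then (p : ℝ) else 1) / e)) else 0 :=
        Finset.sum_congr rfl fun d hd => Finset.sum_congr rfl fun e he => key d hd e he
    _ = ∑ d ∈ Icc 1 N, ∑ k ∈ Icc 1 N, ∑ e ∈ Icc 1 N, if ¬ p ∣ k ∧ k ∣ d ∧ k ∣ e then
          (Nat.totient k : ℝ) * (f d * (if p ∣ d then (p : ℝ) else 1) / d *
          (g e * (if p ∣ e then (p : ℝ) else 1) / e)) else 0 :=
        Finset.sum_congr rfl fun d _ => Finset.sum_comm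
    _ = ∑ k ∈ Icc 1 N, ∑ d ∈ Icc 1 N, ∑ e ∈ Icc 1 N, if ¬ p ∣ k ∧ k ∣ d ∧ k ∣ e then
          (Nat.totient k : ℝ) * (f d * (if p ∣ d then (p : ℝ) else 1) / d *
          (g e * (if p ∣ e then (p : ℝ) else 1) / e)) else 0 := Finset.sum_comm
    _ = _ := Finset.sum_congr rfl fun k hk => (h1 k hk).symm

private theorem CDiag_T (x z p : ℕ) (hx : 1 ≤ x) (hp : p.Prime) (hz : z < p) (j N k : ℕ)
    (hN : (x : ℝ) ^ (((j : ℝ) + 1) * er) < N + 1) (hk : 1 ≤ k) (hpk : ¬ p ∣ k) :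
    ∑ d ∈ (Icc 1 N).filter (fun d => k ∣ d), lamC x z er j d * (if p ∣ d then (p : ℝ) else 1) / d =
      if Squarefree k ∧ Nat.Coprime k (primorial z) then
        (μ k : ℝ) / (Nat.totient k : ℝ) / (Vz z * Real.log x) * (ic x j k - ic x j (p * k)) else 0 := by
  have hkp : Nat.Coprime p k := (Nat.Prime.coprime_iff_not_dvd hp).2 hpk
  have hpz : Nat.Coprime p (primorial z) := by
    rw [Nat.Prime.coprime_iff_not_dvd hp]
    intro h
    have h1 : p ∈ (primorial z).primeFactors := by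
      rw [Nat.mem_primeFactors]
      exact ⟨hp, h, primorial_ne_zero z⟩
    rw [primeFactors_primorial] at h1
    have h2 := (Nat.mem_primesLE.1 h1).1
    omega
  have h1 : ∑ d ∈ (Icc 1 N).filter (fun d => k ∣ d), lamC x z er j d * (if p ∣ d then (p : ℝ) else 1) / d =
      ∑ d ∈ (Icc 1 N).filter (fun d => k ∣ d), lamC x z er j d / d +
        ((p : ℝ) - 1) * ∑ d ∈ (Icc 1 N).filter (fun d => p * k ∣ d), lamC x z er j d / d := by
    rw [Finset.sum_filter, Finset.sum_filter, Finset.sum_filter, Finset.mul_sum, ← Finset.sum_add_distrib]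
    refine Finset.sum_congr rfl fun d _ => ?_
    by_cases hkd : k ∣ d
    · by_cases hpd : p ∣ d
      · rw [if_pos hkd, if_pos hpd, if_pos hkd, if_pos (hkp.mul_dvd_of_dvd_of_dvd hpd hkd)]
        ring
      · rw [if_pos hkd, if_neg hpd, if_pos hkd, if_neg (fun h => hpd ((dvd_mul_right p k).trans h))]
        ring
    · rw [if_neg hkd, if_neg hkd, if_neg (fun h => hkd ((dvd_mul_left k p).trans h))]
      ring
  rw [h1, C3_sum_lamC_div x z hx er CDiag_er_pos j N k hN hk,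
    C3_sum_lamC_div x z hx er CDiag_er_pos j N (p * k) hN (Nat.mul_pos hp.pos hk)]
  have hsq : Squarefree (p * k) ↔ Squarefree k := by
    rw [Nat.squarefree_mul hkp]
    exact ⟨fun h => h.2, fun h => ⟨hp.squarefree, h⟩⟩
  have hco : Nat.Coprime (p * k) (primorial z) ↔ Nat.Coprime k (primorial z) := by
    rw [Nat.coprime_mul_iff_left]
    exact ⟨fun h => h.2, fun h => ⟨hpz, h⟩⟩
  by_cases hs : Squarefree k ∧ Nat.Coprime k (primorial z)
  · obtain ⟨hs1, hs2⟩ := hs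
    rw [if_pos (show Squarefree k ∧ Nat.Coprime k (primorial z) from ⟨hs1, hs2⟩)]
    have hphi : (Nat.totient (p * k) : ℝ) = ((p : ℝ) - 1) * Nat.totient k := by
      rw [Nat.totient_mul hkp, Nat.totient_prime hp]
      have : 1 ≤ p := hp.one_lt.le
      push_cast [Nat.cast_sub this]
      ring
    have hmu : ((μ (p * k) : ℤ) : ℝ) = -((μ k : ℤ) : ℝ) := by
      rw [ArithmeticFunction.isMultiplicative_moebius.map_mul_of_coprime hkp,
        ArithmeticFunction.moebius_apply_prime hp]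
      push_cast
      ring
    have hp1 : (p : ℝ) - 1 ≠ 0 := by
      have h2 : (1 : ℝ) < p := by exact_mod_cast hp.one_lt
      linarith
    have hif1 : (if Squarefree k ∧ Nat.Coprime k (primorial z) ∧ (x : ℝ) ^ ((j : ℝ) * er) < k ∧
          (k : ℝ) ≤ (x : ℝ) ^ (((j : ℝ) + 1) * er) then
        (μ k : ℝ) / (Nat.totient k : ℝ) / (Vz z * Real.log x) else 0) =
        (μ k : ℝ) / (Nat.totient k : ℝ) / (Vz z * Real.log x) * ic x j k := by
      unfold ic
      by_cases h : (x : ℝ) ^ ((j : ℝ) * er) < k ∧ (k : ℝ) ≤ (x : ℝ) ^ (((j : ℝ) + 1) * er)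
      · rw [if_pos ⟨hs1, hs2, h⟩, if_pos h, mul_one]
      · rw [if_neg (fun h' => h h'.2.2), if_neg h, mul_zero]
    have hif2 : (if Squarefree (p * k) ∧ Nat.Coprime (p * k) (primorial z) ∧ (x : ℝ) ^ ((j : ℝ) * er) < ((p * k : ℕ) : ℝ) ∧
          ((p * k : ℕ) : ℝ) ≤ (x : ℝ) ^ (((j : ℝ) + 1) * er) then
        (μ (p * k) : ℝ) / (Nat.totient (p * k) : ℝ) / (Vz z * Real.log x) else 0) =
        (μ (p * k) : ℝ) / (Nat.totient (p * k) : ℝ) / (Vz z * Real.log x) * ic x j (p * k) := by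
      unfold ic
      by_cases h : (x : ℝ) ^ ((j : ℝ) * er) < ((p * k : ℕ) : ℝ) ∧ ((p * k : ℕ) : ℝ) ≤ (x : ℝ) ^ (((j : ℝ) + 1) * er)
      · rw [if_pos ⟨hsq.2 hs1, hco.2 hs2, h⟩, if_pos h, mul_one]
      · rw [if_neg (fun h' => h h'.2.2), if_neg h, mul_zero]
    rw [hif1, hif2, hmu, hphi]
    have h5 : ((p : ℝ) - 1) * (-((μ k : ℤ) : ℝ) / (((p : ℝ) - 1) * Nat.totient k) / (Vz z * Real.log x) *
        ic x j (p * k)) = -((μ k : ℝ) / (Nat.totient k : ℝ) / (Vz z * Real.log x) * ic x j (p * k)) := by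
      generalize (p : ℝ) - 1 = q at hp1
      calc q * (-((μ k : ℤ) : ℝ) / (q * Nat.totient k) / (Vz z * Real.log x) * ic x j (p * k)) =
            (q / q) * (-((μ k : ℝ) / (Nat.totient k : ℝ) / (Vz z * Real.log x) * ic x j (p * k))) := by ring
        _ = _ := by rw [div_self hp1, one_mul]
    rw [h5]
    ring
  · rw [if_neg hs, if_neg (fun h : Squarefree k ∧ Nat.Coprime k (primorial z) ∧ (x : ℝ) ^ ((j : ℝ) * er) < k ∧
          (k : ℝ) ≤ (x : ℝ) ^ (((j : ℝ) + 1) * er) => hs ⟨h.1, h.2.1⟩),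
      if_neg (fun h : Squarefree (p * k) ∧ Nat.Coprime (p * k) (primorial z) ∧ (x : ℝ) ^ ((j : ℝ) * er) < ((p * k : ℕ) : ℝ) ∧
          ((p * k : ℕ) : ℝ) ≤ (x : ℝ) ^ (((j : ℝ) + 1) * er) => hs ⟨hsq.1 h.1, hco.1 h.2.1⟩)]
    ring

theorem diag_p (x z p : ℕ) (hx : 1 ≤ x) (hp : p.Prime) (hz : z < p) (j j' N : ℕ)
    (hN : (x : ℝ) ^ (((j : ℝ) + 1) * er) < N + 1) (hN' : (x : ℝ) ^ (((j' : ℝ) + 1) * er) < N + 1) :
    ∑ d ∈ Icc 1 N, ∑ e ∈ Icc 1 N, lamC x z er j d * lamC x z er j' e * kp p d e =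
      1 / (Vz z * Real.log x) ^ 2 *
        ∑ k ∈ (Icc 1 N).filter (fun k => Squarefree k ∧ Nat.Coprime k (primorial z) ∧ ¬ p ∣ k),
          1 / (k.totient : ℝ) * ((ic x j k - ic x j (p * k)) * (ic x j' k - ic x j' (p * k))) := by
  rw [CDiag_sum _ _ p N hp (fun d h => (C3_lamC_support hx CDiag_er_pos h).1)
    (fun d h => (C3_lamC_support hx CDiag_er_pos h).1), Finset.sum_filter, Finset.mul_sum]
  refine Finset.sum_congr rfl fun k hk => ?_
  rw [mem_Icc] at hk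
  by_cases hpk : p ∣ k
  · rw [if_neg (not_not.2 hpk), if_neg (fun h : Squarefree k ∧ Nat.Coprime k (primorial z) ∧ ¬ p ∣ k => h.2.2 hpk),
      mul_zero]
  rw [if_pos hpk, CDiag_T x z p hx hp hz j N k hN hk.1 hpk, CDiag_T x z p hx hp hz j' N k hN' hk.1 hpk]
  by_cases hs : Squarefree k ∧ Nat.Coprime k (primorial z)
  · rw [if_pos hs, if_pos hs, if_pos ⟨hs.1, hs.2, hpk⟩]
    have hk0 : (k.totient : ℝ) ≠ 0 := by
      have : 0 < k.totient := Nat.totient_pos.2 hk.1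
      exact_mod_cast this.ne'
    have hmu : ((μ k : ℤ) : ℝ) ^ 2 = 1 := by
      rcases ArithmeticFunction.moebius_eq_or k with h3 | h3 | h3
      · exact absurd h3 (ArithmeticFunction.moebius_ne_zero_iff_squarefree.2 hs.1)
      · rw [h3]
        norm_num
      · rw [h3]
        norm_num
    calc (k.totient : ℝ) * ((μ k : ℝ) / (Nat.totient k : ℝ) / (Vz z * Real.log x) * (ic x j k - ic x j (p * k)) *
          ((μ k : ℝ) / (Nat.totient k : ℝ) / (Vz z * Real.log x) * (ic x j' k - ic x j' (p * k)))) =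
          ((μ k : ℤ) : ℝ) ^ 2 * ((k.totient : ℝ) / (k.totient : ℝ)) * (1 / (Vz z * Real.log x) ^ 2 *
            (1 / (k.totient : ℝ) * ((ic x j k - ic x j (p * k)) * (ic x j' k - ic x j' (p * k))))) := by ring
      _ = _ := by rw [hmu, div_self hk0, one_mul, one_mul]
  · rw [if_neg hs, if_neg hs, if_neg (fun h : Squarefree k ∧ Nat.Coprime k (primorial z) ∧ ¬ p ∣ k => hs ⟨h.1, h.2.1⟩),
      zero_mul, mul_zero, mul_zero]

end Pool.Agent.Lib.MP_092512_nt.RT
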