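import Pool.Agent.Lib.MP_092512_nt.RT.Defs
import Pool.Agent.Lib.MP_092512_nt.P3.C0
import Pool.Agent.Lib.MP_092512_nt.P3.C0b
import Pool.Agent.Lib.MP_092512_nt.P3.C1
import Pool.Agent.Lib.MP_092512_nt.P3.C2

/-!
# C: the form `QV` for a prime `p ≤ x^ur`

PROOF.  `u = lg x p ∈ (0, ur]`, `k₀ = ⌊u/er⌋₊ ≤ 1128`, `θ = u/er - k₀ ∈ [0, 1)`, `v̂_j = v_j` for `j < len`, `0` for `j ≥ len`.  For a rough squarefree `k` with
`x^(i er) < k ≤ x^((i+1) er)`, `i < len` (all `k > 1` of the sum are of this type): `stp k = v_i`, and `p k = x^(lg k + u)`: if `k ≤ x^((i+1) er - θ er)` then `stp (p k) = v̂_{i+k₀}`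
(`lg (pk) ≤ (i + 1 + k₀) er`; `lg(pk) > (i + k₀) er`), otherwise `stp (p k) = v̂_{i+k₀+1}`.  So, dropping the condition `¬ p ∣ k`,
`∑_k 1/φ(k) (..)² ≤ (v̂_0 - ..)²-term of k = 1 + ∑_i (v_i - v̂_{i+k₀})² [Sd(x^((i+1-θ) er)) - Sd(x^(i er))] + (v_i - v̂_{i+k₀+1})² [Sd(x^((i+1) er)) - Sd(x^((i+1-θ) er))]`, and for `0 ≤ a ≤ b ≤ 1`
`Sd(x^b) - Sd(x^a) ≤ V L (b - a + e)` (`C2_Sd_upper`, `C0_Sd_lower`).  So it is `≤ V L (er ((1-θ) D_{k₀} + θ D_{k₀+1}) + e ∑ (..)²) + M²`, `D_0 = 0`, and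
`Wv u = er ((1-θ) D_{k₀} + θ D_{k₀+1})` for `k₀ ≤ 1127` (in the sum over `k` only `k₀` and `k₀+1` have `|u/er - k| < 1`); for `k₀ = 1128`: `θ = 0` (`u = ur = 1128 er`).  The term `k = 1` is
`(stp p)² ≤ M²`, `M = max |v|`, divided by `V L → ∞` (`C1_V_log_tendsto`).
-/

set_option autoImplicit false

open Finset Filter

open scoped ArithmeticFunction.Moebius

namespace Pool.Agent.Lib.MP_092512_nt.RT

open Pool.Agent.Lib.SW Pool.Agent.Lib.MP_092512_nt.P3

theorem Dk_nonneg (len : ℕ) (v : ℕ → ℝ) (k : ℕ) : 0 ≤ Dk len v k := sum_nonneg fun _ _ => sq_nonneg _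

theorem Wv_cont (len : ℕ) (v : ℕ → ℝ) : Continuous (Wv len v) := by
  unfold Wv
  fun_prop

private theorem CQBig_er : (0 : ℝ) < er := by
  unfold er
  norm_num

private theorem CQBig_lt {x k : ℕ} (hx : 2 ≤ x) (hk : 1 ≤ k) (a : ℝ) :
    (x : ℝ) ^ a < k ↔ a < lg x k := by
  have hx1 : (1 : ℝ) < x := by exact_mod_cast hx
  have hx0 : (0 : ℝ) < x := by linarith
  have hk0 : (0 : ℝ) < k := by exact_mod_cast hk
  have hl : 0 < Real.log x := Real.log_pos hx1
  unfold lg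
  rw [lt_div_iff₀ hl, ← Real.log_rpow hx0, Real.log_lt_log_iff (by positivity) hk0]

private theorem CQBig_le {x k : ℕ} (hx : 2 ≤ x) (hk : 1 ≤ k) (a : ℝ) :
    (k : ℝ) ≤ (x : ℝ) ^ a ↔ lg x k ≤ a := by
  rw [← not_lt, ← not_lt, CQBig_lt hx hk]

/-- the step function of a real number -/
private noncomputable def CQBig_st (len : ℕ) (v : ℕ → ℝ) (y : ℝ) : ℝ :=
  ∑ j ∈ range len, v j * if (j : ℝ) * er < y ∧ y ≤ ((j : ℝ) + 1) * er then 1 else 0

private theorem CQBig_stp {x k : ℕ} (hx : 2 ≤ x) (hk : 1 ≤ k) (len : ℕ) (v : ℕ → ℝ) :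
    stp x len v k = CQBig_st len v (lg x k) := by
  unfold stp CQBig_st ic
  refine sum_congr rfl fun j _ => ?_
  rw [if_congr (and_congr (CQBig_lt hx hk _) (CQBig_le hx hk _)) rfl rfl]

private theorem CQBig_val (len : ℕ) (v : ℕ → ℝ) {i : ℕ} {y : ℝ} (h1 : (i : ℝ) * er < y)
    (h2 : y ≤ ((i : ℝ) + 1) * er) : CQBig_st len v y = if i < len then v i else 0 := by
  have he := CQBig_er
  have h3 : ∀ j ∈ range len, (v j * if (j : ℝ) * er < y ∧ y ≤ ((j : ℝ) + 1) * er then (1 : ℝ)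
      else 0) = if j = i then v j else 0 := by
    intro j _
    by_cases hj : j = i
    · subst hj
      rw [if_pos ⟨h1, h2⟩, if_pos rfl, mul_one]
    · rw [if_neg hj, if_neg, mul_zero]
      rintro ⟨h4, h5⟩
      have h6 : (j : ℝ) * er < ((i : ℝ) + 1) * er := h4.trans_le h2
      have h7 : (i : ℝ) * er < ((j : ℝ) + 1) * er := h1.trans_le h5
      have h8 := lt_of_mul_lt_mul_right h6 he.le
      have h9 := lt_of_mul_lt_mul_right h7 he.le
      have h10 : j < i + 1 := by exact_mod_cast h8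
      have h11 : i < j + 1 := by exact_mod_cast h9
      omega
  unfold CQBig_st
  rw [sum_congr rfl h3, sum_ite_eq' (range len) i v]
  simp only [mem_range]

private theorem CQBig_abs (len : ℕ) (v : ℕ → ℝ) (y : ℝ) :
    |CQBig_st len v y| ≤ ∑ j ∈ range len, |v j| := by
  unfold CQBig_st
  refine (abs_sum_le_sum_abs _ _).trans (sum_le_sum fun j _ => ?_)
  rw [abs_mul]
  split_ifs
  · rw [abs_one, mul_one]
  · rw [abs_zero, mul_zero]
    exact abs_nonneg _

private theorem CQBig_D (len : ℕ) (v : ℕ → ℝ) (k : ℕ) :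
    Dk len v k ≤ len * (2 * ∑ j ∈ range len, |v j|) ^ 2 := by
  have hM : ∀ i, i < len → |v i| ≤ ∑ j ∈ range len, |v j| := fun i hi =>
    single_le_sum (f := fun j => |v j|) (fun j _ => abs_nonneg _) (mem_range.mpr hi)
  have hM0 : 0 ≤ ∑ j ∈ range len, |v j| := sum_nonneg fun _ _ => abs_nonneg _
  have h1 : ∀ x ∈ range len, (v x - if x + k < len then v (x + k) else 0) ^ 2 ≤
      (2 * ∑ j ∈ range len, |v j|) ^ 2 := by
    intro x hx
    have h2 := hM x (mem_range.mp hx)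
    have h3 : |if x + k < len then v (x + k) else 0| ≤ ∑ j ∈ range len, |v j| := by
      split_ifs with h
      · exact hM _ h
      · rw [abs_zero]
        exact hM0
    rw [abs_le] at h2 h3
    apply sq_le_sq'
    · linarith [h2.1, h3.2]
    · linarith [h2.2, h3.1]
  unfold Dk
  refine (sum_le_sum h1).trans (le_of_eq ?_)
  rw [sum_const, card_range, nsmul_eq_mul]

private theorem CQBig_cell (z : ℕ) (S : Finset ℕ) {A B' : ℝ} (hAB : A ≤ B')
    (hS : ∀ k ∈ S, 1 ≤ k ∧ Squarefree k ∧ Nat.Coprime k (primorial z)) :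
    ∑ k ∈ S, 1 / (k.totient : ℝ) * (if A < k ∧ (k : ℝ) ≤ B' then 1 else 0) ≤
      Sd z 1 B' - Sd z 1 A := by
  have h1 : ∑ k ∈ S, 1 / (k.totient : ℝ) * (if A < k ∧ (k : ℝ) ≤ B' then (1 : ℝ) else 0) =
      ∑ k ∈ S.filter (fun k : ℕ => A < k ∧ (k : ℝ) ≤ B'), 1 / (k.totient : ℝ) := by
    rw [sum_filter]
    refine sum_congr rfl fun k _ => ?_
    split_ifs
    · rw [mul_one]
    · rw [mul_zero]
  rw [h1, le_sub_iff_add_le]
  unfold Sd
  rw [← sum_union]
  · refine sum_le_sum_of_subset_of_nonneg ?_ fun _ _ _ => by positivity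
    intro k hk
    rw [mem_union, mem_filter, mem_filter, mem_Icc] at hk
    rw [mem_filter, mem_Icc, one_mul]
    rcases hk with ⟨h2, h3, h4⟩ | ⟨⟨h2, h3⟩, h4, h5⟩
    · obtain ⟨h5, h6, h7⟩ := hS k h2
      exact ⟨⟨h5, Nat.le_floor h4⟩, h6, h7⟩
    · rw [one_mul] at h5
      exact ⟨⟨h2, h3.trans (Nat.floor_le_floor hAB)⟩, h4, h5⟩
  · rw [disjoint_left]
    intro k hk hk'
    rw [mem_filter] at hk
    rw [mem_filter, mem_Icc] at hk'
    have h2 := hk.2.1
    have h3 : (k : ℝ) ≤ A := (Nat.le_floor_iff' (by omega : k ≠ 0)).mp hk'.1.2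
    linarith

/-- one cell, in the main scale -/
private theorem CQBig_cell2 {x z : ℕ} (hx : 2 ≤ x) (S : Finset ℕ) {a b e : ℝ} (ha : 0 ≤ a)
    (hab : a ≤ b) (hb : b ≤ 1)
    (hS : ∀ k ∈ S, 1 ≤ k ∧ Squarefree k ∧ Nat.Coprime k (primorial z))
    (hU : ∀ Y : ℝ, 1 ≤ Y → Y ≤ x → Sd z 1 Y ≤ Vz z * (Real.log Y + e * Real.log x)) :
    ∑ k ∈ S, 1 / (k.totient : ℝ) * (if (x : ℝ) ^ a < k ∧ (k : ℝ) ≤ (x : ℝ) ^ b then 1 else 0) ≤
      Vz z * Real.log x * (b - a + e) := by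
  have hx1 : (1 : ℝ) < x := by exact_mod_cast hx
  have hx0 : (0 : ℝ) < x := by linarith
  have h1 := CQBig_cell z S (Real.rpow_le_rpow_of_exponent_le hx1.le hab) hS
  have h2 := hU ((x : ℝ) ^ b) (Real.one_le_rpow hx1.le (ha.trans hab)) (by
    calc (x : ℝ) ^ b ≤ (x : ℝ) ^ (1 : ℝ) := Real.rpow_le_rpow_of_exponent_le hx1.le hb
      _ = x := Real.rpow_one _)
  have h3 := C0_Sd_lower z ((x : ℝ) ^ a) (Real.one_le_rpow hx1.le ha)
  rw [Real.log_rpow hx0] at h2 h3
  calc _ ≤ _ := h1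
    _ ≤ Vz z * (b * Real.log x + e * Real.log x) - Vz z * (a * Real.log x) := sub_le_sub h2 h3
    _ = _ := by ring

/-- the two values of the tent functions -/
private theorem CQBig_tent (len : ℕ) (v : ℕ → ℝ) {w : ℝ} (hw0 : 0 ≤ w) (hw : w ≤ 1128) :
    (1 - (w - (⌊w⌋₊ : ℝ))) * Dk len v ⌊w⌋₊ + (w - (⌊w⌋₊ : ℝ)) * Dk len v (⌊w⌋₊ + 1) ≤
      ∑ k ∈ Icc (1 : ℕ) 1128, max 0 (1 - |w - k|) * Dk len v k := by
  have hf0 : (⌊w⌋₊ : ℝ) ≤ w := Nat.floor_le hw0
  have hf1 : w < (⌊w⌋₊ : ℝ) + 1 := Nat.lt_floor_add_one w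
  obtain ⟨k0, hk0⟩ : ∃ k0 : ℕ, k0 = ⌊w⌋₊ := ⟨_, rfl⟩
  rw [← hk0] at hf0 hf1 ⊢
  have hnn : ∀ k ∈ Icc (1 : ℕ) 1128, 0 ≤ max 0 (1 - |w - k|) * Dk len v k := fun k _ =>
    mul_nonneg (le_max_left _ _) (Dk_nonneg _ _ _)
  have t1 : max 0 (1 - |w - k0|) = 1 - (w - k0) := by
    rw [abs_of_nonneg (by linarith), max_eq_right (by linarith)]
  have t2 : max 0 (1 - |w - ((k0 + 1 : ℕ) : ℝ)|) = w - k0 := by
    push_cast
    rw [abs_of_nonpos (by linarith), max_eq_right (by linarith)]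
    ring
  have hk1 : k0 ≤ 1128 := by
    rw [hk0]
    have h1 : ⌊w⌋₊ ≤ ⌊(1128 : ℝ)⌋₊ := Nat.floor_le_floor hw
    rw [show (1128 : ℝ) = ((1128 : ℕ) : ℝ) by norm_num, Nat.floor_natCast] at h1
    exact h1
  rcases Nat.eq_zero_or_pos k0 with h | h
  · have h0 : Dk len v k0 = 0 := by
      rw [h]
      unfold Dk
      refine sum_eq_zero fun x hx => ?_
      rw [add_zero, if_pos (mem_range.mp hx), sub_self]
      norm_num
    rw [h0, mul_zero, zero_add, ← t2]
    exact single_le_sum hnn (by rw [mem_Icc]; omega)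
  · rcases Nat.lt_or_ge k0 1128 with h2 | h2
    · have h3 : ({k0, k0 + 1} : Finset ℕ) ⊆ Icc (1 : ℕ) 1128 := by
        intro k hk
        rw [mem_insert, mem_singleton] at hk
        rw [mem_Icc]
        omega
      have h4 := sum_le_sum_of_subset_of_nonneg h3 fun k hk _ => hnn k hk
      rw [sum_pair (by omega), t1, t2] at h4
      exact h4
    · have h3 : k0 = 1128 := by omega
      have h4 : w = k0 := by
        rw [h3] at hf0 ⊢
        push_cast at hf0 ⊢
        linarith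
      have h5 : w - (k0 : ℝ) = 0 := by linarith
      have h6 : (1 - (w - (k0 : ℝ))) * Dk len v k0 + (w - (k0 : ℝ)) * Dk len v (k0 + 1) =
          max 0 (1 - |w - k0|) * Dk len v k0 := by
        rw [t1, h5]
        ring
      rw [h6]
      exact single_le_sum hnn (by rw [mem_Icc]; omega)

theorem QV_big (B : ℕ) (hB : 3 ≤ B) (len : ℕ) (hlen : len ≤ 865) (v : ℕ → ℝ) (ε : ℝ) (hε : 0 < ε) :
    ∀ᶠ x : ℕ in atTop, ∀ p : ℕ, p.Prime → zB B x < p → (p : ℝ) ≤ (x : ℝ) ^ ur →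
      Vz (zB B x) * Real.log x * QV x (zB B x) len v p ≤ Wv len v (lg x p) + ε := by
  have her := CQBig_er
  obtain ⟨M, hM⟩ : ∃ M : ℝ, M = ∑ j ∈ range len, |v j| := ⟨_, rfl⟩
  have hM0 : 0 ≤ M := by
    rw [hM]
    exact sum_nonneg fun _ _ => abs_nonneg _
  obtain ⟨C, hC⟩ : ∃ C : ℝ, C = len * (2 * M) ^ 2 := ⟨_, rfl⟩
  have hC0 : 0 ≤ C := by
    rw [hC]
    positivity
  obtain ⟨e, he⟩ : ∃ e : ℝ, e = ε / (4 * (C + 1)) := ⟨_, rfl⟩
  have he0 : 0 < e := by
    rw [he]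
    positivity
  have heC : 2 * e * C ≤ ε / 2 := by
    have h1 : e * (4 * (C + 1)) = ε := by
      rw [he]
      field_simp
    linarith
  have hDC : ∀ k, Dk len v k ≤ C := by
    intro k
    rw [hC, hM]
    exact CQBig_D len v k
  have hlen1 : (len : ℝ) * er ≤ 1 := by
    have h1 : (len : ℝ) ≤ 865 := by exact_mod_cast hlen
    have h2 : (865 : ℝ) * er ≤ 1 := by
      unfold er
      norm_num
    exact (mul_le_mul_of_nonneg_right h1 her.le).trans h2
  filter_upwards [C2_Sd_upper B hB e he0,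
    (C1_V_log_tendsto B (by omega)).eventually_ge_atTop (2 * M ^ 2 / ε + 1),
    eventually_ge_atTop 2] with x hU hVL hx
  intro p hp hzp hpu
  have hx1 : (1 : ℝ) < x := by exact_mod_cast hx
  have hx0 : (0 : ℝ) < x := by linarith
  have hL : 0 < Real.log x := Real.log_pos hx1
  obtain ⟨z, hz⟩ : ∃ z : ℕ, z = zB B x := ⟨_, rfl⟩
  rw [← hz] at hU hVL hzp ⊢
  have hV : 0 < Vz z := C0_Vz_pos z
  have hT0 : 0 < Vz z * Real.log x := mul_pos hV hL
  have hu1 : lg x p ≤ ur := (CQBig_le hx hp.one_le ur).mp hpu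
  have hu0 : 0 ≤ lg x p := by
    unfold lg
    exact div_nonneg (Real.log_nonneg (by exact_mod_cast hp.one_le)) hL.le
  obtain ⟨u, hu⟩ : ∃ u : ℝ, u = lg x p := ⟨_, rfl⟩
  obtain ⟨w, hw⟩ : ∃ w : ℝ, w = u / er := ⟨_, rfl⟩
  have hwu : w * er = u := by
    rw [hw]
    field_simp
  have hw0 : 0 ≤ w := by
    rw [hw, hu]
    positivity
  have hw1 : w ≤ 1128 := by
    rw [hw, div_le_iff₀ her, hu]
    refine hu1.trans (le_of_eq ?_)
    unfold ur er
    norm_num
  obtain ⟨k0, hk0⟩ : ∃ k0 : ℕ, k0 = ⌊w⌋₊ := ⟨_, rfl⟩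
  obtain ⟨θ, hθ⟩ : ∃ θ : ℝ, θ = w - k0 := ⟨_, rfl⟩
  have hθ0 : 0 ≤ θ := by
    rw [hθ, hk0]
    linarith [Nat.floor_le hw0]
  have hθ1 : θ < 1 := by
    rw [hθ, hk0]
    linarith [Nat.lt_floor_add_one w]
  have huk : u = ((k0 : ℝ) + θ) * er := by
    rw [← hwu, hθ]
    ring
  obtain ⟨vh, hvh⟩ : ∃ vh : ℕ → ℝ, ∀ j, vh j = if j < len then v j else 0 := ⟨_, fun _ => rfl⟩
  obtain ⟨am, ham⟩ : ∃ am : ℕ → ℝ, ∀ i, am i = (v i - vh (i + k0)) ^ 2 := ⟨_, fun _ => rfl⟩
  obtain ⟨bm, hbm⟩ : ∃ bm : ℕ → ℝ, ∀ i, bm i = (v i - vh (i + (k0 + 1))) ^ 2 :=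
    ⟨_, fun _ => rfl⟩
  have ham0 : ∀ i, 0 ≤ am i := fun i => by rw [ham]; exact sq_nonneg _
  have hbm0 : ∀ i, 0 ≤ bm i := fun i => by rw [hbm]; exact sq_nonneg _
  have hDa : ∑ i ∈ range len, am i = Dk len v k0 := by
    unfold Dk
    refine sum_congr rfl fun i _ => ?_
    rw [ham, hvh]
  have hDb : ∑ i ∈ range len, bm i = Dk len v (k0 + 1) := by
    unfold Dk
    refine sum_congr rfl fun i _ => ?_
    rw [hbm, hvh]
  obtain ⟨K, hK⟩ : ∃ K : Finset ℕ, K = (Icc 1 ⌊(x : ℝ) ^ ((len : ℝ) * er)⌋₊).filter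
        (fun k => Squarefree k ∧ Nat.Coprime k (primorial z) ∧ ¬ p ∣ k) := ⟨_, rfl⟩
  have hKS : ∀ k ∈ K, 1 ≤ k ∧ Squarefree k ∧ Nat.Coprime k (primorial z) := by
    intro k hk
    rw [hK, mem_filter, mem_Icc] at hk
    exact ⟨hk.1.1, hk.2.1, hk.2.2.1⟩
  -- the two kinds of cells
  obtain ⟨i1, hi1⟩ : ∃ i1 : ℕ → ℕ → ℝ, ∀ i k, i1 i k =
    if (x : ℝ) ^ ((i : ℝ) * er) < k ∧ (k : ℝ) ≤ (x : ℝ) ^ (((i : ℝ) + 1 - θ) * er) then 1 else 0 :=
    ⟨_, fun _ _ => rfl⟩
  obtain ⟨i2, hi2⟩ : ∃ i2 : ℕ → ℕ → ℝ, ∀ i k, i2 i k =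
    if (x : ℝ) ^ (((i : ℝ) + 1 - θ) * er) < k ∧ (k : ℝ) ≤ (x : ℝ) ^ (((i : ℝ) + 1) * er) then 1
      else 0 := ⟨_, fun _ _ => rfl⟩
  have hi10 : ∀ i k, 0 ≤ i1 i k := fun i k => by
    rw [hi1]
    split_ifs <;> norm_num
  have hi20 : ∀ i k, 0 ≤ i2 i k := fun i k => by
    rw [hi2]
    split_ifs <;> norm_num
  have hpt : ∀ k ∈ K, (stp x len v k - stp x len v (p * k)) ^ 2 ≤
      (if k = 1 then M ^ 2 else 0) + ∑ i ∈ range len, (am i * i1 i k + bm i * i2 i k) := by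
    intro k hk
    have hk1 := (hKS k hk).1
    have hpk : 1 ≤ p * k := Nat.mul_pos hp.pos hk1
    have hlgpk : lg x (p * k) = u + lg x k := by
      rw [hu]
      unfold lg
      have h1 : (p : ℝ) ≠ 0 := by exact_mod_cast hp.ne_zero
      have h2 : (k : ℝ) ≠ 0 := by exact_mod_cast (by omega : k ≠ 0)
      rw [Nat.cast_mul, Real.log_mul h1 h2]
      ring
    rw [CQBig_stp hx hk1, CQBig_stp hx hpk, hlgpk]
    have hs0 : 0 ≤ ∑ i ∈ range len, (am i * i1 i k + bm i * i2 i k) :=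
      sum_nonneg fun i _ => add_nonneg (mul_nonneg (ham0 i) (hi10 i k))
        (mul_nonneg (hbm0 i) (hi20 i k))
    by_cases h1 : k = 1
    · rw [if_pos h1]
      have h2 : lg x k = 0 := by
        rw [h1]
        unfold lg
        rw [Nat.cast_one, Real.log_one, zero_div]
      have h3 : CQBig_st len v 0 = 0 := by
        unfold CQBig_st
        refine sum_eq_zero fun j _ => ?_
        rw [if_neg, mul_zero]
        rintro ⟨h4, _⟩
        have : 0 ≤ (j : ℝ) * er := by positivity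
        linarith
      rw [h2, add_zero, h3, zero_sub, neg_sq]
      have h5 := CQBig_abs len v u
      rw [← hM] at h5
      have h6 : CQBig_st len v u ^ 2 ≤ M ^ 2 := by
        rw [← sq_abs]
        exact pow_le_pow_left₀ (abs_nonneg _) h5 2
      linarith
    · rw [if_neg h1, zero_add]
      obtain ⟨y, hy⟩ : ∃ y : ℝ, y = lg x k := ⟨_, rfl⟩
      rw [← hy]
      have hy0 : 0 < y := by
        rw [hy]
        unfold lg
        exact div_pos (Real.log_pos (by exact_mod_cast (by omega : 1 < k))) hL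
      have hylen : y ≤ (len : ℝ) * er := by
        rw [hy, ← CQBig_le hx hk1]
        rw [hK, mem_filter, mem_Icc] at hk
        exact (Nat.le_floor_iff (by positivity)).mp hk.1.2
      -- the cell of `y`
      obtain ⟨i, hi3, hi4⟩ : ∃ i : ℕ, (i : ℝ) * er < y ∧ y ≤ ((i : ℝ) + 1) * er := by
        have h2 : 0 < y / er := by positivity
        have h3 : y / er ≤ ⌈y / er⌉₊ := Nat.le_ceil _
        have h4 : (⌈y / er⌉₊ : ℝ) < y / er + 1 := Nat.ceil_lt_add_one h2.le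
        have h5 : 1 ≤ ⌈y / er⌉₊ := Nat.one_le_ceil_iff.mpr h2
        refine ⟨⌈y / er⌉₊ - 1, ?_, ?_⟩
        · rw [Nat.cast_sub h5, Nat.cast_one, ← lt_div_iff₀ her]
          linarith
        · rw [Nat.cast_sub h5, Nat.cast_one, ← div_le_iff₀ her]
          linarith
      have hil : i < len := by
        have h2 := lt_of_mul_lt_mul_right (hi3.trans_le hylen) her.le
        exact_mod_cast h2
      have hst : CQBig_st len v y = v i := by
        rw [CQBig_val len v hi3 hi4, if_pos hil]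
      have hle : am i * i1 i k + bm i * i2 i k ≤
          ∑ i ∈ range len, (am i * i1 i k + bm i * i2 i k) :=
        single_le_sum (f := fun i => am i * i1 i k + bm i * i2 i k)
          (fun j _ => add_nonneg (mul_nonneg (ham0 j) (hi10 j k))
            (mul_nonneg (hbm0 j) (hi20 j k))) (mem_range.mpr hil)
      refine le_trans ?_ hle
      by_cases hc : y ≤ ((i : ℝ) + 1 - θ) * er
      · have h2 : i1 i k = 1 := by
          rw [hi1, if_pos]
          rw [CQBig_lt hx hk1, CQBig_le hx hk1, ← hy]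
          exact ⟨hi3, hc⟩
        have h3 : CQBig_st len v (u + y) = vh (i + k0) := by
          rw [hvh]
          apply CQBig_val
          · push_cast
            rw [huk]
            have h4 : 0 ≤ θ * er := by positivity
            nlinarith
          · push_cast
            rw [huk]
            nlinarith
        rw [h2, hst, h3, ← ham]
        have h4 : 0 ≤ bm i * i2 i k := mul_nonneg (hbm0 i) (hi20 i k)
        linarith
      · have hc' : ((i : ℝ) + 1 - θ) * er < y := not_le.mp hc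
        have h2 : i2 i k = 1 := by
          rw [hi2, if_pos]
          rw [CQBig_lt hx hk1, CQBig_le hx hk1, ← hy]
          exact ⟨hc', hi4⟩
        have h3 : CQBig_st len v (u + y) = vh (i + (k0 + 1)) := by
          rw [hvh]
          apply CQBig_val
          · push_cast
            rw [huk]
            nlinarith
          · push_cast
            rw [huk]
            have h4 : θ * er ≤ 1 * er := mul_le_mul_of_nonneg_right hθ1.le her.le
            nlinarith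
        rw [h2, hst, h3, ← hbm]
        have h4 : 0 ≤ am i * i1 i k := mul_nonneg (ham0 i) (hi10 i k)
        linarith
  -- the sum over `k`
  have hsum : ∑ k ∈ K, 1 / (k.totient : ℝ) * (stp x len v k - stp x len v (p * k)) ^ 2 ≤
      M ^ 2 + ∑ i ∈ range len, (am i * (Vz z * Real.log x * ((1 - θ) * er + e)) +
        bm i * (Vz z * Real.log x * (θ * er + e))) := by
    have h1 : ∑ k ∈ K, 1 / (k.totient : ℝ) * (stp x len v k - stp x len v (p * k)) ^ 2 ≤
        ∑ k ∈ K, 1 / (k.totient : ℝ) * ((if k = 1 then M ^ 2 else 0) +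
          ∑ i ∈ range len, (am i * i1 i k + bm i * i2 i k)) :=
      sum_le_sum fun k hk => mul_le_mul_of_nonneg_left (hpt k hk) (by positivity)
    have h2 : ∑ k ∈ K, 1 / (k.totient : ℝ) * ((if k = 1 then M ^ 2 else 0) +
          ∑ i ∈ range len, (am i * i1 i k + bm i * i2 i k)) =
        ∑ k ∈ K, (if k = 1 then M ^ 2 else 0) +
        ∑ i ∈ range len, (am i * ∑ k ∈ K, 1 / (k.totient : ℝ) * i1 i k +
          bm i * ∑ k ∈ K, 1 / (k.totient : ℝ) * i2 i k) := by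
      have h3 : ∀ k ∈ K, 1 / (k.totient : ℝ) * ((if k = 1 then M ^ 2 else 0) +
          ∑ i ∈ range len, (am i * i1 i k + bm i * i2 i k)) =
          (if k = 1 then M ^ 2 else 0) + ∑ i ∈ range len,
          (am i * (1 / (k.totient : ℝ) * i1 i k) + bm i * (1 / (k.totient : ℝ) * i2 i k)) := by
        intro k _
        rw [mul_add, mul_sum]
        congr 1
        · split_ifs with h
          · rw [h, Nat.totient_one, Nat.cast_one, div_one, one_mul]
          · rw [mul_zero]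
        · refine sum_congr rfl fun i _ => ?_
          ring
      rw [sum_congr rfl h3, sum_add_distrib, sum_comm]
      congr 1
      refine sum_congr rfl fun i _ => ?_
      rw [sum_add_distrib, mul_sum, mul_sum]
    have h3 : ∑ k ∈ K, (if k = 1 then M ^ 2 else 0) ≤ M ^ 2 := by
      rw [sum_ite_eq' K 1 fun _ => M ^ 2]
      split_ifs
      · exact le_rfl
      · positivity
    rw [h2] at h1
    refine h1.trans (add_le_add h3 (sum_le_sum fun i hi => ?_))
    have hil : i < len := mem_range.mp hi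
    have hcg : ((i : ℝ) + 1) * er ≤ 1 := by
      have h4 : ((i : ℝ) + 1) ≤ len := by exact_mod_cast hil
      exact (mul_le_mul_of_nonneg_right h4 her.le).trans hlen1
    have hag : 0 ≤ (i : ℝ) * er := by positivity
    have hab : (i : ℝ) * er ≤ ((i : ℝ) + 1 - θ) * er :=
      mul_le_mul_of_nonneg_right (by linarith) her.le
    have hbc : ((i : ℝ) + 1 - θ) * er ≤ ((i : ℝ) + 1) * er :=
      mul_le_mul_of_nonneg_right (by linarith) her.le
    have h4 := CQBig_cell2 hx K hag hab (hbc.trans hcg) hKS hU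
    have h5 := CQBig_cell2 hx K (hag.trans hab) hbc hcg hKS hU
    have h6 : ∑ k ∈ K, 1 / (k.totient : ℝ) * i1 i k ≤
        Vz z * Real.log x * ((1 - θ) * er + e) := by
      have h7 : ((i : ℝ) + 1 - θ) * er - (i : ℝ) * er + e = (1 - θ) * er + e := by ring
      rw [h7] at h4
      refine le_trans (le_of_eq (sum_congr rfl fun k _ => ?_)) h4
      rw [hi1]
    have h7 : ∑ k ∈ K, 1 / (k.totient : ℝ) * i2 i k ≤ Vz z * Real.log x * (θ * er + e) := by
      have h8 : ((i : ℝ) + 1) * er - ((i : ℝ) + 1 - θ) * er + e = θ * er + e := by ring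
      rw [h8] at h5
      refine le_trans (le_of_eq (sum_congr rfl fun k _ => ?_)) h5
      rw [hi2]
    exact add_le_add (mul_le_mul_of_nonneg_left h6 (ham0 i))
      (mul_le_mul_of_nonneg_left h7 (hbm0 i))
  have hsum2 : ∑ i ∈ range len, (am i * (Vz z * Real.log x * ((1 - θ) * er + e)) +
        bm i * (Vz z * Real.log x * (θ * er + e))) =
      Vz z * Real.log x * (er * ((1 - θ) * Dk len v k0 + θ * Dk len v (k0 + 1)) +
        e * (Dk len v k0 + Dk len v (k0 + 1))) := by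
    rw [sum_add_distrib, ← sum_mul, ← sum_mul, hDa, hDb]
    ring
  rw [hsum2] at hsum
  have hQ : Vz z * Real.log x * QV x z len v p =
      (∑ k ∈ K, 1 / (k.totient : ℝ) * (stp x len v k - stp x len v (p * k)) ^ 2) /
        (Vz z * Real.log x) := by
    unfold QV
    rw [← hK]
    have h1 : Vz z * Real.log x ≠ 0 := hT0.ne'
    field_simp
  rw [hQ, div_le_iff₀ hT0]
  refine hsum.trans ?_
  have ht := CQBig_tent len v hw0 hw1
  rw [← hk0, ← hθ] at ht
  have hWv : Wv len v (lg x p) = er * ∑ k ∈ Icc (1 : ℕ) 1128, max 0 (1 - |w - k|) * Dk len v k := by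
    unfold Wv
    rw [hw, hu]
  rw [hWv]
  have hM2 : M ^ 2 ≤ ε / 2 * (Vz z * Real.log x) := by
    have h1 : 2 * M ^ 2 / ε ≤ Vz z * Real.log x := by linarith
    rw [div_le_iff₀ hε] at h1
    linarith
  have hee : e * (Dk len v k0 + Dk len v (k0 + 1)) ≤ ε / 2 := by
    have h1 : Dk len v k0 + Dk len v (k0 + 1) ≤ 2 * C := by linarith [hDC k0, hDC (k0 + 1)]
    calc e * (Dk len v k0 + Dk len v (k0 + 1)) ≤ e * (2 * C) :=
          mul_le_mul_of_nonneg_left h1 he0.le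
      _ = 2 * e * C := by ring
      _ ≤ ε / 2 := heC
  have ht2 := mul_le_mul_of_nonneg_left ht her.le
  have h9 : er * ((1 - θ) * Dk len v k0 + θ * Dk len v (k0 + 1)) +
        e * (Dk len v k0 + Dk len v (k0 + 1)) ≤
      er * ∑ k ∈ Icc (1 : ℕ) 1128, max 0 (1 - |w - k|) * Dk len v k + ε / 2 := by linarith
  have h10 := mul_le_mul_of_nonneg_left h9 hT0.le
  linarith

end Pool.Agent.Lib.MP_092512_nt.RT
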