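import Pool.Agent.Lib.MP_092512_nt.RT.CRough

/-!
# C: the form `QV` for a small prime

PROOF.  `p ≤ x^(er/2)`.  For a rough `k` with `x^(i er) < k ≤ x^((i+1) er)`, `i < len`: `stp k = v_i` and `stp (p k) = v_i` unless `k > x^((i+1) er)/p`, then it is `v̂_{i+1}`.  So
`∑_k 1/φ(k) (..)² ≤ M'² + ∑_{i < len} (v_i - v̂_{i+1})² (Sd(x^((i+1) er)) - Sd(x^((i+1) er)/p))` (`k = 1`: `stp 1 = 0`, `(stp p)² ≤ M'²`), and by `Sd_short` (`Y = x^((i+1) er) ≤ x`) this is
`≤ M'² + C V log p ∑ (..)²`.  Multiply by `V L/(V L)²`: `≤ M'²/(V L) + C (∑ ..) lg p`.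
-/

set_option autoImplicit false

open Finset Filter

open scoped ArithmeticFunction.Moebius

namespace Pool.Agent.Lib.MP_092512_nt.RT

open Pool.Agent.Lib.SW Pool.Agent.Lib.MP_092512_nt.P3

private theorem CQSmall_er : (0 : ℝ) < er := by
  unfold er
  norm_num

private theorem CQSmall_lt {x k : ℕ} (hx : 2 ≤ x) (hk : 1 ≤ k) (a : ℝ) :
    (x : ℝ) ^ a < k ↔ a < lg x k := by
  have hx1 : (1 : ℝ) < x := by exact_mod_cast hx
  have hx0 : (0 : ℝ) < x := by linarith
  have hk0 : (0 : ℝ) < k := by exact_mod_cast hk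
  have hl : 0 < Real.log x := Real.log_pos hx1
  unfold lg
  rw [lt_div_iff₀ hl, ← Real.log_rpow hx0, Real.log_lt_log_iff (by positivity) hk0]

private theorem CQSmall_le {x k : ℕ} (hx : 2 ≤ x) (hk : 1 ≤ k) (a : ℝ) :
    (k : ℝ) ≤ (x : ℝ) ^ a ↔ lg x k ≤ a := by
  rw [← not_lt, ← not_lt, CQSmall_lt hx hk]

/-- the step function of a real number -/
private noncomputable def CQSmall_st (len : ℕ) (v : ℕ → ℝ) (y : ℝ) : ℝ :=
  ∑ j ∈ range len, v j * if (j : ℝ) * er < y ∧ y ≤ ((j : ℝ) + 1) * er then 1 else 0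

private theorem CQSmall_stp {x k : ℕ} (hx : 2 ≤ x) (hk : 1 ≤ k) (len : ℕ) (v : ℕ → ℝ) :
    stp x len v k = CQSmall_st len v (lg x k) := by
  unfold stp CQSmall_st ic
  refine sum_congr rfl fun j _ => ?_
  rw [if_congr (and_congr (CQSmall_lt hx hk _) (CQSmall_le hx hk _)) rfl rfl]

private theorem CQSmall_val (len : ℕ) (v : ℕ → ℝ) {i : ℕ} {y : ℝ} (h1 : (i : ℝ) * er < y)
    (h2 : y ≤ ((i : ℝ) + 1) * er) : CQSmall_st len v y = if i < len then v i else 0 := by
  have he := CQSmall_er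
  have h3 : ∀ j ∈ range len, (v j * if (j : ℝ) * er < y ∧ y ≤ ((j : ℝ) + 1) * er then (1 : ℝ)
      else 0) = if j = i then v j else 0 := by
    intro j _
    by_cases hj : j = i
    · subst hj
      rw [if_pos ⟨h1, h2⟩, if_pos rfl, mul_one]
    · rw [if_neg hj, if_neg, mul_zero]
      rintro ⟨h4, h5⟩
      have h6 : (j : ℝ) * er < ((i : ℝ) + 1) * er := h4.trans_le h2
      have h7 : (i : ℝ) * er < ((j : ℝ) + 1) * er := h1.trans_le h5
      have h8 := lt_of_mul_lt_mul_right h6 he.le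
      have h9 := lt_of_mul_lt_mul_right h7 he.le
      have h10 : j < i + 1 := by exact_mod_cast h8
      have h11 : i < j + 1 := by exact_mod_cast h9
      omega
  unfold CQSmall_st
  rw [sum_congr rfl h3, sum_ite_eq' (range len) i v]
  simp only [mem_range]

private theorem CQSmall_abs (len : ℕ) (v : ℕ → ℝ) (y : ℝ) :
    |CQSmall_st len v y| ≤ ∑ j ∈ range len, |v j| := by
  unfold CQSmall_st
  refine (abs_sum_le_sum_abs _ _).trans (sum_le_sum fun j _ => ?_)
  rw [abs_mul]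
  split_ifs
  · rw [abs_one, mul_one]
  · rw [abs_zero, mul_zero]
    exact abs_nonneg _

private theorem CQSmall_cell (z : ℕ) (S : Finset ℕ) {A B' : ℝ} (hAB : A ≤ B')
    (hS : ∀ k ∈ S, 1 ≤ k ∧ Squarefree k ∧ Nat.Coprime k (primorial z)) :
    ∑ k ∈ S, 1 / (k.totient : ℝ) * (if A < k ∧ (k : ℝ) ≤ B' then 1 else 0) ≤
      Sd z 1 B' - Sd z 1 A := by
  have h1 : ∑ k ∈ S, 1 / (k.totient : ℝ) * (if A < k ∧ (k : ℝ) ≤ B' then (1 : ℝ) else 0) =
      ∑ k ∈ S.filter (fun k : ℕ => A < k ∧ (k : ℝ) ≤ B'), 1 / (k.totient : ℝ) := by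
    rw [sum_filter]
    refine sum_congr rfl fun k _ => ?_
    split_ifs
    · rw [mul_one]
    · rw [mul_zero]
  rw [h1, le_sub_iff_add_le]
  unfold Sd
  rw [← sum_union]
  · refine sum_le_sum_of_subset_of_nonneg ?_ fun _ _ _ => by positivity
    intro k hk
    rw [mem_union, mem_filter, mem_filter, mem_Icc] at hk
    rw [mem_filter, mem_Icc, one_mul]
    rcases hk with ⟨h2, h3, h4⟩ | ⟨⟨h2, h3⟩, h4, h5⟩
    · obtain ⟨h5, h6, h7⟩ := hS k h2
      exact ⟨⟨h5, Nat.le_floor h4⟩, h6, h7⟩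
    · rw [one_mul] at h5
      exact ⟨⟨h2, h3.trans (Nat.floor_le_floor hAB)⟩, h4, h5⟩
  · rw [disjoint_left]
    intro k hk hk'
    rw [mem_filter] at hk
    rw [mem_filter, mem_Icc] at hk'
    have h2 := hk.2.1
    have h3 : (k : ℝ) ≤ A := (Nat.le_floor_iff' (by omega : k ≠ 0)).mp hk'.1.2
    linarith

theorem QV_small (len : ℕ) (hlen : len ≤ 865) (v : ℕ → ℝ) : ∃ C : ℝ, 0 < C ∧ ∀ B : ℕ, 3 ≤ B →
    ∀ᶠ x : ℕ in atTop, ∀ p : ℕ, p.Prime → zB B x < p → (p : ℝ) ≤ (x : ℝ) ^ (er / 2) →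
      Vz (zB B x) * Real.log x * QV x (zB B x) len v p ≤
        C * lg x p + C / (Vz (zB B x) * Real.log x) := by
  have her := CQSmall_er
  obtain ⟨M, hM⟩ : ∃ M : ℝ, M = ∑ j ∈ range len, |v j| := ⟨_, rfl⟩
  have hM0 : 0 ≤ M := by
    rw [hM]
    exact sum_nonneg fun _ _ => abs_nonneg _
  obtain ⟨C1, hC10, hSd⟩ := Sd_short
  obtain ⟨vh, hvh⟩ : ∃ vh : ℕ → ℝ, ∀ j, vh j = if j < len then v j else 0 := ⟨_, fun _ => rfl⟩
  obtain ⟨bm, hbm⟩ : ∃ bm : ℕ → ℝ, ∀ i, bm i = (v i - vh (i + 1)) ^ 2 :=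
    ⟨_, fun _ => rfl⟩
  have hbm0 : ∀ i, 0 ≤ bm i := fun i => by rw [hbm]; exact sq_nonneg _
  obtain ⟨W, hW⟩ : ∃ W : ℝ, W = ∑ i ∈ range len, bm i := ⟨_, rfl⟩
  have hW0 : 0 ≤ W := by
    rw [hW]
    exact sum_nonneg fun i _ => hbm0 i
  have hlen1 : (len : ℝ) * er ≤ 1 := by
    have h1 : (len : ℝ) ≤ 865 := by exact_mod_cast hlen
    have h2 : (865 : ℝ) * er ≤ 1 := by
      unfold er
      norm_num
    exact (mul_le_mul_of_nonneg_right h1 her.le).trans h2
  refine ⟨M ^ 2 + W * C1 + 1, by positivity, ?_⟩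
  intro B hB
  filter_upwards [hSd B hB, eventually_ge_atTop 2] with x hSx hx
  intro p hp hzp hpu
  have hx1 : (1 : ℝ) < x := by exact_mod_cast hx
  have hx0 : (0 : ℝ) < x := by linarith
  have hL : 0 < Real.log x := Real.log_pos hx1
  obtain ⟨z, hz⟩ : ∃ z : ℕ, z = zB B x := ⟨_, rfl⟩
  rw [← hz] at hSx hzp ⊢
  have hV : 0 < Vz z := C0_Vz_pos z
  have hT0 : 0 < Vz z * Real.log x := mul_pos hV hL
  have hp0 : (0 : ℝ) < p := by exact_mod_cast hp.pos
  have hp1 : (1 : ℝ) ≤ p := by exact_mod_cast hp.one_le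
  have hu1 : lg x p ≤ er / 2 := (CQSmall_le hx hp.one_le (er / 2)).mp hpu
  have hu0 : 0 ≤ lg x p := by
    unfold lg
    exact div_nonneg (Real.log_nonneg hp1) hL.le
  obtain ⟨u, hu⟩ : ∃ u : ℝ, u = lg x p := ⟨_, rfl⟩
  obtain ⟨K, hK⟩ : ∃ K : Finset ℕ, K = (Icc 1 ⌊(x : ℝ) ^ ((len : ℝ) * er)⌋₊).filter
        (fun k => Squarefree k ∧ Nat.Coprime k (primorial z) ∧ ¬ p ∣ k) := ⟨_, rfl⟩
  have hKS : ∀ k ∈ K, 1 ≤ k ∧ Squarefree k ∧ Nat.Coprime k (primorial z) := by
    intro k hk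
    rw [hK, mem_filter, mem_Icc] at hk
    exact ⟨hk.1.1, hk.2.1, hk.2.2.1⟩
  obtain ⟨i2, hi2⟩ : ∃ i2 : ℕ → ℕ → ℝ, ∀ i k, i2 i k =
    if (x : ℝ) ^ (((i : ℝ) + 1) * er) / p < k ∧ (k : ℝ) ≤ (x : ℝ) ^ (((i : ℝ) + 1) * er) then 1
      else 0 := ⟨_, fun _ _ => rfl⟩
  have hi20 : ∀ i k, 0 ≤ i2 i k := fun i k => by
    rw [hi2]
    split_ifs <;> norm_num
  have hpt : ∀ k ∈ K, (stp x len v k - stp x len v (p * k)) ^ 2 ≤
      (if k = 1 then M ^ 2 else 0) + ∑ i ∈ range len, bm i * i2 i k := by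
    intro k hk
    have hk1 := (hKS k hk).1
    have hpk : 1 ≤ p * k := Nat.mul_pos hp.pos hk1
    have hlgpk : lg x (p * k) = u + lg x k := by
      rw [hu]
      unfold lg
      have h1 : (p : ℝ) ≠ 0 := by exact_mod_cast hp.ne_zero
      have h2 : (k : ℝ) ≠ 0 := by exact_mod_cast (by omega : k ≠ 0)
      rw [Nat.cast_mul, Real.log_mul h1 h2]
      ring
    have hs0 : 0 ≤ ∑ i ∈ range len, bm i * i2 i k :=
      sum_nonneg fun i _ => mul_nonneg (hbm0 i) (hi20 i k)
    rw [CQSmall_stp hx hk1, CQSmall_stp hx hpk, hlgpk]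
    by_cases h1 : k = 1
    · rw [if_pos h1]
      have h2 : lg x k = 0 := by
        rw [h1]
        unfold lg
        rw [Nat.cast_one, Real.log_one, zero_div]
      have h3 : CQSmall_st len v 0 = 0 := by
        unfold CQSmall_st
        refine sum_eq_zero fun j _ => ?_
        rw [if_neg, mul_zero]
        rintro ⟨h4, _⟩
        have : 0 ≤ (j : ℝ) * er := by positivity
        linarith
      rw [h2, add_zero, h3, zero_sub, neg_sq]
      have h5 := CQSmall_abs len v u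
      rw [← hM] at h5
      have h6 : CQSmall_st len v u ^ 2 ≤ M ^ 2 := by
        rw [← sq_abs]
        exact pow_le_pow_left₀ (abs_nonneg _) h5 2
      linarith
    · rw [if_neg h1, zero_add]
      obtain ⟨y, hy⟩ : ∃ y : ℝ, y = lg x k := ⟨_, rfl⟩
      rw [← hy]
      have hy0 : 0 < y := by
        rw [hy]
        unfold lg
        exact div_pos (Real.log_pos (by exact_mod_cast (by omega : 1 < k))) hL
      have hylen : y ≤ (len : ℝ) * er := by
        rw [hy, ← CQSmall_le hx hk1]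
        rw [hK, mem_filter, mem_Icc] at hk
        exact (Nat.le_floor_iff (by positivity)).mp hk.1.2
      -- the cell of `y`
      obtain ⟨i, hi3, hi4⟩ : ∃ i : ℕ, (i : ℝ) * er < y ∧ y ≤ ((i : ℝ) + 1) * er := by
        have h2 : 0 < y / er := by positivity
        have h3 : y / er ≤ ⌈y / er⌉₊ := Nat.le_ceil _
        have h4 : (⌈y / er⌉₊ : ℝ) < y / er + 1 := Nat.ceil_lt_add_one h2.le
        have h5 : 1 ≤ ⌈y / er⌉₊ := Nat.one_le_ceil_iff.mpr h2
        refine ⟨⌈y / er⌉₊ - 1, ?_, ?_⟩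
        · rw [Nat.cast_sub h5, Nat.cast_one, ← lt_div_iff₀ her]
          linarith
        · rw [Nat.cast_sub h5, Nat.cast_one, ← div_le_iff₀ her]
          linarith
      have hil : i < len := by
        have h2 := lt_of_mul_lt_mul_right (hi3.trans_le hylen) her.le
        exact_mod_cast h2
      have hst : CQSmall_st len v y = v i := by
        rw [CQSmall_val len v hi3 hi4, if_pos hil]
      have hle : bm i * i2 i k ≤ ∑ i ∈ range len, bm i * i2 i k :=
        single_le_sum (f := fun i => bm i * i2 i k)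
          (fun j _ => mul_nonneg (hbm0 j) (hi20 j k)) (mem_range.mpr hil)
      by_cases hc : u + y ≤ ((i : ℝ) + 1) * er
      · have h3 : CQSmall_st len v (u + y) = v i := by
          rw [CQSmall_val len v (i := i) (by rw [hu]; linarith) hc, if_pos hil]
        rw [hst, h3, sub_self]
        have h4 : (0 : ℝ) ^ 2 = 0 := by norm_num
        rw [h4]
        exact hs0
      · have hc' : ((i : ℝ) + 1) * er < u + y := not_le.mp hc
        refine le_trans ?_ hle
        have h2 : i2 i k = 1 := by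
          rw [hi2, if_pos]
          refine ⟨?_, ?_⟩
          · rw [div_lt_iff₀ hp0]
            have h5 : (x : ℝ) ^ (((i : ℝ) + 1) * er) < ((p * k : ℕ) : ℝ) := by
              rw [CQSmall_lt hx hpk, hlgpk, ← hy]
              exact hc'
            push_cast at h5
            linarith
          · rw [CQSmall_le hx hk1, ← hy]
            exact hi4
        have h3 : CQSmall_st len v (u + y) = vh (i + 1) := by
          rw [hvh]
          apply CQSmall_val
          · push_cast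
            exact hc'
          · push_cast
            rw [hu]
            nlinarith
        rw [h2, hst, h3, ← hbm, mul_one]
  -- the sum over `k`
  have hsum : ∑ k ∈ K, 1 / (k.totient : ℝ) * (stp x len v k - stp x len v (p * k)) ^ 2 ≤
      M ^ 2 + ∑ i ∈ range len, bm i * (C1 * Vz z * Real.log p) := by
    have h1 : ∑ k ∈ K, 1 / (k.totient : ℝ) * (stp x len v k - stp x len v (p * k)) ^ 2 ≤
        ∑ k ∈ K, 1 / (k.totient : ℝ) * ((if k = 1 then M ^ 2 else 0) +
          ∑ i ∈ range len, bm i * i2 i k) :=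
      sum_le_sum fun k hk => mul_le_mul_of_nonneg_left (hpt k hk) (by positivity)
    have h2 : ∑ k ∈ K, 1 / (k.totient : ℝ) * ((if k = 1 then M ^ 2 else 0) +
          ∑ i ∈ range len, bm i * i2 i k) =
        ∑ k ∈ K, (if k = 1 then M ^ 2 else 0) +
        ∑ i ∈ range len, bm i * ∑ k ∈ K, 1 / (k.totient : ℝ) * i2 i k := by
      have h3 : ∀ k ∈ K, 1 / (k.totient : ℝ) * ((if k = 1 then M ^ 2 else 0) +
          ∑ i ∈ range len, bm i * i2 i k) =
          (if k = 1 then M ^ 2 else 0) + ∑ i ∈ range len, bm i * (1 / (k.totient : ℝ) * i2 i k) := by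
        intro k _
        rw [mul_add, mul_sum]
        congr 1
        · split_ifs with h
          · rw [h, Nat.totient_one, Nat.cast_one, div_one, one_mul]
          · rw [mul_zero]
        · refine sum_congr rfl fun i _ => ?_
          ring
      rw [sum_congr rfl h3, sum_add_distrib, sum_comm]
      congr 1
      refine sum_congr rfl fun i _ => ?_
      rw [mul_sum]
    have h3 : ∑ k ∈ K, (if k = 1 then M ^ 2 else 0) ≤ M ^ 2 := by
      rw [sum_ite_eq' K 1 fun _ => M ^ 2]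
      split_ifs
      · exact le_rfl
      · positivity
    rw [h2] at h1
    refine h1.trans (add_le_add h3 (sum_le_sum fun i hi => ?_))
    refine mul_le_mul_of_nonneg_left ?_ (hbm0 i)
    have hil : i < len := mem_range.mp hi
    have hcg : ((i : ℝ) + 1) * er ≤ 1 := by
      have h4 : ((i : ℝ) + 1) ≤ len := by exact_mod_cast hil
      exact (mul_le_mul_of_nonneg_right h4 her.le).trans hlen1
    have hY1 : (x : ℝ) ^ er ≤ (x : ℝ) ^ (((i : ℝ) + 1) * er) := by
      apply Real.rpow_le_rpow_of_exponent_le hx1.le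
      have h4 : (0 : ℝ) ≤ (i : ℝ) * er := by positivity
      linarith
    have hY2 : (x : ℝ) ^ (((i : ℝ) + 1) * er) ≤ x := by
      calc (x : ℝ) ^ (((i : ℝ) + 1) * er) ≤ (x : ℝ) ^ (1 : ℝ) :=
            Real.rpow_le_rpow_of_exponent_le hx1.le hcg
        _ = x := Real.rpow_one _
    have h5 := hSx _ hY1 hY2 p hp.two_le hpu
    have h6 := CQSmall_cell z K (div_le_self (by positivity : (0 : ℝ) ≤ (x : ℝ) ^ (((i : ℝ) + 1) * er)) hp1) hKS
    refine le_trans (le_of_eq (sum_congr rfl fun k _ => ?_)) (h6.trans h5)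
    rw [hi2]
  have hQ : Vz z * Real.log x * QV x z len v p =
      (∑ k ∈ K, 1 / (k.totient : ℝ) * (stp x len v k - stp x len v (p * k)) ^ 2) /
        (Vz z * Real.log x) := by
    unfold QV
    rw [← hK]
    have h1 : Vz z * Real.log x ≠ 0 := hT0.ne'
    field_simp
  rw [hQ, div_le_iff₀ hT0]
  refine hsum.trans ?_
  rw [← sum_mul, ← hW, add_mul, div_mul_cancel₀ _ hT0.ne']
  have h1 : (M ^ 2 + W * C1 + 1) * lg x p * (Vz z * Real.log x) =
      (M ^ 2 + W * C1 + 1) * (Vz z * Real.log p) := by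
    unfold lg
    field_simp
  rw [h1]
  have h2 : 0 ≤ Vz z * Real.log p := mul_nonneg hV.le (Real.log_nonneg hp1)
  have h3 : 0 ≤ M ^ 2 * (Vz z * Real.log p) := by positivity
  have h4 : 0 ≤ W * C1 := by positivity
  nlinarith

end Pool.Agent.Lib.MP_092512_nt.RT
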