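import Pool.Agent.Lib.MP_092512_nt.RT.Defs
import Pool.Agent.Lib.MP_092512_nt.P3.Spec2
import Pool.Agent.Lib.MP_092512_nt.P3.C0
import Pool.Agent.Lib.MP_092512_nt.P3.C0b
import Pool.Agent.Lib.MP_092512_nt.P3.C1
import Pool.Agent.Lib.MP_092512_nt.P3.C1r
import Pool.Agent.Lib.MP_092512_nt.P3.C2
import Pool.Agent.Lib.SW.PM.PM5a

/-!
# C: rough numbers in short multiplicative intervals

PROOFS.  `V_ge`: `Vz z = ∏_{p ≤ z} (1 - 1/p)` (see `G1_Vz` in P3/G1.lean or C1.lean) and `Sieve.mertens_product_upper`.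
`rough_dyadic`: Selberg's sieve `Sieve.selberg_bound` (Lib/Sieve/Selberg.lean; see its applications in Lib/Sieve/PairSieve.lean or Lib/MP_5d7b92_nt/SS/SB.lean) for the
set `(t, 2t]`, all masses 1, `totalMass = t`, `ν(d) = 1/d`, `prodPrimes = primorial z`, `|rem d| ≤ 1`, level `Z = ⌊t^(1/4)⌋₊`:
`#rough ≤ t/S + Z²`, `S = ∑_{l ∣ P, l ≤ Z} 1/φ(l) ≥ ∑_{m ≤ Z, all prime factors ≤ z} 1/m` (sort `m` by its radical: as in `C0_rough_le_Sd`, `Sieve.sum_primeFactors_eq_le`)
`≥ (1/2)/V` by `C1_rankin_tail` (`Z ≥ x^(er/20)`).  So `#rough ≤ 2 t V + t^(1/2) ≤ 3 t V` (`V ≥ 1/(C log z)`).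
`Sd_short`: `1/φ(k) ≤ 2/k` for rough `k ≤ x` (`C2_totient_rough_le`); cover `(Y/p, Y]` by at most `log p/log 2 + 2` intervals `(t, 2t]` with integers `t`,
`x^(er/4) ≤ t ≤ x`; each contributes at most `(2/t) · C t V`; `1 ≤ 2 log p`.
-/

set_option autoImplicit false

open Finset Filter

open scoped ArithmeticFunction.Moebius

namespace Pool.Agent.Lib.MP_092512_nt.RT

open Pool.Agent.Lib.SW Pool.Agent.Lib.MP_092512_nt.P3

private theorem CRough_Vz (z : ℕ) : Vz z = ∏ p ∈ (Icc 1 z).filter Nat.Prime, (1 - 1 / (p : ℝ)) := by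
  have h1 : Vz z = LG3V z := LG3_V z
  rw [h1]
  unfold LG3V
  refine prod_congr ?_ fun _ _ => rfl
  ext p
  simp only [mem_filter, mem_range, mem_Icc]
  constructor
  · rintro ⟨h, hp⟩
    exact ⟨⟨hp.one_lt.le, by omega⟩, hp⟩
  · rintro ⟨⟨_, h⟩, hp⟩
    exact ⟨by omega, hp⟩

theorem V_ge : ∃ C : ℝ, 0 < C ∧ ∀ z : ℕ, 2 ≤ z → 1 / (C * Real.log z) ≤ Vz z := by
  obtain ⟨C, hC, h⟩ := Sieve.mertens_product_upper
  refine ⟨C, hC, fun z hz => ?_⟩
  have h1 := h z hz
  have hV := C0_Vz_pos z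
  have hl : 0 < Real.log z := Real.log_pos (by exact_mod_cast hz)
  have h2 : (Vz z)⁻¹ ≤ C * Real.log z := by
    rw [CRough_Vz, ← prod_inv_distrib]
    exact h1
  rw [one_div]
  exact (inv_le_comm₀ hV (by positivity)).1 h2

/-- the sieve for the interval `(t, 2t]` -/
private noncomputable def rdSieve (t z : ℕ) : BoundingSieve where
  support := Ioc t (2 * t)
  prodPrimes := primorial z
  prodPrimes_squarefree := by
    unfold primorial
    apply Finset.squarefree_prod_of_pairwise_isCoprime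
    · intro p hp q hq hpq
      have hp' := (Finset.mem_filter.mp (Finset.mem_coe.mp hp)).2
      have hq' := (Finset.mem_filter.mp (Finset.mem_coe.mp hq)).2
      exact Nat.coprime_iff_isRelPrime.mp ((Nat.coprime_primes hp' hq').mpr hpq)
    · intro p hp
      exact (Finset.mem_filter.mp hp).2.prime.squarefree
  weights := fun _ => 1
  weights_nonneg := fun _ => zero_le_one
  totalMass := t
  nu := btNu
  nu_mult := by
    unfold btNu
    exact ArithmeticFunction.IsMultiplicative.prodPrimeFactors _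
  nu_pos_of_prime := by
    intro p hp _
    rw [btNu_prime hp]
    have := hp.pos
    positivity
  nu_lt_one_of_prime := by
    intro p hp _
    rw [btNu_prime hp]
    have hp0 : (0 : ℝ) < p := by exact_mod_cast hp.pos
    rw [div_lt_one hp0]
    exact_mod_cast hp.one_lt

private theorem rd_siftedSum (t z : ℕ) : (rdSieve t z).siftedSum =
    (((Ioc t (2 * t)).filter (fun n => Nat.Coprime n (primorial z))).card : ℝ) := by
  unfold BoundingSieve.siftedSum
  change ∑ l ∈ Ioc t (2 * t), (if (primorial z).Coprime l then (1 : ℝ) else 0) = _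
  rw [Finset.card_filter]
  push_cast
  refine sum_congr rfl fun n _ => ?_
  simp only [Nat.coprime_comm]

private theorem rd_multSum (t z l : ℕ) : (rdSieve t z).multSum l =
    (((Ioc t (2 * t)).filter (fun n => l ∣ n)).card : ℝ) := by
  unfold BoundingSieve.multSum
  change ∑ n ∈ Ioc t (2 * t), (if l ∣ n then (1 : ℝ) else 0) = _
  rw [Finset.card_filter]
  push_cast
  rfl

private theorem rd_abs_rem_le (t z : ℕ) {l : ℕ} (hl : l ∣ primorial z) :
    |(rdSieve t z).rem l| ≤ 1 := by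
  have hsq : Squarefree l := (rdSieve t z).prodPrimes_squarefree.squarefree_of_dvd hl
  have hl0 : 0 < l := Nat.pos_of_ne_zero hsq.ne_zero
  have hlr : (0 : ℝ) < l := by exact_mod_cast hl0
  unfold BoundingSieve.rem
  rw [rd_multSum]
  change |_ - btNu l * (t : ℝ)| ≤ _
  rw [btNu_squarefree hsq]
  have hc : ((Ioc t (2 * t)).filter (fun n => l ∣ n)).card + t / l = 2 * t / l := by
    have h1 := Nat.Ioc_filter_dvd_card_eq_div t l
    have h2 := Nat.Ioc_filter_dvd_card_eq_div (2 * t) l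
    rw [← h2, ← h1, ← card_union_of_disjoint]
    · congr 1
      ext n
      simp only [mem_union, mem_filter, mem_Ioc]
      constructor
      · rintro (⟨⟨h3, h4⟩, h5⟩ | ⟨⟨h3, h4⟩, h5⟩)
        · exact ⟨⟨by omega, h4⟩, h5⟩
        · exact ⟨⟨h3, by omega⟩, h5⟩
      · rintro ⟨⟨h3, h4⟩, h5⟩
        by_cases h6 : n ≤ t
        · exact Or.inr ⟨⟨h3, h6⟩, h5⟩
        · exact Or.inl ⟨⟨by omega, h4⟩, h5⟩
    · rw [Finset.disjoint_left]
      intro n h3 h4
      rw [mem_filter, mem_Ioc] at h3 h4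
      omega
  have h1 : t = l * (t / l) + t % l := (Nat.div_add_mod t l).symm
  have h2 : t % l < l := Nat.mod_lt t hl0
  have h3 : 2 * t / l = 2 * (t / l) + 2 * (t % l) / l := by
    conv_lhs => rw [h1]
    rw [show 2 * (l * (t / l) + t % l) = 2 * (t % l) + l * (2 * (t / l)) by ring,
      Nat.add_mul_div_left _ _ hl0]
    ring
  have h4 : 2 * (t % l) / l ≤ 1 := by
    have : 2 * (t % l) / l < 2 := by
      rw [Nat.div_lt_iff_lt_mul hl0]
      omega
    omega
  have h5 : ((Ioc t (2 * t)).filter (fun n => l ∣ n)).card = t / l + 2 * (t % l) / l := by omega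
  rw [h5]
  have h6 : (1 : ℝ) / l * t = ((t / l : ℕ) : ℝ) + ((t % l : ℕ) : ℝ) / l := by
    have : (t : ℝ) = (l : ℝ) * ((t / l : ℕ) : ℝ) + ((t % l : ℕ) : ℝ) := by exact_mod_cast h1
    conv_lhs => rw [this]
    field_simp
  rw [h6]
  have h7 : ((t % l : ℕ) : ℝ) / l ≤ 1 := by
    rw [div_le_one hlr]
    exact_mod_cast h2.le
  have h8 : 0 ≤ ((t % l : ℕ) : ℝ) / l := by positivity
  have h9 : ((2 * (t % l) / l : ℕ) : ℝ) ≤ 1 := by exact_mod_cast h4
  have h10 : 0 ≤ ((2 * (t % l) / l : ℕ) : ℝ) := Nat.cast_nonneg _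
  push_cast at h9 h10 ⊢
  rw [abs_le]
  constructor <;> linarith

private theorem rd_selS_ge (t z Z : ℕ) :
    ∑ m ∈ (Icc 1 Z).filter (fun b => ∀ p ∈ b.primeFactors, p ≤ z), (1 : ℝ) / m ≤
      Sieve.selS (rdSieve t z) Z := by
  classical
  set s := rdSieve t z with hs
  have hPsq : Squarefree s.prodPrimes := s.prodPrimes_squarefree
  have hP0 : s.prodPrimes ≠ 0 := hPsq.ne_zero
  unfold Sieve.selS
  have hmaps : ∀ m ∈ (Icc 1 Z).filter (fun b => ∀ p ∈ b.primeFactors, p ≤ z),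
      (∏ p ∈ m.primeFactors, p) ∈ s.prodPrimes.divisors.filter (fun l => l ≤ Z) := by
    intro m hm
    have hm' := mem_filter.mp hm
    have hm1 := (mem_Icc.mp hm'.1).1
    have hm2 := (mem_Icc.mp hm'.1).2
    rw [mem_filter, Nat.mem_divisors]
    refine ⟨⟨?_, hP0⟩, (Nat.le_of_dvd hm1 (Nat.prod_primeFactors_dvd m)).trans hm2⟩
    apply Finset.prod_primes_dvd
    · intro p hp
      exact (Nat.prime_of_mem_primeFactors hp).prime
    · intro p hp
      change p ∣ primorial z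
      unfold primorial
      refine Finset.dvd_prod_of_mem (fun p => p) (mem_filter.2 ⟨mem_range.2 ?_,
        Nat.prime_of_mem_primeFactors hp⟩)
      have := hm'.2 p hp
      omega
  rw [← Finset.sum_fiberwise_of_maps_to hmaps]
  refine Finset.sum_le_sum fun l hl => ?_
  have hl' := mem_filter.mp hl
  have hlP : l ∣ s.prodPrimes := Nat.dvd_of_mem_divisors hl'.1
  have hlsq : Squarefree l := hPsq.squarefree_of_dvd hlP
  rw [Sieve.selbergTerms_eq_prod s hlP]
  have h1 : ∑ m ∈ ((Icc 1 Z).filter (fun b => ∀ p ∈ b.primeFactors, p ≤ z)) with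
        (∏ p ∈ m.primeFactors, p) = l, (1 : ℝ) / m
      ≤ ∑ m ∈ Icc 1 Z with m.primeFactors = l.primeFactors, (1 : ℝ) / m := by
    apply Finset.sum_le_sum_of_subset_of_nonneg
    · intro m hm
      have hm := mem_filter.mp hm
      refine mem_filter.mpr ⟨(mem_filter.mp hm.1).1, ?_⟩
      rw [← hm.2, Nat.primeFactors_prod]
      intro p hp; exact Nat.prime_of_mem_primeFactors hp
    · intro _ _ _; positivity
  refine h1.trans ?_
  refine (Sieve.sum_primeFactors_eq_le (fun n : ℕ => (1 : ℝ) / n) (fun n => by positivity) (by simp)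
    (fun m n => by push_cast; rw [one_div_mul_one_div]) Z l.primeFactors
    (fun p hp => Nat.prime_of_mem_primeFactors hp) ?_).trans ?_
  · intro p hp
    have := (Nat.prime_of_mem_primeFactors hp).one_lt
    have h1 : (1 : ℝ) < p := by exact_mod_cast this
    rw [div_lt_one (by linarith)]
    exact h1
  · apply le_of_eq
    refine Finset.prod_congr rfl fun p hp => ?_
    change _ = btNu p / (1 - btNu p)
    rw [btNu_prime (Nat.prime_of_mem_primeFactors hp)]

private theorem rd_count_le (t z Z : ℕ) (hZ : 1 ≤ Z) :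
    (((Ioc t (2 * t)).filter (fun n => Nat.Coprime n (primorial z))).card : ℝ) ≤
      t / Sieve.selS (rdSieve t z) Z + (Z : ℝ) ^ 2 := by
  classical
  set s := rdSieve t z with hs
  have hsel := Sieve.selberg_bound s Z hZ
  rw [hs, rd_siftedSum, ← hs] at hsel
  refine hsel.trans (add_le_add le_rfl ?_)
  have hterm : ∀ d1 ∈ s.prodPrimes.divisors.filter (fun d => d ≤ Z),
      ∀ d2 ∈ s.prodPrimes.divisors.filter (fun d => d ≤ Z), |s.rem (d1.lcm d2)| ≤ 1 := by
    intro d1 h1 d2 h2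
    exact rd_abs_rem_le t z (Nat.lcm_dvd (Nat.dvd_of_mem_divisors (mem_filter.1 h1).1)
      (Nat.dvd_of_mem_divisors (mem_filter.1 h2).1))
  have hcard : ((s.prodPrimes.divisors.filter (fun d => d ≤ Z)).card : ℝ) ≤ Z := by
    have h1 : s.prodPrimes.divisors.filter (fun d => d ≤ Z) ⊆ Icc 1 Z := by
      intro d hd
      rw [mem_filter] at hd
      exact mem_Icc.2 ⟨Nat.pos_of_mem_divisors hd.1, hd.2⟩
    have h2 := card_le_card h1
    rw [Nat.card_Icc, Nat.add_sub_cancel] at h2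
    exact_mod_cast h2
  calc ∑ d1 ∈ s.prodPrimes.divisors with d1 ≤ Z,
      ∑ d2 ∈ s.prodPrimes.divisors with d2 ≤ Z, |s.rem (d1.lcm d2)|
      ≤ ∑ d1 ∈ s.prodPrimes.divisors with d1 ≤ Z,
        ∑ d2 ∈ s.prodPrimes.divisors with d2 ≤ Z, (1 : ℝ) :=
        sum_le_sum fun d1 h1 => sum_le_sum fun d2 h2 => hterm d1 h1 d2 h2
    _ = ((s.prodPrimes.divisors.filter (fun d => d ≤ Z)).card : ℝ) *
        ((s.prodPrimes.divisors.filter (fun d => d ≤ Z)).card : ℝ) := by
        simp [sum_const]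
    _ ≤ (Z : ℝ) * Z := mul_le_mul hcard hcard (Nat.cast_nonneg _) (Nat.cast_nonneg _)
    _ = (Z : ℝ) ^ 2 := by ring

private theorem er_pos : 0 < er := by
  unfold er
  norm_num

private theorem er_le : er ≤ 1 := by
  unfold er
  norm_num

/-- the number of rough integers in `(t, 2t]` -/
theorem rough_dyadic : ∃ C : ℝ, 0 < C ∧ ∀ B : ℕ, 3 ≤ B → ∀ᶠ x : ℕ in atTop, ∀ t : ℕ,
    (x : ℝ) ^ (er / 4) ≤ t → t ≤ x →
      (((Ioc t (2 * t)).filter (fun n => Nat.Coprime n (primorial (zB B x)))).card : ℝ) ≤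
        C * (t * Vz (zB B x)) := by
  refine ⟨3, by norm_num, fun B hB => ?_⟩
  have he := er_pos
  have he1 := er_le
  have hlog : Tendsto (fun x : ℕ => Real.log x) atTop atTop :=
    Real.tendsto_log_atTop.comp tendsto_natCast_atTop_atTop
  have hlr : ∀ᶠ x : ℕ in atTop, Real.log x ≤ (x : ℝ) ^ (er / 8) := by
    have h1 := (isLittleO_log_rpow_atTop (show (0 : ℝ) < er / 8 by positivity)).bound
      (c := 1) one_pos
    have h2 := tendsto_natCast_atTop_atTop.eventually h1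
    filter_upwards [h2, eventually_ge_atTop 1] with x hx hx1
    have hx1' : (1 : ℝ) ≤ x := by exact_mod_cast hx1
    rw [Real.norm_eq_abs, Real.norm_eq_abs, abs_of_nonneg (Real.log_nonneg hx1'),
      abs_of_nonneg (Real.rpow_nonneg (by linarith) _), one_mul] at hx
    exact hx
  have hbig : ∀ᶠ x : ℕ in atTop, (1 : ℝ) ≤ (x : ℝ) ^ (er / 16) :=
    ((tendsto_rpow_atTop (show (0 : ℝ) < er / 16 by positivity)).comp
      tendsto_natCast_atTop_atTop).eventually_ge_atTop 1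
  filter_upwards [C1_rankin_tail B (by omega) (er / 20) (by positivity),
    (C1_V_log_tendsto B (by omega)).eventually_ge_atTop 1, hlr, hlog.eventually_gt_atTop 0,
    eventually_ge_atTop 2, hbig] with x hT hV1 hlr hl hx2 hbig t ht htx
  have hx0 : (0 : ℝ) < x := by
    have : (2 : ℝ) ≤ x := by exact_mod_cast hx2
    linarith
  have hx1 : (1 : ℝ) ≤ x := by
    have : (2 : ℝ) ≤ x := by exact_mod_cast hx2
    linarith
  have hV := C0_Vz_pos (zB B x)
  have hx4 : (1 : ℝ) ≤ (x : ℝ) ^ (er / 4) := Real.one_le_rpow hx1 (by positivity)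
  have ht1 : (1 : ℝ) ≤ t := hx4.trans ht
  set Z : ℕ := ⌊(t : ℝ) ^ (1 / 4 : ℝ)⌋₊ with hZ
  have hZ1 : 1 ≤ Z := by
    rw [hZ, Nat.one_le_floor_iff]
    exact Real.one_le_rpow ht1 (by norm_num)
  have hZle : (Z : ℝ) ≤ (t : ℝ) ^ (1 / 4 : ℝ) := Nat.floor_le (by positivity)
  have hW : ⌊(x : ℝ) ^ (er / 20)⌋₊ ≤ Z := by
    refine Nat.floor_mono ?_
    calc (x : ℝ) ^ (er / 20) ≤ (x : ℝ) ^ (er / 4 * (1 / 4)) :=
          Real.rpow_le_rpow_of_exponent_le hx1 (by linarith)
      _ = ((x : ℝ) ^ (er / 4)) ^ (1 / 4 : ℝ) := Real.rpow_mul hx0.le _ _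
      _ ≤ (t : ℝ) ^ (1 / 4 : ℝ) := Real.rpow_le_rpow (by linarith) ht (by norm_num)
  have hS : 1 / (2 * Vz (zB B x)) ≤ Sieve.selS (rdSieve t (zB B x)) Z := by
    refine le_trans ?_ (rd_selS_ge t (zB B x) Z)
    refine le_trans ?_ (hT.trans ?_)
    · rw [div_le_div_iff₀ (by positivity) hV]
      nlinarith
    · refine sum_le_sum_of_subset_of_nonneg ?_ fun _ _ _ => by positivity
      intro m hm
      rw [mem_filter, mem_Icc] at hm ⊢
      exact ⟨⟨hm.1.1, hm.1.2.trans hW⟩, hm.2⟩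
  have hSpos : 0 < Sieve.selS (rdSieve t (zB B x)) Z := lt_of_lt_of_le (by positivity) hS
  refine (rd_count_le t (zB B x) Z hZ1).trans ?_
  have h1 : (t : ℝ) / Sieve.selS (rdSieve t (zB B x)) Z ≤ 2 * (t * Vz (zB B x)) := by
    rw [div_le_iff₀ hSpos]
    have h2 : (t : ℝ) = 2 * (t * Vz (zB B x)) * (1 / (2 * Vz (zB B x))) := by
      field_simp
    calc (t : ℝ) = 2 * (t * Vz (zB B x)) * (1 / (2 * Vz (zB B x))) := h2
      _ ≤ _ := mul_le_mul_of_nonneg_left hS (by positivity)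
  have h3 : (Z : ℝ) ^ 2 ≤ t * Vz (zB B x) := by
    have h4 : (Z : ℝ) ^ 2 ≤ (t : ℝ) ^ (1 / 2 : ℝ) := by
      calc (Z : ℝ) ^ 2 ≤ ((t : ℝ) ^ (1 / 4 : ℝ)) ^ 2 := pow_le_pow_left₀ (Nat.cast_nonneg _) hZle 2
        _ = (t : ℝ) ^ (1 / 2 : ℝ) := by
          rw [← Real.rpow_natCast, ← Real.rpow_mul (by linarith)]
          norm_num
    have h5 : Real.log x ≤ (t : ℝ) ^ (1 / 2 : ℝ) := by
      refine hlr.trans ?_
      calc (x : ℝ) ^ (er / 8) = ((x : ℝ) ^ (er / 4)) ^ (1 / 2 : ℝ) := by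
            rw [← Real.rpow_mul hx0.le]
            congr 1
            ring
        _ ≤ (t : ℝ) ^ (1 / 2 : ℝ) := Real.rpow_le_rpow (by linarith) ht (by norm_num)
    have h6 : (t : ℝ) = (t : ℝ) ^ (1 / 2 : ℝ) * (t : ℝ) ^ (1 / 2 : ℝ) := by
      rw [← Real.rpow_add (by linarith)]
      norm_num
    have h7 : 0 < (t : ℝ) ^ (1 / 2 : ℝ) := by positivity
    have h8 : 1 ≤ (t : ℝ) ^ (1 / 2 : ℝ) * Vz (zB B x) := by
      refine hV1.trans ?_
      rw [mul_comm]
      exact mul_le_mul_of_nonneg_right h5 hV.le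
    calc (Z : ℝ) ^ 2 ≤ (t : ℝ) ^ (1 / 2 : ℝ) * 1 := by rw [mul_one]; exact h4
      _ ≤ (t : ℝ) ^ (1 / 2 : ℝ) * ((t : ℝ) ^ (1 / 2 : ℝ) * Vz (zB B x)) :=
          mul_le_mul_of_nonneg_left h8 h7.le
      _ = t * Vz (zB B x) := by
          rw [← mul_assoc, ← h6]
  linarith

private theorem CRough_dyadic {C V : ℝ} {x z : ℕ} (hx0 : 0 ≤ C * V) (h : ∀ t : ℕ,
    (x : ℝ) ^ (er / 4) ≤ t → t ≤ x →
      (((Ioc t (2 * t)).filter (fun n => Nat.Coprime n (primorial z))).card : ℝ) ≤ C * (t * V))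
    {t : ℕ} (ht1 : 1 ≤ t) (ht : (x : ℝ) ^ (er / 4) ≤ t) (J : ℕ) :
    ∑ k ∈ (Ioc t (min (2 ^ J * t) x)).filter (fun n => Nat.Coprime n (primorial z)), (1 : ℝ) / k ≤
      J * (C * V) := by
  induction J with
  | zero =>
    have h1 : Ioc t (min (2 ^ 0 * t) x) = ∅ := by
      rw [Ioc_eq_empty_iff]
      have : min (2 ^ 0 * t) x ≤ t := by
        refine (min_le_left _ _).trans ?_
        rw [pow_zero, one_mul]
      omega
    rw [h1]
    simp
  | succ J ih =>
    by_cases hJ : x ≤ 2 ^ J * t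
    · have h1 : min (2 ^ (J + 1) * t) x = min (2 ^ J * t) x := by
        rw [min_eq_right hJ, min_eq_right (hJ.trans (Nat.mul_le_mul_right t
          (Nat.pow_le_pow_right (by norm_num) (Nat.le_succ J))))]
      rw [h1]
      refine ih.trans (mul_le_mul_of_nonneg_right ?_ hx0)
      push_cast
      linarith
    · push Not at hJ
      have h0 : t ≤ 2 ^ J * t := Nat.le_mul_of_pos_left t (by positivity)
      have h0' : 1 ≤ 2 ^ J * t := ht1.trans h0
      have h0r : (0 : ℝ) < ((2 ^ J * t : ℕ) : ℝ) := by exact_mod_cast h0'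
      have hsub : (Ioc t (min (2 ^ (J + 1) * t) x)).filter (fun n => Nat.Coprime n (primorial z)) ⊆
          (Ioc t (min (2 ^ J * t) x)).filter (fun n => Nat.Coprime n (primorial z)) ∪
          (Ioc (2 ^ J * t) (2 * (2 ^ J * t))).filter (fun n => Nat.Coprime n (primorial z)) := by
        intro k hk
        rw [mem_filter, mem_Ioc, le_min_iff] at hk
        rw [mem_union, mem_filter, mem_filter, mem_Ioc, mem_Ioc, le_min_iff]
        by_cases h2 : k ≤ 2 ^ J * t
        · exact Or.inl ⟨⟨hk.1.1, h2, hk.1.2.2⟩, hk.2⟩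
        · refine Or.inr ⟨⟨by omega, ?_⟩, hk.2⟩
          have := hk.1.2.1
          rw [pow_succ] at this
          linarith
      refine (sum_le_sum_of_subset_of_nonneg hsub fun _ _ _ => by positivity).trans ?_
      have hun : ∑ k ∈ (Ioc t (min (2 ^ J * t) x)).filter (fun n => Nat.Coprime n (primorial z)) ∪
          (Ioc (2 ^ J * t) (2 * (2 ^ J * t))).filter (fun n => Nat.Coprime n (primorial z)),
            (1 : ℝ) / k ≤
          ∑ k ∈ (Ioc t (min (2 ^ J * t) x)).filter (fun n => Nat.Coprime n (primorial z)),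
            (1 : ℝ) / k +
          ∑ k ∈ (Ioc (2 ^ J * t) (2 * (2 ^ J * t))).filter
            (fun n => Nat.Coprime n (primorial z)), (1 : ℝ) / k := by
        rw [← sum_union_inter]
        have : (0 : ℝ) ≤ ∑ k ∈ (Ioc t (min (2 ^ J * t) x)).filter
            (fun n => Nat.Coprime n (primorial z)) ∩
          (Ioc (2 ^ J * t) (2 * (2 ^ J * t))).filter (fun n => Nat.Coprime n (primorial z)),
            (1 : ℝ) / k := sum_nonneg fun _ _ => by positivity
        linarith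
      refine hun.trans ?_
      have h3 : ∑ k ∈ (Ioc (2 ^ J * t) (2 * (2 ^ J * t))).filter
            (fun n => Nat.Coprime n (primorial z)), (1 : ℝ) / k ≤ C * V := by
        have h4 : ∑ k ∈ (Ioc (2 ^ J * t) (2 * (2 ^ J * t))).filter
            (fun n => Nat.Coprime n (primorial z)), (1 : ℝ) / k ≤
            ∑ k ∈ (Ioc (2 ^ J * t) (2 * (2 ^ J * t))).filter
            (fun n => Nat.Coprime n (primorial z)), (1 : ℝ) / ((2 ^ J * t : ℕ) : ℝ) := by
          refine sum_le_sum fun k hk => ?_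
          rw [mem_filter, mem_Ioc] at hk
          exact one_div_le_one_div_of_le h0r (by exact_mod_cast hk.1.1.le)
        refine h4.trans ?_
        rw [sum_const, nsmul_eq_mul, mul_one_div, div_le_iff₀ h0r]
        refine (h (2 ^ J * t) (ht.trans (by exact_mod_cast h0)) hJ.le).trans (le_of_eq ?_)
        ring
      push_cast
      linarith

theorem Sd_short : ∃ C : ℝ, 0 < C ∧ ∀ B : ℕ, 3 ≤ B → ∀ᶠ x : ℕ in atTop, ∀ Y : ℝ, (x : ℝ) ^ er ≤ Y → Y ≤ x →
    ∀ p : ℕ, 2 ≤ p → (p : ℝ) ≤ (x : ℝ) ^ (er / 2) →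
      Sd (zB B x) 1 Y - Sd (zB B x) 1 (Y / p) ≤ C * Vz (zB B x) * Real.log p := by
  obtain ⟨C, hC, h⟩ := rough_dyadic
  refine ⟨10 * C, by positivity, fun B hB => ?_⟩
  have he := er_pos
  have he1 := er_le
  have hbig : ∀ᶠ x : ℕ in atTop, (2 : ℝ) ≤ (x : ℝ) ^ (er / 4) :=
    ((tendsto_rpow_atTop (show (0 : ℝ) < er / 4 by positivity)).comp
      tendsto_natCast_atTop_atTop).eventually_ge_atTop 2
  filter_upwards [h B hB, C2_totient_rough_le B hB 1 one_pos, hbig, eventually_ge_atTop 1]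
    with x hR hphi hbig hx1 Y hY hYx p hp hpx
  have hx1' : (1 : ℝ) ≤ x := by exact_mod_cast hx1
  have hx0 : (0 : ℝ) < x := by linarith
  have hV := C0_Vz_pos (zB B x)
  have hp2 : (2 : ℝ) ≤ p := by exact_mod_cast hp
  have hp0 : (0 : ℝ) < p := by linarith
  have hx2 : (2 : ℝ) ≤ (x : ℝ) ^ (er / 2) :=
    hbig.trans (Real.rpow_le_rpow_of_exponent_le hx1' (by linarith))
  have hxe : (x : ℝ) ^ er = (x : ℝ) ^ (er / 2) * (x : ℝ) ^ (er / 2) := by
    rw [← Real.rpow_add hx0]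
    congr 1
    ring
  have hx4 : (x : ℝ) ^ (er / 2) = (x : ℝ) ^ (er / 4) * (x : ℝ) ^ (er / 4) := by
    rw [← Real.rpow_add hx0]
    congr 1
    ring
  have hYp : (x : ℝ) ^ (er / 2) ≤ Y / p := by
    rw [le_div_iff₀ hp0]
    calc (x : ℝ) ^ (er / 2) * p ≤ (x : ℝ) ^ (er / 2) * (x : ℝ) ^ (er / 2) :=
          mul_le_mul_of_nonneg_left hpx (by positivity)
      _ ≤ Y := by rw [← hxe]; exact hY
  have hY0 : 0 ≤ Y := le_trans (by positivity) hY
  set t : ℕ := ⌊Y / p⌋₊ with ht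
  have ht1 : Y / p < t + 1 := Nat.lt_floor_add_one _
  have htx : (x : ℝ) ^ (er / 4) ≤ t := by nlinarith
  have ht2 : (2 : ℝ) ≤ t := hbig.trans htx
  have ht1' : 1 ≤ t := by
    have : (1 : ℝ) ≤ t := by linarith
    exact_mod_cast this
  set J : ℕ := Nat.log 2 p + 2 with hJ
  have hJp : 2 * p ≤ 2 ^ J := by
    have h1 := Nat.lt_pow_succ_log_self (b := 2) (by norm_num) p
    rw [hJ, show Nat.log 2 p + 2 = (Nat.log 2 p).succ + 1 by rfl, pow_succ]
    omega
  have hYJ : ⌊Y⌋₊ ≤ min (2 ^ J * t) x := by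
    refine le_min ?_ ?_
    · have h1 : Y ≤ ((2 ^ J * t : ℕ) : ℝ) := by
        have h2 : ((2 * p : ℕ) : ℝ) ≤ ((2 ^ J : ℕ) : ℝ) := by exact_mod_cast hJp
        push_cast at h2 ⊢
        have h3 : Y < (t + 1) * p := by
          rwa [div_lt_iff₀ hp0] at ht1
        nlinarith
      have h2 := Nat.floor_le hY0
      have h3 : ((⌊Y⌋₊ : ℕ) : ℝ) ≤ ((2 ^ J * t : ℕ) : ℝ) := h2.trans h1
      exact_mod_cast h3
    · have h2 := Nat.floor_le hY0
      have h3 : ((⌊Y⌋₊ : ℕ) : ℝ) ≤ (x : ℝ) := h2.trans hYx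
      exact_mod_cast h3
  have hdy := CRough_dyadic (C := C) (V := Vz (zB B x)) (x := x) (z := zB B x) (by positivity) hR
    ht1' htx J
  -- the difference as a sum
  have htY : t ≤ ⌊Y⌋₊ := Nat.floor_mono (div_le_self hY0 (by linarith))
  have hdiff : Sd (zB B x) 1 Y - Sd (zB B x) 1 (Y / p) ≤
      ∑ k ∈ (Ioc t (min (2 ^ J * t) x)).filter (fun n => Nat.Coprime n (primorial (zB B x))),
        2 * ((1 : ℝ) / k) := by
    unfold Sd
    rw [one_mul, ← ht]
    rw [sub_le_iff_le_add]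
    have hsub : (Icc 1 ⌊Y⌋₊).filter (fun k => Squarefree k ∧ Nat.Coprime k (primorial (zB B x))) ⊆
        (Ioc t ⌊Y⌋₊).filter (fun k => Squarefree k ∧ Nat.Coprime k (primorial (zB B x))) ∪
        (Icc 1 t).filter (fun k => Squarefree k ∧ Nat.Coprime k (primorial (zB B x))) := by
      intro k hk
      rw [mem_filter, mem_Icc] at hk
      rw [mem_union, mem_filter, mem_filter, mem_Ioc, mem_Icc]
      by_cases h2 : k ≤ t
      · exact Or.inr ⟨⟨hk.1.1, h2⟩, hk.2⟩
      · exact Or.inl ⟨⟨by omega, hk.1.2⟩, hk.2⟩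
    refine (sum_le_sum_of_subset_of_nonneg hsub fun _ _ _ => by positivity).trans ?_
    rw [sum_union]
    · refine add_le_add ?_ le_rfl
      have hsub2 : (Ioc t ⌊Y⌋₊).filter (fun k => Squarefree k ∧
          Nat.Coprime k (primorial (zB B x))) ⊆
          (Ioc t (min (2 ^ J * t) x)).filter (fun n => Nat.Coprime n (primorial (zB B x))) := by
        intro k hk
        rw [mem_filter, mem_Ioc] at hk ⊢
        exact ⟨⟨hk.1.1, hk.1.2.trans hYJ⟩, hk.2.2⟩
      refine le_trans (sum_le_sum fun k hk => ?_)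
        (sum_le_sum_of_subset_of_nonneg hsub2 fun _ _ _ => by positivity)
      rw [mem_filter, mem_Ioc] at hk
      have hk1 : 1 ≤ k := by omega
      have hkx : k ≤ x := hk.1.2.trans (hYJ.trans (min_le_right _ _))
      have h3 := hphi k hk1 hkx hk.2.2
      have hk0 : (0 : ℝ) < k := by exact_mod_cast hk1
      have hq0 : (0 : ℝ) < k.totient := by exact_mod_cast Nat.totient_pos.2 hk1
      rw [div_le_iff₀ hq0] at h3
      rw [mul_one_div, div_le_div_iff₀ hq0 hk0]
      linarith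
    · rw [Finset.disjoint_left]
      intro k h3 h4
      rw [mem_filter, mem_Ioc] at h3
      rw [mem_filter, mem_Icc] at h4
      omega
  rw [← Finset.mul_sum] at hdiff
  refine hdiff.trans ?_
  have hJlog : (J : ℝ) ≤ 5 * Real.log p := by
    have hl2 : (0.6931471803 : ℝ) < Real.log 2 := Real.log_two_gt_d9
    have h1 : (Nat.log 2 p : ℝ) * Real.log 2 ≤ Real.log p := by
      rw [← Real.log_pow]
      refine Real.log_le_log (by positivity) ?_
      exact_mod_cast Nat.pow_log_le_self 2 (by omega)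
    have h2 : Real.log 2 ≤ Real.log p := Real.log_le_log (by norm_num) hp2
    have h3 : (0 : ℝ) ≤ Nat.log 2 p := Nat.cast_nonneg _
    rw [hJ]
    push_cast
    nlinarith
  calc 2 * ∑ k ∈ (Ioc t (min (2 ^ J * t) x)).filter
        (fun n => Nat.Coprime n (primorial (zB B x))), (1 : ℝ) / k
      ≤ 2 * (J * (C * Vz (zB B x))) := by linarith
    _ ≤ 2 * (5 * Real.log p * (C * Vz (zB B x))) := by
        have := mul_le_mul_of_nonneg_right hJlog (show 0 ≤ C * Vz (zB B x) by positivity)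
        linarith
    _ = 10 * C * Vz (zB B x) * Real.log p := by ring

end Pool.Agent.Lib.MP_092512_nt.RT
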