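import Pool.Agent.Lib.MP_092512_nt.RT.CBet
import Pool.Agent.Lib.MP_092512_nt.RT.CDiag
import Pool.Agent.Lib.MP_092512_nt.P3.C5b

/-!
# C: the sum of `bet`

PROOFS.  `bet_sum`: `∑_{r ≤ R} bet(r)/r = ∑_p ω_p ∑_{r ≤ R squarefree, p ∣ r} (alp(r) + alp(r/p))/r` (`p ≤ x^ur` when `ω_p ≠ 0`).  With `alp(r) = ∑_{d,e ≤ N} [lcm d e = r] λ(d) λ'(e)`
(as `C5b_alp_eq`; `λ(d) ≠ 0` only for `d ≤ N`, and `alp(r) ≠ 0` only for `r ≤ x^(..er) < R + 1`): the first part is `∑_{d,e, p ∣ [d,e]} λ(d) λ'(e)/[d,e]`, the second, `r = p r₀`,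
`p ∤ r₀`: `∑_{d,e, p ∤ [d,e]} λ(d) λ'(e)/(p [d,e])` (`p r₀ ≤ x^ur x^(..) < R + 1`).  Together `(1/p) ∑ λ λ' kp p d e`.
`Qr_eq`: `bet_sum` with `N = ⌊x^(len er)⌋` for all `u, w < len` (`(u+1) er ≤ len er`), `diag_p` for the primes `p` with `ω_p ≠ 0` (`z < p`), and
`∑_{u,w} v_u v_w (ic u k - ic u (pk)) (ic w k - ic w (pk)) = (stp k - stp (p k))²`.
-/

set_option autoImplicit false

open Finset Filter

open scoped ArithmeticFunction.Moebius

namespace Pool.Agent.Lib.MP_092512_nt.RT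

open Pool.Agent.Lib.SW Pool.Agent.Lib.MP_092512_nt.P3

private theorem csum_er : (0 : ℝ) < er := by unfold er; norm_num

private theorem csum_ur : (0 : ℝ) < ur := by unfold ur; norm_num

/-- `alp` as a sum over pairs `≤ N` -/
private theorem csum_alp (x z : ℕ) (hx : 1 ≤ x) (j j' N r : ℕ) (hr : 1 ≤ r)
    (hN : (x : ℝ) ^ (((j : ℝ) + 1) * er) < N + 1) (hN' : (x : ℝ) ^ (((j' : ℝ) + 1) * er) < N + 1) :
    alp x z er j j' r = ∑ y ∈ Icc 1 N ×ˢ Icc 1 N,
      if Nat.lcm y.1 y.2 = r then lamC x z er j y.1 * lamC x z er j' y.2 else 0 := by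
  have h1 : alp x z er j j' r = ∑ y ∈ r.divisors ×ˢ r.divisors,
      if Nat.lcm y.1 y.2 = r then lamC x z er j y.1 * lamC x z er j' y.2 else 0 := by
    unfold alp
    rw [sum_product]
  rw [h1]
  refine Finset.sum_congr_of_eq_on_inter ?_ ?_ (fun _ _ _ => rfl)
  · intro y hy hy2
    rw [mem_product] at hy hy2
    by_cases hf : lamC x z er j y.1 = 0 ∨ lamC x z er j' y.2 = 0
    · rcases hf with hf | hf <;> rw [hf] <;> simp
    · push Not at hf
      exfalso
      apply hy2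
      have h2 := (C3_lamC_support hx csum_er hf.1).2.2
      have h3 := (C3_lamC_support hx csum_er hf.2).2.2
      have h4 : (y.1 : ℝ) < ((N + 1 : ℕ) : ℝ) := by push_cast; linarith
      have h5 : (y.2 : ℝ) < ((N + 1 : ℕ) : ℝ) := by push_cast; linarith
      have h6 : y.1 < N + 1 := by exact_mod_cast h4
      have h7 : y.2 < N + 1 := by exact_mod_cast h5
      have h8 := Nat.pos_of_mem_divisors hy.1
      have h9 := Nat.pos_of_mem_divisors hy.2
      rw [mem_Icc, mem_Icc]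
      omega
  · intro y _ hy2
    rw [if_neg]
    intro h
    apply hy2
    rw [mem_product, Nat.mem_divisors, Nat.mem_divisors]
    exact ⟨⟨h ▸ Nat.dvd_lcm_left _ _, by omega⟩, ⟨h ▸ Nat.dvd_lcm_right _ _, by omega⟩⟩

/-- sums of `alp` with a weight -/
private theorem csum_gen (x z : ℕ) (hx : 1 ≤ x) (j j' R N : ℕ) (φ : ℕ → ℝ)
    (hR : (x : ℝ) ^ (((j : ℝ) + 1 + (j' + 1)) * er) < R + 1)
    (hN : (x : ℝ) ^ (((j : ℝ) + 1) * er) < N + 1) (hN' : (x : ℝ) ^ (((j' : ℝ) + 1) * er) < N + 1) :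
    ∑ r ∈ Icc 1 R, alp x z er j j' r * φ r =
      ∑ d ∈ Icc 1 N, ∑ e ∈ Icc 1 N, lamC x z er j d * lamC x z er j' e * φ (Nat.lcm d e) := by
  have h1 : ∀ r ∈ Icc 1 R, alp x z er j j' r * φ r = ∑ y ∈ Icc 1 N ×ˢ Icc 1 N,
      if Nat.lcm y.1 y.2 = r then lamC x z er j y.1 * lamC x z er j' y.2 * φ (Nat.lcm y.1 y.2) else 0 := by
    intro r hr
    rw [mem_Icc] at hr
    rw [csum_alp x z hx j j' N r hr.1 hN hN', sum_mul]
    refine sum_congr rfl fun y _ => ?_
    split_ifs with h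
    · rw [h]
    · rw [zero_mul]
  rw [sum_congr rfl h1, sum_comm, sum_product]
  refine sum_congr rfl fun d hd => sum_congr rfl fun e he => ?_
  rw [mem_Icc] at hd he
  rw [sum_ite_eq]
  split_ifs with h
  · rfl
  · by_cases hf : lamC x z er j d = 0 ∨ lamC x z er j' e = 0
    · rcases hf with hf | hf <;> rw [hf] <;> simp
    · push Not at hf
      exfalso
      apply h
      have h2 := (C3_lamC_support hx csum_er hf.1).2.2
      have h3 := (C3_lamC_support hx csum_er hf.2).2.2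
      have hx0 : (0 : ℝ) < x := by exact_mod_cast hx
      have h4 : ((Nat.lcm d e : ℕ) : ℝ) ≤ (d : ℝ) * e := by
        exact_mod_cast Nat.le_of_dvd (Nat.mul_pos hd.1 he.1) (Nat.lcm_dvd_mul d e)
      have h5 : (d : ℝ) * e ≤ (x : ℝ) ^ (((j : ℝ) + 1 + (j' + 1)) * er) := by
        rw [add_mul, Real.rpow_add hx0]
        exact mul_le_mul h2 h3 (by positivity) (by positivity)
      have h6 : ((Nat.lcm d e : ℕ) : ℝ) < ((R + 1 : ℕ) : ℝ) := by
        push_cast
        linarith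
      have h7 : Nat.lcm d e < R + 1 := by exact_mod_cast h6
      have h8 : Nat.lcm d e ≤ R := by omega
      rw [mem_Icc]
      exact ⟨Nat.lcm_pos hd.1 he.1, h8⟩

/-- the multiples of `p` -/
private theorem csum_mult (p R : ℕ) (hp : 1 ≤ p) (F : ℕ → ℝ) :
    ∑ r ∈ (Icc 1 R).filter (fun r => p ∣ r), F r = ∑ s ∈ Icc 1 (R / p), F (p * s) := by
  have h1 : (Icc 1 R).filter (fun r => p ∣ r) = (Icc 1 (R / p)).image (fun s => p * s) := by
    ext r
    rw [mem_filter, mem_Icc, mem_image]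
    constructor
    · rintro ⟨⟨h1, h2⟩, s, rfl⟩
      refine ⟨s, ?_, rfl⟩
      rw [mem_Icc]
      refine ⟨Nat.pos_of_mul_pos_left h1 |> fun h => h, ?_⟩
      rw [Nat.le_div_iff_mul_le (by omega), mul_comm]
      exact h2
    · rintro ⟨s, hs, rfl⟩
      rw [mem_Icc] at hs
      refine ⟨⟨Nat.mul_pos hp hs.1, ?_⟩, Dvd.intro _ rfl⟩
      calc p * s ≤ p * (R / p) := Nat.mul_le_mul_left _ hs.2
        _ ≤ R := Nat.mul_div_le _ _
  rw [h1, sum_image]
  intro a _ b _ hab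
  exact Nat.eq_of_mul_eq_mul_left (by omega) hab

theorem bet_sum (x z : ℕ) (hx : 1 ≤ x) (ω : ℕ → ℝ) (hω : ∀ p, ω p ≠ 0 → z < p ∧ (p : ℝ) ≤ (x : ℝ) ^ ur)
    (j j' R N : ℕ) (hR : (x : ℝ) ^ (((j : ℝ) + 1 + (j' + 1)) * er + ur) < R + 1)
    (hN : (x : ℝ) ^ (((j : ℝ) + 1) * er) < N + 1) (hN' : (x : ℝ) ^ (((j' : ℝ) + 1) * er) < N + 1) :
    ∑ r ∈ Icc 1 R, bet x z er ω j j' r / r =
      ∑ p ∈ (Icc 1 ⌊(x : ℝ) ^ ur⌋₊).filter Nat.Prime, ω p / p *
        ∑ d ∈ Icc 1 N, ∑ e ∈ Icc 1 N, lamC x z er j d * lamC x z er j' e * kp p d e := by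
  have hx0 : (0 : ℝ) < x := by exact_mod_cast hx
  have hx1 : (1 : ℝ) ≤ x := by exact_mod_cast hx
  set PQ := (Icc 1 ⌊(x : ℝ) ^ ur⌋₊).filter Nat.Prime with hPQ
  -- the coefficients as sums over `PQ`
  have h1 : ∀ r ∈ Icc 1 R, bet x z er ω j j' r / r = ∑ p ∈ PQ, if p ∣ r then
      ω p * (if Squarefree r then (alp x z er j j' r + alp x z er j j' (r / p)) / r else 0) else 0 := by
    intro r hr
    rw [mem_Icc] at hr
    unfold bet
    by_cases hsq : Squarefree r
    · rw [if_pos hsq, sum_div, ← sum_filter]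
      refine Finset.sum_congr_of_eq_on_inter ?_ ?_ ?_
      · intro p hp hp2
        by_cases hw : ω p = 0
        · rw [hw]
          simp
        · exfalso
          apply hp2
          rw [Nat.mem_primeFactors] at hp
          rw [mem_filter, hPQ, mem_filter, mem_Icc]
          refine ⟨⟨⟨hp.1.one_le, Nat.le_floor (hω p hw).2⟩, hp.1⟩, hp.2.1⟩
      · intro p hp hp2
        exfalso
        apply hp2
        rw [mem_filter, hPQ, mem_filter] at hp
        rw [Nat.mem_primeFactors]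
        exact ⟨hp.1.2, hp.2, by omega⟩
      · intro p _ _
        rw [if_pos hsq, mul_div_assoc]
    · rw [if_neg hsq, zero_div]
      symm
      refine sum_eq_zero fun p _ => ?_
      rw [if_neg hsq]
      simp
  rw [sum_congr rfl h1, sum_comm]
  refine sum_congr rfl fun p hp => ?_
  rw [hPQ, mem_filter, mem_Icc] at hp
  by_cases hw : ω p = 0
  · rw [hw]
    simp
  obtain ⟨hzp, hpx⟩ := hω p hw
  have hpp : p.Prime := hp.2
  have hp0 : (0 : ℝ) < p := by exact_mod_cast hpp.pos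
  rw [← sum_filter, ← mul_sum, div_mul_eq_mul_div, mul_div_assoc]
  congr 1
  -- the two parts
  have hsplit : ∑ r ∈ (Icc 1 R).filter (fun r => p ∣ r),
      (if Squarefree r then (alp x z er j j' r + alp x z er j j' (r / p)) / r else 0) =
      ∑ r ∈ (Icc 1 R).filter (fun r => p ∣ r), (if Squarefree r then alp x z er j j' r / r else 0) +
      ∑ r ∈ (Icc 1 R).filter (fun r => p ∣ r), (if Squarefree r then alp x z er j j' (r / p) / r else 0) := by
    rw [← sum_add_distrib]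
    refine sum_congr rfl fun r _ => ?_
    split_ifs
    · rw [add_div]
    · rw [add_zero]
  have hRle : (x : ℝ) ^ (((j : ℝ) + 1 + (j' + 1)) * er) < R + 1 := by
    refine lt_of_le_of_lt ?_ hR
    apply Real.rpow_le_rpow_of_exponent_le hx1
    linarith [csum_ur]
  have hA : ∑ r ∈ (Icc 1 R).filter (fun r => p ∣ r), (if Squarefree r then alp x z er j j' r / r else 0) =
      ∑ d ∈ Icc 1 N, ∑ e ∈ Icc 1 N, lamC x z er j d * lamC x z er j' e *
        (if p ∣ Nat.lcm d e then 1 / ((Nat.lcm d e : ℕ) : ℝ) else 0) := by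
    rw [← csum_gen x z hx j j' R N (fun r => if p ∣ r then 1 / (r : ℝ) else 0) hRle hN hN', sum_filter]
    refine sum_congr rfl fun r _ => ?_
    by_cases hpr : p ∣ r
    · rw [if_pos hpr, if_pos hpr]
      by_cases hsq : Squarefree r
      · rw [if_pos hsq, mul_one_div]
      · rw [if_neg hsq]
        have : alp x z er j j' r = 0 := by
          by_contra h
          exact hsq (alp_supp x z hx er csum_er j j' r h).1
        rw [this, zero_mul]
    · rw [if_neg hpr, if_neg hpr, mul_zero]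
  have hR' : (x : ℝ) ^ (((j : ℝ) + 1 + (j' + 1)) * er) < ((R / p : ℕ) : ℝ) + 1 := by
    have h2 : (x : ℝ) ^ (((j : ℝ) + 1 + (j' + 1)) * er) * p < R + 1 := by
      refine lt_of_le_of_lt ?_ hR
      rw [Real.rpow_add hx0]
      exact mul_le_mul_of_nonneg_left hpx (by positivity)
    have h3 : R + 1 ≤ (R / p + 1) * p := by
      have h4 := Nat.lt_mul_div_succ R hpp.pos
      have h5 : p * (R / p + 1) = (R / p + 1) * p := mul_comm _ _
      omega
    have h4 : ((R + 1 : ℕ) : ℝ) ≤ (((R / p + 1) * p : ℕ) : ℝ) := by exact_mod_cast h3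
    push_cast at h4
    exact lt_of_mul_lt_mul_right (lt_of_lt_of_le h2 h4) hp0.le
  have hB : ∑ r ∈ (Icc 1 R).filter (fun r => p ∣ r), (if Squarefree r then alp x z er j j' (r / p) / r else 0) =
      ∑ d ∈ Icc 1 N, ∑ e ∈ Icc 1 N, lamC x z er j d * lamC x z er j' e *
        (if p ∣ Nat.lcm d e then 0 else 1 / ((p : ℝ) * ((Nat.lcm d e : ℕ) : ℝ))) := by
    rw [← csum_gen x z hx j j' (R / p) N (fun r => if p ∣ r then 0 else 1 / ((p : ℝ) * (r : ℝ))) hR' hN hN',
      csum_mult p R hpp.one_le]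
    refine sum_congr rfl fun t ht => ?_
    rw [mem_Icc] at ht
    rw [Nat.mul_div_cancel_left _ hpp.pos]
    by_cases hpt : p ∣ t
    · rw [if_pos hpt, mul_zero, if_neg]
      intro hsq
      obtain ⟨s, rfl⟩ := hpt
      have h2 := hsq p ⟨s, by ring⟩
      exact hpp.one_lt.ne' (Nat.isUnit_iff.1 h2)
    · rw [if_neg hpt]
      have hcop : Nat.Coprime p t := (hpp.coprime_iff_not_dvd).2 hpt
      by_cases hsq : Squarefree t
      · rw [if_pos ((Nat.squarefree_mul hcop).2 ⟨hpp.squarefree, hsq⟩), mul_one_div]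
        push_cast
        rfl
      · rw [if_neg (fun h => hsq ((Nat.squarefree_mul hcop).1 h).2)]
        have : alp x z er j j' t = 0 := by
          by_contra h
          exact hsq (alp_supp x z hx er csum_er j j' t h).1
        rw [this, zero_mul]
  rw [hsplit, hA, hB, ← sum_add_distrib, sum_div]
  refine sum_congr rfl fun d _ => ?_
  rw [← sum_add_distrib, sum_div]
  refine sum_congr rfl fun e _ => ?_
  unfold kp
  by_cases h : p ∣ Nat.lcm d e
  · rw [if_pos h, if_pos h, if_pos h]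
    field_simp
    ring
  · rw [if_neg h, if_neg h, if_neg h]
    field_simp
    ring

theorem Qr_eq (x z : ℕ) (hx : 1 ≤ x) (ω : ℕ → ℝ) (hω : ∀ p, ω p ≠ 0 → z < p ∧ (p : ℝ) ≤ (x : ℝ) ^ ur)
    (b : Fin 3 → ℕ) :
    Qr x z ω b = ∑ p ∈ (Icc 1 ⌊(x : ℝ) ^ ur⌋₊).filter Nat.Prime,
      ω p / p * QV x z (lenr b) (vz (∑ j, b j)) p := by
  have hx0 : (0 : ℝ) < x := by exact_mod_cast hx
  have hx1 : (1 : ℝ) ≤ x := by exact_mod_cast hx
  obtain ⟨len, hlen⟩ : ∃ l, l = lenr b := ⟨_, rfl⟩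
  obtain ⟨v, hv⟩ : ∃ v, v = vz (∑ j, b j) := ⟨_, rfl⟩
  set N := ⌊(x : ℝ) ^ ((len : ℝ) * er)⌋₊ with hN
  have hNu : ∀ u ∈ range len, (x : ℝ) ^ (((u : ℝ) + 1) * er) < N + 1 := by
    intro u hu
    rw [mem_range] at hu
    refine lt_of_le_of_lt ?_ (Nat.lt_floor_add_one _)
    apply Real.rpow_le_rpow_of_exponent_le hx1
    apply mul_le_mul_of_nonneg_right _ csum_er.le
    exact_mod_cast hu
  unfold Qr
  rw [← hlen, ← hv]
  have h1 : ∀ u ∈ range len, ∀ w ∈ range len, v u * v w * Br x z ω u w =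
      ∑ p ∈ (Icc 1 ⌊(x : ℝ) ^ ur⌋₊).filter Nat.Prime, ω p / p *
        (v u * v w * ∑ d ∈ Icc 1 N, ∑ e ∈ Icc 1 N, lamC x z er u d * lamC x z er w e * kp p d e) := by
    intro u hu w hw
    unfold Br
    rw [bet_sum x z hx ω hω u w _ N (Nat.lt_floor_add_one _) (hNu u hu) (hNu w hw), mul_sum]
    refine sum_congr rfl fun p _ => ?_
    ring
  rw [sum_congr rfl fun u hu => sum_congr rfl fun w hw => h1 u hu w hw]
  rw [sum_congr rfl fun u _ => sum_comm, sum_comm]
  refine sum_congr rfl fun p hp => ?_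
  rw [mem_filter] at hp
  by_cases hw0 : ω p = 0
  · rw [hw0]
    simp
  obtain ⟨hzp, hpx⟩ := hω p hw0
  have h2 : ∑ u ∈ range len, ∑ w ∈ range len, ω p / p *
      (v u * v w * ∑ d ∈ Icc 1 N, ∑ e ∈ Icc 1 N, lamC x z er u d * lamC x z er w e * kp p d e) =
      ω p / p * ∑ u ∈ range len, ∑ w ∈ range len,
        (v u * v w * ∑ d ∈ Icc 1 N, ∑ e ∈ Icc 1 N, lamC x z er u d * lamC x z er w e * kp p d e) := by
    rw [mul_sum]
    refine sum_congr rfl fun u _ => ?_
    rw [mul_sum]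
  rw [h2]
  congr 1
  have h3 : ∀ u ∈ range len, ∀ w ∈ range len,
      v u * v w * ∑ d ∈ Icc 1 N, ∑ e ∈ Icc 1 N, lamC x z er u d * lamC x z er w e * kp p d e =
      ∑ k ∈ (Icc 1 N).filter (fun k => Squarefree k ∧ Nat.Coprime k (primorial z) ∧ ¬ p ∣ k),
        1 / (Vz z * Real.log x) ^ 2 * (1 / (k.totient : ℝ) *
          ((v u * (ic x u k - ic x u (p * k))) * (v w * (ic x w k - ic x w (p * k))))) := by
    intro u hu w hw
    rw [diag_p x z p hx hp.2 hzp u w N (hNu u hu) (hNu w hw), mul_sum, mul_sum]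
    refine sum_congr rfl fun k _ => ?_
    ring
  rw [sum_congr rfl fun u hu => sum_congr rfl fun w hw => h3 u hu w hw]
  rw [sum_congr rfl fun u _ => sum_comm, sum_comm]
  unfold QV
  rw [mul_sum]
  refine sum_congr rfl fun k _ => ?_
  have h4 : stp x len v k - stp x len v (p * k) = ∑ u ∈ range len, v u * (ic x u k - ic x u (p * k)) := by
    unfold stp
    rw [← sum_sub_distrib]
    refine sum_congr rfl fun u _ => ?_
    ring
  have h5 : (∑ u ∈ range len, v u * (ic x u k - ic x u (p * k))) ^ 2 =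
      ∑ u ∈ range len, ∑ w ∈ range len,
        (v u * (ic x u k - ic x u (p * k))) * (v w * (ic x w k - ic x w (p * k))) := by
    rw [sq, sum_mul_sum]
  rw [h4, h5, mul_sum, mul_sum]
  refine sum_congr rfl fun u _ => ?_
  rw [mul_sum, mul_sum]

end Pool.Agent.Lib.MP_092512_nt.RT
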