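import Pool.Agent.Lib.MP_092512_nt.RT.Defs

/-!
# E: the integral of `Wv`

PROOF.  On `[δ, ur]`: `(1/u)(1 - u/ur) Wv u = er ∑_k D_k hat_k(u) (1/u - 1/ur)`, `hat_k(u) = max 0 (1 - |u/er - k|)`, all factors are `≥ 0`, so the integral is at most
`er ∑_k D_k J_k` with `J_k = ∫_0^ur hat_k(u) (1/u - 1/ur) du` (extend to `[0, ur]` for `k ≥ 2`; for `k = 1` bound `∫_δ^ur`).  Substitute `u = er t` (`ur = 1128 er`):
`J_k = ∫_{k-1}^{min(k+1,1128)} (1 - |t - k|) (1/t - 1/1128) dt`.
`k = 1`: on `(0, 1]` the integrand is `t (1/t - 1/1128) = 1 - t/1128`, on `[1, 2]`: `(2 - t)(1/t - 1/1128) = 2/t - 1 - (2-t)/1128`; total `1 + 2 log 2 - 1 - 1/1128 ≤ omu 1`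
(`Real.log_two_lt_d9`).
`2 ≤ k ≤ 1127`, `t = k + s`: `1/t ≤ (1/k) (1 - s/k + s²/k² - s³/k³ + s⁴/(k⁴ (1 - 1/k)))` for `|s| ≤ 1` (the difference is `s⁴/k⁴ (1/(1 - 1/k) - 1/(1 + s/k)) ≥ 0`), and
`∫_{-1}^1 (1-|s|) s^m ds = 1, 0, 1/6, 0, 1/15` for `m = 0..4`: `J_k ≤ 1/k + 1/(6 k³) + 1/(15 k⁵ (1 - 1/k)) - 1/1128`.
`k = 1128`: `t = 1128 - r`, `0 ≤ r ≤ 1`: `(1 - r)(1/t - 1/1128) = (1-r) r/(1128 t) ≤ (1 - r) r/(1128 · 1127)`, integral `1/(6 · 1128 · 1127)`.
-/

set_option autoImplicit false

open Finset Filter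

open scoped ArithmeticFunction.Moebius

namespace Pool.Agent.Lib.MP_092512_nt.RT

open Pool.Agent.Lib.SW Pool.Agent.Lib.MP_092512_nt.P3

private theorem EInt_er : 0 < er := by
  unfold er
  norm_num

private theorem EInt_ur : ur = 1128 * er := by
  unfold er ur
  norm_num

private noncomputable def EF (k : ℕ) (s : ℝ) : ℝ :=
  max 0 (1 - |s|) * (1 / ((k : ℝ) + s) - 1 / 1128)

private theorem EInt_sub (k : ℕ) (δ : ℝ) (hδ : 0 < δ) (hδ1 : δ ≤ ur) :
    ∫ u in δ..ur, 1 / u * (1 - u / ur) * max 0 (1 - |u / er - k|) =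
      ∫ s in (δ / er - k)..(1128 - k), EF k s := by
  have he := EInt_er
  have hu := EInt_ur
  have h1 : ∫ u in δ..ur, 1 / u * (1 - u / ur) * max 0 (1 - |u / er - k|) =
      ∫ u in δ..ur, (1 / er) * EF k (u / er - k) := by
    apply intervalIntegral.integral_congr
    intro u hu'
    rw [Set.uIcc_of_le hδ1] at hu'
    have hu0 : 0 < u := lt_of_lt_of_le hδ hu'.1
    have h2 : (k : ℝ) + (u / er - k) = u / er := by ring
    have h4 : 1 / u * (1 - u / (1128 * er)) = 1 / er * (1 / (u / er) - 1 / 1128) := by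
      field_simp
    dsimp only
    unfold EF
    rw [h2, hu, h4]
    ring
  rw [h1, intervalIntegral.integral_const_mul, intervalIntegral.integral_comp_div_sub (EF k) he.ne',
    smul_eq_mul, ← mul_assoc, one_div_mul_cancel he.ne', one_mul, hu, mul_div_assoc, div_self he.ne',
    mul_one]

private theorem EInt_contF (k : ℕ) (s : Set ℝ) (hs : ∀ x ∈ s, (k : ℝ) + x ≠ 0) :
    ContinuousOn (EF k) s := by
  unfold EF
  apply ContinuousOn.mul
  · exact (continuous_const.max (continuous_const.sub continuous_abs)).continuousOn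
  · apply ContinuousOn.sub _ continuousOn_const
    apply ContinuousOn.div continuousOn_const _ hs
    exact (continuous_const.add continuous_id).continuousOn

/-- a continuous function vanishing outside `[-1, 1]` -/
private theorem EInt_trunc (Q : ℝ → ℝ) (hQ : Continuous Q) (h0 : ∀ s, 1 ≤ |s| → Q s = 0)
    (c d : ℝ) (hc : c ≤ -1) (hd : 1 ≤ d) :
    ∫ s in c..d, Q s = ∫ s in (-1)..1, Q s := by
  have hi : ∀ x y : ℝ, IntervalIntegrable Q MeasureTheory.volume x y :=
    fun x y => hQ.intervalIntegrable x y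
  rw [← intervalIntegral.integral_add_adjacent_intervals (hi c (-1)) (hi (-1) d),
    ← intervalIntegral.integral_add_adjacent_intervals (hi (-1) 1) (hi 1 d)]
  have h1 : ∫ s in c..(-1), Q s = 0 := by
    rw [intervalIntegral.integral_congr (g := fun _ => (0 : ℝ))]
    · simp
    · intro s hs
      rw [Set.uIcc_of_le hc] at hs
      exact h0 s (by rw [abs_of_nonpos (by linarith [hs.2])]; linarith [hs.2])
  have h2 : ∫ s in (1 : ℝ)..d, Q s = 0 := by
    rw [intervalIntegral.integral_congr (g := fun _ => (0 : ℝ))]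
    · simp
    · intro s hs
      rw [Set.uIcc_of_le hd] at hs
      exact h0 s (by rw [abs_of_nonneg (by linarith [hs.1])]; linarith [hs.1])
  rw [h1, h2]
  ring

private theorem EInt_max1 {s : ℝ} (hs : 1 ≤ |s|) : max 0 (1 - |s|) = 0 :=
  max_eq_left (by linarith)

private theorem EInt_max2 {s : ℝ} (hs : |s| ≤ 1) : max 0 (1 - |s|) = 1 - |s| :=
  max_eq_right (by linarith)

/-- the expansion of `1/(k+s)` -/
private noncomputable def PK (k s : ℝ) : ℝ :=
  1 / k * (1 - s / k + s ^ 2 / k ^ 2 - s ^ 3 / k ^ 3 + s ^ 4 / (k ^ 4 * (1 - 1 / k)))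

private theorem EInt_PK (k s : ℝ) (hk : 2 ≤ k) (hs : |s| ≤ 1) : 1 / (k + s) ≤ PK k s := by
  have hs' := abs_le.1 hs
  have hk0 : 0 < k := by linarith
  have h1 : 0 < 1 - 1 / k := by
    have : 1 / k ≤ 1 / 2 := one_div_le_one_div_of_le (by norm_num) hk
    linarith
  have h2 : 0 < k + s := by linarith
  have h3 : 0 < k - 1 := by linarith
  have key : PK k s - 1 / (k + s) = s ^ 4 * (1 + s) / (k ^ 4 * (k - 1) * (k + s)) := by
    unfold PK
    have h4 : (1 : ℝ) - 1 / k = (k - 1) / k := by field_simp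
    rw [h4]
    field_simp
    ring
  have h5 : 0 ≤ s ^ 4 * (1 + s) / (k ^ 4 * (k - 1) * (k + s)) := by
    have : 0 ≤ 1 + s := by linarith
    positivity
  linarith

private theorem EInt_mid (k : ℕ) (hk : 2 ≤ k) (hk2 : k ≤ 1127) (a : ℝ) (ha : -(k : ℝ) < a)
    (hab : a ≤ 1128 - k) :
    ∫ s in a..(1128 - k), EF k s ≤
      1 / k + 1 / (6 * (k : ℝ) ^ 3) + 1 / (15 * (k : ℝ) ^ 5 * (1 - 1 / k)) - 1 / 1128 := by
  have hk' : (2 : ℝ) ≤ k := by exact_mod_cast hk
  have hk2' : (k : ℝ) ≤ 1127 := by exact_mod_cast hk2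
  have hk0 : (0 : ℝ) < k := by linarith
  obtain ⟨Q, hQd⟩ : ∃ Q : ℝ → ℝ, ∀ s, Q s = max 0 (1 - |s|) * (PK k s - 1 / 1128) :=
    ⟨fun s => max 0 (1 - |s|) * (PK k s - 1 / 1128), fun _ => rfl⟩
  have hQc : Continuous Q := by
    have h1 : Q = fun s => max 0 (1 - |s|) * (PK k s - 1 / 1128) := funext hQd
    rw [h1]
    unfold PK
    fun_prop
  have hQ0 : ∀ s, 1 ≤ |s| → Q s = 0 := by
    intro s hs
    rw [hQd, EInt_max1 hs, zero_mul]
  have hle : ∀ s ∈ Set.Icc a (1128 - (k : ℝ)), EF k s ≤ Q s := by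
    intro s hs
    rw [hQd]
    unfold EF
    rcases le_or_gt 1 |s| with h | h
    · rw [EInt_max1 h]
      simp
    · rw [EInt_max2 h.le]
      apply mul_le_mul_of_nonneg_left _ (by linarith)
      have := EInt_PK k s hk' h.le
      linarith
  have hnn : ∀ s, s ≤ 1128 - (k : ℝ) → 0 ≤ Q s := by
    intro s hs
    rcases le_or_gt 1 |s| with h | h
    · rw [hQ0 s h]
    · rw [hQd, EInt_max2 h.le]
      apply mul_nonneg (by linarith)
      have h1 := EInt_PK k s hk' h.le
      have h2 := abs_lt.1 h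
      have h3 : (1 : ℝ) / 1128 ≤ 1 / (k + s) :=
        one_div_le_one_div_of_le (by linarith) (by linarith)
      linarith
  calc ∫ s in a..(1128 - (k : ℝ)), EF k s ≤ ∫ s in a..(1128 - (k : ℝ)), Q s := by
        apply intervalIntegral.integral_mono_on hab _ (hQc.intervalIntegrable _ _) hle
        apply ContinuousOn.intervalIntegrable
        apply EInt_contF
        intro x hx
        rw [Set.uIcc_of_le hab] at hx
        have := hx.1
        intro h0
        linarith
    _ ≤ ∫ s in (-(k : ℝ))..(1128 - (k : ℝ)), Q s := by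
        apply intervalIntegral.integral_mono_interval ha.le hab le_rfl _ (hQc.intervalIntegrable _ _)
        rw [Filter.EventuallyLE, MeasureTheory.ae_restrict_iff' measurableSet_Ioc]
        exact Filter.Eventually.of_forall (fun s hs => hnn s hs.2)
    _ = ∫ s in (-1)..1, Q s := EInt_trunc Q hQc hQ0 _ _ (by linarith) (by linarith)
    _ = (∫ s in (-1)..0, Q s) + ∫ s in (0 : ℝ)..1, Q s :=
        (intervalIntegral.integral_add_adjacent_intervals (hQc.intervalIntegrable _ _)
          (hQc.intervalIntegrable _ _)).symm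
    _ = _ := by
        obtain ⟨A, hA⟩ : ∃ A : ℝ, A = 1 / (k : ℝ) := ⟨_, rfl⟩
        obtain ⟨E, hE⟩ : ∃ E : ℝ, E = 1 / (k : ℝ) * (1 / ((k : ℝ) ^ 4 * (1 - 1 / k))) := ⟨_, rfl⟩
        have e1 : ∫ s in (-1)..0, Q s = ∫ s in (-1)..(0 : ℝ), ((A - 1 / 1128) * (1 + s) +
            (-(A ^ 2) * (s + s ^ 2) + (A ^ 3 * (s ^ 2 + s ^ 3) + (-(A ^ 4) * (s ^ 3 + s ^ 4) +
              E * (s ^ 4 + s ^ 5))))) := by
          apply intervalIntegral.integral_congr
          intro s hs
          rw [Set.uIcc_of_le (by norm_num)] at hs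
          have h1 : |s| = -s := abs_of_nonpos hs.2
          dsimp only
          rw [hQd, EInt_max2 (by rw [h1]; linarith [hs.1]), h1]
          unfold PK
          rw [hA, hE]
          field_simp
          ring
        have e2 : ∫ s in (0 : ℝ)..1, Q s = ∫ s in (0 : ℝ)..1, ((A - 1 / 1128) * (1 - s) +
            (-(A ^ 2) * (s - s ^ 2) + (A ^ 3 * (s ^ 2 - s ^ 3) + (-(A ^ 4) * (s ^ 3 - s ^ 4) +
              E * (s ^ 4 - s ^ 5))))) := by
          apply intervalIntegral.integral_congr
          intro s hs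
          rw [Set.uIcc_of_le (by norm_num)] at hs
          have h1 : |s| = s := abs_of_nonneg hs.1
          dsimp only
          rw [hQd, EInt_max2 (by rw [h1]; linarith [hs.2]), h1]
          unfold PK
          rw [hA, hE]
          field_simp
          ring
        have i1 : ∫ s in (-1)..(0 : ℝ), ((A - 1 / 1128) * (1 + s) +
            (-(A ^ 2) * (s + s ^ 2) + (A ^ 3 * (s ^ 2 + s ^ 3) + (-(A ^ 4) * (s ^ 3 + s ^ 4) +
              E * (s ^ 4 + s ^ 5))))) =
            (A - 1 / 1128) * (1 / 2) + A ^ 2 * (1 / 6) + A ^ 3 * (1 / 12) + A ^ 4 * (1 / 20) +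
              E * (1 / 30) := by
          have hF : ∀ s ∈ Set.uIcc (-1 : ℝ) 0, HasDerivAt (fun s : ℝ =>
              (A - 1 / 1128) * (s + s ^ 2 / 2) + (-(A ^ 2) * (s ^ 2 / 2 + s ^ 3 / 3) +
                (A ^ 3 * (s ^ 3 / 3 + s ^ 4 / 4) + (-(A ^ 4) * (s ^ 4 / 4 + s ^ 5 / 5) +
                  E * (s ^ 5 / 5 + s ^ 6 / 6))))) ((A - 1 / 1128) * (1 + s) +
            (-(A ^ 2) * (s + s ^ 2) + (A ^ 3 * (s ^ 2 + s ^ 3) + (-(A ^ 4) * (s ^ 3 + s ^ 4) +
              E * (s ^ 4 + s ^ 5))))) s := by
            intro s _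
            have d1 := hasDerivAt_id' s
            have d2 := (hasDerivAt_pow 2 s).div_const 2
            have d3 := (hasDerivAt_pow 3 s).div_const 3
            have d4 := (hasDerivAt_pow 4 s).div_const 4
            have d5 := (hasDerivAt_pow 5 s).div_const 5
            have d6 := (hasDerivAt_pow 6 s).div_const 6
            have := ((d1.add d2).const_mul (A - 1 / 1128)).add (((d2.add d3).const_mul (-(A ^ 2))).add
              (((d3.add d4).const_mul (A ^ 3)).add (((d4.add d5).const_mul (-(A ^ 4))).add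
                ((d5.add d6).const_mul E))))
            refine this.congr_deriv ?_
            norm_num
          rw [intervalIntegral.integral_eq_sub_of_hasDerivAt hF
            (Continuous.intervalIntegrable (by fun_prop) _ _)]
          norm_num
          ring
        have i2 : ∫ s in (0 : ℝ)..1, ((A - 1 / 1128) * (1 - s) +
            (-(A ^ 2) * (s - s ^ 2) + (A ^ 3 * (s ^ 2 - s ^ 3) + (-(A ^ 4) * (s ^ 3 - s ^ 4) +
              E * (s ^ 4 - s ^ 5))))) =
            (A - 1 / 1128) * (1 / 2) - A ^ 2 * (1 / 6) + A ^ 3 * (1 / 12) - A ^ 4 * (1 / 20) +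
              E * (1 / 30) := by
          have hF : ∀ s ∈ Set.uIcc (0 : ℝ) 1, HasDerivAt (fun s : ℝ =>
              (A - 1 / 1128) * (s - s ^ 2 / 2) + (-(A ^ 2) * (s ^ 2 / 2 - s ^ 3 / 3) +
                (A ^ 3 * (s ^ 3 / 3 - s ^ 4 / 4) + (-(A ^ 4) * (s ^ 4 / 4 - s ^ 5 / 5) +
                  E * (s ^ 5 / 5 - s ^ 6 / 6))))) ((A - 1 / 1128) * (1 - s) +
            (-(A ^ 2) * (s - s ^ 2) + (A ^ 3 * (s ^ 2 - s ^ 3) + (-(A ^ 4) * (s ^ 3 - s ^ 4) +
              E * (s ^ 4 - s ^ 5))))) s := by
            intro s _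
            have d1 := hasDerivAt_id' s
            have d2 := (hasDerivAt_pow 2 s).div_const 2
            have d3 := (hasDerivAt_pow 3 s).div_const 3
            have d4 := (hasDerivAt_pow 4 s).div_const 4
            have d5 := (hasDerivAt_pow 5 s).div_const 5
            have d6 := (hasDerivAt_pow 6 s).div_const 6
            have := ((d1.sub d2).const_mul (A - 1 / 1128)).add (((d2.sub d3).const_mul (-(A ^ 2))).add
              (((d3.sub d4).const_mul (A ^ 3)).add (((d4.sub d5).const_mul (-(A ^ 4))).add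
                ((d5.sub d6).const_mul E))))
            refine this.congr_deriv ?_
            norm_num
          rw [intervalIntegral.integral_eq_sub_of_hasDerivAt hF
            (Continuous.intervalIntegrable (by fun_prop) _ _)]
          norm_num
          ring
        rw [e1, e2, i1, i2, hA, hE]
        have h1 : (0 : ℝ) < k - 1 := by linarith
        have h4 : (1 : ℝ) - 1 / k = (k - 1) / k := by field_simp
        rw [h4]
        field_simp
        ring

private theorem EInt_one (a : ℝ) (ha : -1 < a) (hab : a ≤ 1127) :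
    ∫ s in a..(1127 : ℝ), EF 1 s ≤ 2 * 0.6931471808 - 1 / 1128 := by
  obtain ⟨a', ha'⟩ : ∃ a' : ℝ, a' = min a 0 := ⟨_, rfl⟩
  have ha1 : a' ≤ a := by rw [ha']; exact min_le_left _ _
  have ha2 : a' ≤ 0 := by rw [ha']; exact min_le_right _ _
  have ha3 : -1 < a' := by rw [ha']; exact lt_min ha (by norm_num)
  have hint : ∀ x y : ℝ, -1 < x → x ≤ y → IntervalIntegrable (EF 1) MeasureTheory.volume x y := by
    intro x y hx hxy
    apply ContinuousOn.intervalIntegrable
    apply EInt_contF
    intro t ht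
    rw [Set.uIcc_of_le hxy] at ht
    have := ht.1
    intro h0
    push_cast at h0
    linarith
  have hnn : ∀ s, -1 < s → s ≤ 1127 → 0 ≤ EF 1 s := by
    intro s hs hs2
    unfold EF
    apply mul_nonneg (le_max_left _ _)
    have : (1 : ℝ) / 1128 ≤ 1 / (((1 : ℕ) : ℝ) + s) := by
      apply one_div_le_one_div_of_le
      · push_cast
        linarith
      · push_cast
        linarith
    linarith
  have h1 : ∫ s in a..(1127 : ℝ), EF 1 s ≤ ∫ s in a'..(1127 : ℝ), EF 1 s := by
    apply intervalIntegral.integral_mono_interval ha1 hab le_rfl _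
      (hint a' 1127 ha3 (by linarith))
    rw [Filter.EventuallyLE, MeasureTheory.ae_restrict_iff' measurableSet_Ioc]
    exact Filter.Eventually.of_forall (fun s hs => hnn s (by linarith [hs.1]) hs.2)
  have h2 : ∫ s in a'..(1127 : ℝ), EF 1 s = (∫ s in a'..0, EF 1 s) + ((∫ s in (0 : ℝ)..1, EF 1 s) +
      ∫ s in (1 : ℝ)..1127, EF 1 s) := by
    rw [intervalIntegral.integral_add_adjacent_intervals (hint 0 1 (by norm_num) (by norm_num))
      (hint 1 1127 (by norm_num) (by norm_num)),
      intervalIntegral.integral_add_adjacent_intervals (hint a' 0 ha3 ha2)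
        (hint 0 1127 (by norm_num) (by norm_num))]
  have h3 : ∫ s in (1 : ℝ)..1127, EF 1 s = 0 := by
    rw [intervalIntegral.integral_congr (g := fun _ => (0 : ℝ))]
    · simp
    · intro s hs
      rw [Set.uIcc_of_le (by norm_num)] at hs
      dsimp only
      unfold EF
      rw [EInt_max1 (by rw [abs_of_nonneg (by linarith [hs.1])]; exact hs.1), zero_mul]
  have h4 : ∫ s in a'..0, EF 1 s ≤ 1 - 1 / 2256 := by
    have e1 : ∫ s in a'..0, EF 1 s = ∫ s in a'..(0 : ℝ), (1 - (1 + s) / 1128) := by
      apply intervalIntegral.integral_congr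
      intro s hs
      rw [Set.uIcc_of_le ha2] at hs
      have h5 : |s| = -s := abs_of_nonpos hs.2
      have h6 : (1 : ℝ) + s ≠ 0 := by
        have := hs.1
        intro h0
        linarith
      dsimp only
      unfold EF
      rw [EInt_max2 (by rw [h5]; linarith [hs.1]), h5]
      push_cast
      field_simp
      ring
    have e2 : ∫ s in a'..(0 : ℝ), (1 - (1 + s) / 1128) = -(a' - (a' + a' ^ 2 / 2) / 1128) := by
      have hF : ∀ s ∈ Set.uIcc a' 0, HasDerivAt (fun s : ℝ => s - (s + s ^ 2 / 2) / 1128)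
          (1 - (1 + s) / 1128) s := by
        intro s _
        have d1 := hasDerivAt_id' s
        have d2 := (hasDerivAt_pow 2 s).div_const 2
        have := d1.sub ((d1.add d2).div_const 1128)
        refine this.congr_deriv ?_
        norm_num
      rw [intervalIntegral.integral_eq_sub_of_hasDerivAt hF
        (Continuous.intervalIntegrable (by fun_prop) _ _)]
      ring
    rw [e1, e2]
    nlinarith
  have h5 : ∫ s in (0 : ℝ)..1, EF 1 s = 2 * Real.log 2 - 1 - 1 / 2256 := by
    have e1 : ∫ s in (0 : ℝ)..1, EF 1 s = ∫ s in (0 : ℝ)..1, (2 * (1 / (1 + s)) - 1 - (1 - s) / 1128) := by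
      apply intervalIntegral.integral_congr
      intro s hs
      rw [Set.uIcc_of_le (by norm_num)] at hs
      have h5 : |s| = s := abs_of_nonneg hs.1
      have h6 : (1 : ℝ) + s ≠ 0 := by
        have := hs.1
        intro h0
        linarith
      dsimp only
      unfold EF
      rw [EInt_max2 (by rw [h5]; linarith [hs.2]), h5]
      push_cast
      field_simp
      ring
    rw [e1]
    have hF : ∀ s ∈ Set.uIcc (0 : ℝ) 1, HasDerivAt
        (fun s : ℝ => 2 * Real.log (1 + s) - s - (s - s ^ 2 / 2) / 1128)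
        (2 * (1 / (1 + s)) - 1 - (1 - s) / 1128) s := by
      intro s hs
      rw [Set.uIcc_of_le (by norm_num)] at hs
      have h6 : (1 : ℝ) + s ≠ 0 := by
        have := hs.1
        intro h0
        linarith
      have d1 := hasDerivAt_id' s
      have d2 := (hasDerivAt_pow 2 s).div_const 2
      have d3 : HasDerivAt (fun s : ℝ => Real.log (1 + s)) (1 / (1 + s)) s :=
        ((d1.const_add 1).log h6)
      have := ((d3.const_mul 2).sub d1).sub ((d1.sub d2).div_const 1128)
      refine this.congr_deriv ?_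
      norm_num
    rw [intervalIntegral.integral_eq_sub_of_hasDerivAt hF]
    · norm_num
    · apply ContinuousOn.intervalIntegrable
      rw [Set.uIcc_of_le (by norm_num)]
      apply ContinuousOn.sub
      · apply ContinuousOn.sub _ continuousOn_const
        apply ContinuousOn.mul continuousOn_const
        apply ContinuousOn.div continuousOn_const (by fun_prop)
        intro s hs h0
        have := hs.1
        linarith
      · fun_prop
  have h6 := Real.log_two_lt_d9
  rw [h2, h3, h5] at h1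
  linarith

private theorem EInt_last (a : ℝ) (ha : -1128 < a) (hab : a ≤ 0) :
    ∫ s in a..(0 : ℝ), EF 1128 s ≤ 1 / (6 * 1128 * 1127) := by
  obtain ⟨Q, hQd⟩ : ∃ Q : ℝ → ℝ, ∀ s, Q s = max 0 (1 - |s|) * ((-s) / (1128 * 1127)) :=
    ⟨fun s => max 0 (1 - |s|) * ((-s) / (1128 * 1127)), fun _ => rfl⟩
  have hQc : Continuous Q := by
    have h1 : Q = fun s => max 0 (1 - |s|) * ((-s) / (1128 * 1127)) := funext hQd
    rw [h1]
    fun_prop
  have hle : ∀ s ∈ Set.Icc a 0, EF 1128 s ≤ Q s := by
    intro s hs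
    rw [hQd]
    unfold EF
    rcases le_or_gt 1 |s| with h | h
    · rw [EInt_max1 h]
      simp
    · rw [EInt_max2 h.le]
      apply mul_le_mul_of_nonneg_left _ (by linarith)
      have h2 := abs_lt.1 h
      have h3 : (0 : ℝ) < 1128 + s := by linarith
      push_cast
      have h4 : 1 / (1128 + s) - 1 / 1128 = (-s) / (1128 * (1128 + s)) := by
        field_simp
        ring
      rw [h4]
      apply div_le_div_of_nonneg_left (by linarith [hs.2]) (by norm_num)
      linarith
  have hnn : ∀ s, s ≤ 0 → 0 ≤ Q s := by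
    intro s hs
    rw [hQd]
    apply mul_nonneg (le_max_left _ _)
    apply div_nonneg (by linarith) (by norm_num)
  calc ∫ s in a..(0 : ℝ), EF 1128 s ≤ ∫ s in a..(0 : ℝ), Q s := by
        apply intervalIntegral.integral_mono_on hab _ (hQc.intervalIntegrable _ _) hle
        apply ContinuousOn.intervalIntegrable
        apply EInt_contF
        intro x hx
        rw [Set.uIcc_of_le hab] at hx
        have := hx.1
        intro h0
        push_cast at h0
        linarith
    _ ≤ ∫ s in (-1128 : ℝ)..0, Q s := by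
        apply intervalIntegral.integral_mono_interval ha.le hab le_rfl _ (hQc.intervalIntegrable _ _)
        rw [Filter.EventuallyLE, MeasureTheory.ae_restrict_iff' measurableSet_Ioc]
        exact Filter.Eventually.of_forall (fun s hs => hnn s hs.2)
    _ = (∫ s in (-1128 : ℝ)..(-1), Q s) + ∫ s in (-1 : ℝ)..0, Q s :=
        (intervalIntegral.integral_add_adjacent_intervals (hQc.intervalIntegrable _ _)
          (hQc.intervalIntegrable _ _)).symm
    _ = 0 + ∫ s in (-1 : ℝ)..0, ((1 + s) * (-s)) / (1128 * 1127) := by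
        congr 1
        · rw [intervalIntegral.integral_congr (g := fun _ => (0 : ℝ))]
          · simp
          · intro s hs
            rw [Set.uIcc_of_le (by norm_num)] at hs
            dsimp only
            rw [hQd, EInt_max1 (by rw [abs_of_nonpos (by linarith [hs.2])]; linarith [hs.2]), zero_mul]
        · apply intervalIntegral.integral_congr
          intro s hs
          rw [Set.uIcc_of_le (by norm_num)] at hs
          have h1 : |s| = -s := abs_of_nonpos hs.2
          dsimp only
          rw [hQd, EInt_max2 (by rw [h1]; linarith [hs.1]), h1]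
          ring
    _ = _ := by
        have hF : ∀ s ∈ Set.uIcc (-1 : ℝ) 0, HasDerivAt
            (fun s : ℝ => (-(s ^ 2 / 2) - s ^ 3 / 3) / (1128 * 1127))
            (((1 + s) * (-s)) / (1128 * 1127)) s := by
          intro s _
          have d2 := (hasDerivAt_pow 2 s).div_const 2
          have d3 := (hasDerivAt_pow 3 s).div_const 3
          have := (d2.neg.sub d3).div_const (1128 * 1127)
          refine this.congr_deriv ?_
          norm_num
          ring
        rw [intervalIntegral.integral_eq_sub_of_hasDerivAt hF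
          (Continuous.intervalIntegrable (by fun_prop) _ _)]
        norm_num

private theorem EInt_omu (k : ℕ) (hk : 1 ≤ k) (hk2 : k ≤ 1128) (δ : ℝ) (hδ : 0 < δ)
    (hδ1 : δ ≤ ur) :
    ∫ u in δ..ur, 1 / u * (1 - u / ur) * max 0 (1 - |u / er - k|) ≤ omu k := by
  have he := EInt_er
  have hu := EInt_ur
  rw [EInt_sub k δ hδ hδ1]
  have h1 : -(k : ℝ) < δ / er - k := by
    have : 0 < δ / er := by positivity
    linarith
  have h2 : δ / er - k ≤ 1128 - k := by
    have : δ / er ≤ 1128 := by
      rw [div_le_iff₀ he]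
      linarith
    linarith
  unfold omu
  split_ifs with h3 h4
  · subst h3
    have h5 : (1128 : ℝ) - ((1 : ℕ) : ℝ) = 1127 := by norm_num
    rw [h5] at h2 ⊢
    exact EInt_one _ (by push_cast at h1 ⊢; linarith) h2
  · subst h4
    have h5 : (1128 : ℝ) - ((1128 : ℕ) : ℝ) = 0 := by norm_num
    rw [h5] at h2 ⊢
    exact EInt_last _ (by push_cast at h1 ⊢; linarith) h2
  · exact EInt_mid k (by omega) (by omega) _ h1 h2

private theorem EInt_Dk (len : ℕ) (v : ℕ → ℝ) (k : ℕ) : 0 ≤ Dk len v k := by
  unfold Dk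
  exact sum_nonneg (fun _ _ => sq_nonneg _)

theorem HInt (len : ℕ) (v : ℕ → ℝ) (δ : ℝ) (hδ : 0 < δ) (hδ1 : δ ≤ ur) :
    ∫ u in δ..ur, 1 / u * (1 - u / ur) * Wv len v u ≤ HU len v := by
  have he := EInt_er
  have h1 : ∀ u : ℝ, 1 / u * (1 - u / ur) * Wv len v u = ∑ k ∈ Icc (1 : ℕ) 1128,
      (er * Dk len v k) * (1 / u * (1 - u / ur) * max 0 (1 - |u / er - k|)) := by
    intro u
    unfold Wv
    rw [mul_sum, mul_sum]
    refine sum_congr rfl fun k _ => ?_
    ring
  have h2 : ∫ u in δ..ur, 1 / u * (1 - u / ur) * Wv len v u = ∑ k ∈ Icc (1 : ℕ) 1128,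
      (er * Dk len v k) * ∫ u in δ..ur, 1 / u * (1 - u / ur) * max 0 (1 - |u / er - k|) := by
    rw [intervalIntegral.integral_congr (fun u _ => h1 u), intervalIntegral.integral_finsetSum]
    · refine sum_congr rfl fun k _ => ?_
      rw [intervalIntegral.integral_const_mul]
    · intro k _
      apply ContinuousOn.intervalIntegrable
      rw [Set.uIcc_of_le hδ1]
      apply ContinuousOn.mul continuousOn_const
      apply ContinuousOn.mul
      · apply ContinuousOn.mul
        · apply ContinuousOn.div continuousOn_const continuousOn_id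
          intro u hu h0
          have := hu.1
          simp only [id] at h0
          linarith
        · fun_prop
      · fun_prop
  rw [h2]
  unfold HU
  rw [mul_sum]
  apply sum_le_sum
  intro k hk
  rw [mem_Icc] at hk
  have h3 := EInt_omu k hk.1 hk.2 δ hδ hδ1
  have h4 := EInt_Dk len v k
  calc er * Dk len v k * ∫ u in δ..ur, 1 / u * (1 - u / ur) * max 0 (1 - |u / er - k|) ≤
        er * Dk len v k * omu k := mul_le_mul_of_nonneg_left h3 (by positivity)
    _ = er * (omu k * Dk len v k) := by ring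

end Pool.Agent.Lib.MP_092512_nt.RT
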