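import Pool.Agent.Lib.MP_092512_nt.RT.CSum
import Pool.Agent.Lib.MP_092512_nt.RT.CQBig
import Pool.Agent.Lib.MP_092512_nt.RT.CQSmall
import Pool.Agent.Lib.MP_092512_nt.RT.EInt
import Pool.Agent.Lib.MP_092512_nt.P3.D1
import Pool.Agent.Lib.MP_092512_nt.P3.D0m

/-!
# C: the sums over the primes

PROOFS.  `UB_main` (finitely many `b`): `Qr_eq` with `ω = wm x δ` (`hω`: `x^δ > z` by `C1_zB_le_rpow`): `V L Qr = ∑_{x^δ < p ≤ x^ur} ((1 - lg p/ur)/p) V L QV(p) ≤ ∑_p ((1 - lg p/ur)/p) (Wv(lg p) + e)`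
(`QV_big`), `= ∑ ψ(lg p) (lg p/p)` with `ψ(u) = (1/u)(1 - u/ur)(Wv u + e)`, continuous on `[δ, ur]`, `→ ∫_δ^ur ψ` (`D1_one`) `≤ HU + e ∫_δ^ur 1/u` (`HInt`).
`UB_small`: `ω = ws x z δ`: `V L Qr ≤ ∑_{z < p ≤ x^δ} (1/p) (C lg p + C/(V L)) ≤ C (δ + log 4/L) + (C/(V L)) ∑_{p ≤ x} 1/p` (`Sieve.sum_log_div_le`), `∑_{p ≤ x} 1/p ≤ C' log log x`
(or `∑_{z<p≤x} 1/p ≤ log (∏ (1 - 1/p)⁻¹) ≤ log (C log x)` by `Sieve.mertens_product_upper`) and `V L ≥ L/(C log z)`, `log z ≤ B log log x`: the last term tends to `0`.  So `≤ 2 C δ` for large `x`.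
`QV ≥ 0` is clear.
-/

set_option autoImplicit false

open Finset Filter

open scoped ArithmeticFunction.Moebius

namespace Pool.Agent.Lib.MP_092512_nt.RT

open Pool.Agent.Lib.SW Pool.Agent.Lib.MP_092512_nt.P3

private theorem cup_er : (0 : ℝ) < er := by unfold er; norm_num

private theorem cup_ur : (0 : ℝ) < ur := by unfold ur; norm_num

private theorem cup_ur1 : ur ≤ 1 := by unfold ur; norm_num

private theorem cup_le : er / 2 ≤ ur := by unfold er ur; norm_num

private theorem cup_len (b : Fin 3 → ℕ) : lenr b ≤ 865 := by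
  unfold lenr
  exact (min_le_left _ _).trans (Nat.sub_le _ _)

private theorem cup_main (B : ℕ) (hB : 3 ≤ B) (δ : ℝ) (hδ : 0 < δ) (hδ1 : δ ≤ er / 2) (ε : ℝ) (hε : 0 < ε)
    (b : Fin 3 → ℕ) : ∀ᶠ x : ℕ in atTop,
      Vz (zB B x) * Real.log x * Qr x (zB B x) (wm x δ) b ≤ HU (lenr b) (vz (∑ j, b j)) + ε := by
  obtain ⟨len, hlen⟩ : ∃ l, l = lenr b := ⟨_, rfl⟩
  obtain ⟨v, hv⟩ : ∃ v, v = vz (∑ j, b j) := ⟨_, rfl⟩
  have hlen1 : len ≤ 865 := by rw [hlen]; exact cup_len b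
  have hur := cup_ur
  have hδu : δ ≤ ur := hδ1.trans cup_le
  obtain ⟨e, he⟩ : ∃ e, e = ε * δ / 4 := ⟨_, rfl⟩
  have he0 : 0 < e := by rw [he]; positivity
  have hc1 : ContinuousOn (fun u : ℝ => 1 / u * (1 - u / ur)) (Set.Icc δ ur) := by
    refine ContinuousOn.mul (continuousOn_const.div continuousOn_id ?_) ?_
    · intro u hu
      exact (lt_of_lt_of_le hδ hu.1).ne'
    · fun_prop
  have hc2 : ContinuousOn (fun u : ℝ => 1 / u * (1 - u / ur) * Wv len v u) (Set.Icc δ ur) :=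
    hc1.mul (Wv_cont len v).continuousOn
  have hc3 : ContinuousOn (fun u : ℝ => e * (1 / u * (1 - u / ur))) (Set.Icc δ ur) :=
    continuousOn_const.mul hc1
  have hψc : ContinuousOn (fun u : ℝ => 1 / u * (1 - u / ur) * (Wv len v u + e)) (Set.Icc δ ur) :=
    hc1.mul ((Wv_cont len v).add continuous_const).continuousOn
  have hlim := D1_one δ ur hδ hδu (fun u : ℝ => 1 / u * (1 - u / ur) * (Wv len v u + e)) hψc
  have hint : ∫ u in δ..ur, 1 / u * (1 - u / ur) * (Wv len v u + e) ≤ HU len v + ε / 4 := by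
    have h1 : ∫ u in δ..ur, 1 / u * (1 - u / ur) * (Wv len v u + e) =
        (∫ u in δ..ur, 1 / u * (1 - u / ur) * Wv len v u) + ∫ u in δ..ur, e * (1 / u * (1 - u / ur)) := by
      rw [← intervalIntegral.integral_add (hc2.intervalIntegrable_of_Icc hδu) (hc3.intervalIntegrable_of_Icc hδu)]
      refine intervalIntegral.integral_congr fun u _ => ?_
      ring
    have h2 : ∫ u in δ..ur, e * (1 / u * (1 - u / ur)) ≤ ∫ u in δ..ur, e * (1 / δ) := by
      refine intervalIntegral.integral_mono_on hδu (hc3.intervalIntegrable_of_Icc hδu)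
        (continuousOn_const.intervalIntegrable_of_Icc hδu) ?_
      intro u hu
      refine mul_le_mul_of_nonneg_left ?_ he0.le
      have hu0 : 0 < u := lt_of_lt_of_le hδ hu.1
      have h3 : 1 / u ≤ 1 / δ := one_div_le_one_div_of_le hδ hu.1
      have h4 : 1 - u / ur ≤ 1 := by
        have : 0 ≤ u / ur := by positivity
        linarith
      calc 1 / u * (1 - u / ur) ≤ 1 / u * 1 := mul_le_mul_of_nonneg_left h4 (by positivity)
        _ = 1 / u := mul_one _
        _ ≤ 1 / δ := h3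
    have h5 : ∫ u in δ..ur, e * (1 / δ) ≤ ε / 4 := by
      rw [intervalIntegral.integral_const, smul_eq_mul]
      have h6 : e * (1 / δ) = ε / 4 := by
        rw [he]
        field_simp
      rw [h6]
      have h7 : ur - δ ≤ 1 := by linarith [cup_ur1]
      nlinarith
    have h8 := HInt len v δ hδ hδu
    rw [h1]
    linarith
  have hev := hlim.eventually (Iic_mem_nhds (lt_add_of_pos_right _ (half_pos hε)))
  filter_upwards [hev, QV_big B hB len hlen1 v e he0, C1_zB_le_rpow B δ hδ, eventually_ge_atTop 2,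
    (C1_V_log_tendsto B (by omega)).eventually_ge_atTop 0] with x hx hQ hz hx2 hVL
  have hx' : ∑ p ∈ PP x δ ur, 1 / lg x p * (1 - lg x p / ur) * (Wv len v (lg x p) + e) * (lg x p / (p : ℝ)) ≤
      (∫ u in δ..ur, 1 / u * (1 - u / ur) * (Wv len v u + e)) + ε / 2 := hx
  have hx1 : 1 ≤ x := by omega
  have hω : ∀ p, wm x δ p ≠ 0 → zB B x < p ∧ (p : ℝ) ≤ (x : ℝ) ^ ur := by
    intro p hp
    unfold wm at hp
    split_ifs at hp with h
    · refine ⟨?_, h.2⟩
      have h1 : (zB B x : ℝ) < p := hz.trans h.1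
      exact_mod_cast h1
    · exact absurd rfl hp
  rw [Qr_eq x (zB B x) hx1 (wm x δ) hω b, mul_sum, ← hlen, ← hv]
  have hsub : PP x δ ur ⊆ (Icc 1 ⌊(x : ℝ) ^ ur⌋₊).filter Nat.Prime := by
    intro p hp
    rw [mem_PP] at hp
    rw [mem_filter, mem_Icc]
    exact ⟨⟨hp.1.one_le, Nat.le_floor hp.2.2⟩, hp.1⟩
  rw [← Finset.sum_subset hsub (by
    intro p hp hp2
    rw [mem_filter] at hp
    have h0 : wm x δ p = 0 := by
      unfold wm
      rw [if_neg]
      intro h
      exact hp2 (mem_PP.2 ⟨hp.2, h⟩)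
    rw [h0]
    ring)]
  refine le_trans (Finset.sum_le_sum (g := fun p => 1 / lg x p * (1 - lg x p / ur) *
    (Wv len v (lg x p) + e) * (lg x p / (p : ℝ))) ?_) ?_
  · intro p hp
    have hlg := PP_lg hx2 hp
    rw [mem_PP] at hp
    have hp0 : (0 : ℝ) < p := by exact_mod_cast hp.1.pos
    have hzp : zB B x < p := by
      have h1 : (zB B x : ℝ) < p := hz.trans hp.2.1
      exact_mod_cast h1
    have h1 := hQ p hp.1 hzp hp.2.2
    have hl0 : 0 < lg x p := hδ.trans hlg.1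
    have hwm : wm x δ p = 1 - lg x p / ur := by
      unfold wm
      rw [if_pos ⟨hp.2.1, hp.2.2⟩]
    have hw0 : 0 ≤ 1 - lg x p / ur := by
      have : lg x p / ur ≤ 1 := (div_le_one hur).2 hlg.2
      linarith
    rw [hwm]
    calc Vz (zB B x) * Real.log x * ((1 - lg x p / ur) / p * QV x (zB B x) len v p)
        = (1 - lg x p / ur) / p * (Vz (zB B x) * Real.log x * QV x (zB B x) len v p) := by ring
      _ ≤ (1 - lg x p / ur) / p * (Wv len v (lg x p) + e) :=
          mul_le_mul_of_nonneg_left h1 (div_nonneg hw0 hp0.le)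
      _ = 1 / lg x p * (1 - lg x p / ur) * (Wv len v (lg x p) + e) * (lg x p / (p : ℝ)) := by
          field_simp
  · linarith

theorem UB_main (B : ℕ) (hB : 3 ≤ B) (δ : ℝ) (hδ : 0 < δ) (hδ1 : δ ≤ er / 2) (ε : ℝ) (hε : 0 < ε) :
    ∃ x₀ : ℕ, ∀ x : ℕ, x₀ ≤ x → ∀ b ∈ BQ,
      Vz (zB B x) * Real.log x * Qr x (zB B x) (wm x δ) b ≤ HU (lenr b) (vz (∑ j, b j)) + ε := by
  have h : ∀ᶠ x : ℕ in atTop, ∀ b ∈ BQ,
      Vz (zB B x) * Real.log x * Qr x (zB B x) (wm x δ) b ≤ HU (lenr b) (vz (∑ j, b j)) + ε := by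
    rw [Filter.eventually_all_finset]
    intro b _
    exact cup_main B hB δ hδ hδ1 ε hε b
  exact eventually_atTop.1 h

theorem UB_small : ∃ C : ℝ, 0 < C ∧ ∀ B : ℕ, 3 ≤ B → ∀ δ : ℝ, 0 < δ → δ ≤ er / 2 →
    ∃ x₀ : ℕ, ∀ x : ℕ, x₀ ≤ x → ∀ b ∈ BQ,
      Vz (zB B x) * Real.log x * Qr x (zB B x) (ws x (zB B x) δ) b ≤ C * δ := by
  classical
  have hb : ∀ b : Fin 3 → ℕ, ∃ C : ℝ, 0 < C ∧ ∀ B : ℕ, 3 ≤ B →
      ∀ᶠ x : ℕ in atTop, ∀ p : ℕ, p.Prime → zB B x < p → (p : ℝ) ≤ (x : ℝ) ^ (er / 2) →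
        Vz (zB B x) * Real.log x * QV x (zB B x) (lenr b) (vz (∑ j, b j)) p ≤
          C * lg x p + C / (Vz (zB B x) * Real.log x) := fun b => QV_small (lenr b) (cup_len b) _
  choose Cb hCb0 hCb using hb
  obtain ⟨g, hg⟩ : ∃ g, g = Real.exp (-Real.eulerMascheroniConstant) := ⟨_, rfl⟩
  have hg0 : 0 < g := by rw [hg]; exact Real.exp_pos _
  have hC0 : ∀ b ∈ BQ, Cb b ≤ 1 + ∑ b ∈ BQ, Cb b := by
    intro b hb
    have := Finset.single_le_sum (f := Cb) (fun b _ => (hCb0 b).le) hb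
    linarith
  have hCpos : 0 < 1 + ∑ b ∈ BQ, Cb b := by
    have : 0 ≤ ∑ b ∈ BQ, Cb b := sum_nonneg fun b _ => (hCb0 b).le
    linarith
  refine ⟨(1 + ∑ b ∈ BQ, Cb b) * (1 + 2 / g) * 2, by positivity, ?_⟩
  intro B hB δ hδ hδ1
  have h : ∀ᶠ x : ℕ in atTop, ∀ b ∈ BQ,
      Vz (zB B x) * Real.log x * Qr x (zB B x) (ws x (zB B x) δ) b ≤
        (1 + ∑ b ∈ BQ, Cb b) * (1 + 2 / g) * 2 * δ := by
    rw [Filter.eventually_all_finset]
    intro b hbQ
    have hmert : Tendsto (fun x : ℕ => Real.log (zB B x : ℝ) * LG3V (zB B x)) atTop (nhds g) := by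
      rw [hg]
      exact Sieve.Mertens3.mertens_three.comp (C1_zB_tendsto B (by omega))
    have hm2 := hmert.eventually (Ici_mem_nhds (show g / 2 < g by linarith))
    have hlog : Tendsto (fun x : ℕ => Real.log (x : ℝ)) atTop atTop :=
      Real.tendsto_log_atTop.comp tendsto_natCast_atTop_atTop
    filter_upwards [hCb b B hB, hm2, (C1_zB_tendsto B (by omega)).eventually_ge_atTop 2,
      hlog.eventually_ge_atTop (Real.log 4 / δ), eventually_ge_atTop 2,
      (C1_V_log_tendsto B (by omega)).eventually_gt_atTop 0] with x hQ hmz hz2 hlx hx2 hVL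
    have hmz' : g / 2 ≤ Real.log (zB B x : ℝ) * LG3V (zB B x) := hmz
    have hVz : Vz (zB B x) = LG3V (zB B x) := LG3_V _
    rw [← hVz] at hmz'
    have hx1 : 1 ≤ x := by omega
    have hxr : (1 : ℝ) < x := by exact_mod_cast hx2
    have hx0 : (0 : ℝ) < x := by linarith
    have hL0 : 0 < Real.log x := Real.log_pos hxr
    have hzr : (1 : ℝ) < (zB B x : ℝ) := by exact_mod_cast hz2
    have hlz : 0 < Real.log (zB B x : ℝ) := Real.log_pos hzr
    have hV0 : 0 < Vz (zB B x) := by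
      by_contra hcon
      push Not at hcon
      nlinarith
    have hδe : (x : ℝ) ^ δ ≤ (x : ℝ) ^ (er / 2) := Real.rpow_le_rpow_of_exponent_le hxr.le hδ1
    have hδu : (x : ℝ) ^ δ ≤ (x : ℝ) ^ ur := Real.rpow_le_rpow_of_exponent_le hxr.le (hδ1.trans cup_le)
    have hω : ∀ p, ws x (zB B x) δ p ≠ 0 → zB B x < p ∧ (p : ℝ) ≤ (x : ℝ) ^ ur := by
      intro p hp
      unfold ws at hp
      split_ifs at hp with h
      · exact ⟨h.1, h.2.trans hδu⟩
      · exact absurd rfl hp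
    rw [Qr_eq x (zB B x) hx1 (ws x (zB B x) δ) hω b, mul_sum]
    obtain ⟨C, hC⟩ : ∃ C, C = Cb b := ⟨_, rfl⟩
    have hCpos' : 0 < C := by rw [hC]; exact hCb0 b
    obtain ⟨M, hM⟩ : ∃ M, M = C * (1 + 2 / g) / Real.log x := ⟨_, rfl⟩
    have hM0 : 0 ≤ M := by rw [hM]; positivity
    have hterm : ∀ p ∈ (Icc 1 ⌊(x : ℝ) ^ ur⌋₊).filter Nat.Prime,
        Vz (zB B x) * Real.log x * (ws x (zB B x) δ p / p * QV x (zB B x) (lenr b) (vz (∑ j, b j)) p) ≤
        if (p : ℝ) ≤ (x : ℝ) ^ δ then M * (Real.log p / p) else 0 := by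
      intro p hp
      rw [mem_filter] at hp
      have hp0 : (0 : ℝ) < p := by exact_mod_cast hp.2.pos
      have hlp : 0 ≤ Real.log p := Real.log_nonneg (by exact_mod_cast hp.2.one_le)
      by_cases hc : zB B x < p ∧ (p : ℝ) ≤ (x : ℝ) ^ δ
      · rw [if_pos hc.2]
        have hws : ws x (zB B x) δ p = 1 := by
          unfold ws
          rw [if_pos hc]
        rw [hws]
        have h1 := hQ p hp.2 hc.1 (hc.2.trans hδe)
        rw [← hC] at h1
        have h2 : C / (Vz (zB B x) * Real.log x) ≤ C * (2 / g) * (Real.log p / Real.log x) := by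
          have h3 : Real.log (zB B x : ℝ) ≤ Real.log p :=
            Real.log_le_log (by linarith) (by exact_mod_cast hc.1.le)
          rw [div_le_iff₀ (mul_pos hV0 hL0)]
          have h4 : g / 2 ≤ Real.log p * Vz (zB B x) :=
            hmz'.trans (mul_le_mul_of_nonneg_right h3 hV0.le)
          have h5 : C * (2 / g) * (Real.log p / Real.log x) * (Vz (zB B x) * Real.log x) =
              C * (2 / g) * (Real.log p * Vz (zB B x)) := by
            field_simp
          rw [h5]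
          have h6 : C * (2 / g) * (g / 2) = C := by field_simp
          calc C = C * (2 / g) * (g / 2) := h6.symm
            _ ≤ C * (2 / g) * (Real.log p * Vz (zB B x)) := mul_le_mul_of_nonneg_left h4 (by positivity)
        calc Vz (zB B x) * Real.log x * (1 / p * QV x (zB B x) (lenr b) (vz (∑ j, b j)) p)
            = 1 / p * (Vz (zB B x) * Real.log x * QV x (zB B x) (lenr b) (vz (∑ j, b j)) p) := by ring
          _ ≤ 1 / p * (C * lg x p + C * (2 / g) * (Real.log p / Real.log x)) :=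
              mul_le_mul_of_nonneg_left (h1.trans (by linarith)) (by positivity)
          _ = M * (Real.log p / p) := by
              rw [hM]
              unfold lg
              ring
      · have hws : ws x (zB B x) δ p = 0 := by
          unfold ws
          rw [if_neg hc]
        rw [hws, zero_div, zero_mul, mul_zero]
        split_ifs
        · positivity
        · exact le_refl _
    refine (Finset.sum_le_sum hterm).trans ?_
    rw [← Finset.sum_filter, ← Finset.mul_sum]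
    have hfl : 1 ≤ ⌊(x : ℝ) ^ δ⌋₊ := by
      rw [Nat.one_le_floor_iff]
      exact Real.one_le_rpow hxr.le hδ.le
    have hsub : ((Icc 1 ⌊(x : ℝ) ^ ur⌋₊).filter Nat.Prime).filter (fun p : ℕ => (p : ℝ) ≤ (x : ℝ) ^ δ) ⊆
        (Icc 1 ⌊(x : ℝ) ^ δ⌋₊).filter Nat.Prime := by
      intro p hp
      rw [mem_filter, mem_filter] at hp
      rw [mem_filter, mem_Icc]
      exact ⟨⟨hp.1.2.one_le, Nat.le_floor hp.2⟩, hp.1.2⟩
    have hsum : ∑ p ∈ ((Icc 1 ⌊(x : ℝ) ^ ur⌋₊).filter Nat.Prime).filter (fun p : ℕ => (p : ℝ) ≤ (x : ℝ) ^ δ),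
        Real.log p / (p : ℝ) ≤ 2 * δ * Real.log x := by
      refine (Finset.sum_le_sum_of_subset_of_nonneg hsub (fun p hp _ => ?_)).trans ?_
      · exact div_nonneg (Real.log_natCast_nonneg p) (by positivity)
      refine (Sieve.sum_log_div_le _ hfl).trans ?_
      have h1 : Real.log (⌊(x : ℝ) ^ δ⌋₊ : ℝ) ≤ δ * Real.log x := by
        rw [← Real.log_rpow hx0]
        exact Real.log_le_log (by exact_mod_cast hfl) (Nat.floor_le (by positivity))
      rw [div_le_iff₀ hδ] at hlx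
      linarith
    have hgg : 0 < 1 + 2 / g := by positivity
    calc M * _ ≤ M * (2 * δ * Real.log x) := mul_le_mul_of_nonneg_left hsum hM0
      _ = C * (1 + 2 / g) * 2 * δ := by
          rw [hM]
          field_simp
      _ ≤ (1 + ∑ b ∈ BQ, Cb b) * (1 + 2 / g) * 2 * δ := by
          have h1 : C ≤ 1 + ∑ b ∈ BQ, Cb b := by rw [hC]; exact hC0 b hbQ
          have h2 : 0 ≤ (1 + 2 / g) * 2 * δ := by positivity
          nlinarith
  exact eventually_atTop.1 h

end Pool.Agent.Lib.MP_092512_nt.RT
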