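import Pool.Agent.Lib.MP_092512_nt.P3.DDefs

/-!
# At most ten prime factors in a quadruple: definitions

`er = 100/300001` is the width of a cell, `ur = 1128 er`, `1 - ur = 187201/300001`.
`TR`: the cells `c` with `∑_{j ≠ i} (c_j + 1) ≤ 867` for all `i` and `∑ (c_j + 1) ≤ 936`; `TRi i`: those with
`∑_{j ≠ i} (c_j + 1) ≤ 633` for this `i`; `BQ`, `BR`: the triples `b` with `∑ (b_j + 1) ≤ 867`, `≤ 633`;
`lenr b` is the number of `x` with `(x, b) ∈ TR`.  `fz a = (a+2)² - 2113 (a+2) + 1125000`.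
-/

set_option autoImplicit false

open Finset

open scoped ArithmeticFunction.Moebius

namespace Pool.Agent.Lib.MP_092512_nt.RT

open Pool.Agent.Lib.SW Pool.Agent.Lib.MP_092512_nt.P3

noncomputable def er : ℝ := 100 / 300001
noncomputable def ur : ℝ := 112800 / 300001

def fz (a : ℕ) : ℤ := ((a : ℤ) + 2) ^ 2 - 2113 * ((a : ℤ) + 2) + 1125000

/-- the values on one line, `x ↦ fz (S + x)` -/
noncomputable def vz (S x : ℕ) : ℝ := (fz (S + x) : ℝ)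

@[irreducible] def TR : Finset (Fin 4 → ℕ) :=
  (Fintype.piFinset (fun _ : Fin 4 => range 900)).filter
    (fun c => (∀ i, (∑ j, c j) - c i + 3 ≤ 867) ∧ (∑ j, c j) + 4 ≤ 936)

@[irreducible] def TRi (i : Fin 4) : Finset (Fin 4 → ℕ) := TR.filter (fun c => (∑ j, c j) - c i + 3 ≤ 633)

@[irreducible] def BR : Finset (Fin 3 → ℕ) :=
  (Fintype.piFinset (fun _ : Fin 3 => range 900)).filter (fun b => (∑ j, b j) + 3 ≤ 633)

@[irreducible] def BQ : Finset (Fin 3 → ℕ) :=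
  (Fintype.piFinset (fun _ : Fin 3 => range 900)).filter (fun b => (∑ j, b j) + 3 ≤ 867)

/-- the cell with `i`-th coordinate `x` and the others from `b` -/
def insr (i : Fin 4) (x : ℕ) (b : Fin 3 → ℕ) : Fin 4 → ℕ := Fin.insertNth i x b

def mnr (b : Fin 3 → ℕ) : ℕ := min (b 0) (min (b 1) (b 2))

def lenr (b : Fin 3 → ℕ) : ℕ := min (865 - ((∑ j, b j) - mnr b)) (933 - ∑ j, b j)

theorem mem_TR {c : Fin 4 → ℕ} : c ∈ TR ↔
    (∀ i, c i < 900) ∧ (∀ i, (∑ j, c j) - c i + 3 ≤ 867) ∧ (∑ j, c j) + 4 ≤ 936 := by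
  unfold TR
  rw [mem_filter, Fintype.mem_piFinset]
  simp only [mem_range]

theorem mem_TRi {i : Fin 4} {c : Fin 4 → ℕ} : c ∈ TRi i ↔ c ∈ TR ∧ (∑ j, c j) - c i + 3 ≤ 633 := by
  unfold TRi
  rw [mem_filter]

theorem mem_BR {b : Fin 3 → ℕ} : b ∈ BR ↔ (∀ i, b i < 900) ∧ (∑ j, b j) + 3 ≤ 633 := by
  unfold BR
  rw [mem_filter, Fintype.mem_piFinset]
  simp only [mem_range]

theorem mem_BQ {b : Fin 3 → ℕ} : b ∈ BQ ↔ (∀ i, b i < 900) ∧ (∑ j, b j) + 3 ≤ 867 := by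
  unfold BQ
  rw [mem_filter, Fintype.mem_piFinset]
  simp only [mem_range]

/-! ## one line -/

/-- `∑_x (v_x - v_{x+k})²`, `v = 0` from `len` on -/
noncomputable def Dk (len : ℕ) (v : ℕ → ℝ) (k : ℕ) : ℝ :=
  ∑ x ∈ range len, (v x - if x + k < len then v (x + k) else 0) ^ 2

/-- `∫_{t ≥ 0} (F(t) - F(t+u))²` for `u ≤ 1128 er` -/
noncomputable def Wv (len : ℕ) (v : ℕ → ℝ) (u : ℝ) : ℝ :=
  er * ∑ k ∈ Icc (1 : ℕ) 1128, max 0 (1 - |u / er - k|) * Dk len v k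

noncomputable def omu (k : ℕ) : ℝ :=
  if k = 1 then 2 * 0.6931471808 - 1 / 1128
  else if k = 1128 then 1 / (6 * 1128 * 1127)
  else 1 / k + 1 / (6 * k ^ 3) + 1 / (15 * k ^ 5 * (1 - 1 / k)) - 1 / 1128

noncomputable def HU (len : ℕ) (v : ℕ → ℝ) : ℝ := er * ∑ k ∈ Icc (1 : ℕ) 1128, omu k * Dk len v k

/-- the weight of the large prime, divided by `1 - y` -/
noncomputable def wf (y : ℝ) : ℝ := if y ≤ 1 - ur then 1 / ur - 1 / (1 - y) else 0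

/-- `∫_0^y F²` -/
noncomputable def QI (len : ℕ) (v : ℕ → ℝ) (y : ℝ) : ℝ := ∑ x ∈ range len, v x ^ 2 * cl er x y

noncomputable def Pf (len : ℕ) (v : ℕ → ℝ) : ℝ :=
  (1 / ur - 1) * VV er len v 1 ^ 2 + ∫ y in (0 : ℝ)..(1 - ur), wf y * QI len v y

/-- the step function with the values `v_x` on the cells -/
noncomputable def Fst (len : ℕ) (v : ℕ → ℝ) (t : ℝ) : ℝ :=
  ∑ x ∈ range len, v x * if (x : ℝ) * er ≤ t ∧ t < ((x : ℝ) + 1) * er then 1 else 0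

/-! ## sets of primes -/

noncomputable def lgs (x : ℕ) (s : Finset ℕ) : ℝ := ∑ p ∈ s, lg x p

noncomputable def rs (s : Finset ℕ) : ℝ := ∏ p ∈ s, 1 / (p : ℝ)

noncomputable def tau (x i : ℕ) (s : Finset ℕ) : ℝ := ∏ p ∈ s, (1 - Real.exp (-((i : ℝ) * lg x p)))

noncomputable def XP (x : ℕ) (Φ : ℝ → ℝ) (s : Finset ℕ) : ℝ :=
  ∑ t ∈ s.powerset, (-1 : ℝ) ^ t.card * Φ (lgs x t)

/-- `e^(-gu) (1 - e^(-iu)) (1 - e^(-ju))` -/
noncomputable def cc (i j g : ℕ) (u : ℝ) : ℝ :=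
  Real.exp (-((g : ℝ) * u)) * ((1 - Real.exp (-((i : ℝ) * u))) * (1 - Real.exp (-((j : ℝ) * u))))

/-! ## the two weights -/

/-- the cofactors of the large prime -/
def Gs (x : ℕ) (δ : ℝ) (a : ℕ) : Prop :=
  Squarefree a ∧ (∀ p ∈ a.primeFactors, (x : ℝ) ^ δ < p) ∧ (a : ℝ) ≤ (x : ℝ) ^ (1 - ur)

noncomputable def wt (y : ℝ) : ℝ := (1 - y) / ur - 1

open Classical in
noncomputable def GG (x : ℕ) (δ : ℝ) (m : ℕ) : ℝ :=
  ∑ p ∈ m.primeFactors.filter (fun p => Gs x δ (m / p)),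
    wt (lg x (m / p)) * (Real.log p / Real.log (3 * x / ((m / p : ℕ) : ℝ)))

open Classical in
/-- weight of the small primes -/
noncomputable def ws (x z : ℕ) (δ : ℝ) (p : ℕ) : ℝ := if z < p ∧ (p : ℝ) ≤ (x : ℝ) ^ δ then 1 else 0

open Classical in
noncomputable def wm (x : ℕ) (δ : ℝ) (p : ℕ) : ℝ :=
  if (x : ℝ) ^ δ < p ∧ (p : ℝ) ≤ (x : ℝ) ^ ur then 1 - lg x p / ur else 0

/-- kernel of the diagonal form with a prime `p` -/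
noncomputable def kp (p d e : ℕ) : ℝ := (if p ∣ Nat.lcm d e then (p : ℝ) else 1) / (Nat.lcm d e : ℝ)

/-- `∑_{p ∣ m} ω(p)` -/
noncomputable def ps (ω : ℕ → ℝ) (m : ℕ) : ℝ := ∑ p ∈ m.primeFactors, ω p

/-- coefficients of `(∑_{p ∣ m} ω p) LC_j(m) LC_j'(m)` -/
noncomputable def bet (x z : ℕ) (η : ℝ) (ω : ℕ → ℝ) (j j' r : ℕ) : ℝ :=
  if Squarefree r then ∑ p ∈ r.primeFactors, ω p * (alp x z η j j' r + alp x z η j j' (r / p)) else 0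

/-- indicator of the cell `j` -/
noncomputable def ic (x j k : ℕ) : ℝ :=
  if (x : ℝ) ^ ((j : ℝ) * er) < k ∧ (k : ℝ) ≤ (x : ℝ) ^ (((j : ℝ) + 1) * er) then 1 else 0

noncomputable def stp (x len : ℕ) (v : ℕ → ℝ) (k : ℕ) : ℝ := ∑ j ∈ range len, v j * ic x j k

noncomputable def QV (x z len : ℕ) (v : ℕ → ℝ) (p : ℕ) : ℝ :=
  1 / (Vz z * Real.log x) ^ 2 *
    ∑ k ∈ (Icc 1 ⌊(x : ℝ) ^ ((len : ℝ) * er)⌋₊).filter
        (fun k => Squarefree k ∧ Nat.Coprime k (primorial z) ∧ ¬ p ∣ k),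
      1 / (k.totient : ℝ) * (stp x len v k - stp x len v (p * k)) ^ 2

/-! ## the sums over `n` -/

noncomputable def PR (h : Fin 4 → ℕ) (x z : ℕ) (c : Fin 4 → ℕ) (n : ℕ) : ℝ :=
  ∏ i, LC x z er (c i) (n + h i)

noncomputable def fcr (c : Fin 4 → ℕ) : ℝ := (fz (∑ j, c j) : ℝ)

noncomputable def WR (h : Fin 4 → ℕ) (x z n : ℕ) : ℝ := ∑ c ∈ TR, fcr c * PR h x z c n

noncomputable def WRi (h : Fin 4 → ℕ) (x z : ℕ) (i : Fin 4) (n : ℕ) : ℝ :=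
  ∑ c ∈ TRi i, fcr c * PR h x z c n

def NR (h : Fin 4 → ℕ) (x z : ℕ) : Finset ℕ :=
  (Ioc x (2 * x)).filter (fun n => ∀ i, Nat.Coprime (n + h i) (primorial z))

noncomputable def Sr (x z j j' : ℕ) : ℝ :=
  ∑ r ∈ Icc 1 ⌊(x : ℝ) ^ (((j : ℝ) + 1 + (j' + 1)) * er)⌋₊, alp x z er j j' r / r

noncomputable def Br (x z : ℕ) (ω : ℕ → ℝ) (j j' : ℕ) : ℝ :=
  ∑ r ∈ Icc 1 ⌊(x : ℝ) ^ (((j : ℝ) + 1 + (j' + 1)) * er + ur)⌋₊, bet x z er ω j j' r / r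

noncomputable def FR (x z : ℕ) (δ : ℝ) (h0 j j' m : ℕ) : ℝ :=
  if x + h0 < m ∧ m ≤ 2 * x + h0 then GG x δ m * (LC x z er j m * LC x z er j' m) else 0

noncomputable def MR (x z : ℕ) (δ : ℝ) (h0 j j' : ℕ) : ℝ := ∑ m ∈ Icc 1 (3 * x), FR x z δ h0 j j' m

noncomputable def TIr (h : Fin 4 → ℕ) (x z : ℕ) (δ : ℝ) (i : Fin 4) (c c' : Fin 4 → ℕ) : ℝ :=
  ∑ n ∈ NR h x z, GG x δ (n + h i) * (PR h x z c n * PR h x z c' n)

noncomputable def TZr (h : Fin 4 → ℕ) (x z : ℕ) (c c' : Fin 4 → ℕ) : ℝ :=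
  ∑ n ∈ NR h x z, PR h x z c n * PR h x z c' n

noncomputable def THr (h : Fin 4 → ℕ) (x z : ℕ) (ω : ℕ → ℝ) (i : Fin 4) (c c' : Fin 4 → ℕ) : ℝ :=
  ∑ n ∈ NR h x z, ps ω (n + h i) * (PR h x z c n * PR h x z c' n)

/-- `∑_m GG(m) LV_b(m)²` -/
noncomputable def Yr (x z : ℕ) (δ : ℝ) (h0 : ℕ) (b : Fin 3 → ℕ) : ℝ :=
  ∑ m ∈ Ioc (x + h0) (2 * x + h0), GG x δ m * LV x z er (lenr b) (vz (∑ j, b j)) m ^ 2

noncomputable def Qr (x z : ℕ) (ω : ℕ → ℝ) (b : Fin 3 → ℕ) : ℝ :=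
  ∑ u ∈ range (lenr b), ∑ w ∈ range (lenr b), vz (∑ j, b j) u * vz (∑ j, b j) w * Br x z ω u w

/-- the bracket -/
noncomputable def BK (h : Fin 4 → ℕ) (x z : ℕ) (δ ε : ℝ) (n : ℕ) : ℝ :=
  11 - ε - ∑ i, (1 / ur + (8 * ps (ws x z δ) (n + h i) + ps (wm x δ) (n + h i)) - GG x δ (n + h i))

noncomputable def SR (h : Fin 4 → ℕ) (x z : ℕ) (δ ε : ℝ) : ℝ :=
  ∑ n ∈ NR h x z, BK h x z δ ε n * WR h x z n ^ 2

/-- the numbers counted by the theorem -/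
def good (h : Fin 4 → ℕ) (x : ℕ) (δ : ℝ) (n : ℕ) : Prop :=
  (∀ i, Squarefree (n + h i) ∧ ∀ p ∈ (n + h i).primeFactors, (x : ℝ) ^ δ < p) ∧
    ∑ i, (n + h i).primeFactors.card ≤ 10

end Pool.Agent.Lib.MP_092512_nt.RT
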