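import Pool.Agent.Lib.MP_092512_nt.RT.EN0

/-!
# E: kernel value of a part of the long sums
-/

set_option autoImplicit false

namespace Pool.Agent.Lib.MP_092512_nt.RT

set_option maxRecDepth 100000 in
theorem wsum_a : wsum 1 119 = 33131769687090678114991209757632 := by decide +kernel

end Pool.Agent.Lib.MP_092512_nt.RT
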