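import Pool.Agent.Lib.MP_092512_nt.RT.EN0

/-!
# E: kernel values of the short sums
-/

set_option autoImplicit false

namespace Pool.Agent.Lib.MP_092512_nt.RT

set_option maxRecDepth 100000 in
theorem osum_val : osum 1128 = 7030546539 := by decide +kernel

set_option maxRecDepth 100000 in
theorem nsum_val : nsum 933 = 5934547297646308155360 := by decide +kernel

set_option maxRecDepth 100000 in
theorem pin_val : pin 0 211 = 36 * 372849313757492267471952 := by decide +kernel

set_option maxRecDepth 100000 in
theorem gs_a : gs 865 1007 = 1528289914732 := by decide +kernel

set_option maxRecDepth 100000 in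
theorem gs_b : gs 380 1492 = 2879840791963 := by decide +kernel

set_option maxRecDepth 100000 in
theorem gs_c : gs 180 1692 = 3502298864867 := by decide +kernel

end Pool.Agent.Lib.MP_092512_nt.RT
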