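import Pool.Agent.Lib.MP_092512_nt.RT.EN1
import Pool.Agent.Lib.MP_092512_nt.RT.EPa
import Pool.Agent.Lib.MP_092512_nt.RT.EKa
import Pool.Agent.Lib.MP_092512_nt.RT.EKb
import Pool.Agent.Lib.MP_092512_nt.RT.EKc
import Pool.Agent.Lib.MP_092512_nt.RT.EKd
import Pool.Agent.Lib.MP_092512_nt.RT.EGa
import Pool.Agent.Lib.MP_092512_nt.RT.EGb
import Pool.Agent.Lib.MP_092512_nt.RT.EGc

/-!
# E: the numerical inequality
-/

set_option autoImplicit false

open Finset

namespace Pool.Agent.Lib.MP_092512_nt.RT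

private theorem div_up (A B : ℕ) (hB : 0 < B) : (A : ℝ) / B ≤ ((A / B : ℕ) : ℝ) + 1 := by
  have hB' : (0 : ℝ) < B := by exact_mod_cast hB
  rw [div_le_iff₀ hB']
  have h1 := Nat.div_add_mod A B
  have h2 := Nat.mod_lt A hB
  have h3 : A ≤ (A / B + 1) * B := by nlinarith
  exact_mod_cast h3

private theorem beq_ne {a b : ℕ} (h : a ≠ b) : Nat.beq a b = false := by
  cases e : Nat.beq a b
  · rfl
  · exact absurd (Nat.eq_of_beq_eq_true e) h

private theorem cond2 (b c : Bool) (x y z : ℕ) (hb : b = false) (hc : c = false) :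
    cond b x (cond c y z) = z := by subst hb; subst hc; rfl

private theorem ndiv (a b : ℕ) : Nat.div a b = a / b := rfl

private theorem omn_gen0 (k : ℕ) (hk1 : k ≠ 1) (hk2 : k ≠ 1128) : omn k =
    (Nat.sub (Nat.add (Nat.add (Nat.add (Nat.div 1000000000 k) 1)
      (Nat.add (Nat.div 1000000000 (Nat.mul 6 (Nat.mul (Nat.mul k k) k))) 1))
      (Nat.add (Nat.div 1000000000 (Nat.mul 15 (Nat.mul (Nat.mul (Nat.mul k k) (Nat.mul k k)) (Nat.sub k 1)))) 1))
      886524) :=
  cond2 (Nat.beq k 1) (Nat.beq k 1128) _ _ _ (beq_ne hk1) (beq_ne hk2)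

private theorem omn_gen (k : ℕ) (hk1 : k ≠ 1) (hk2 : k ≠ 1128) : omn k =
    (1000000000 / k + 1 + (1000000000 / (6 * (k * k * k)) + 1) +
      (1000000000 / (15 * ((k * k) * (k * k) * (k - 1))) + 1)) - 886524 := by
  rw [omn_gen0 k hk1 hk2]
  simp only [ndiv, Nat.add_eq, Nat.sub_eq, Nat.mul_eq]

private theorem omu_gen (k : ℕ) (h1 : 2 ≤ k) (h2 : k ≤ 1127) : omu k ≤ (omn k : ℝ) / 1000000000 := by
  have h3 : 1000000000 / 1127 ≤ 1000000000 / k := Nat.div_le_div_left h2 (by omega)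
  have h4 : (1000000000 : ℕ) / 1127 = 887311 := by norm_num
  have hk0 : (0 : ℝ) < k := by exact_mod_cast (by omega : 0 < k)
  have hk2' : (2 : ℝ) ≤ k := by exact_mod_cast h1
  have a1 := div_up 1000000000 k (by omega)
  have hp2 : 0 < k * k * k := Nat.mul_pos (Nat.mul_pos (by omega) (by omega)) (by omega)
  have hp3 : 0 < (k * k) * (k * k) * (k - 1) :=
    Nat.mul_pos (Nat.mul_pos (Nat.mul_pos (by omega) (by omega)) (Nat.mul_pos (by omega) (by omega))) (by omega)
  have a2 := div_up 1000000000 (6 * (k * k * k)) (by omega)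
  have a3 := div_up 1000000000 (15 * ((k * k) * (k * k) * (k - 1))) (by omega)
  have hs : ((k - 1 : ℕ) : ℝ) = (k : ℝ) - 1 := by rw [Nat.cast_sub (by omega)]; simp
  have b2 : (1 : ℝ) / (6 * k ^ 3) = ((1000000000 : ℕ) : ℝ) / ((6 * (k * k * k) : ℕ) : ℝ) / 1000000000 := by
    push_cast
    field_simp
  have b3 : (1 : ℝ) / (15 * k ^ 5 * (1 - 1 / k)) =
      ((1000000000 : ℕ) : ℝ) / ((15 * ((k * k) * (k * k) * (k - 1)) : ℕ) : ℝ) / 1000000000 := by
    have h5 : (k : ℝ) - 1 ≠ 0 := by linarith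
    rw [Nat.cast_mul, Nat.cast_mul _ (k - 1), hs]
    push_cast
    field_simp
  have b1 : (1 : ℝ) / k = ((1000000000 : ℕ) : ℝ) / (k : ℝ) / 1000000000 := by
    push_cast
    field_simp
  have e := omn_gen k (by omega) (by omega)
  obtain ⟨q1, hq1⟩ : ∃ q : ℕ, q = 1000000000 / k := ⟨_, rfl⟩
  obtain ⟨q2, hq2⟩ : ∃ q : ℕ, q = 1000000000 / (6 * (k * k * k)) := ⟨_, rfl⟩
  obtain ⟨q3, hq3⟩ : ∃ q : ℕ, q = 1000000000 / (15 * ((k * k) * (k * k) * (k - 1))) := ⟨_, rfl⟩
  rw [← hq1] at a1 h3 e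
  rw [← hq2] at a2 e
  rw [← hq3] at a3 e
  rw [e, Nat.cast_sub (by omega)]
  unfold omu
  rw [if_neg (by omega), if_neg (by omega), b2, b3, b1]
  push_cast at a1 a2 a3 ⊢
  linarith

private theorem omu_le (k : ℕ) (h1 : 1 ≤ k) (h2 : k ≤ 1128) : omu k ≤ (omn k : ℝ) / 1000000000 := by
  by_cases hk1 : k = 1
  · subst hk1
    have e : omn 1 = 1385407837 := by rfl
    rw [e]
    unfold omu
    rw [if_pos rfl]
    norm_num
  by_cases hk2 : k = 1128
  · subst hk2
    have e : omn 1128 = 132 := by rfl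
    rw [e]
    unfold omu
    rw [if_neg (by norm_num), if_pos rfl]
    norm_num
  exact omu_gen k (by omega) (by omega)

private theorem wz_le (j : ℕ) (hj : j ≤ 1872) : (wz j : ℝ) / 1000000000 ≤ wj j := by
  have e : wz j = 2659583333 - 300001000000000 / (300001 - 100 * j) - 1 := rfl
  obtain ⟨C, hC⟩ : ∃ C : ℕ, C = 300001 - 100 * j := ⟨_, rfl⟩
  have hC1 : C + 100 * j = 300001 := by omega
  have hC2 : 112801 ≤ C := by omega
  have hC3 : (112801 : ℝ) ≤ C := by exact_mod_cast hC2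
  have hC4 : (C : ℝ) + 100 * j = 300001 := by exact_mod_cast hC1
  have hw : wj j = 300001 / 112800 - 300001 / C := by
    unfold wj ur er
    have h1 : (1 : ℝ) - j * (100 / 300001) = C / 300001 := by
      rw [eq_div_iff (by norm_num)]
      linarith
    rw [h1]
    congr 1
    · norm_num
    · rw [one_div_div]
  have a1 := div_up 300001000000000 C (by omega)
  rw [e, ← hC, hw]
  push_cast at a1
  have a2 : (300001 : ℝ) / C = 300001000000000 / C / 1000000000 := by
    field_simp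
    norm_num
  obtain ⟨D, hD⟩ : ∃ D : ℕ, D = 300001000000000 / C := ⟨_, rfl⟩
  rw [← hD] at a1 ⊢
  by_cases h : D + 1 ≤ 2659583333
  · rw [show 2659583333 - D - 1 = 2659583333 - (D + 1) by omega, Nat.cast_sub h]
    push_cast
    rw [a2]
    norm_num
    linarith
  · rw [show 2659583333 - D - 1 = 0 by omega]
    have : (300001 : ℝ) / C ≤ 300001 / 112800 := by
      apply div_le_div_of_nonneg_left (by norm_num) (by norm_num) (by linarith)
    simp
    linarith

private theorem gx_ge (x : ℕ) (hx : x < 865) :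
    er / 2 / 1000000000 * (gs (x + 1) (1871 - x) : ℝ) ≤ gx x := by
  unfold gx
  rw [gs_sum, sum_Ico_eq_sum_range, show 1872 - (x + 1) = 1871 - x by omega, Nat.cast_sum, mul_sum, mul_sum]
  refine sum_le_sum fun i hi => ?_
  have hi' := mem_range.mp hi
  have h1 := wz_le (x + 1 + i) (by omega)
  have h2 := wz_le (x + 1 + i + 1) (by omega)
  have e : (tz (x + 1 + i) : ℝ) = wz (x + 1 + i) + wz (x + 1 + i + 1) := by
    have e1 : tz (x + 1 + i) = wz (x + 1 + i) + wz (x + 1 + i + 1) := rfl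
    exact_mod_cast e1
  rw [e]
  have h3 : (0 : ℝ) ≤ er / 2 := by unfold er; norm_num
  have h4 := mul_le_mul_of_nonneg_left (add_le_add h1 h2) h3
  calc er / 2 / 1000000000 * ((wz (x + 1 + i) : ℝ) + wz (x + 1 + i + 1)) =
      er / 2 * ((wz (x + 1 + i) : ℝ) / 1000000000 + (wz (x + 1 + i + 1) : ℝ) / 1000000000) := by ring
    _ ≤ _ := h4

private theorem gs_step (x n : ℕ) : gs x (n + 1) = gs (x + 1) n + tz x := by
  rw [gs_sum, gs_sum, sum_range_succ']
  congr 1
  refine sum_congr rfl fun i _ => ?_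
  congr 1
  omega

private theorem gl_eq (x0 n : ℕ) (h : x0 + n ≤ 865) : gl x0 n (gs (x0 + n) (1872 - (x0 + n))) =
    ∑ m ∈ range n, gs (x0 + m + 1) (1871 - (x0 + m)) * u2 (x0 + m) (cn (x0 + m)) := by
  induction n with
  | zero => rfl
  | succ n ih =>
    have e : gl x0 (n + 1) (gs (x0 + (n + 1)) (1872 - (x0 + (n + 1)))) =
      gs (x0 + (n + 1)) (1872 - (x0 + (n + 1))) * u2 (x0 + n) (cn (x0 + n)) +
        gl x0 n (gs (x0 + (n + 1)) (1872 - (x0 + (n + 1))) + tz (x0 + n)) := rfl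
    rw [e, show x0 + (n + 1) = x0 + n + 1 by omega, ← gs_step, show 1872 - (x0 + n + 1) + 1 = 1872 - (x0 + n) by omega,
      ih (by omega), sum_range_succ, show 1872 - (x0 + n + 1) = 1871 - (x0 + n) by omega]
    ring

private theorem gl_eq2 (x0 n : ℕ) (h : x0 + n ≤ 865) (l g v : ℕ) (hl : l = 1872 - (x0 + n))
    (hg : gs (x0 + n) l = g) (hv : gl x0 n g = v) :
    ∑ m ∈ range n, gs (x0 + m + 1) (1871 - (x0 + m)) * u2 (x0 + m) (cn (x0 + m)) = v := by
  rw [← gl_eq x0 n h, ← hl, hg, hv]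

private theorem split3 (F : ℕ → ℕ) (v1 v2 v3 : ℕ) (h1 : ∑ m ∈ range 180, F (0 + m) = v1)
    (h2 : ∑ m ∈ range 200, F (180 + m) = v2) (h3 : ∑ m ∈ range 485, F (380 + m) = v3) :
    ∑ x ∈ range 865, F x = v1 + v2 + v3 := by
  rw [show (865 : ℕ) = 180 + (200 + 485) by norm_num, Finset.sum_range_add, Finset.sum_range_add,
    ← h1, ← h2, ← h3]
  simp only [← add_assoc, zero_add, show 180 + 200 = 380 by norm_num]

private theorem gsum : ∑ x ∈ range 865, gs (x + 1) (1871 - x) * u2 x (cn x) =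
    5437215309571796922460703647422432 + 1282700610972491645593002120151440 +
      158512378851423100921278847612272 :=
  split3 (fun x => gs (x + 1) (1871 - x) * u2 x (cn x)) _ _ _
    (gl_eq2 0 180 (by norm_num) 1692 _ _ (by norm_num) gs_c gl_a)
    (gl_eq2 180 200 (by norm_num) 1492 _ _ (by norm_num) gs_b gl_b)
    (gl_eq2 380 485 (by norm_num) 1007 _ _ (by norm_num) gs_a gl_c)

private theorem wsum_eq2 (k0 n v : ℕ) (hv : wsum k0 n = v) :
    ∑ i ∈ range n, omn (k0 + i) * sk (k0 + i) (933 - (k0 + i)) = v := by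
  rw [← wsum_sum, hv]

private theorem sk_zero (k : ℕ) : sk k 0 = 0 := rfl

private theorem split5 (F : ℕ → ℕ) (v1 v2 v3 v4 : ℕ) (h1 : ∑ i ∈ range 119, F (1 + i) = v1)
    (h2 : ∑ i ∈ range 140, F (120 + i) = v2) (h3 : ∑ i ∈ range 190, F (260 + i) = v3)
    (h4 : ∑ i ∈ range 483, F (450 + i) = v4) (h5 : ∀ k, 933 ≤ k → F k = 0) :
    ∑ k ∈ Icc 1 1128, F k = v1 + v2 + v3 + v4 := by
  have e : ∑ k ∈ Icc 1 1128, F k = ∑ i ∈ range 1128, F (1 + i) := by
    rw [show Icc 1 1128 = Ico 1 1129 by ext k; simp only [mem_Icc, mem_Ico]; omega, sum_Ico_eq_sum_range]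
  have z : ∑ i ∈ range 196, F (933 + i) = 0 := sum_eq_zero fun i _ => h5 _ (by omega)
  rw [e, show (1128 : ℕ) = 119 + (140 + (190 + (483 + 196))) by norm_num, Finset.sum_range_add,
    Finset.sum_range_add, Finset.sum_range_add, Finset.sum_range_add, ← h1, ← h2, ← h3, ← h4]
  simp only [← add_assoc, show 1 + 119 = 120 by norm_num, show 120 + 140 = 260 by norm_num,
    show 260 + 190 = 450 by norm_num, show 450 + 483 = 933 by norm_num]
  rw [z, add_zero]

private theorem wsum_all : ∑ k ∈ Icc 1 1128, omn k * sk k (933 - k) =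
    33131769687090678114991209757632 + 2615888138363910614987012574360 +
      690459881028853681004169795864 + 73558991227292754906789083712 :=
  split5 (fun k => omn k * sk k (933 - k)) _ _ _ _ (wsum_eq2 1 119 _ wsum_a) (wsum_eq2 120 140 _ wsum_b)
    (wsum_eq2 260 190 _ wsum_c) (wsum_eq2 450 483 _ wsum_d) (fun k hk => by
      show omn k * sk k (933 - k) = 0
      rw [Nat.sub_eq_zero_of_le hk, sk_zero, Nat.mul_zero])

private theorem osum_all : ∑ k ∈ Icc (1 : ℕ) 1128, omn k = 7030546539 := by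
  rw [← osum_val, osum_sum, show Icc 1 1128 = Ico 1 1129 by ext k; simp only [mem_Icc, mem_Ico]; omega,
    sum_Ico_eq_sum_range]

theorem num_ineq : 0 < (11 - 4 / ur) * ((NRM : ℤ) : ℝ) - 4 * ∑ k ∈ Icc (1 : ℕ) 1128, omu k * ((TK k : ℤ) : ℝ) +
    4 * ((1 / ur - 1) * er * ((PIN : ℤ) : ℝ)) + 4 * ∑ x ∈ range 865, gx x * ((UX x : ℤ) : ℝ) := by
  have hN : ((NRM : ℤ) : ℝ) = 989091216274384692560 := by
    have h := NRM_eq
    rw [nsum_val] at h
    have h' : NRM = 989091216274384692560 := by push_cast at h; omega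
    rw [h']
    norm_num
  have hP : ((PIN : ℤ) : ℝ) = 372849313757492267471952 := by
    have h := PIN_eq
    rw [pin_val] at h
    have h' : PIN = 372849313757492267471952 := by push_cast at h; omega
    rw [h']
    norm_num
  have hT : ∀ k : ℕ, 1 ≤ k → (0 : ℝ) ≤ ((TK k : ℤ) : ℝ) := by
    intro k hk
    rw [← sum_Dk k hk]
    exact sum_nonneg fun b _ => sum_nonneg fun x _ => sq_nonneg _
  have h1 : ∑ k ∈ Icc (1 : ℕ) 1128, omu k * ((TK k : ℤ) : ℝ) ≤
      7030546539 / 1000000000 * 989091216274384692560 - 36511676697710735165889181211568 / 6000000000 := by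
    calc ∑ k ∈ Icc (1 : ℕ) 1128, omu k * ((TK k : ℤ) : ℝ)
        ≤ ∑ k ∈ Icc (1 : ℕ) 1128, (omn k : ℝ) / 1000000000 * ((TK k : ℤ) : ℝ) := by
          refine sum_le_sum fun k hk => ?_
          have hk' := mem_Icc.mp hk
          exact mul_le_mul_of_nonneg_right (omu_le k hk'.1 hk'.2) (hT k hk'.1)
      _ = ∑ k ∈ Icc (1 : ℕ) 1128, ((omn k : ℝ) * (989091216274384692560 / 1000000000) -
            ((omn k * sk k (933 - k) : ℕ) : ℝ) / 6000000000) := by
          refine sum_congr rfl fun k _ => ?_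
          have e := TK_eq k
          have e' : ((TK k : ℤ) : ℝ) = ((NRM : ℤ) : ℝ) - (sk k (933 - k) : ℝ) / 6 := by
            have : (6 : ℝ) * ((TK k : ℤ) : ℝ) = 6 * ((NRM : ℤ) : ℝ) - (sk k (933 - k) : ℝ) := by exact_mod_cast e
            linarith
          rw [e', hN]
          push_cast
          ring
      _ = (((∑ k ∈ Icc (1 : ℕ) 1128, omn k : ℕ)) : ℝ) * (989091216274384692560 / 1000000000) -
            ((∑ k ∈ Icc (1 : ℕ) 1128, omn k * sk k (933 - k) : ℕ) : ℝ) / 6000000000 := by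
          rw [sum_sub_distrib, ← sum_mul, ← sum_div]
          push_cast
          rfl
      _ = _ := by
          rw [wsum_all, osum_all]
          norm_num
      _ ≤ _ := le_refl _
  have h2 : er / 4 / 1000000000 * 6878428299395711668974984615186144 ≤ ∑ x ∈ range 865, gx x * ((UX x : ℤ) : ℝ) := by
    calc er / 4 / 1000000000 * 6878428299395711668974984615186144
        = er / 4 / 1000000000 * ((∑ x ∈ range 865, gs (x + 1) (1871 - x) * u2 x (cn x) : ℕ) : ℝ) := by
          rw [gsum]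
          norm_num
      _ = ∑ x ∈ range 865, (er / 2 / 1000000000 * (gs (x + 1) (1871 - x) : ℝ)) * ((UX x : ℤ) : ℝ) := by
          rw [Nat.cast_sum, mul_sum]
          refine sum_congr rfl fun x hx => ?_
          have e := UX_eq x (by have := mem_range.mp hx; omega)
          have e' : (u2 x (cn x) : ℝ) = 2 * ((UX x : ℤ) : ℝ) := by exact_mod_cast e.symm
          rw [Nat.cast_mul, e']
          ring
      _ ≤ _ := by
          refine sum_le_sum fun x hx => ?_
          have e := UX_eq x (by have := mem_range.mp hx; omega)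
          have e' : (u2 x (cn x) : ℝ) = 2 * ((UX x : ℤ) : ℝ) := by exact_mod_cast e.symm
          have e3 : (0 : ℝ) ≤ (u2 x (cn x) : ℝ) := Nat.cast_nonneg _
          exact mul_le_mul_of_nonneg_right (gx_ge x (mem_range.mp hx)) (by linarith)
  rw [hN, hP]
  have h3 : (11 : ℝ) - 4 / ur = 10199 / 28200 := by unfold ur; norm_num
  have h4 : (1 / ur - 1) * er = 187201 / 112800 * (100 / 300001) := by unfold ur er; norm_num
  have h5 : er / 4 / 1000000000 = 25 / 300001 / 1000000000 := by unfold er; norm_num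
  rw [h5] at h2
  rw [h3, h4]
  have h6 : (0 : ℝ) < 10199 / 28200 * 989091216274384692560 -
      4 * (7030546539 / 1000000000 * 989091216274384692560 - 36511676697710735165889181211568 / 6000000000) +
      4 * (187201 / 112800 * (100 / 300001) * 372849313757492267471952) +
      4 * (25 / 300001 / 1000000000 * 6878428299395711668974984615186144) := by norm_num
  linarith

end Pool.Agent.Lib.MP_092512_nt.RT
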