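import Pool.Agent.Lib.MP_092512_nt.RT.Defs

/-!
# E: lower bound for `Pf`

PROOF.  `VV er len v 1 = er ∑ v_x` (`cl er x 1 = er` for `(x+1) er ≤ 1`, `x < len ≤ 865`).  `QI y ≥ ∑_x v_x² er 1[y ≥ (x+1) er]`, `wf ≥ 0` on `[0, 1 - ur]`, so
`∫_0^(1-ur) wf QI ≥ er ∑_x v_x² ∫_{(x+1) er}^{1872 er} (1/ur - 1/(1-y)) dy` (`1872 er ≤ 1 - ur`), and `1/ur - 1/(1-y)` is concave on `[0, 1)`: on each cell the integral is at least
the trapezoid `(er/2) (wj j + wj (j+1))` (e.g. `1/(1-y)` is convex, so below its chord: for `y = (1-t) a + t b`: `1/(1-y) ≤ (1-t)/(1-a) + t/(1-b)`).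
-/

set_option autoImplicit false

open Finset Filter

open scoped ArithmeticFunction.Moebius

namespace Pool.Agent.Lib.MP_092512_nt.RT

open Pool.Agent.Lib.SW Pool.Agent.Lib.MP_092512_nt.P3

noncomputable def wj (j : ℕ) : ℝ := 1 / ur - 1 / (1 - j * er)

noncomputable def gx (x : ℕ) : ℝ := er / 2 * ∑ j ∈ Ico (x + 1) 1872, (wj j + wj (j + 1))

private theorem EPf_chord (a h : ℝ) (hh : 0 ≤ h) (hb : a + h < 1) :
    ∫ y in a..(a + h), 1 / (1 - y) ≤ h / 2 * (1 / (1 - a) + 1 / (1 - (a + h))) := by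
  have hp : 0 < 1 - a := by linarith
  have hq : 0 < 1 - (a + h) := by linarith
  have h1 : ∫ y in a..(a + h), 1 / (1 - y) ≤
      ∫ y in a..(a + h), ((1 - (a + h)) + (y - a)) / ((1 - a) * (1 - (a + h))) := by
    refine intervalIntegral.integral_mono_on (by linarith) ?_ ?_ ?_
    · apply ContinuousOn.intervalIntegrable
      apply ContinuousOn.div continuousOn_const (by fun_prop)
      intro y hy
      rw [Set.uIcc_of_le (by linarith)] at hy
      linarith [hy.2]
    · apply Continuous.intervalIntegrable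
      fun_prop
    · intro y hy
      have h2 : 0 < 1 - y := by linarith [hy.2]
      rw [div_le_div_iff₀ h2 (mul_pos hp hq)]
      nlinarith [mul_nonneg (sub_nonneg.2 hy.1) (sub_nonneg.2 hy.2)]
  have h3 : ∫ y in a..(a + h), ((1 - (a + h)) + (y - a)) / ((1 - a) * (1 - (a + h))) =
      h / 2 * (1 / (1 - a) + 1 / (1 - (a + h))) := by
    have h4 : ∀ y ∈ Set.uIcc a (a + h), HasDerivAt
        (fun y => ((1 - (a + h)) + (y - a)) ^ 2 / 2 / ((1 - a) * (1 - (a + h))))
        (((1 - (a + h)) + (y - a)) / ((1 - a) * (1 - (a + h)))) y := by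
      intro y _
      have h5 : HasDerivAt (fun y : ℝ => (1 - (a + h)) + (y - a)) 1 y :=
        ((hasDerivAt_id y).sub_const a).const_add _
      have h6 := ((h5.fun_pow 2).div_const 2).div_const ((1 - a) * (1 - (a + h)))
      have h7 : ((2 : ℕ) : ℝ) * ((1 - (a + h)) + (y - a)) ^ (2 - 1) * 1 / 2 / ((1 - a) * (1 - (a + h))) =
          ((1 - (a + h)) + (y - a)) / ((1 - a) * (1 - (a + h))) := by
        push_cast
        ring
      rw [h7] at h6
      exact h6
    rw [intervalIntegral.integral_eq_sub_of_hasDerivAt h4 (by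
      apply Continuous.intervalIntegrable
      fun_prop)]
    field_simp
    ring
  exact h1.trans h3.le

private theorem EPf_pos : (0 : ℝ) < er ∧ (0 : ℝ) < ur ∧ 1872 * er ≤ 1 - ur ∧ ur < 1 := by
  unfold er ur
  norm_num

private theorem EPf_cont (b : ℝ) (a : ℝ) (ha : 0 ≤ a) (hab : a ≤ b) (hb : b ≤ 1 - ur) :
    ContinuousOn (fun y : ℝ => 1 / ur - 1 / (1 - y)) (Set.uIcc a b) := by
  apply ContinuousOn.sub continuousOn_const
  apply ContinuousOn.div continuousOn_const (by fun_prop)
  intro y hy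
  rw [Set.uIcc_of_le hab] at hy
  have := EPf_pos.2.1
  linarith [hy.2]

private theorem EPf_trap (x : ℕ) (hx : x + 1 ≤ 1872) :
    gx x ≤ ∫ y in (((x + 1 : ℕ) : ℝ) * er)..(((1872 : ℕ) : ℝ) * er), (1 / ur - 1 / (1 - y)) := by
  obtain ⟨h1, h2, h3, h4⟩ := EPf_pos
  have hint : ∀ k ∈ Set.Ico (x + 1) 1872, IntervalIntegrable (fun y : ℝ => 1 / ur - 1 / (1 - y))
      MeasureTheory.volume ((k : ℝ) * er) (((k + 1 : ℕ) : ℝ) * er) := by
    intro k hk
    have h5 : ((k + 1 : ℕ) : ℝ) ≤ 1872 := by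
      have := hk.2
      exact_mod_cast this
    have h6 : (k : ℝ) ≤ ((k + 1 : ℕ) : ℝ) := by
      push_cast
      linarith
    apply ContinuousOn.intervalIntegrable
    refine EPf_cont _ _ (by positivity) ?_ ?_
    · exact mul_le_mul_of_nonneg_right h6 h1.le
    · nlinarith
  rw [← intervalIntegral.sum_integral_adjacent_intervals_Ico (a := fun k : ℕ => (k : ℝ) * er) hx hint]
  unfold gx
  rw [mul_sum]
  refine sum_le_sum fun j hj => ?_
  rw [mem_Ico] at hj
  have h5 : ((j : ℝ) + 1) * er ≤ 1 - ur := by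
    have h6 : ((j + 1 : ℕ) : ℝ) ≤ 1872 := by
      exact_mod_cast hj.2
    push_cast at h6
    nlinarith
  have h7 : ((j + 1 : ℕ) : ℝ) * er = (j : ℝ) * er + er := by
    push_cast
    ring
  rw [h7]
  have h8 := EPf_chord ((j : ℝ) * er) er h1.le (by linarith)
  have hj0 : 0 ≤ (j : ℝ) * er := by positivity
  rw [intervalIntegral.integral_sub (by simp) ?_, intervalIntegral.integral_const, smul_eq_mul]
  · unfold wj
    push_cast
    have h9 : 1 - ((j : ℝ) + 1) * er = 1 - ((j : ℝ) * er + er) := by ring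
    rw [h9]
    linarith
  · apply ContinuousOn.intervalIntegrable
    apply ContinuousOn.div continuousOn_const (by fun_prop)
    intro y hy
    rw [Set.uIcc_of_le (by linarith)] at hy
    linarith [hy.2]

private theorem EPf_one (x : ℕ) (hx : x + 1 ≤ 865) :
    er * gx x ≤ ∫ y in (0 : ℝ)..(1 - ur), (1 / ur - 1 / (1 - y)) * cl er x y := by
  obtain ⟨h1, h2, h3, h4⟩ := EPf_pos
  have hx' : ((x + 1 : ℕ) : ℝ) ≤ 865 := by exact_mod_cast hx
  have hcl : ∀ y, 0 ≤ cl er x y := by
    intro y
    unfold cl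
    exact le_min (le_max_right _ _) h1.le
  have hclc : Continuous (fun y => cl er x y) := by
    unfold cl
    fun_prop
  have h5 : ∫ y in (((x + 1 : ℕ) : ℝ) * er)..(((1872 : ℕ) : ℝ) * er),
      (1 / ur - 1 / (1 - y)) * cl er x y ≤
      ∫ y in (0 : ℝ)..(1 - ur), (1 / ur - 1 / (1 - y)) * cl er x y := by
    refine intervalIntegral.integral_mono_interval (by positivity) ?_ ?_ ?_ ?_
    · apply mul_le_mul_of_nonneg_right _ h1.le
      push_cast
      push_cast at hx'
      linarith
    · push_cast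
      exact h3
    · refine (MeasureTheory.ae_restrict_iff' measurableSet_Ioc).2 (MeasureTheory.ae_of_all _ fun y hy => ?_)
      have h6 : ur ≤ 1 - y := by linarith [hy.2]
      have h7 : 1 / (1 - y) ≤ 1 / ur := one_div_le_one_div_of_le h2 h6
      exact mul_nonneg (by linarith) (hcl y)
    · apply ContinuousOn.intervalIntegrable
      exact (EPf_cont _ _ le_rfl (by linarith) le_rfl).mul hclc.continuousOn
  refine le_trans ?_ h5
  have h8 : ∫ y in (((x + 1 : ℕ) : ℝ) * er)..(((1872 : ℕ) : ℝ) * er),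
      (1 / ur - 1 / (1 - y)) * cl er x y =
      ∫ y in (((x + 1 : ℕ) : ℝ) * er)..(((1872 : ℕ) : ℝ) * er), er * (1 / ur - 1 / (1 - y)) := by
    refine intervalIntegral.integral_congr fun y hy => ?_
    rw [Set.uIcc_of_le (by
      apply mul_le_mul_of_nonneg_right _ h1.le
      push_cast
      push_cast at hx'
      linarith)] at hy
    have h9 := hy.1
    push_cast at h9
    have h10 : cl er x y = er := by
      unfold cl
      apply min_eq_right
      refine le_trans ?_ (le_max_left _ _)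
      linarith
    rw [h10, mul_comm]
  rw [h8, intervalIntegral.integral_const_mul]
  exact mul_le_mul_of_nonneg_left (EPf_trap x (by omega)) h1.le

theorem Pf_ge (len : ℕ) (hlen : len ≤ 865) (v : ℕ → ℝ) :
    (1 / ur - 1) * (er * ∑ x ∈ range len, v x) ^ 2 + er * ∑ x ∈ range len, gx x * v x ^ 2 ≤ Pf len v := by
  obtain ⟨h1, h2, h3, h4⟩ := EPf_pos
  have hV : VV er len v 1 = er * ∑ x ∈ range len, v x := by
    unfold VV
    rw [mul_sum]
    refine sum_congr rfl fun x hx => ?_
    have h5 : ((x + 1 : ℕ) : ℝ) ≤ 865 := by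
      have := mem_range.1 hx
      exact_mod_cast (by omega : x + 1 ≤ 865)
    push_cast at h5
    have h6 : cl er x 1 = er := by
      unfold cl
      apply min_eq_right
      refine le_trans ?_ (le_max_left _ _)
      unfold er
      linarith
    rw [h6, mul_comm]
  have hclc : ∀ x : ℕ, Continuous (fun y => cl er x y) := by
    intro x
    unfold cl
    fun_prop
  have hI : ∫ y in (0 : ℝ)..(1 - ur), wf y * QI len v y =
      ∑ x ∈ range len, v x ^ 2 * ∫ y in (0 : ℝ)..(1 - ur), (1 / ur - 1 / (1 - y)) * cl er x y := by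
    have h5 : ∫ y in (0 : ℝ)..(1 - ur), wf y * QI len v y =
        ∫ y in (0 : ℝ)..(1 - ur), ∑ x ∈ range len, v x ^ 2 * ((1 / ur - 1 / (1 - y)) * cl er x y) := by
      refine intervalIntegral.integral_congr fun y hy => ?_
      rw [Set.uIcc_of_le (by linarith)] at hy
      unfold wf QI
      rw [if_pos hy.2, mul_sum]
      refine sum_congr rfl fun x _ => ?_
      ring
    rw [h5, intervalIntegral.integral_finsetSum]
    · refine sum_congr rfl fun x _ => ?_
      rw [intervalIntegral.integral_const_mul]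
    · intro x _
      apply ContinuousOn.intervalIntegrable
      exact continuousOn_const.mul ((EPf_cont _ _ le_rfl (by linarith) le_rfl).mul (hclc x).continuousOn)
  unfold Pf
  rw [hV, hI]
  refine add_le_add le_rfl ?_
  rw [mul_sum]
  refine sum_le_sum fun x hx => ?_
  have h5 := EPf_one x (by have := mem_range.1 hx; omega)
  nlinarith [mul_le_mul_of_nonneg_left h5 (sq_nonneg (v x))]

end Pool.Agent.Lib.MP_092512_nt.RT
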