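import Pool.Agent.Lib.MP_092512_nt.RT.ESum
import Pool.Agent.Lib.MP_092512_nt.RT.EPf
import Pool.Agent.Lib.MP_092512_nt.RT.ENum

/-!
# E: the certificate

PROOF.  `Pf_ge` summed over `BR` (`sum_P`, `sum_g`), `HU = er ∑ omu k Dk` summed over `BQ` (`sum_Dk`), `sum_fcr`.  It remains: divide by `er`,
`(11 - 4/ur) NRM - 4 ∑_k omu k TK k + 4 (1/ur - 1) er PIN + 4 ∑_x gx x UX x > 0`: `num_ineq`.
-/

set_option autoImplicit false

open Finset Filter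

open scoped ArithmeticFunction.Moebius

namespace Pool.Agent.Lib.MP_092512_nt.RT

open Pool.Agent.Lib.SW Pool.Agent.Lib.MP_092512_nt.P3

private theorem ECert_HU : ∑ b ∈ BQ, HU (lenr b) (vz (∑ j, b j)) =
    er * ∑ k ∈ Icc (1 : ℕ) 1128, omu k * ((TK k : ℤ) : ℝ) := by
  unfold HU
  rw [← Finset.mul_sum, sum_comm]
  refine congrArg (fun t => er * t) (sum_congr rfl fun k hk => ?_)
  rw [← Finset.mul_sum, sum_Dk k (mem_Icc.1 hk).1]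

private theorem ECert_Pf : er * ((1 / ur - 1) * er * ((PIN : ℤ) : ℝ)) +
    er * ∑ x ∈ range 865, gx x * ((UX x : ℤ) : ℝ) ≤ ∑ b ∈ BR, Pf (lenr b) (vz (∑ j, b j)) := by
  have h1 : ∑ b ∈ BR, ((1 / ur - 1) * (er * ∑ x ∈ range (lenr b), vz (∑ j, b j) x) ^ 2 +
      er * ∑ x ∈ range (lenr b), gx x * vz (∑ j, b j) x ^ 2) ≤ ∑ b ∈ BR, Pf (lenr b) (vz (∑ j, b j)) :=
    sum_le_sum fun b _ => Pf_ge (lenr b) (lenr_le b) (vz (∑ j, b j))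
  refine le_trans (le_of_eq ?_) h1
  rw [sum_add_distrib, ← Finset.mul_sum, ← Finset.mul_sum, sum_g gx]
  have h2 : ∑ b ∈ BR, (er * ∑ x ∈ range (lenr b), vz (∑ j, b j) x) ^ 2 = er ^ 2 * ((PIN : ℤ) : ℝ) := by
    rw [← sum_P, Finset.mul_sum]
    refine sum_congr rfl fun b _ => ?_
    ring
  rw [h2]
  ring

theorem cert : 0 < (11 - 4 / ur) * (er * ∑ c ∈ TR, fcr c ^ 2) -
    4 * ∑ b ∈ BQ, HU (lenr b) (vz (∑ j, b j)) + 4 * ∑ b ∈ BR, Pf (lenr b) (vz (∑ j, b j)) := by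
  have h1 := ECert_Pf
  have h2 := num_ineq
  have he : 0 < er := by
    unfold er
    norm_num
  have h3 := mul_pos he h2
  rw [ECert_HU, sum_fcr]
  have h4 : er * ((11 - 4 / ur) * ((NRM : ℤ) : ℝ) - 4 * ∑ k ∈ Icc (1 : ℕ) 1128, omu k * ((TK k : ℤ) : ℝ) +
      4 * ((1 / ur - 1) * er * ((PIN : ℤ) : ℝ)) + 4 * ∑ x ∈ range 865, gx x * ((UX x : ℤ) : ℝ)) =
      (11 - 4 / ur) * (er * ((NRM : ℤ) : ℝ)) - 4 * (er * ∑ k ∈ Icc (1 : ℕ) 1128, omu k * ((TK k : ℤ) : ℝ)) +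
      4 * (er * ((1 / ur - 1) * er * ((PIN : ℤ) : ℝ)) +
        er * ∑ x ∈ range 865, gx x * ((UX x : ℤ) : ℝ)) := by
    ring
  linarith

end Pool.Agent.Lib.MP_092512_nt.RT
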