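import Pool.Agent.Lib.MP_092512_nt.RT.FGeo

/-!
# E: counting cells

`NN a k` is the number of pairs `(b, x)` with `b ∈ BQ`, `∑ b + x = a`, `x + k < lenr b` (for `a + k ≤ 932`).
PROOFS.  `x + k < lenr b` iff `x + k < 865 - (∑ b - min b)` and `x + k < 933 - ∑ b`; with `∑ b + x = a`: iff `a + k ≤ 864 + min b` and `a + k ≤ 932`.  So, `m0 = a + k - 864` (truncated),
`NN a k = #{b : all b_j ≥ m0, ∑ b ≤ min a 864}`; `b_j = m0 + b'_j`: `#{b' ∈ ℕ³ : ∑ b' ≤ s}` with `s = min a 864 - 3 m0` (if `≥ 0`) `= C(s+3, 3)`.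
`cnt3`: `#{b ∈ ℕ³ : ∑ b = s, all b_j ≥ m0} = C(s + 2 - 3m0, 2)`; `cnt3'` the sum over `s`.  (All `b_j < 900` automatically.)  Proof: `Finset.Nat.antidiagonal`/stars and bars: `Finset.card_piAntidiag`? or an explicit double sum over
`b_0`, `b_1`: `∑_{b_0 ≤ s} (s - b_0 + 1)`.
`lineB`, `lineR`: every sum over `b ∈ BQ` (`BR`) and `x < lenr b` of a function of `a = ∑ b + x` (and `x`) is sorted by `a` (`Finset.sum_fiberwise`, or `sum_comm'`).
-/

set_option autoImplicit false

open Finset Filter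

open scoped ArithmeticFunction.Moebius

namespace Pool.Agent.Lib.MP_092512_nt.RT

open Pool.Agent.Lib.SW Pool.Agent.Lib.MP_092512_nt.P3

def NN (a k : ℕ) : ℕ := Nat.choose (min a 864 + 3 - 3 * (a + k - 864)) 3

def N2 (a x : ℕ) : ℕ := Nat.choose (a - x + 2 - 3 * (a - 864)) 2

private theorem ECnt_range (t : ℕ) : ∑ n ∈ range (t + 1), (n + 1) = Nat.choose (t + 2) 2 := by
  induction t with
  | zero => simp
  | succ t ih =>
    rw [sum_range_succ, ih, Nat.choose_succ_succ' (t + 2) 1, Nat.choose_one_right]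
    ring

private theorem ECnt_pairs (t : ℕ) :
    ((range (t + 1) ×ˢ range (t + 1)).filter (fun q : ℕ × ℕ => q.1 + q.2 ≤ t)).card = Nat.choose (t + 2) 2 := by
  rw [← ECnt_range]
  rw [Finset.card_eq_sum_card_fiberwise (f := fun q : ℕ × ℕ => q.1 + q.2) (t := range (t + 1))]
  · refine sum_congr rfl fun n hn => ?_
    rw [mem_range] at hn
    rw [← Finset.Nat.card_antidiagonal n]
    refine congrArg Finset.card ?_
    ext q
    rw [mem_filter, mem_filter, mem_product, mem_range, mem_range, Finset.HasAntidiagonal.mem_antidiagonal]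
    omega
  · intro q hq
    rw [Finset.mem_coe, mem_filter] at hq
    rw [Finset.mem_coe, mem_range]
    show q.1 + q.2 < t + 1
    omega

private theorem ECnt_c3 (M s m0 : ℕ) (hs : s < M) :
    ((Fintype.piFinset (fun _ : Fin 3 => range M)).filter (fun b => ∑ j, b j = s ∧ ∀ j, m0 ≤ b j)).card =
      Nat.choose (s + 2 - 3 * m0) 2 := by
  by_cases h : 3 * m0 ≤ s
  · obtain ⟨t, rfl⟩ : ∃ t, s = t + 3 * m0 := ⟨s - 3 * m0, by omega⟩
    rw [show t + 3 * m0 + 2 - 3 * m0 = t + 2 by omega, ← ECnt_pairs]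
    refine Finset.card_nbij' (fun b => (b 0 - m0, b 1 - m0))
      (fun q => ![q.1 + m0, q.2 + m0, t + 3 * m0 - (q.1 + m0) - (q.2 + m0)]) ?_ ?_ ?_ ?_
    · intro b hb
      rw [Finset.mem_coe, mem_filter, Fin.sum_univ_three] at hb
      obtain ⟨-, h1, h2⟩ := hb
      have h3 := h2 0
      have h4 := h2 1
      have h5 := h2 2
      rw [Finset.mem_coe, mem_filter, mem_product, mem_range, mem_range]
      simp only
      omega
    · intro q hq
      rw [Finset.mem_coe, mem_filter, mem_product, mem_range, mem_range] at hq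
      obtain ⟨⟨h1, h2⟩, h3⟩ := hq
      rw [Finset.mem_coe, mem_filter, Fintype.mem_piFinset, Fin.sum_univ_three]
      simp only [mem_range, Fin.forall_fin_succ, Fin.isValue, Matrix.cons_val_zero, Matrix.cons_val_one,
        Matrix.cons_val, Fin.succ_zero_eq_one, Fin.succ_one_eq_two, IsEmpty.forall_iff, and_true]
      omega
    · intro b hb
      rw [Finset.mem_coe, mem_filter, Fin.sum_univ_three] at hb
      obtain ⟨-, h1, h2⟩ := hb
      have h3 := h2 0
      have h4 := h2 1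
      have h5 := h2 2
      funext j
      fin_cases j
      · show b 0 - m0 + m0 = b 0
        omega
      · show b 1 - m0 + m0 = b 1
        omega
      · show t + 3 * m0 - (b 0 - m0 + m0) - (b 1 - m0 + m0) = b 2
        omega
    · intro q hq
      show (q.1 + m0 - m0, q.2 + m0 - m0) = q
      rw [Nat.add_sub_cancel, Nat.add_sub_cancel]
  · rw [Nat.choose_eq_zero_of_lt (by omega), Finset.card_eq_zero]
    refine Finset.filter_eq_empty_iff.2 fun b _ hb => ?_
    rw [Fin.sum_univ_three] at hb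
    obtain ⟨h1, h2⟩ := hb
    have h3 := h2 0
    have h4 := h2 1
    have h5 := h2 2
    omega

/-- triples with given sum and minimum `≥ m0` -/
theorem cnt3 (s m0 : ℕ) (hs : s < 900) :
    ((Fintype.piFinset (fun _ : Fin 3 => range 900)).filter (fun b => ∑ j, b j = s ∧ ∀ j, m0 ≤ b j)).card =
      Nat.choose (s + 2 - 3 * m0) 2 :=
  ECnt_c3 900 s m0 hs

private theorem ECnt_sum (m0 : ℕ) : ∀ s : ℕ,
    ∑ n ∈ range (s + 1), Nat.choose (n + 2 - 3 * m0) 2 = Nat.choose (s + 3 - 3 * m0) 3 := by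
  intro s
  induction s with
  | zero =>
    rcases Nat.eq_zero_or_pos m0 with h | h
    · subst h
      simp
    · rw [sum_range_one, Nat.choose_eq_zero_of_lt (by omega), Nat.choose_eq_zero_of_lt (by omega)]
  | succ s ih =>
    rw [sum_range_succ, ih]
    by_cases h : 3 * m0 ≤ s + 3
    · rw [show s + 1 + 3 - 3 * m0 = (s + 3 - 3 * m0) + 1 by omega, Nat.choose_succ_succ' _ 2,
        show s + 1 + 2 - 3 * m0 = s + 3 - 3 * m0 by omega]
      ring
    · rw [Nat.choose_eq_zero_of_lt (by omega), Nat.choose_eq_zero_of_lt (by omega),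
        Nat.choose_eq_zero_of_lt (by omega)]

private theorem ECnt_c3' (M s m0 : ℕ) (hs : s < M) :
    ((Fintype.piFinset (fun _ : Fin 3 => range M)).filter (fun b => ∑ j, b j ≤ s ∧ ∀ j, m0 ≤ b j)).card =
      Nat.choose (s + 3 - 3 * m0) 3 := by
  rw [← ECnt_sum]
  rw [Finset.card_eq_sum_card_fiberwise (f := fun b : Fin 3 → ℕ => ∑ j, b j) (t := range (s + 1))]
  · refine sum_congr rfl fun n hn => ?_
    rw [mem_range] at hn
    rw [← ECnt_c3 M n m0 (by omega)]
    refine congrArg Finset.card ?_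
    ext b
    rw [mem_filter, mem_filter, mem_filter]
    constructor
    · rintro ⟨⟨h1, -, h2⟩, h3⟩
      exact ⟨h1, h3, h2⟩
    · rintro ⟨h1, h2, h3⟩
      exact ⟨⟨h1, by omega, h3⟩, h2⟩
  · intro b hb
    rw [Finset.mem_coe, mem_filter] at hb
    rw [Finset.mem_coe, mem_range]
    show ∑ j, b j < s + 1
    omega

/-- triples with sum `≤ s` and minimum `≥ m0` -/
theorem cnt3' (s m0 : ℕ) (hs : s < 900) :
    ((Fintype.piFinset (fun _ : Fin 3 => range 900)).filter (fun b => ∑ j, b j ≤ s ∧ ∀ j, m0 ≤ b j)).card =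
      Nat.choose (s + 3 - 3 * m0) 3 :=
  ECnt_c3' 900 s m0 hs

private theorem ECnt_len (b : Fin 3 → ℕ) (x k : ℕ) (hx : x + k < 933) : x + k < lenr b ↔
    (∑ j, b j + x) + k < 933 ∧ ∀ j, (∑ j, b j + x) + k - 864 ≤ b j := by
  rw [Fin.forall_fin_succ, Fin.forall_fin_succ, Fin.forall_fin_succ]
  unfold lenr mnr
  rw [Fin.sum_univ_three]
  simp only [Fin.succ_zero_eq_one, Fin.succ_one_eq_two, IsEmpty.forall_iff, and_true]
  omega

theorem lineB (k : ℕ) (F : ℕ → ℝ) :
    ∑ b ∈ BQ, ∑ x ∈ (range (lenr b)).filter (fun x => x + k < lenr b), F (∑ j, b j + x) =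
      ∑ a ∈ range (933 - k), F a * (NN a k : ℝ) := by
  have h1 : ∀ b ∈ BQ, ∑ x ∈ (range (lenr b)).filter (fun x => x + k < lenr b), F (∑ j, b j + x) =
      ∑ a ∈ range (933 - k), if (∑ j, b j ≤ a ∧ ∀ j, a + k - 864 ≤ b j) then F a else 0 := by
    intro b _
    rw [← Finset.sum_filter]
    refine Finset.sum_nbij' (fun x => ∑ j, b j + x) (fun a => a - ∑ j, b j) ?_ ?_ ?_ ?_ ?_
    · intro x hx
      rw [mem_filter, mem_range] at hx
      have h2 : lenr b ≤ 933 := by
        unfold lenr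
        omega
      obtain ⟨h3, h4⟩ := (ECnt_len b x k (by omega)).1 hx.2
      rw [mem_filter, mem_range]
      exact ⟨by omega, by omega, h4⟩
    · intro a ha
      rw [mem_filter, mem_range] at ha
      obtain ⟨h2, h3, h4⟩ := ha
      have h5 : ∑ j, b j + (a - ∑ j, b j) = a := by omega
      have h6 : (a - ∑ j, b j) + k < lenr b := by
        refine (ECnt_len b _ k (by omega)).2 ?_
        rw [h5]
        exact ⟨by omega, h4⟩
      rw [mem_filter, mem_range]
      exact ⟨by omega, h6⟩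
    · intro x _
      show ∑ j, b j + x - ∑ j, b j = x
      omega
    · intro a ha
      rw [mem_filter, mem_range] at ha
      show ∑ j, b j + (a - ∑ j, b j) = a
      omega
    · intro x _
      rfl
  rw [sum_congr rfl h1, sum_comm]
  refine sum_congr rfl fun a ha => ?_
  rw [mem_range] at ha
  rw [← Finset.sum_filter, Finset.sum_const, nsmul_eq_mul, mul_comm]
  refine congrArg (fun n : ℕ => F a * (n : ℝ)) ?_
  unfold NN
  rw [← cnt3' (min a 864) (a + k - 864) (by omega)]
  refine congrArg Finset.card ?_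
  ext b
  rw [mem_filter, mem_filter, mem_BQ, Fintype.mem_piFinset]
  constructor
  · rintro ⟨⟨h2, h3⟩, h4, h5⟩
    exact ⟨fun j => mem_range.2 (h2 j), by omega, h5⟩
  · rintro ⟨h2, h3, h4⟩
    exact ⟨⟨fun j => mem_range.1 (h2 j), by omega⟩, by omega, h4⟩

theorem lineR (F : ℕ → ℕ → ℝ) :
    ∑ b ∈ BR, ∑ x ∈ range (lenr b), F (∑ j, b j + x) x =
      ∑ x ∈ range 865, ∑ a ∈ Ico x (min 933 (x + 631)), F a x * (N2 a x : ℝ) := by
  have h1 : ∀ b ∈ BR, ∑ x ∈ range (lenr b), F (∑ j, b j + x) x =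
      ∑ x ∈ range 865, if x < lenr b then F (∑ j, b j + x) x else 0 := by
    intro b _
    rw [← Finset.sum_filter]
    refine sum_congr ?_ fun _ _ => rfl
    ext x
    rw [mem_filter, mem_range, mem_range]
    have h2 : lenr b ≤ 865 := by
      unfold lenr
      omega
    omega
  rw [sum_congr rfl h1, sum_comm]
  refine sum_congr rfl fun x hx => ?_
  rw [mem_range] at hx
  rw [← Finset.sum_filter]
  have hl : ∀ b : Fin 3 → ℕ, x < lenr b ↔ (∑ j, b j + x) < 933 ∧ ∀ j, (∑ j, b j + x) - 864 ≤ b j :=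
    fun b => ECnt_len b x 0 (by omega)
  rw [← Finset.sum_fiberwise_of_maps_to (g := fun b : Fin 3 → ℕ => ∑ j, b j + x)
    (t := Ico x (min 933 (x + 631)))]
  · refine sum_congr rfl fun a ha => ?_
    rw [mem_Ico] at ha
    have h2 : ∀ b ∈ (BR.filter (fun b => x < lenr b)).filter (fun b => ∑ j, b j + x = a),
        F (∑ j, b j + x) x = F a x := by
      intro b hb
      rw [(mem_filter.1 hb).2]
    rw [sum_congr rfl h2, Finset.sum_const, nsmul_eq_mul, mul_comm]
    refine congrArg (fun n : ℕ => F a x * (n : ℝ)) ?_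
    unfold N2
    rw [← cnt3 (a - x) (a - 864) (by omega)]
    refine congrArg Finset.card ?_
    ext b
    rw [mem_filter, mem_filter, mem_filter, mem_BR, Fintype.mem_piFinset, hl b]
    constructor
    · rintro ⟨⟨⟨h3, h4⟩, h5, h6⟩, h7⟩
      rw [h7] at h6
      exact ⟨fun j => mem_range.2 (h3 j), by omega, h6⟩
    · rintro ⟨h3, h4, h5⟩
      have h6 : ∑ j, b j + x = a := by omega
      rw [h6]
      exact ⟨⟨⟨fun j => mem_range.1 (h3 j), by omega⟩, by omega, h5⟩, rfl⟩
  · intro b hb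
    rw [mem_filter, mem_BR, hl b] at hb
    rw [mem_Ico]
    omega

end Pool.Agent.Lib.MP_092512_nt.RT
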