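import Pool.Agent.Lib.MP_092512_nt.RT.Defs

/-!
# E: natural number functions for the kernel computations

`fn = fz`, `c6 n = 6 C(n, 3)`, `c2 n = 2 C(n, 2)`, `sk k n = 6 ∑_{a < n} f(a+k) (2 f(a) - f(a+k)) NN a k`,
`wsum k₀ n = ∑_{i < n} omn (k₀+i) sk (k₀+i)`, `u2 x = 2 UX x`, `gl` the weighted sum of the `u2 x`.
-/

set_option autoImplicit false

open Finset

namespace Pool.Agent.Lib.MP_092512_nt.RT

def fn (a : ℕ) : ℕ :=
  Nat.sub (Nat.add (Nat.mul (Nat.add a 2) (Nat.add a 2)) 1125000) (Nat.mul 2113 (Nat.add a 2))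

def c6 (n : ℕ) : ℕ := Nat.mul (Nat.mul n (Nat.sub n 1)) (Nat.sub n 2)

def c2 (n : ℕ) : ℕ := Nat.mul n (Nat.sub n 1)

def mn (a : ℕ) : ℕ := Nat.sub a (Nat.sub a 864)

def trm (k a : ℕ) : ℕ :=
  Nat.mul (Nat.mul (fn (Nat.add a k)) (Nat.sub (Nat.mul 2 (fn a)) (fn (Nat.add a k))))
    (c6 (Nat.sub (Nat.add (mn a) 3) (Nat.mul 3 (Nat.sub (Nat.add a k) 864))))

noncomputable def sk (k n : ℕ) : ℕ := Nat.rec 0 (fun a ih => Nat.add ih (trm k a)) n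

/-- `10⁹ omu k`, rounded up -/
def omn (k : ℕ) : ℕ :=
  cond (Nat.beq k 1) 1385407837 (cond (Nat.beq k 1128) 132
    (Nat.sub (Nat.add (Nat.add (Nat.add (Nat.div 1000000000 k) 1)
      (Nat.add (Nat.div 1000000000 (Nat.mul 6 (Nat.mul (Nat.mul k k) k))) 1))
      (Nat.add (Nat.div 1000000000 (Nat.mul 15 (Nat.mul (Nat.mul (Nat.mul k k) (Nat.mul k k)) (Nat.sub k 1)))) 1))
      886524))

noncomputable def wsum (k0 n : ℕ) : ℕ :=
  Nat.rec 0 (fun i ih => Nat.add ih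
    (Nat.mul (omn (Nat.add k0 i)) (sk (Nat.add k0 i) (Nat.sub 933 (Nat.add k0 i))))) n

noncomputable def osum (n : ℕ) : ℕ := Nat.rec 0 (fun i ih => Nat.add ih (omn (Nat.add 1 i))) n

noncomputable def nsum (n : ℕ) : ℕ :=
  Nat.rec 0 (fun a ih => Nat.add ih (Nat.mul (Nat.mul (fn a) (fn a))
    (c6 (Nat.sub (Nat.add (mn a) 3) (Nat.mul 3 (Nat.sub a 864)))))) n

/-- `10⁹ wj j`, rounded down -/
def wz (j : ℕ) : ℕ :=
  Nat.sub (Nat.sub 2659583333 (Nat.div 300001000000000 (Nat.sub 300001 (Nat.mul 100 j)))) 1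

def tz (j : ℕ) : ℕ := Nat.add (wz j) (wz (Nat.add j 1))

noncomputable def u2 (x n : ℕ) : ℕ :=
  Nat.rec 0 (fun i ih => Nat.add ih (Nat.mul (Nat.mul (fn (Nat.add x i)) (fn (Nat.add x i)))
    (c2 (Nat.sub (Nat.add i 2) (Nat.mul 3 (Nat.sub (Nat.add x i) 864)))))) n

/-- the number of terms of `UX x` -/
def cn (x : ℕ) : ℕ := Nat.sub 631 (Nat.sub 631 (Nat.sub 933 x))

noncomputable def gl (x0 n : ℕ) : ℕ → ℕ :=
  Nat.rec (fun _ => 0) (fun m ih g =>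
    Nat.add (Nat.mul g (u2 (Nat.add x0 m) (cn (Nat.add x0 m)))) (ih (Nat.add g (tz (Nat.add x0 m))))) n

noncomputable def gs (x n : ℕ) : ℕ := Nat.rec 0 (fun i ih => Nat.add ih (tz (Nat.add x i))) n

/-- `6 RZ n` -/
def r6 (n : ℕ) : ℕ :=
  Nat.sub (Nat.add (Nat.add (Nat.mul (Nat.mul (Nat.add n 1) (Nat.add n 2)) (Nat.add (Nat.mul 2 n) 3))
    (Nat.mul 6750000 n)) 12672) (Nat.mul 6339 (Nat.mul (Nat.add n 1) (Nat.add n 2)))

def sqn (n : ℕ) : ℕ := Nat.mul n n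

noncomputable def pin1 (t y n : ℕ) : ℕ :=
  Nat.rec 0 (fun r ih => Nat.add ih (Nat.mul (Nat.mul 3 (Nat.add r 1))
    (sqn (Nat.sub t (r6 (Nat.add y (Nat.add r 1))))))) n

noncomputable def pin (m n : ℕ) : ℕ :=
  Nat.rec 0 (fun i ih => Nat.add ih (Nat.add
    (sqn (Nat.sub (r6 (Nat.sub (Nat.add 865 (Nat.add m i)) (Nat.sub (Nat.add m i) 68)))
      (r6 (Nat.mul 3 (Nat.add m i)))))
    (pin1 (r6 (Nat.sub (Nat.add 865 (Nat.add m i)) (Nat.sub (Nat.add m i) 68))) (Nat.mul 3 (Nat.add m i))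
      (Nat.sub 630 (Nat.mul 3 (Nat.add m i)))))) n

end Pool.Agent.Lib.MP_092512_nt.RT
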