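import Pool.Agent.Lib.MP_092512_nt.RT.ESum
import Pool.Agent.Lib.MP_092512_nt.RT.EPf
import Pool.Agent.Lib.MP_092512_nt.RT.EN0

/-!
# E: the natural number functions and the sums of the certificate
-/

set_option autoImplicit false

open Finset

namespace Pool.Agent.Lib.MP_092512_nt.RT

theorem fn_eq (a : ℕ) : fz a = (fn a : ℤ) := by
  have h : 2113 * (a + 2) ≤ (a + 2) * (a + 2) + 1125000 := by
    zify
    nlinarith [sq_nonneg (2 * (a : ℤ) + 4 - 2113)]
  have e : fn a = (a + 2) * (a + 2) + 1125000 - 2113 * (a + 2) := rfl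
  rw [e, Nat.cast_sub h]
  unfold fz
  push_cast
  ring

theorem c6_eq (n : ℕ) : c6 n = 6 * Nat.choose n 3 := by
  have h := Nat.descFactorial_eq_factorial_mul_choose n 3
  have e : c6 n = n * (n - 1) * (n - 2) := rfl
  rw [e, show (6 : ℕ) = Nat.factorial 3 by rfl, ← h]
  simp only [Nat.descFactorial, mul_one, Nat.sub_zero]
  ring

theorem c2_eq (n : ℕ) : c2 n = 2 * Nat.choose n 2 := by
  have h := Nat.descFactorial_eq_factorial_mul_choose n 2
  have e : c2 n = n * (n - 1) := rfl
  have h2 : n.descFactorial 2 = n * (n - 1) := by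
    simp only [Nat.descFactorial, mul_one, Nat.sub_zero]
    ring
  rw [e, ← h2, h]
  rfl

theorem sk_succ (k n : ℕ) : sk k (n + 1) = sk k n + trm k n := rfl

theorem sk_sum (k n : ℕ) : sk k n = ∑ a ∈ range n, trm k a := by
  induction n with
  | zero => rfl
  | succ n ih => rw [sum_range_succ, ← ih]; rfl

theorem wsum_sum (k0 n : ℕ) : wsum k0 n = ∑ i ∈ range n, omn (k0 + i) * sk (k0 + i) (933 - (k0 + i)) := by
  induction n with
  | zero => rfl
  | succ n ih => rw [sum_range_succ, ← ih]; rfl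

theorem osum_sum (n : ℕ) : osum n = ∑ i ∈ range n, omn (1 + i) := by
  induction n with
  | zero => rfl
  | succ n ih => rw [sum_range_succ, ← ih]; rfl

theorem gs_sum (x n : ℕ) : gs x n = ∑ i ∈ range n, tz (x + i) := by
  induction n with
  | zero => rfl
  | succ n ih => rw [sum_range_succ, ← ih]; rfl

theorem mn_eq (a : ℕ) : mn a = min a 864 := by
  have e : mn a = a - (a - 864) := rfl
  omega

theorem trm_eq (k a : ℕ) (h : a + k ≤ 932) :
    (trm k a : ℤ) = -(6 * (fz (a + k) * (fz (a + k) - 2 * fz a) * (NN a k : ℤ))) := by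
  have e : trm k a = fn (a + k) * (2 * fn a - fn (a + k)) * c6 (mn a + 3 - 3 * (a + k - 864)) := rfl
  have h1 : fn (a + k) ≤ 2 * fn a := by
    have h2 := fn_eq a
    have h3 := fn_eq (a + k)
    zify
    rw [← h2, ← h3]
    unfold fz
    push_cast
    have h4 : (a : ℤ) + k ≤ 932 := by exact_mod_cast h
    have h5 : (0 : ℤ) ≤ k := Int.natCast_nonneg k
    have h6 : (0 : ℤ) ≤ a := Int.natCast_nonneg a
    nlinarith [mul_nonneg h5 (sub_nonneg.mpr h4), mul_nonneg h5 h6, mul_nonneg h6 (sub_nonneg.mpr h4),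
      sq_nonneg (2 * (a : ℤ) + 4 - 2113)]
  rw [e, c6_eq, mn_eq]
  unfold NN
  push_cast [Nat.cast_sub h1]
  rw [fn_eq a, fn_eq (a + k)]
  ring

theorem TK_eq (k : ℕ) : 6 * TK k = 6 * NRM - (sk k (933 - k) : ℤ) := by
  unfold TK
  rw [sk_sum, Nat.cast_sum, mul_add, mul_sum, sub_eq_add_neg, ← sum_neg_distrib]
  refine congrArg _ (sum_congr rfl fun a ha => ?_)
  have := mem_range.mp ha
  rw [trm_eq k a (by omega)]
  ring

theorem NRM_eq : 6 * NRM = (nsum 933 : ℤ) := by
  have h : ∀ n, nsum n = ∑ a ∈ range n, fn a * fn a * c6 (mn a + 3 - 3 * (a - 864)) := by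
    intro n
    induction n with
    | zero => rfl
    | succ n ih => rw [sum_range_succ, ← ih]; rfl
  unfold NRM
  rw [h, Nat.cast_sum, mul_sum]
  refine sum_congr rfl fun a _ => ?_
  rw [fn_eq, c6_eq, mn_eq]
  unfold NN
  rw [Nat.add_zero]
  push_cast
  ring

theorem UX_eq (x : ℕ) (hx : x < 933) : 2 * UX x = (u2 x (cn x) : ℤ) := by
  have h : ∀ n, u2 x n = ∑ i ∈ range n, fn (x + i) * fn (x + i) * c2 (i + 2 - 3 * (x + i - 864)) := by
    intro n
    induction n with
    | zero => rfl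
    | succ n ih => rw [sum_range_succ, ← ih]; rfl
  have e : cn x = min 933 (x + 631) - x := by
    have e1 : cn x = 631 - (631 - (933 - x)) := rfl
    omega
  unfold UX
  rw [h, e, sum_Ico_eq_sum_range, Nat.cast_sum, mul_sum]
  refine sum_congr rfl fun i _ => ?_
  rw [fn_eq, c2_eq]
  unfold N2
  rw [Nat.add_sub_cancel_left]
  push_cast
  ring

theorem RZ_eq (n : ℕ) : 6 * RZ n = (r6 n : ℤ) := by
  have h1 : ∀ m : ℕ, 6 * RZ m = ((m : ℤ) + 1) * (m + 2) * (2 * m + 3) + 6750000 * m + 12672 -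
      6339 * ((m + 1) * (m + 2)) := by
    intro m
    induction m with
    | zero => simp [RZ]
    | succ m ih =>
      have e : RZ (m + 1) = RZ m + fz m := by unfold RZ; rw [sum_range_succ]
      rw [e, mul_add, ih]
      unfold fz
      push_cast
      ring
  have h2 : 0 ≤ RZ n := sum_nonneg fun a _ => by rw [fn_eq]; exact Int.natCast_nonneg _
  have h3 := h1 n
  have e : r6 n = (n + 1) * (n + 2) * (2 * n + 3) + 6750000 * n + 12672 - 6339 * ((n + 1) * (n + 2)) := rfl
  have h4 : 6339 * ((n + 1) * (n + 2)) ≤ (n + 1) * (n + 2) * (2 * n + 3) + 6750000 * n + 12672 := by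
    zify
    linarith
  rw [e, Nat.cast_sub h4, h3]
  push_cast
  ring

theorem RZ_mono {m n : ℕ} (h : m ≤ n) : RZ m ≤ RZ n := by
  unfold RZ
  exact sum_le_sum_of_subset_of_nonneg (range_mono h) fun a _ _ => by rw [fn_eq]; exact Int.natCast_nonneg _

theorem PIN_eq : 36 * PIN = (pin 0 211 : ℤ) := by
  have hp1 : ∀ t y n, pin1 t y n = ∑ r ∈ range n, 3 * (r + 1) * ((t - r6 (y + (r + 1))) * (t - r6 (y + (r + 1)))) := by
    intro t y n
    induction n with
    | zero => rfl
    | succ n ih => rw [sum_range_succ, ← ih]; rfl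
  have hp : ∀ m n, pin m n = ∑ i ∈ range n,
      ((r6 (865 + (m + i) - ((m + i) - 68)) - r6 (3 * (m + i))) * (r6 (865 + (m + i) - ((m + i) - 68)) - r6 (3 * (m + i))) +
        pin1 (r6 (865 + (m + i) - ((m + i) - 68))) (3 * (m + i)) (630 - 3 * (m + i))) := by
    intro m n
    induction n with
    | zero => rfl
    | succ n ih => rw [sum_range_succ, ← ih]; rfl
  unfold PIN
  rw [hp, Nat.cast_sum, mul_sum]
  refine sum_congr rfl fun m hm => ?_
  have hm' := mem_range.mp hm
  rw [zero_add, show 631 - 3 * m = (630 - 3 * m) + 1 by omega, sum_range_succ', mul_add, add_comm, Nat.cast_add]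
  have e : 865 + m - (m - 68) = min (865 + m) 933 := by omega
  rw [e]
  have hle : ∀ y, y ≤ 865 → r6 y ≤ r6 (min (865 + m) 933) := by
    intro y hy
    have h1 := RZ_mono (show y ≤ min (865 + m) 933 by omega)
    zify
    rw [← RZ_eq, ← RZ_eq]
    linarith
  have key : ∀ y, y ≤ 865 → ((r6 (min (865 + m) 933) - r6 y : ℕ) : ℤ) = 6 * (RZ (min (865 + m) 933) - RZ y) := by
    intro y hy
    rw [Nat.cast_sub (hle y hy), ← RZ_eq, ← RZ_eq]
    ring
  congr 1
  · rw [Nat.cast_mul, key _ (by omega)]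
    simp only [mul3, if_true, Nat.add_zero, Nat.cast_one, one_mul]
    ring
  · rw [hp1, Nat.cast_sum, mul_sum]
    refine sum_congr rfl fun r hr => ?_
    have hr' := mem_range.mp hr
    rw [Nat.cast_mul, Nat.cast_mul (r6 (min (865 + m) 933) - r6 (3 * m + (r + 1))), key _ (by omega)]
    simp only [mul3, Nat.add_eq_zero_iff, one_ne_zero, and_false, if_false]
    push_cast
    ring

end Pool.Agent.Lib.MP_092512_nt.RT
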