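import Pool.Agent.Lib.MP_092512_nt.RT.ECnt

/-!
# E: the sums of the certificate

PROOFS.  `sum_fcr`: `TR_sum 0`, `fcr (insr 0 x b) = fz (∑ b + x)`, `lineB 0`.  `sum_Dk` (`k ≥ 1`): in `Dk` the square is `f(a)²` if `x + k ≥ len` and `(f(a) - f(a+k))² = f(a)² + f(a+k) (f(a+k) - 2 f(a))` if
`x + k < len`, `a = ∑ b + x`: `lineB 0` for the first part, `lineB k` for the second.  `sum_g`: `lineR`.  `sum_P`: `∑_{x < lenr b} fz (∑ b + x) = RZ (∑ b + lenr b) - RZ (∑ b)`, `RZ n = ∑_{a < n} fz a`; for `b ∈ BR` (`∑ b ≤ 630`)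
`∑ b + lenr b = min (865 + min b) 933`; sort the triples by minimum `m` and `∑ b = 3m + r`: there are `mul3 r` of them (`cnt3 (3m+r) m - cnt3 (3m+r) (m+1)`).
-/

set_option autoImplicit false

open Finset Filter

open scoped ArithmeticFunction.Moebius

namespace Pool.Agent.Lib.MP_092512_nt.RT

open Pool.Agent.Lib.SW Pool.Agent.Lib.MP_092512_nt.P3

def NRM : ℤ := ∑ a ∈ range 933, fz a ^ 2 * (NN a 0 : ℤ)

def TK (k : ℕ) : ℤ :=
  NRM + ∑ a ∈ range (933 - k), fz (a + k) * (fz (a + k) - 2 * fz a) * (NN a k : ℤ)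

def UX (x : ℕ) : ℤ := ∑ a ∈ Ico x (min 933 (x + 631)), fz a ^ 2 * (N2 a x : ℤ)

def RZ (n : ℕ) : ℤ := ∑ a ∈ range n, fz a

def mul3 (r : ℕ) : ℕ := if r = 0 then 1 else 3 * r

def PIN : ℤ := ∑ m ∈ range 211, ∑ r ∈ range (631 - 3 * m),
  (mul3 r : ℤ) * (RZ (min (865 + m) 933) - RZ (3 * m + r)) ^ 2

private theorem ESum_fcr0 (b : Fin 3 → ℕ) (x : ℕ) : fcr (insr 0 x b) = (fz (∑ j, b j + x) : ℝ) := by
  unfold fcr insr
  rw [Fin.sum_univ_succAbove _ (0 : Fin 4)]
  simp only [Fin.insertNth_apply_same, Fin.insertNth_apply_succAbove]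
  rw [add_comm]

private theorem ESum_filter0 (n : ℕ) : (range n).filter (fun x => x + 0 < n) = range n := by
  refine Finset.filter_true_of_mem fun x hx => ?_
  rw [mem_range] at hx
  omega

private theorem ESum_line0 : ∑ b ∈ BQ, ∑ x ∈ range (lenr b), (fz (∑ j, b j + x) : ℝ) ^ 2 =
    ((NRM : ℤ) : ℝ) := by
  have h := lineB 0 (fun a => (fz a : ℝ) ^ 2)
  simp only [ESum_filter0] at h
  rw [h, Nat.sub_zero]
  unfold NRM
  push_cast
  rfl

theorem sum_fcr : ∑ c ∈ TR, fcr c ^ 2 = ((NRM : ℤ) : ℝ) := by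
  rw [TR_sum 0, ← ESum_line0]
  simp only [ESum_fcr0]

private theorem ESum_Dk (len k S : ℕ) : Dk len (vz S) k =
    ∑ x ∈ range len, (fz (S + x) : ℝ) ^ 2 +
      ∑ x ∈ (range len).filter (fun x => x + k < len),
        (fz (S + x + k) : ℝ) * ((fz (S + x + k) : ℝ) - 2 * (fz (S + x) : ℝ)) := by
  unfold Dk vz
  rw [Finset.sum_filter, ← Finset.sum_add_distrib]
  refine sum_congr rfl fun x _ => ?_
  rw [show S + (x + k) = S + x + k by ring]
  split_ifs
  · ring
  · ring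

theorem sum_Dk (k : ℕ) (hk : 1 ≤ k) :
    ∑ b ∈ BQ, Dk (lenr b) (vz (∑ j, b j)) k = ((TK k : ℤ) : ℝ) := by
  have _ := hk
  simp only [ESum_Dk]
  rw [Finset.sum_add_distrib, ESum_line0,
    lineB k (fun a => (fz (a + k) : ℝ) * ((fz (a + k) : ℝ) - 2 * (fz a : ℝ)))]
  unfold TK
  push_cast
  rfl

theorem sum_g (g : ℕ → ℝ) :
    ∑ b ∈ BR, ∑ x ∈ range (lenr b), g x * vz (∑ j, b j) x ^ 2 = ∑ x ∈ range 865, g x * ((UX x : ℤ) : ℝ) := by
  have h := lineR (fun a x => g x * (fz a : ℝ) ^ 2)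
  unfold vz
  rw [h]
  refine sum_congr rfl fun x _ => ?_
  unfold UX
  push_cast
  rw [Finset.mul_sum]
  refine sum_congr rfl fun a _ => ?_
  ring

private theorem ESum_cnt (m r : ℕ) (hs : 3 * m + r < 900) :
    ((Fintype.piFinset (fun _ : Fin 3 => range 900)).filter
      (fun b => ∑ j, b j = 3 * m + r ∧ mnr b = m)).card = mul3 r := by
  have h1 := cnt3 (3 * m + r) m hs
  have h2 := cnt3 (3 * m + r) (m + 1) hs
  generalize (Fintype.piFinset (fun _ : Fin 3 => range 900)) = P at h1 h2 ⊢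
  have h3 := Finset.card_filter_add_card_filter_not
    (s := P.filter (fun b => ∑ j, b j = 3 * m + r ∧ ∀ j, m ≤ b j)) (fun b => ∀ j, m + 1 ≤ b j)
  have h4 : (P.filter (fun b => ∑ j, b j = 3 * m + r ∧ ∀ j, m ≤ b j)).filter
      (fun b => ∀ j, m + 1 ≤ b j) =
      P.filter (fun b => ∑ j, b j = 3 * m + r ∧ ∀ j, m + 1 ≤ b j) := by
    ext b
    rw [mem_filter, mem_filter, mem_filter]
    constructor
    · rintro ⟨⟨h5, h6, -⟩, h7⟩
      exact ⟨h5, h6, h7⟩
    · rintro ⟨h5, h6, h7⟩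
      exact ⟨⟨h5, h6, fun j => (Nat.le_succ m).trans (h7 j)⟩, h7⟩
  have h5 : (P.filter (fun b => ∑ j, b j = 3 * m + r ∧ ∀ j, m ≤ b j)).filter
      (fun b => ¬ ∀ j, m + 1 ≤ b j) =
      P.filter (fun b => ∑ j, b j = 3 * m + r ∧ mnr b = m) := by
    ext b
    rw [mem_filter, mem_filter, mem_filter]
    unfold mnr
    rw [Fin.forall_fin_succ, Fin.forall_fin_succ, Fin.forall_fin_succ, Fin.forall_fin_succ,
      Fin.forall_fin_succ, Fin.forall_fin_succ]
    simp only [Fin.succ_zero_eq_one, Fin.succ_one_eq_two, IsEmpty.forall_iff, and_true]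
    constructor
    · rintro ⟨⟨h5, h6, h7⟩, h8⟩
      exact ⟨h5, h6, by omega⟩
    · rintro ⟨h5, h6, h7⟩
      exact ⟨⟨h5, h6, by omega⟩, by omega⟩
  rw [h4, h5, h1, h2] at h3
  unfold mul3
  rcases Nat.eq_zero_or_pos r with hr | hr
  · subst hr
    rw [show 3 * m + 0 + 2 - 3 * (m + 1) = 0 by omega, show 3 * m + 0 + 2 - 3 * m = 2 by omega] at h3
    simp at h3
    simp [h3]
  · obtain ⟨t, rfl⟩ : ∃ t, r = t + 1 := ⟨r - 1, by omega⟩
    rw [show 3 * m + (t + 1) + 2 - 3 * (m + 1) = t by omega,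
      show 3 * m + (t + 1) + 2 - 3 * m = t + 3 by omega] at h3
    rw [if_neg (by omega)]
    have h6 : Nat.choose (t + 3) 2 = Nat.choose t 2 + 3 * (t + 1) := by
      rw [Nat.choose_succ_succ' (t + 2) 1, Nat.choose_succ_succ' (t + 1) 1, Nat.choose_succ_succ' t 1]
      simp only [Nat.choose_one_right]
      ring
    omega

private theorem ESum_tel (S n : ℕ) : ∑ x ∈ range n, vz S x = ((RZ (S + n) - RZ S : ℤ) : ℝ) := by
  unfold RZ
  rw [Finset.sum_range_add_sub_sum_range]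
  unfold vz
  push_cast
  rfl

theorem sum_P : ∑ b ∈ BR, (∑ x ∈ range (lenr b), vz (∑ j, b j) x) ^ 2 = ((PIN : ℤ) : ℝ) := by
  have h1 : ∀ b ∈ BR, (∑ x ∈ range (lenr b), vz (∑ j, b j) x) ^ 2 =
      (((RZ (min (865 + mnr b) 933) - RZ (∑ j, b j)) ^ 2 : ℤ) : ℝ) := by
    intro b hb
    rw [mem_BR] at hb
    rw [ESum_tel]
    have h2 : ∑ j, b j + lenr b = min (865 + mnr b) 933 := by
      have h3 := hb.2
      unfold lenr mnr
      rw [Fin.sum_univ_three] at h3 ⊢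
      omega
    rw [h2]
    push_cast
    rfl
  rw [sum_congr rfl h1]
  rw [← Finset.sum_fiberwise_of_maps_to (g := fun b : Fin 3 → ℕ => mnr b) (t := range 211)]
  · unfold PIN
    push_cast
    refine sum_congr rfl fun m hm => ?_
    rw [mem_range] at hm
    rw [← Finset.sum_fiberwise_of_maps_to (g := fun b : Fin 3 → ℕ => ∑ j, b j - 3 * m)
      (t := range (631 - 3 * m))]
    · refine sum_congr rfl fun r hr => ?_
      rw [mem_range] at hr
      have h2 : ∀ b ∈ (BR.filter (fun b => mnr b = m)).filter (fun b => ∑ j, b j - 3 * m = r),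
          ((RZ (min (865 + mnr b) 933) : ℝ) - RZ (∑ j, b j)) ^ 2 =
            ((RZ (min (865 + m) 933) : ℝ) - RZ (3 * m + r)) ^ 2 := by
        intro b hb
        rw [mem_filter, mem_filter] at hb
        obtain ⟨⟨-, h3⟩, h4⟩ := hb
        have h5 : ∑ j, b j = 3 * m + r := by
          unfold mnr at h3
          rw [Fin.sum_univ_three] at h4 ⊢
          omega
        rw [h3, h5]
      rw [sum_congr rfl h2, Finset.sum_const, nsmul_eq_mul]
      refine congrArg (fun n : ℕ => (n : ℝ) * ((RZ (min (865 + m) 933) : ℝ) - RZ (3 * m + r)) ^ 2) ?_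
      rw [← ESum_cnt m r (by omega)]
      refine congrArg Finset.card ?_
      ext b
      rw [mem_filter, mem_filter, mem_filter, mem_BR, Fintype.mem_piFinset]
      constructor
      · rintro ⟨⟨⟨h3, h4⟩, h5⟩, h6⟩
        refine ⟨fun j => mem_range.2 (h3 j), ?_, h5⟩
        unfold mnr at h5
        rw [Fin.sum_univ_three] at h6 ⊢
        omega
      · rintro ⟨h3, h4, h5⟩
        exact ⟨⟨⟨fun j => mem_range.1 (h3 j), by omega⟩, h5⟩, by omega⟩
    · intro b hb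
      rw [mem_filter, mem_BR] at hb
      rw [mem_range]
      obtain ⟨⟨-, h3⟩, h4⟩ := hb
      unfold mnr at h4
      rw [Fin.sum_univ_three] at h3
      show ∑ j, b j - 3 * m < 631 - 3 * m
      rw [Fin.sum_univ_three]
      omega
  · intro b hb
    rw [mem_BR] at hb
    rw [mem_range]
    obtain ⟨-, h3⟩ := hb
    rw [Fin.sum_univ_three] at h3
    show mnr b < 211
    unfold mnr
    omega

end Pool.Agent.Lib.MP_092512_nt.RT
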