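import Pool.Agent.Lib.MP_092512_nt.RT.AYeq

/-!
# F: the bracket

PROOFS.  Let `n ∈ NR`, `m = n + h_i ∈ (x, 3x]` (`h_i ≤ x`), all prime factors of `m` are `> z`, so `8 ws + wm` is `8` for `p ≤ x^δ`, `1 - lg p/ur` for `x^δ < p ≤ x^ur`, `0` for larger `p`.
`om_le`: `∑_{p ∣ m} lg p ≤ log m/log x ≤ 1 + log 3/log x`, so with `e = log 3/(ur log x)`:
`1/ur + e + ∑_{p ≤ x^ur} (1 - lg p/ur) ≥ ∑_{p ∣ m} lg p/ur + ∑_{p ≤ x^ur}(1 - lg p/ur) = ω(m) + ∑_{p > x^ur} (lg p/ur - 1)`, and `GG m ≤ ∑_{p ∣ m, p > x^ur} (lg p/ur - 1)`: if `Gs (m/p)`, then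
`p ≥ x/(m/p) ≥ x^ur`.. (strictly `>` as `m > x`), `1 - lg (m/p) ≤ lg p` (as `lg m ≥ 1`), the quotient of logarithms is in `[0, 1]`.  So
`ω(m) + 7 #{p ∣ m : p ≤ x^δ} ≤ 1/ur + 8 ps ws + ps wm - GG m + e`.
`BK_le`: sum over `i` (`4 e ≤ ε` for large `x`): `BK ≤ 11 - ∑_i (ω(m_i) + 7 s_i)`, `ω(m_i) ≥ 1`.
-/

set_option autoImplicit false

open Finset Filter

open scoped ArithmeticFunction.Moebius

namespace Pool.Agent.Lib.MP_092512_nt.RT

open Pool.Agent.Lib.SW Pool.Agent.Lib.MP_092512_nt.P3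

private theorem FBr_ur : 0 < ur ∧ ur < 1 := by
  unfold ur
  norm_num

private theorem FBr_er : 0 < er ∧ er / 2 < ur := by
  unfold ur er
  norm_num

/-- the term of `GG` -/
private theorem FBr_term (δ : ℝ) (hδ1 : δ ≤ er / 2) (x z m : ℕ) (hx : 3 ≤ x) (h1 : x < m)
    (h2 : m ≤ 3 * x) (h3 : Nat.Coprime m (primorial z)) (p : ℕ) (hp : p ∈ m.primeFactors) (g : ℝ)
    (hg : g = 0 ∨ (Gs x δ (m / p) ∧
      g = wt (lg x (m / p)) * (Real.log p / Real.log (3 * x / ((m / p : ℕ) : ℝ))))) :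
    1 + 7 * (if (p : ℝ) ≤ (x : ℝ) ^ δ then 1 else 0) ≤
      lg x p / ur + (8 * ws x z δ p + wm x δ p) - g := by
  classical
  obtain ⟨hu0, hu1⟩ := FBr_ur
  obtain ⟨he0, he1⟩ := FBr_er
  have hx1 : (1 : ℝ) < x := by
    have : (3 : ℝ) ≤ x := by exact_mod_cast hx
    linarith
  have hx0 : (0 : ℝ) < x := by linarith
  have hl : 0 < Real.log x := Real.log_pos hx1
  have hpp := Nat.prime_of_mem_primeFactors hp
  have hpd := Nat.dvd_of_mem_primeFactors hp
  have hp0 : (0 : ℝ) < p := by exact_mod_cast hpp.pos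
  have hp1 : (1 : ℝ) ≤ p := by exact_mod_cast hpp.one_lt.le
  have hz : z < p := by
    by_contra hc
    have h4 : p ∣ primorial z := (hpp.dvd_primorial_iff).mpr (by omega)
    have h5 := Nat.dvd_gcd hpd h4
    rw [h3] at h5
    exact hpp.one_lt.ne' (Nat.dvd_one.mp h5)
  have hlg0 : 0 ≤ lg x p := by
    unfold lg
    exact div_nonneg (Real.log_nonneg hp1) hl.le
  have hab : p * (m / p) = m := Nat.mul_div_cancel' hpd
  have ha0 : (0 : ℝ) < ((m / p : ℕ) : ℝ) := by
    have : 0 < m / p := Nat.div_pos (Nat.le_of_dvd (by omega) hpd) hpp.pos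
    exact_mod_cast this
  have habR : (p : ℝ) * ((m / p : ℕ) : ℝ) = m := by exact_mod_cast hab
  have hxm : (x : ℝ) < m := by exact_mod_cast h1
  have hm3 : (m : ℝ) ≤ 3 * x := by exact_mod_cast h2
  -- if the cofactor is in `Gs` then `p` is large
  have hbig : Gs x δ (m / p) → (x : ℝ) ^ ur < p := by
    intro hG
    have h4 := hG.2.2
    have h5 : (x : ℝ) ^ ur * (x : ℝ) ^ (1 - ur) = x := by
      rw [← Real.rpow_add hx0]
      rw [show ur + (1 - ur) = 1 by ring, Real.rpow_one]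
    have h6 : (0 : ℝ) < (x : ℝ) ^ (1 - ur) := Real.rpow_pos_of_pos hx0 _
    by_contra hc
    rw [not_lt] at hc
    have h7 : (p : ℝ) * ((m / p : ℕ) : ℝ) ≤ (x : ℝ) ^ ur * (x : ℝ) ^ (1 - ur) :=
      mul_le_mul hc h4 ha0.le (Real.rpow_nonneg hx0.le _)
    linarith
  have hmono : (x : ℝ) ^ δ < (x : ℝ) ^ ur := Real.rpow_lt_rpow_of_exponent_lt hx1 (by linarith)
  by_cases c1 : (p : ℝ) ≤ (x : ℝ) ^ δ
  · have hw1 : ws x z δ p = 1 := by
      unfold ws
      exact if_pos ⟨hz, c1⟩
    have hw2 : wm x δ p = 0 := by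
      unfold wm
      exact if_neg (fun h => absurd h.1 (not_lt.mpr c1))
    have hg0 : g = 0 := by
      rcases hg with h | h
      · exact h
      · have := hbig h.1
        linarith
    rw [if_pos c1, hw1, hw2, hg0]
    have : 0 ≤ lg x p / ur := div_nonneg hlg0 hu0.le
    linarith
  · have c1' := not_le.mp c1
    have hw1 : ws x z δ p = 0 := by
      unfold ws
      exact if_neg (fun h => c1 h.2)
    rw [if_neg c1, hw1]
    by_cases c2 : (p : ℝ) ≤ (x : ℝ) ^ ur
    · have hw2 : wm x δ p = 1 - lg x p / ur := by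
        unfold wm
        exact if_pos ⟨c1', c2⟩
      have hg0 : g = 0 := by
        rcases hg with h | h
        · exact h
        · have := hbig h.1
          linarith
      rw [hw2, hg0]
      linarith
    · have c2' := not_le.mp c2
      have hw2 : wm x δ p = 0 := by
        unfold wm
        exact if_neg (fun h => c2 h.2)
      rw [hw2]
      rcases hg with h | ⟨hG, hg⟩
      · rw [h]
        have h4 : ur ≤ lg x p := by
          unfold lg
          rw [le_div_iff₀ hl, ← Real.log_rpow hx0]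
          exact Real.log_le_log (Real.rpow_pos_of_pos hx0 _) c2'.le
        have h5 : 1 ≤ lg x p / ur := by
          rw [le_div_iff₀ hu0]
          linarith
        linarith
      · have h4 : lg x (m / p) ≤ 1 - ur := by
          have := hG.2.2
          unfold lg
          rw [div_le_iff₀ hl, ← Real.log_rpow hx0]
          exact Real.log_le_log ha0 this
        have h5 : 1 ≤ lg x (m / p) + lg x p := by
          unfold lg
          rw [← add_div, le_div_iff₀ hl, one_mul, ← Real.log_mul ha0.ne' hp0.ne', mul_comm, habR]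
          exact Real.log_le_log hx0 hxm.le
        have h6 : 0 ≤ wt (lg x (m / p)) := by
          unfold wt
          have : 1 ≤ (1 - lg x (m / p)) / ur := by
            rw [le_div_iff₀ hu0]
            linarith
          linarith
        have h7 : (p : ℝ) ≤ 3 * x / ((m / p : ℕ) : ℝ) := by
          rw [le_div_iff₀ ha0, habR]
          exact hm3
        have hp2 : (1 : ℝ) < p := by exact_mod_cast hpp.one_lt
        have h8 : Real.log p / Real.log (3 * x / ((m / p : ℕ) : ℝ)) ≤ 1 := by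
          rw [div_le_one (Real.log_pos (by linarith))]
          exact Real.log_le_log hp0 h7
        have h9 : g ≤ wt (lg x (m / p)) := by
          rw [hg]
          exact mul_le_of_le_one_right h6 h8
        have h10 : wt (lg x (m / p)) ≤ lg x p / ur - 1 := by
          unfold wt
          have : (1 - lg x (m / p)) / ur ≤ lg x p / ur :=
            div_le_div_of_nonneg_right (by linarith) hu0.le
          linarith
        linarith

theorem om_le (δ : ℝ) (hδ : 0 < δ) (hδ1 : δ ≤ er / 2) (x z m : ℕ) (hx : 3 ≤ x) (h1 : x < m) (h2 : m ≤ 3 * x)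
    (h3 : Nat.Coprime m (primorial z)) :
    (m.primeFactors.card : ℝ) + 7 * ((m.primeFactors.filter (fun p : ℕ => (p : ℝ) ≤ (x : ℝ) ^ δ)).card : ℝ) ≤
      1 / ur + (8 * ps (ws x z δ) m + ps (wm x δ) m) - GG x δ m + Real.log 3 / (ur * Real.log x) := by
  classical
  have _ := hδ
  obtain ⟨hu0, hu1⟩ := FBr_ur
  have hx1 : (1 : ℝ) < x := by
    have : (3 : ℝ) ≤ x := by exact_mod_cast hx
    linarith
  have hx0 : (0 : ℝ) < x := by linarith
  have hl : 0 < Real.log x := Real.log_pos hx1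
  have hm3 : (m : ℝ) ≤ 3 * x := by exact_mod_cast h2
  have hm0 : (0 : ℝ) < m := by
    have : 0 < m := by omega
    exact_mod_cast this
  have hlgs : ∑ p ∈ m.primeFactors, lg x p ≤ 1 + Real.log 3 / Real.log x := by
    have e1 : ∑ p ∈ m.primeFactors, lg x p = (∑ p ∈ m.primeFactors, Real.log p) / Real.log x := by
      rw [Finset.sum_div]
      rfl
    have e2 : ∑ p ∈ m.primeFactors, Real.log p = Real.log ((∏ p ∈ m.primeFactors, p : ℕ) : ℝ) := by
      rw [Nat.cast_prod, Real.log_prod]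
      intro p hp
      exact_mod_cast (Nat.prime_of_mem_primeFactors hp).ne_zero
    have e3 : (∏ p ∈ m.primeFactors, p) ≤ m := Nat.le_of_dvd (by omega) (Nat.prod_primeFactors_dvd m)
    have e4 : 0 < (∏ p ∈ m.primeFactors, p) :=
      Finset.prod_pos fun p hp => (Nat.prime_of_mem_primeFactors hp).pos
    have e5 : Real.log ((∏ p ∈ m.primeFactors, p : ℕ) : ℝ) ≤ Real.log (3 * x) := by
      refine Real.log_le_log (by exact_mod_cast e4) ?_
      refine le_trans ?_ hm3
      exact_mod_cast e3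
    rw [e1, e2, div_le_iff₀ hl]
    rw [Real.log_mul (by norm_num) hx0.ne'] at e5
    have e6 : (1 + Real.log 3 / Real.log x) * Real.log x = Real.log x + Real.log 3 := by
      field_simp
    linarith
  have hGG : GG x δ m = ∑ p ∈ m.primeFactors, if Gs x δ (m / p) then
      wt (lg x (m / p)) * (Real.log p / Real.log (3 * x / ((m / p : ℕ) : ℝ))) else 0 := by
    unfold GG
    rw [Finset.sum_filter]
  have hmain : ∑ p ∈ m.primeFactors, (1 + 7 * (if (p : ℝ) ≤ (x : ℝ) ^ δ then (1 : ℝ) else 0)) ≤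
      ∑ p ∈ m.primeFactors, (lg x p / ur + (8 * ws x z δ p + wm x δ p) - if Gs x δ (m / p) then
      wt (lg x (m / p)) * (Real.log p / Real.log (3 * x / ((m / p : ℕ) : ℝ))) else 0) := by
    refine sum_le_sum fun p hp => ?_
    refine FBr_term δ hδ1 x z m hx h1 h2 h3 p hp _ ?_
    by_cases hG : Gs x δ (m / p)
    · right
      exact ⟨hG, by rw [if_pos hG]⟩
    · left
      rw [if_neg hG]
  rw [sum_add_distrib, sum_sub_distrib, sum_add_distrib, sum_add_distrib, ← hGG, ← Finset.mul_sum,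
    ← Finset.mul_sum, ← Finset.sum_div, sum_const, nsmul_eq_mul, mul_one, Finset.sum_boole] at hmain
  have h4 : (∑ p ∈ m.primeFactors, lg x p) / ur ≤ 1 / ur + Real.log 3 / (ur * Real.log x) := by
    have h5 : 1 / ur + Real.log 3 / (ur * Real.log x) = (1 + Real.log 3 / Real.log x) / ur := by
      field_simp
    rw [h5]
    exact div_le_div_of_nonneg_right hlgs hu0.le
  unfold ps
  linarith

theorem BK_le (h : Fin 4 → ℕ) (δ ε : ℝ) (hδ : 0 < δ) (hδ1 : δ ≤ er / 2) (hε : 0 < ε) :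
    ∃ x₀ : ℕ, ∀ x : ℕ, x₀ ≤ x → ∀ z : ℕ, ∀ n ∈ NR h x z,
      BK h x z δ ε n ≤ 7 ∧
      ((∃ i, ∃ p ∈ (n + h i).primeFactors, (p : ℝ) ≤ (x : ℝ) ^ δ) → BK h x z δ ε n ≤ 0) ∧
      (10 < ∑ i, (n + h i).primeFactors.card → BK h x z δ ε n ≤ 0) := by
  classical
  obtain ⟨hu0, hu1⟩ := FBr_ur
  have hlim : ∀ᶠ x : ℕ in atTop, 4 * Real.log 3 / (ur * ε) ≤ Real.log x :=
    (Real.tendsto_log_atTop.comp tendsto_natCast_atTop_atTop).eventually_ge_atTop _
  obtain ⟨x₁, hx₁⟩ := eventually_atTop.mp hlim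
  refine ⟨x₁ + 3 + ∑ i, h i, fun x hx z n hn => ?_⟩
  have hx3 : 3 ≤ x := by omega
  have hx1 : (1 : ℝ) < x := by
    have : (3 : ℝ) ≤ x := by exact_mod_cast hx3
    linarith
  have hl : 0 < Real.log x := Real.log_pos hx1
  have h4 := hx₁ x (by omega)
  have hes : 4 * (Real.log 3 / (ur * Real.log x)) ≤ ε := by
    rw [div_le_iff₀ (by positivity)] at h4
    rw [mul_div_assoc', div_le_iff₀ (by positivity)]
    nlinarith [h4]
  unfold NR at hn
  rw [mem_filter, mem_Ioc] at hn
  obtain ⟨⟨hn1, hn2⟩, hn3⟩ := hn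
  have hhi : ∀ i, h i ≤ x := by
    intro i
    have : h i ≤ ∑ i, h i := Finset.single_le_sum (f := h) (fun _ _ => Nat.zero_le _) (mem_univ i)
    omega
  set s : Fin 4 → ℕ := fun i =>
    ((n + h i).primeFactors.filter (fun p : ℕ => (p : ℝ) ≤ (x : ℝ) ^ δ)).card with hs
  have hom : ∀ i, (((n + h i).primeFactors.card : ℝ) + 7 * (s i : ℝ)) -
      Real.log 3 / (ur * Real.log x) ≤
      1 / ur + (8 * ps (ws x z δ) (n + h i) + ps (wm x δ) (n + h i)) - GG x δ (n + h i) := by
    intro i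
    have := om_le δ hδ hδ1 x z (n + h i) hx3 (by omega) (by have := hhi i; omega) (hn3 i)
    rw [hs]
    linarith
  have hsum := Finset.sum_le_sum (fun i (_ : i ∈ (univ : Finset (Fin 4))) => hom i)
  rw [sum_sub_distrib, sum_const, card_univ, Fintype.card_fin, nsmul_eq_mul] at hsum
  have hBK : BK h x z δ ε n ≤ 11 - ((∑ i, ((n + h i).primeFactors.card + 7 * s i) : ℕ) : ℝ) := by
    unfold BK
    push_cast at hsum ⊢
    linarith
  have hone : ∀ i, 1 ≤ (n + h i).primeFactors.card := by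
    intro i
    rw [Nat.one_le_iff_ne_zero, ne_eq, Finset.card_eq_zero, Nat.primeFactors_eq_empty]
    omega
  refine ⟨?_, ?_, ?_⟩
  · have h5 : 4 ≤ ∑ i, ((n + h i).primeFactors.card + 7 * s i) := by
      rw [Fin.sum_univ_four]
      have a0 := hone 0
      have a1 := hone 1
      have a2 := hone 2
      have a3 := hone 3
      omega
    have h6 : (4 : ℝ) ≤ ((∑ i, ((n + h i).primeFactors.card + 7 * s i) : ℕ) : ℝ) := by exact_mod_cast h5
    linarith
  · rintro ⟨i, p, hp, hpx⟩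
    have hsi : 1 ≤ s i := by
      rw [hs]
      exact Finset.card_pos.mpr ⟨p, mem_filter.mpr ⟨hp, hpx⟩⟩
    have h5 : 11 ≤ ∑ i, ((n + h i).primeFactors.card + 7 * s i) := by
      have h6 : ∑ j, (1 + 7 * (if j = i then 1 else 0)) ≤ ∑ i, ((n + h i).primeFactors.card + 7 * s i) := by
        refine sum_le_sum fun j _ => ?_
        have := hone j
        split_ifs with hj
        · subst hj
          omega
        · omega
      refine le_trans ?_ h6
      rw [sum_add_distrib, ← Finset.mul_sum, Finset.sum_ite_eq']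
      simp
    have h6 : (11 : ℝ) ≤ ((∑ i, ((n + h i).primeFactors.card + 7 * s i) : ℕ) : ℝ) := by exact_mod_cast h5
    linarith
  · intro h10
    have h5 : 11 ≤ ∑ i, ((n + h i).primeFactors.card + 7 * s i) := by
      have h6 : ∑ i, (n + h i).primeFactors.card ≤ ∑ i, ((n + h i).primeFactors.card + 7 * s i) :=
        sum_le_sum fun j _ => Nat.le_add_right _ _
      omega
    have h6 : (11 : ℝ) ≤ ((∑ i, ((n + h i).primeFactors.card + 7 * s i) : ℕ) : ℝ) := by exact_mod_cast h5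
    linarith

end Pool.Agent.Lib.MP_092512_nt.RT
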