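import Pool.Agent.Lib.MP_092512_nt.RT.Defs
import Pool.Agent.Lib.MP_092512_nt.P3.G2
import Pool.Agent.Lib.MP_092512_nt.P3.G3

/-!
# F: the upper bound sieve for the count (adapt Lib/.../P3/G2.lean and G3.lean with a general exponent)

PROOF.  G2.lean with `η` general (`0 < η ≤ 1/252`) instead of `1/252`, and G3.lean with exponent `κ` instead of `1/251` (`η = κ/2`: for `x ≥ √N`, i.e. `x^η ≤ N^κ`; any relation that makes the dyadic
argument work: for `n ∈ (x, 2x]`, `√N ≤ x ≤ N`, the prime factors of `n + h_i` are `> N^κ ≥ x^κ ≥ x^η`).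
-/

set_option autoImplicit false

open Finset Filter

open scoped ArithmeticFunction.Moebius

namespace Pool.Agent.Lib.MP_092512_nt.RT

open Pool.Agent.Lib.SW Pool.Agent.Lib.MP_092512_nt.P3

private theorem FCount_lamS_zero {x z d : ℕ} {ρ : ℝ} (hd : (x : ℝ) ^ ρ < d) : lamS x z ρ d = 0 := by
  unfold lamS
  split_ifs with h
  · have hd0 : (0 : ℝ) < d := by
      have := h.1.ne_zero
      exact_mod_cast Nat.pos_of_ne_zero this
    have : (x : ℝ) ^ ρ / d < 1 := by rw [div_lt_one hd0]; exact hd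
    rw [C0_Sd_lt_one z d this]
    simp
  · rfl

/-- for a rough number the weight is `lamC 1` -/
private theorem FCount_LC (x z m : ℕ) (hx : 1 ≤ x) (η : ℝ) (hη : 0 < η) (hm : m ≠ 0)
    (hr : ∀ p ∈ m.primeFactors, (x : ℝ) ^ η < p) : LC x z η 0 m = lamC x z η 0 1 := by
  unfold LC
  have h1 : (1 : ℕ) ∈ m.divisors := Nat.one_mem_divisors.2 hm
  rw [← add_sum_erase _ _ h1]
  have h2 : ∑ d ∈ m.divisors.erase 1, lamC x z η 0 d = 0 := by
    refine sum_eq_zero fun d hd => ?_
    have hd1 := ne_of_mem_erase hd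
    have hdm := Nat.dvd_of_mem_divisors (mem_of_mem_erase hd)
    obtain ⟨p, hp, hpd⟩ := Nat.exists_prime_and_dvd hd1
    have hd0 : d ≠ 0 := fun h => hm (by rw [h] at hdm; exact Nat.eq_zero_of_zero_dvd hdm)
    have hpm : p ∈ m.primeFactors := Nat.mem_primeFactors.2 ⟨hp, hpd.trans hdm, hm⟩
    have hple : (p : ℝ) ≤ d := by exact_mod_cast Nat.le_of_dvd (Nat.pos_of_ne_zero hd0) hpd
    have hlt : (x : ℝ) ^ η < d := lt_of_lt_of_le (hr p hpm) hple
    have hx1 : (1 : ℝ) ≤ x := by exact_mod_cast hx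
    unfold lamC
    rw [FCount_lamS_zero, FCount_lamS_zero]
    · ring
    · refine lt_of_le_of_lt (Real.rpow_le_rpow_of_exponent_le hx1 ?_) hlt
      simp only [Nat.cast_zero, zero_mul]
      exact hη.le
    · simpa using hlt
  rw [h2, add_zero]

private theorem FCount_good (η : ℝ) (hη : 0 < η) (hη1 : η ≤ 1 / 252) : ∃ C : ℝ, 0 < C ∧ ∀ h : Fin 4 → ℕ, Function.Injective h → ∀ S : ℝ, 0 < S →
    ∀ z₀ : ℕ, (∀ z : ℕ, z₀ ≤ z → VH h z ≤ S * Vz z ^ 4) →
    ∃ x₀ : ℕ, ∀ x : ℕ, x₀ ≤ x →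
      (((Ioc x (2 * x)).filter (fun n => ∀ i, ∀ p ∈ (n + h i).primeFactors,
        (x : ℝ) ^ η < p)).card : ℝ) ≤ C * (S * (x / (Real.log x) ^ 4)) := by
  refine ⟨((2 * η) ^ 4 + 1) / (η / 2) ^ 8, by positivity, fun h hinj S hS z₀ hz₀ => ?_⟩
  obtain ⟨B1, hB1⟩ := sieve_int 4 h hinj 4 5 (1 / 2) (by norm_num)
  set B : ℕ := max 3 B1 with hBdef
  have hB3 : 3 ≤ B := le_max_left _ _
  obtain ⟨x1, hx1⟩ := hB1 B (le_max_right _ _)
  obtain ⟨x2, hx2⟩ := alp_le B 0 hB3 η hη (by push_cast; linarith)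
  obtain ⟨x3, hx3⟩ := alp_sum_eq B 0 hB3 η hη (by push_cast; linarith) η hη
  obtain ⟨x4, hx4⟩ := eventually_atTop.1 (C4_lamS_asymp B hB3 (η / 4) (by linarith))
  obtain ⟨x5, hx5⟩ := eventually_atTop.1 ((C1_zB_tendsto B (by omega)).eventually_ge_atTop z₀)
  obtain ⟨x6, hx6⟩ := eventually_atTop.1 (C1_zB_le_rpow B η hη)
  have ht : Tendsto (fun x : ℕ => Real.log x) atTop atTop :=
    Real.tendsto_log_atTop.comp tendsto_natCast_atTop_atTop
  obtain ⟨x7, hx7⟩ := eventually_atTop.1 (ht.eventually_ge_atTop (1 / S + 1))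
  refine ⟨max x1 (max x2 (max x3 (max x4 (max x5 (max x6 (max x7 1)))))), fun x hx => ?_⟩
  simp only [max_le_iff] at hx
  obtain ⟨k1, k2, k3, k4, k5, k6, k7, k8⟩ := hx
  have hxR : (1 : ℝ) ≤ x := by exact_mod_cast k8
  have hx0 : (0 : ℝ) < x := by linarith
  set z : ℕ := zB B x with hz
  set L : ℝ := Real.log x with hL
  have hLS := hx7 x k7
  have hL0 : 0 < L := by
    have : 0 < 1 / S := by positivity
    linarith
  have hV := Vz_pos z
  -- the weight at rough numbers
  have hlam : η / 2 ≤ lamC x z η 0 1 := by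
    have a1 := hx4 x k4 η hη.le (by push_cast; linarith) 1 squarefree_one (Nat.coprime_one_left _)
    have a2 := hx4 x k4 0 le_rfl zero_le_one 1 squarefree_one (Nat.coprime_one_left _)
    simp only [ArithmeticFunction.moebius_apply_one, Int.cast_one, Nat.cast_one, Real.log_one, zero_div, sub_zero, one_mul,
      max_eq_right hη.le, max_self] at a1 a2
    unfold lamC
    have e1 : ((0 : ℕ) : ℝ) + 1 = 1 := by norm_num
    rw [e1, one_mul, Nat.cast_zero, zero_mul]
    have b1 := (abs_le.1 a1).1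
    have b2 := (abs_le.1 a2).2
    linarith
  set al : Fin 4 → ℕ → ℝ := fun _ => alp x z η 0 0 with hal
  have key := hx1 x k1 al (fun _ => (x : ℝ) ^ ((((0 : ℕ) : ℝ) + 1 + (((0 : ℕ) : ℝ) + 1)) * η))
    (fun i => Real.one_le_rpow hxR (by positivity))
    (fun i r hr => alp_supp x z k8 η hη 0 0 r hr)
    (fun i r => by
      have := hx2 x k2 0 le_rfl 0 le_rfl r
      exact_mod_cast this)
    (by
      rw [prod_const, card_univ, Fintype.card_fin, ← Real.rpow_natCast, ← Real.rpow_mul hx0.le]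
      refine Real.rpow_le_rpow_of_exponent_le hxR ?_
      push_cast
      linarith)
  set R : ℕ := ⌊(x : ℝ) ^ ((((0 : ℕ) : ℝ) + 1 + (((0 : ℕ) : ℝ) + 1)) * η)⌋₊ with hR
  have hsum := hx3 x k3 0 le_rfl R (Nat.lt_floor_add_one _)
  set G : ℝ := ∑ r ∈ Icc 1 R, alp x z η 0 0 r / r with hG
  have hG1 : Vz z * L * G ≤ 2 * η := by
    have := (abs_le.1 hsum).2
    linarith
  have hG0 : 0 ≤ Vz z * L * G := by
    have := (abs_le.1 hsum).1
    linarith
  have hprod : (∏ _i : Fin 4, G) = G ^ 4 := by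
    rw [prod_const, card_univ, Fintype.card_fin]
  have hkey' : ∑ n ∈ (Ioc x (2 * x)).filter (fun n => ∀ i, Nat.Coprime (n + h i) (primorial z)),
      ∏ i, ∑ r ∈ (n + h i).divisors, al i r ≤ x * VH h z * G ^ 4 + x / L ^ 5 := by
    have := (abs_le.1 key).2
    rw [← hprod]
    linarith
  have hmain : x * VH h z * G ^ 4 ≤ (2 * η) ^ 4 * (S * (x / L ^ 4)) := by
    have c1 : x * VH h z * G ^ 4 ≤ x * (S * Vz z ^ 4) * G ^ 4 := by
      have := hz₀ z (hx5 x k5)
      have hG4 : 0 ≤ G ^ 4 := by positivity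
      gcongr
    have c2 : x * (S * Vz z ^ 4) * G ^ 4 = (Vz z * L * G) ^ 4 * (S * (x / L ^ 4)) := by
      field_simp
    have c3 : (Vz z * L * G) ^ 4 ≤ (2 * η) ^ 4 := pow_le_pow_left₀ hG0 hG1 4
    rw [c2] at c1
    exact c1.trans (mul_le_mul_of_nonneg_right c3 (by positivity))
  have herr : x / L ^ 5 ≤ S * (x / L ^ 4) := by
    have d1 : 1 ≤ S * L := by
      have : 1 / S ≤ L := by linarith
      rw [div_le_iff₀ hS] at this
      linarith
    calc x / L ^ 5 = 1 * (x / L ^ 5) := (one_mul _).symm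
      _ ≤ (S * L) * (x / L ^ 5) := mul_le_mul_of_nonneg_right d1 (by positivity)
      _ = S * (x / L ^ 4) := by field_simp
  -- lower bound of the sum by the number of rough n
  have hlow : (η / 2) ^ 8 * (((Ioc x (2 * x)).filter (fun n => ∀ i, ∀ p ∈ (n + h i).primeFactors,
        (x : ℝ) ^ η < p)).card : ℝ) ≤
      ∑ n ∈ (Ioc x (2 * x)).filter (fun n => ∀ i, Nat.Coprime (n + h i) (primorial z)),
        ∏ i, ∑ r ∈ (n + h i).divisors, al i r := by
    have hterm : ∀ n ∈ Ioc x (2 * x), ∏ i, ∑ r ∈ (n + h i).divisors, al i r =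
        ∏ i, LC x z η 0 (n + h i) ^ 2 := by
      intro n hn
      refine prod_congr rfl fun i _ => ?_
      have hn0 : n + h i ≠ 0 := by
        have := (mem_Ioc.1 hn).1
        omega
      rw [sq, LC_mul x z η 0 0 (n + h i) hn0]
    calc (η / 2) ^ 8 * (((Ioc x (2 * x)).filter (fun n => ∀ i, ∀ p ∈ (n + h i).primeFactors,
          (x : ℝ) ^ η < p)).card : ℝ)
        = ∑ n ∈ (Ioc x (2 * x)).filter (fun n => ∀ i, ∀ p ∈ (n + h i).primeFactors,
          (x : ℝ) ^ η < p), (η / 2) ^ 8 := by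
          rw [sum_const, nsmul_eq_mul, mul_comm]
      _ ≤ ∑ n ∈ (Ioc x (2 * x)).filter (fun n => ∀ i, ∀ p ∈ (n + h i).primeFactors,
          (x : ℝ) ^ η < p), ∏ i, ∑ r ∈ (n + h i).divisors, al i r := by
          refine sum_le_sum fun n hn => ?_
          obtain ⟨hn1, hn2⟩ := mem_filter.1 hn
          rw [hterm n hn1]
          have e : ∀ i, LC x z η 0 (n + h i) = lamC x z η 0 1 := fun i => by
            have hn0 : n + h i ≠ 0 := by
              have := (mem_Ioc.1 hn1).1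
              omega
            refine FCount_LC x z (n + h i) k8 η hη hn0 fun p hp => ?_
            exact hn2 i p hp
          simp only [e]
          rw [prod_const, card_univ, Fintype.card_fin, ← pow_mul]
          exact pow_le_pow_left₀ (by positivity) hlam 8
      _ ≤ _ := by
          refine sum_le_sum_of_subset_of_nonneg ?_ ?_
          · intro n hn
            obtain ⟨hn1, hn2⟩ := mem_filter.1 hn
            refine mem_filter.2 ⟨hn1, fun i => ?_⟩
            have hn0 : n + h i ≠ 0 := by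
              have := (mem_Ioc.1 hn1).1
              omega
            by_contra hcop
            obtain ⟨p, hp, hp1, hp2⟩ := Nat.Prime.not_coprime_iff_dvd.1 hcop
            have hpz : p ≤ z := (Nat.Prime.dvd_primorial_iff hp).1 hp2
            have h3 := hn2 i p (Nat.mem_primeFactors.2 ⟨hp, hp1, hn0⟩)
            have h4 := hx6 x k6
            have h5 : (p : ℝ) ≤ z := by exact_mod_cast hpz
            linarith
          · intro n hn _
            rw [hterm n (mem_filter.1 hn).1]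
            exact prod_nonneg fun i _ => sq_nonneg _
  have hfin : (η / 2) ^ 8 * (((Ioc x (2 * x)).filter (fun n => ∀ i, ∀ p ∈ (n + h i).primeFactors,
        (x : ℝ) ^ η < p)).card : ℝ) ≤ ((2 * η) ^ 4 + 1) * (S * (x / L ^ 4)) := by
    linarith
  rw [div_mul_eq_mul_div, le_div_iff₀ (by positivity)]
  linarith

private theorem FCount_step (P : ℕ → Prop) [DecidablePred P] (s N : ℕ) (c : ℝ) (hc : 0 ≤ c) (h1 : ∀ x : ℕ, s ≤ x → 1 ≤ c * x)
    (h2 : ∀ x : ℕ, s ≤ x → x ≤ N → (((Ioc x (2 * x)).filter P).card : ℝ) ≤ c * x) :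
    ∀ y : ℕ, y ≤ N → (((Icc 1 y).filter P).card : ℝ) ≤ 2 * s + 1 + 2 * c * y := by
  intro y
  induction y using Nat.strong_induction_on with
  | _ y ih =>
    intro hy
    by_cases hys : y ≤ 2 * s + 1
    · have e1 : (((Icc 1 y).filter P).card : ℝ) ≤ y := by
        have : ((Icc 1 y).filter P).card ≤ (Icc 1 y).card := card_le_card (filter_subset _ _)
        rw [Nat.card_Icc] at this
        exact_mod_cast this
      have e2 : (y : ℝ) ≤ 2 * s + 1 := by exact_mod_cast hys
      have e3 : 0 ≤ 2 * c * y := by positivity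
      linarith
    · push Not at hys
      obtain ⟨x, hx⟩ : ∃ x : ℕ, x = y / 2 := ⟨_, rfl⟩
      have hxs : s ≤ x := by omega
      have hxy : x < y := by omega
      have hxN : x ≤ N := by omega
      have hsub : (Icc 1 y).filter P ⊆ ((Icc 1 x).filter P ∪ (Ioc x (2 * x)).filter P) ∪ {y} := by
        intro n hn
        rw [mem_filter, mem_Icc] at hn
        rw [mem_union, mem_union, mem_filter, mem_filter, mem_Icc, mem_Ioc, mem_singleton]
        obtain ⟨⟨ha, hb⟩, hP⟩ := hn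
        by_cases hn1 : n ≤ x
        · exact Or.inl (Or.inl ⟨⟨ha, hn1⟩, hP⟩)
        · by_cases hn2 : n ≤ 2 * x
          · exact Or.inl (Or.inr ⟨⟨by omega, hn2⟩, hP⟩)
          · right; omega
      have hcard : (((Icc 1 y).filter P).card : ℝ) ≤
          (((Icc 1 x).filter P).card : ℝ) + (((Ioc x (2 * x)).filter P).card : ℝ) + 1 := by
        have a1 := card_le_card hsub
        have a2 := card_union_le ((Icc 1 x).filter P ∪ (Ioc x (2 * x)).filter P) {y}
        have a3 := card_union_le ((Icc 1 x).filter P) ((Ioc x (2 * x)).filter P)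
        rw [card_singleton] at a2
        have a4 : ((Icc 1 y).filter P).card ≤
            ((Icc 1 x).filter P).card + ((Ioc x (2 * x)).filter P).card + 1 := by omega
        exact_mod_cast a4
      have hih := ih x hxy hxN
      have hh2 := h2 x hxs hxN
      have hh1 := h1 x hxs
      have hxy2 : 2 * (x : ℝ) ≤ y := by
        have : 2 * x ≤ y := by omega
        exact_mod_cast this
      have : 2 * c * (2 * (x : ℝ)) ≤ 2 * c * y := by gcongr
      linarith

theorem count_up (κ : ℝ) (hκ : 0 < κ) (hκ1 : κ ≤ 1 / 252) : ∃ C : ℝ, 0 < C ∧ ∀ h : Fin 4 → ℕ, Function.Injective h → ∀ S : ℝ, 0 < S →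
    ∀ z₀ : ℕ, (∀ z : ℕ, z₀ ≤ z → VH h z ≤ S * Vz z ^ 4) →
    ∃ N₀ : ℕ, ∀ N : ℕ, N₀ ≤ N →
      (((Icc 1 N).filter (fun n => ∀ i, ∀ p ∈ (n + h i).primeFactors,
        (N : ℝ) ^ κ < p)).card : ℝ) ≤ C * (S * (N / (Real.log N) ^ 4)) := by
  obtain ⟨C, hC, H⟩ := FCount_good κ hκ hκ1
  refine ⟨48 * C, by positivity, fun h hinj S hS z₀ hz₀ => ?_⟩
  obtain ⟨x₀, hx₀⟩ := H h hinj S hS z₀ hz₀
  have hlo := (isLittleO_log_rpow_rpow_atTop (4 : ℝ) (show (0 : ℝ) < 1 / 2 by norm_num)).bound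
    (c := 16 * C * S / 5) (by positivity)
  obtain ⟨N1, hN1⟩ := eventually_atTop.1 (tendsto_natCast_atTop_atTop.eventually hlo)
  refine ⟨max N1 (max (x₀ ^ 2) 3), fun N hN => ?_⟩
  simp only [max_le_iff] at hN
  obtain ⟨k1, k2, k3⟩ := hN
  have hN3 : (3 : ℝ) ≤ N := by exact_mod_cast k3
  have hN0 : (0 : ℝ) < N := by linarith
  set L : ℝ := Real.log N with hL
  have hL0 : 0 < L := Real.log_pos (by linarith)
  set c : ℝ := 16 * C * S / L ^ 4 with hc
  have hc0 : 0 < c := by positivity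
  set s : ℕ := Nat.sqrt N + 1 with hs
  set w : ℝ := (N : ℝ) ^ (1 / 2 : ℝ) with hw
  have hw0 : 0 < w := Real.rpow_pos_of_pos hN0 _
  have hww : w * w = N := by
    rw [hw, ← Real.rpow_add hN0]; norm_num
  have hw1 : 1 ≤ w := Real.one_le_rpow (by linarith) (by norm_num)
  have hcw : 5 ≤ c * w := by
    have h5 := hN1 N k1
    rw [Real.norm_of_nonneg (Real.rpow_nonneg hL0.le _), Real.norm_of_nonneg hw0.le,
      show (4 : ℝ) = ((4 : ℕ) : ℝ) by norm_num, Real.rpow_natCast] at h5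
    rw [hc, div_mul_eq_mul_div, le_div_iff₀ (by positivity)]
    have h6 : Real.log (N : ℝ) ^ 4 ≤ 16 * C * S / 5 * w := h5
    have h7 : L ^ 4 ≤ 16 * C * S / 5 * w := h6
    linarith
  have hsw : w ≤ s := by
    have h6 : N < s * s := Nat.lt_succ_sqrt N
    have h7 : w * w ≤ (s : ℝ) * s := by
      rw [hww]; exact_mod_cast h6.le
    nlinarith
  have hsw' : (s : ℝ) ≤ w + 1 := by
    have h6 : Nat.sqrt N * Nat.sqrt N ≤ N := Nat.sqrt_le N
    have h7 : (Nat.sqrt N : ℝ) * Nat.sqrt N ≤ w * w := by rw [hww]; exact_mod_cast h6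
    have h8 : (Nat.sqrt N : ℝ) ≤ w := by
      by_contra hcon
      push Not at hcon
      nlinarith
    rw [hs]; push_cast; linarith
  have hsx : x₀ ≤ s := by
    have : x₀ ≤ Nat.sqrt N := Nat.le_sqrt'.2 k2
    omega
  have h1 : ∀ x : ℕ, s ≤ x → 1 ≤ c * x := by
    intro x hx
    have : w ≤ x := hsw.trans (by exact_mod_cast hx)
    have h2 : c * w ≤ c * x := mul_le_mul_of_nonneg_left this hc0.le
    linarith
  have h2 : ∀ x : ℕ, s ≤ x → x ≤ N → (((Ioc x (2 * x)).filter (fun n => ∀ i, ∀ p ∈ (n + h i).primeFactors,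
        (N : ℝ) ^ κ < p)).card : ℝ) ≤ c * x := by
    intro x hx hxN
    have hxw : w ≤ x := hsw.trans (by exact_mod_cast hx)
    have hx0 : (0 : ℝ) < x := by linarith
    have hx1 : (1 : ℝ) ≤ x := by linarith
    have hxN' : (x : ℝ) ≤ N := by exact_mod_cast hxN
    have hlog : L / 2 ≤ Real.log x := by
      have : Real.log w ≤ Real.log x := Real.log_le_log hw0 hxw
      rw [hw, Real.log_rpow hN0] at this
      rw [hL]; linarith
    have hpow : (x : ℝ) ^ κ ≤ (N : ℝ) ^ κ := Real.rpow_le_rpow hx0.le hxN' hκ.le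
    have hb := hx₀ x (hsx.trans hx)
    have hcard : (((Ioc x (2 * x)).filter (fun n => ∀ i, ∀ p ∈ (n + h i).primeFactors,
        (N : ℝ) ^ κ < p)).card : ℝ) ≤
        (((Ioc x (2 * x)).filter (fun n => ∀ i, ∀ p ∈ (n + h i).primeFactors,
        (x : ℝ) ^ κ < p)).card : ℝ) := by
      have : ((Ioc x (2 * x)).filter (fun n => ∀ i, ∀ p ∈ (n + h i).primeFactors,
        (N : ℝ) ^ κ < p)).card ≤ ((Ioc x (2 * x)).filter (fun n => ∀ i, ∀ p ∈ (n + h i).primeFactors,
        (x : ℝ) ^ κ < p)).card := by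
        refine card_le_card fun n hn => ?_
        rw [mem_filter] at hn ⊢
        exact ⟨hn.1, fun i p hp => lt_of_le_of_lt hpow (hn.2 i p hp)⟩
      exact_mod_cast this
    refine hcard.trans (hb.trans ?_)
    have hlx0 : 0 < Real.log x := lt_of_lt_of_le (by positivity) hlog
    have h4 : (L / 2) ^ 4 ≤ Real.log x ^ 4 := pow_le_pow_left₀ (by positivity) hlog 4
    calc C * (S * (x / Real.log x ^ 4)) ≤ C * (S * (x / (L / 2) ^ 4)) := by
          gcongr
      _ = c * x := by rw [hc]; field_simp; norm_num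
  have hfin := FCount_step _ s N c hc0.le h1 h2 N le_rfl
  refine hfin.trans ?_
  have e1 : c * N = c * w * w := by rw [← hww]; ring
  have e2 : 5 * w ≤ c * w * w := mul_le_mul_of_nonneg_right hcw hw0.le
  have e3 : 48 * C * (S * (N / L ^ 4)) = 3 * (c * N) := by rw [hc]; field_simp; norm_num
  rw [e3]
  linarith

end Pool.Agent.Lib.MP_092512_nt.RT
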