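import Pool.Agent.Lib.MP_092512_nt.RT.Defs

/-!
# F: the fibres of `TR` and `TRi` (adapt Lib/.../P3/E7.lean)

PROOF.  `c = i.insertNth x b`; `∑_j c_j = x + ∑ b` (`Fin.sum_univ_succAbove`).  Conditions of `TR` for the index `i`: `∑ b + 3 ≤ 867`; for the index
`i.succAbove j`: `x + ∑ b - b_j + 3 ≤ 867`, i.e. `x < 865 - (∑ b - b_j)`, all `j` together: `x < 865 - (∑ b - min b)`; the last one: `x + ∑ b + 4 ≤ 936`, i.e. `x < 933 - ∑ b`.
The bounds `c_j < 900` follow.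
-/

set_option autoImplicit false

open Finset Filter

open scoped ArithmeticFunction.Moebius

namespace Pool.Agent.Lib.MP_092512_nt.RT

open Pool.Agent.Lib.SW Pool.Agent.Lib.MP_092512_nt.P3

private theorem FGeo_sum (i : Fin 4) (x : ℕ) (b : Fin 3 → ℕ) : ∑ j, insr i x b j = x + ∑ j, b j := by
  unfold insr
  rw [Fin.sum_univ_succAbove _ i]
  simp

private theorem FGeo_mem (i : Fin 4) (x : ℕ) (b : Fin 3 → ℕ) :
    insr i x b ∈ TR ↔ ((∀ j, b j < 900) ∧ (∑ j, b j) + 3 ≤ 867) ∧ x < lenr b := by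
  rw [mem_TR, Fin.forall_iff_succAbove i, Fin.forall_iff_succAbove i, FGeo_sum]
  simp only [insr, Fin.insertNth_apply_same, Fin.insertNth_apply_succAbove, lenr, mnr]
  simp only [Fin.forall_fin_succ, Fin.sum_univ_succ, Fin.succ_zero_eq_one, Fin.succ_one_eq_two, IsEmpty.forall_iff, and_true,
    Finset.univ_eq_empty, Finset.sum_empty, add_zero]
  generalize b 0 = p
  generalize b 1 = q
  generalize b 2 = r
  omega

private theorem FGeo_ins (i : Fin 4) (c : Fin 4 → ℕ) : insr i (c i) (i.removeNth c) = c :=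
  Fin.insertNth_self_removeNth i c

private theorem FGeo_rem (i : Fin 4) (x : ℕ) (b : Fin 3 → ℕ) : i.removeNth (insr i x b) = b := by
  unfold insr
  rw [Fin.removeNth_insertNth]

private theorem FGeo_at (i : Fin 4) (x : ℕ) (b : Fin 3 → ℕ) : insr i x b i = x := by
  unfold insr
  simp

theorem TR_sum (i : Fin 4) (F : (Fin 4 → ℕ) → ℝ) :
    ∑ c ∈ TR, F c = ∑ b ∈ BQ, ∑ x ∈ range (lenr b), F (insr i x b) := by
  rw [sum_sigma']
  refine sum_bij' (fun c _ => ⟨i.removeNth c, c i⟩) (fun s _ => insr i s.2 s.1) ?_ ?_ ?_ ?_ ?_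
  · intro c hc
    rw [← FGeo_ins i c, FGeo_mem] at hc
    rw [mem_sigma, mem_BQ, mem_range]
    exact hc
  · intro s hs
    rw [mem_sigma, mem_BQ, mem_range] at hs
    rw [FGeo_mem]
    exact hs
  · intro c _
    exact FGeo_ins i c
  · rintro ⟨b, x⟩ _
    simp only [FGeo_rem, FGeo_at]
  · intro c _
    simp only [FGeo_ins]

theorem TRi_sum (i : Fin 4) (F : (Fin 4 → ℕ) → ℝ) :
    ∑ c ∈ TRi i, F c = ∑ b ∈ BR, ∑ x ∈ range (lenr b), F (insr i x b) := by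
  rw [sum_sigma']
  refine sum_bij' (fun c _ => ⟨i.removeNth c, c i⟩) (fun s _ => insr i s.2 s.1) ?_ ?_ ?_ ?_ ?_
  · intro c hc
    rw [mem_TRi] at hc
    obtain ⟨h1, h2⟩ := hc
    have h3 := FGeo_sum i (c i) (i.removeNth c)
    rw [FGeo_ins] at h3
    rw [← FGeo_ins i c, FGeo_mem] at h1
    rw [mem_sigma, mem_BR, mem_range]
    refine ⟨⟨h1.1.1, ?_⟩, h1.2⟩
    change (∑ j, i.removeNth c j) + 3 ≤ 633
    omega
  · rintro ⟨b, x⟩ hs
    rw [mem_sigma, mem_BR, mem_range] at hs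
    obtain ⟨⟨h1, h2⟩, h3⟩ := hs
    change (∑ j, b j) + 3 ≤ 633 at h2
    rw [mem_TRi, FGeo_mem, FGeo_sum, FGeo_at]
    refine ⟨⟨⟨h1, ?_⟩, h3⟩, ?_⟩
    · change (∑ j, b j) + 3 ≤ 867
      omega
    · change x + (∑ j, b j) - x + 3 ≤ 633
      omega
  · intro c _
    exact FGeo_ins i c
  · rintro ⟨b, x⟩ _
    simp only [FGeo_rem, FGeo_at]
  · intro c _
    simp only [FGeo_ins]

theorem insr_mem (i : Fin 4) (b : Fin 3 → ℕ) (hb : b ∈ BQ) (x : ℕ) : insr i x b ∈ TR ↔ x < lenr b := by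
  rw [mem_BQ] at hb
  rw [FGeo_mem]
  exact ⟨fun h => h.2, fun h => ⟨hb, h⟩⟩

theorem insr_memi (i : Fin 4) (b : Fin 3 → ℕ) (hb : b ∈ BR) (x : ℕ) :
    (insr i x b ∈ TR ↔ x < lenr b) ∧ (insr i x b ∈ TRi i ↔ x < lenr b) := by
  rw [mem_BR] at hb
  have h1 : insr i x b ∈ TR ↔ x < lenr b := by
    rw [FGeo_mem]
    exact ⟨fun h => h.2, fun h => ⟨⟨hb.1, by omega⟩, h⟩⟩
  refine ⟨h1, ?_⟩
  rw [mem_TRi, h1, FGeo_sum, FGeo_at]
  exact ⟨fun h => h.1, fun h => ⟨h, by omega⟩⟩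

theorem lenr_le (b : Fin 3 → ℕ) : lenr b ≤ 865 := (min_le_left _ _).trans (Nat.sub_le _ _)

theorem TR_coord (c : Fin 4 → ℕ) (hc : c ∈ TR) (i : Fin 4) : c i ≤ 864 := by
  rw [← FGeo_ins i c, FGeo_mem] at hc
  have := lenr_le (i.removeNth c)
  omega

theorem TR_level (c : Fin 4 → ℕ) (hc : c ∈ TR) : ∑ j, (c j + 1) ≤ 936 := by
  rw [mem_TR] at hc
  have h := hc.2.2
  rw [Fin.sum_univ_four] at h ⊢
  omega

theorem TR_level_i (i : Fin 4) (c : Fin 4 → ℕ) (hc : c ∈ TR) : ∑ j ∈ univ.erase i, (c j + 1) ≤ 867 := by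
  rw [mem_TR] at hc
  have h := hc.2.1 i
  have h1 := Finset.add_sum_erase univ (fun j => c j + 1) (mem_univ i)
  have h2 : ∑ j, (c j + 1) = (∑ j, c j) + 4 := by
    rw [sum_add_distrib]
    simp
  omega

theorem TRi_level_i (i : Fin 4) (c : Fin 4 → ℕ) (hc : c ∈ TRi i) :
    ∑ j ∈ univ.erase i, (c j + 1) ≤ 633 := by
  rw [mem_TRi] at hc
  have h := hc.2
  have h1 := Finset.add_sum_erase univ (fun j => c j + 1) (mem_univ i)
  have h2 : ∑ j, (c j + 1) = (∑ j, c j) + 4 := by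
    rw [sum_add_distrib]
    simp
  omega

end Pool.Agent.Lib.MP_092512_nt.RT
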