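import Pool.Agent.Lib.MP_092512_nt.RT.FGeo

/-!
# F: the main terms (adapt Lib/.../P3/F4.lean)

PROOFS.  `main_i`: by `TRi_sum i` for `c = insr i u b`; for `c' ∈ TR` the product `∏_{j ≠ i} Sr (c_j) (c'_j)` vanishes unless `c'_j = c_j` for all `j ≠ i` (`horth`), i.e.
`c' = insr i w b` with `w < lenr b`, and then `c' ∈ TRi i` (`insr_memi`), so the factor `2 - 1` is `1`.  `fcr (insr i u b) = vz (∑ b) u`.  Finally
`∑_{u, w < len} v_u v_w MR u w = ∑_m GG (∑_u v_u LC_u)² = Yr` (`FR` is zero outside `Ioc (x + h0) (2x + h0)`, which is contained in `Icc 1 (3x)` when `h0 ≤ x`).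
`main_h`: the same with `BQ`, `TR_sum`, and the factor `Br`.  `main_0`: all factors force `c' = c`.
-/

set_option autoImplicit false

open Finset Filter

open scoped ArithmeticFunction.Moebius

namespace Pool.Agent.Lib.MP_092512_nt.RT

open Pool.Agent.Lib.SW Pool.Agent.Lib.MP_092512_nt.P3

private theorem FMain_same (i : Fin 4) (u : ℕ) (b : Fin 3 → ℕ) : insr i u b i = u := by
  unfold insr
  exact Fin.insertNth_apply_same _ _ _

private theorem FMain_succ (i : Fin 4) (u : ℕ) (b : Fin 3 → ℕ) (j : Fin 3) :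
    insr i u b (i.succAbove j) = b j := by
  unfold insr
  exact Fin.insertNth_apply_succAbove _ _ _ _

private theorem FMain_sum (i : Fin 4) (u : ℕ) (b : Fin 3 → ℕ) : ∑ j, insr i u b j = u + ∑ j, b j := by
  rw [Fin.sum_univ_succAbove _ i, FMain_same]
  congr 1
  exact sum_congr rfl fun j _ => FMain_succ i u b j

private theorem FMain_erase (i : Fin 4) (f : Fin 4 → ℝ) :
    ∏ j ∈ univ.erase i, f j = ∏ j : Fin 3, f (i.succAbove j) := by
  have h1 : univ.erase i = univ.image i.succAbove := by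
    ext j
    rw [mem_erase, mem_image]
    constructor
    · rintro ⟨h1, _⟩
      obtain ⟨z, hz⟩ := Fin.exists_succAbove_eq h1
      exact ⟨z, mem_univ _, hz⟩
    · rintro ⟨z, _, rfl⟩
      exact ⟨Fin.succAbove_ne i z, mem_univ _⟩
  rw [h1, prod_image fun a _ b _ hab => Fin.succAbove_right_injective hab]

private theorem FMain_fcr (i : Fin 4) (u : ℕ) (b : Fin 3 → ℕ) : fcr (insr i u b) = vz (∑ j, b j) u := by
  unfold fcr vz
  rw [FMain_sum, add_comm]

private theorem FMain_MR (x z h0 : ℕ) (hh : h0 ≤ x) (δ : ℝ) (u w : ℕ) :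
    MR x z δ h0 u w = ∑ m ∈ Ioc (x + h0) (2 * x + h0), GG x δ m * (LC x z er u m * LC x z er w m) := by
  unfold MR FR
  rw [← sum_filter]
  refine sum_congr ?_ fun _ _ => rfl
  ext m
  rw [mem_filter, mem_Icc, mem_Ioc]
  constructor
  · rintro ⟨_, h2⟩; exact h2
  · intro h2
    refine ⟨?_, h2⟩
    omega

private theorem FMain_Yr (x z h0 : ℕ) (hh : h0 ≤ x) (δ : ℝ) (b : Fin 3 → ℕ) :
    ∑ u ∈ range (lenr b), ∑ w ∈ range (lenr b), vz (∑ j, b j) u * vz (∑ j, b j) w * MR x z δ h0 u w =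
      Yr x z δ h0 b := by
  unfold Yr LV
  have h1 : ∀ u w, vz (∑ j, b j) u * vz (∑ j, b j) w * MR x z δ h0 u w =
      ∑ m ∈ Ioc (x + h0) (2 * x + h0), GG x δ m *
        ((vz (∑ j, b j) u * LC x z er u m) * (vz (∑ j, b j) w * LC x z er w m)) := by
    intro u w
    rw [FMain_MR x z h0 hh δ, mul_sum]
    refine sum_congr rfl fun m _ => ?_
    ring
  have h2 : ∀ u, ∑ w ∈ range (lenr b), vz (∑ j, b j) u * vz (∑ j, b j) w * MR x z δ h0 u w =
      ∑ m ∈ Ioc (x + h0) (2 * x + h0), ∑ w ∈ range (lenr b), GG x δ m *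
        ((vz (∑ j, b j) u * LC x z er u m) * (vz (∑ j, b j) w * LC x z er w m)) := by
    intro u
    rw [sum_congr rfl fun w _ => h1 u w, sum_comm]
  rw [sum_congr rfl fun u _ => h2 u, sum_comm]
  refine sum_congr rfl fun m _ => ?_
  rw [sq, sum_mul_sum, mul_sum]
  refine sum_congr rfl fun u _ => ?_
  rw [mul_sum]

private theorem FMain_inj (i : Fin 4) (b : Fin 3 → ℕ) : Function.Injective (fun w : ℕ => insr i w b) := by
  intro w w' h
  have h1 := congrFun h i
  simp only [FMain_same] at h1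
  exact h1

/-- the sum over `c'` for `c = insr i u b` -/
private theorem FMain_inner (x z : ℕ) (i : Fin 4)
    (horth : ∀ j ≤ 864, ∀ j' ≤ 864, j ≠ j' → Sr x z j j' = 0) (b : Fin 3 → ℕ)
    (hmem : ∀ w : ℕ, insr i w b ∈ TR ↔ w < lenr b) (u : ℕ) (hu : u < lenr b)
    (G : (Fin 4 → ℕ) → ℝ) :
    ∑ c' ∈ TR, G c' * ∏ j ∈ univ.erase i, Sr x z (insr i u b j) (c' j) =
      ∑ w ∈ range (lenr b), G (insr i w b) * ∏ j, Sr x z (b j) (b j) := by
  have h1 : ∑ w ∈ range (lenr b), G (insr i w b) * ∏ j, Sr x z (b j) (b j) =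
      ∑ c' ∈ (range (lenr b)).image (fun w => insr i w b),
        G c' * ∏ j ∈ univ.erase i, Sr x z (insr i u b j) (c' j) := by
    rw [sum_image fun a _ b' _ hab => FMain_inj i b hab]
    refine sum_congr rfl fun w _ => ?_
    rw [FMain_erase]
    simp only [FMain_succ]
  rw [h1]
  symm
  apply sum_subset
  · intro c' hc'
    rw [mem_image] at hc'
    obtain ⟨w, hw, rfl⟩ := hc'
    exact (hmem w).2 (mem_range.1 hw)
  · intro c' hc' hnot
    have h2 : ∃ j ∈ univ.erase i, insr i u b j ≠ c' j := by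
      by_contra hcon
      push Not at hcon
      apply hnot
      rw [mem_image]
      have h3 : insr i (c' i) b = c' := by
        funext j
        rcases eq_or_ne j i with h4 | h4
        · subst h4
          exact FMain_same _ _ _
        · have h5 := hcon j (mem_erase.mpr ⟨h4, mem_univ _⟩)
          rw [← h5]
          obtain ⟨z', hz'⟩ := Fin.exists_succAbove_eq h4
          rw [← hz', FMain_succ, FMain_succ]
      refine ⟨c' i, ?_, h3⟩
      rw [mem_range]
      rw [← h3] at hc'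
      exact (hmem _).mp hc'
    obtain ⟨j, hj, hne⟩ := h2
    have h3 : Sr x z (insr i u b j) (c' j) = 0 :=
      horth _ (TR_coord _ ((hmem u).2 hu) j) _ (TR_coord _ hc' j) hne
    rw [prod_eq_zero hj h3, mul_zero]

theorem main_i (x z h0 : ℕ) (hh : h0 ≤ x) (δ : ℝ) (i : Fin 4)
    (horth : ∀ j ≤ 864, ∀ j' ≤ 864, j ≠ j' → Sr x z j j' = 0) (V : ℝ) :
    ∑ c ∈ TRi i, ∑ c' ∈ TR, fcr c * fcr c' * (2 - if c' ∈ TRi i then 1 else 0) *
        (V * MR x z δ h0 (c i) (c' i) * ∏ j ∈ univ.erase i, Sr x z (c j) (c' j)) =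
      V * ∑ b ∈ BR, (∏ j, Sr x z (b j) (b j)) * Yr x z δ h0 b := by
  rw [TRi_sum i, mul_sum]
  refine sum_congr rfl fun b hb => ?_
  have hmem : ∀ w : ℕ, insr i w b ∈ TR ↔ w < lenr b := fun w => (insr_memi i b hb w).1
  have hmemi : ∀ w ∈ range (lenr b), insr i w b ∈ TRi i := fun w hw =>
    (insr_memi i b hb w).2.2 (mem_range.1 hw)
  have hinner : ∀ u ∈ range (lenr b),
      ∑ c' ∈ TR, fcr (insr i u b) * fcr c' * (2 - if c' ∈ TRi i then 1 else 0) *
        (V * MR x z δ h0 (insr i u b i) (c' i) * ∏ j ∈ univ.erase i, Sr x z (insr i u b j) (c' j)) =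
      ∑ w ∈ range (lenr b), (V * ∏ j, Sr x z (b j) (b j)) *
        (vz (∑ j, b j) u * vz (∑ j, b j) w * MR x z δ h0 u w) := by
    intro u hu
    have h1 := FMain_inner x z i horth b hmem u (mem_range.1 hu)
      (fun c' => fcr (insr i u b) * fcr c' * (2 - if c' ∈ TRi i then 1 else 0) *
        (V * MR x z δ h0 (insr i u b i) (c' i)))
    have h2 : ∑ c' ∈ TR, fcr (insr i u b) * fcr c' * (2 - if c' ∈ TRi i then 1 else 0) *
        (V * MR x z δ h0 (insr i u b i) (c' i) * ∏ j ∈ univ.erase i, Sr x z (insr i u b j) (c' j)) =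
        ∑ c' ∈ TR, (fcr (insr i u b) * fcr c' * (2 - if c' ∈ TRi i then 1 else 0) *
        (V * MR x z δ h0 (insr i u b i) (c' i))) * ∏ j ∈ univ.erase i, Sr x z (insr i u b j) (c' j) := by
      refine sum_congr rfl fun c' _ => ?_
      ring
    rw [h2, h1]
    refine sum_congr rfl fun w hw => ?_
    rw [if_pos (hmemi w hw), FMain_fcr, FMain_fcr, FMain_same, FMain_same]
    ring
  rw [sum_congr rfl hinner, ← FMain_Yr x z h0 hh δ b]
  rw [← mul_assoc, mul_sum]
  refine sum_congr rfl fun u _ => ?_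
  rw [mul_sum]

theorem main_h (x z : ℕ) (ω : ℕ → ℝ) (i : Fin 4)
    (horth : ∀ j ≤ 864, ∀ j' ≤ 864, j ≠ j' → Sr x z j j' = 0) (V : ℝ) :
    ∑ c ∈ TR, ∑ c' ∈ TR, fcr c * fcr c' *
        (V * (Br x z ω (c i) (c' i) * ∏ j ∈ univ.erase i, Sr x z (c j) (c' j))) =
      V * ∑ b ∈ BQ, (∏ j, Sr x z (b j) (b j)) * Qr x z ω b := by
  rw [TR_sum i, mul_sum]
  refine sum_congr rfl fun b hb => ?_
  have hmem : ∀ w : ℕ, insr i w b ∈ TR ↔ w < lenr b := fun w => insr_mem i b hb w
  have hinner : ∀ u ∈ range (lenr b),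
      ∑ c' ∈ TR, fcr (insr i u b) * fcr c' *
        (V * (Br x z ω (insr i u b i) (c' i) * ∏ j ∈ univ.erase i, Sr x z (insr i u b j) (c' j))) =
      ∑ w ∈ range (lenr b), (V * ∏ j, Sr x z (b j) (b j)) *
        (vz (∑ j, b j) u * vz (∑ j, b j) w * Br x z ω u w) := by
    intro u hu
    have h1 := FMain_inner x z i horth b hmem u (mem_range.1 hu)
      (fun c' => fcr (insr i u b) * fcr c' * (V * Br x z ω (insr i u b i) (c' i)))
    have h2 : ∑ c' ∈ TR, fcr (insr i u b) * fcr c' *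
        (V * (Br x z ω (insr i u b i) (c' i) * ∏ j ∈ univ.erase i, Sr x z (insr i u b j) (c' j))) =
        ∑ c' ∈ TR, (fcr (insr i u b) * fcr c' * (V * Br x z ω (insr i u b i) (c' i))) *
          ∏ j ∈ univ.erase i, Sr x z (insr i u b j) (c' j) := by
      refine sum_congr rfl fun c' _ => ?_
      ring
    rw [h2, h1]
    refine sum_congr rfl fun w _ => ?_
    rw [FMain_fcr, FMain_fcr, FMain_same, FMain_same]
    ring
  rw [sum_congr rfl hinner]
  unfold Qr
  rw [← mul_assoc, mul_sum]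
  refine sum_congr rfl fun u _ => ?_
  rw [mul_sum]

theorem main_0 (x z : ℕ) (horth : ∀ j ≤ 864, ∀ j' ≤ 864, j ≠ j' → Sr x z j j' = 0) (V : ℝ) :
    ∑ c ∈ TR, ∑ c' ∈ TR, fcr c * fcr c' * (V * ∏ j, Sr x z (c j) (c' j)) =
      V * ∑ c ∈ TR, fcr c ^ 2 * ∏ j, Sr x z (c j) (c j) := by
  rw [mul_sum]
  refine sum_congr rfl fun c hc => ?_
  rw [sum_eq_single c]
  · ring
  · intro c' hc' hne
    have h2 : ∃ j, c j ≠ c' j := by
      by_contra hcon
      push Not at hcon
      exact hne (funext fun j => (hcon j).symm)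
    obtain ⟨j, hj⟩ := h2
    rw [prod_eq_zero (mem_univ j) (horth _ (TR_coord _ hc j) _ (TR_coord _ hc' j) hj)]
    ring
  · intro h
    exact absurd hc h

end Pool.Agent.Lib.MP_092512_nt.RT
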