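import Pool.Agent.Lib.MP_092512_nt.RT.Defs
import Pool.Agent.Lib.MP_092512_nt.P3.C5b

/-!
# F: limits of `Sr` (adapt Lib/.../P3/F5.lean)

PROOFS.  `Sr_ne`: `alp_sum_ne`, `Sr_eq`: `alp_sum_eq` (`jm = 864`), with `x^s < ⌊x^s⌋ + 1`.
-/

set_option autoImplicit false

open Finset Filter

open scoped ArithmeticFunction.Moebius

namespace Pool.Agent.Lib.MP_092512_nt.RT

open Pool.Agent.Lib.SW Pool.Agent.Lib.MP_092512_nt.P3

private theorem FSg_er_pos : (0 : ℝ) < er := by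
  unfold er
  norm_num

theorem Sr_ne (x z : ℕ) (hx : 1 ≤ x) (j j' : ℕ) (hj : j ≠ j') : Sr x z j j' = 0 := by
  unfold Sr
  exact alp_sum_ne x z hx er FSg_er_pos j j' _ hj (Nat.lt_floor_add_one _)

theorem Sr_eq (B : ℕ) (hB : 3 ≤ B) (ε : ℝ) (hε : 0 < ε) : ∃ x₀ : ℕ, ∀ x : ℕ, x₀ ≤ x → ∀ j ≤ 864,
    |Vz (zB B x) * Real.log x * Sr x (zB B x) j j - er| ≤ ε := by
  obtain ⟨x₀, h⟩ := alp_sum_eq B 864 hB er FSg_er_pos (by unfold er; norm_num) ε hε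
  refine ⟨x₀, fun x hx j hj => ?_⟩
  unfold Sr
  exact h x hx j hj _ (Nat.lt_floor_add_one _)

end Pool.Agent.Lib.MP_092512_nt.RT
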