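import Pool.Agent.Lib.MP_092512_nt.RT.FGeo
import Pool.Agent.Lib.MP_092512_nt.RT.CBet
import Pool.Agent.Lib.MP_092512_nt.P3.Spec2
import Pool.Agent.Lib.MP_092512_nt.P3.C5

/-!
# F: asymptotic formula for `THr` (adapt Lib/.../P3/F3.lean, one coordinate with `bet`)

PROOF.  `sieve_int` with `k = 4`, `K = 64`, exponent `A + 1` instead of `A`, `ε = 1/400000`, `α_j = alp x z er (c j) (c' j)` for `j ≠ i`, `α_i = bet x z er ω (c i) (c' i)/log x`
(`bet_le`: `|α_i| ≤ 16 · 3^ω(r)` for `r ≤ x`; `bet_supp`: `r ≤ x^(..er + ur) ≤ x`), `R_j = x^((c_j+1+c'_j+1) er)` for `j ≠ i`, `R_i = x^((c_i+1+c'_i+1) er + ur)`.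
`∏ R_j ≤ x^(1872 er + ur) = x^(300000/300001) ≤ x^(1 - 1/400000)` (`TR_level` twice).  `bet_id`, `LC_mul` (`n + h_j ≥ 1`).  Multiply the result by `log x`.
-/

set_option autoImplicit false

open Finset Filter

open scoped ArithmeticFunction.Moebius

namespace Pool.Agent.Lib.MP_092512_nt.RT

open Pool.Agent.Lib.SW Pool.Agent.Lib.MP_092512_nt.P3

private theorem FTH_er : (0 : ℝ) < er := by unfold er; norm_num

private theorem FTH_ur : (0 : ℝ) < ur := by unfold ur; norm_num

private theorem FTH_prod (x : ℕ) (hx : 1 ≤ x) (i : Fin 4) (c c' : Fin 4 → ℕ) (hc : c ∈ TR) (hc' : c' ∈ TR) :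
    ∏ j, (x : ℝ) ^ (((c j : ℝ) + 1 + ((c' j : ℝ) + 1)) * er + if j = i then ur else 0) ≤
      (x : ℝ) ^ (1 - 1 / 400000 : ℝ) := by
  have hx0 : (0 : ℝ) < x := by exact_mod_cast hx
  have hx1 : (1 : ℝ) ≤ x := by exact_mod_cast hx
  rw [← Real.rpow_sum_of_pos hx0]
  refine Real.rpow_le_rpow_of_exponent_le hx1 ?_
  have h1 := TR_level c hc
  have h2 := TR_level c' hc'
  have h3 : (∑ j, ((c j : ℝ) + 1 + ((c' j : ℝ) + 1))) ≤ 1872 := by
    have e : ∑ j, (c j + 1) + ∑ j, (c' j + 1) ≤ 1872 := by omega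
    have e' : ((∑ j, (c j + 1) + ∑ j, (c' j + 1) : ℕ) : ℝ) ≤ 1872 := by exact_mod_cast e
    push_cast at e'
    rw [sum_add_distrib]
    exact e'
  have h4 : ∑ j : Fin 4, (if j = i then ur else 0) = ur := by
    rw [sum_ite_eq' univ i (fun _ => ur), if_pos (mem_univ i)]
  rw [sum_add_distrib, h4, ← sum_mul]
  calc (∑ j, ((c j : ℝ) + 1 + ((c' j : ℝ) + 1))) * er + ur ≤ 1872 * er + ur :=
        add_le_add (mul_le_mul_of_nonneg_right h3 FTH_er.le) le_rfl
    _ ≤ 1 - 1 / 400000 := by unfold er ur; norm_num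

theorem THr_asymp (h : Fin 4 → ℕ) (hinj : Function.Injective h) (A : ℕ) :
    ∃ B₀ : ℕ, ∀ B : ℕ, B₀ ≤ B → ∃ x₀ : ℕ, ∀ x : ℕ, x₀ ≤ x → ∀ ω : ℕ → ℝ,
      (∀ p, 0 ≤ ω p ∧ ω p ≤ 1) → (∀ p, ω p ≠ 0 → zB B x < p ∧ (p : ℝ) ≤ (x : ℝ) ^ ur) →
      ∀ i : Fin 4, ∀ c ∈ TR, ∀ c' ∈ TR,
      |THr h x (zB B x) ω i c c' - x * VH h (zB B x) * (Br x (zB B x) ω (c i) (c' i) *
        ∏ j ∈ univ.erase i, Sr x (zB B x) (c j) (c' j))| ≤ x / (Real.log x) ^ A := by
  classical
  obtain ⟨B1, hB1⟩ := sieve_int 4 h hinj 16 (A + 1) (1 / 400000) (by norm_num)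
  refine ⟨max 3 B1, fun B hB => ?_⟩
  obtain ⟨hB3, hBB⟩ := max_le_iff.1 hB
  obtain ⟨x1, hx1⟩ := hB1 B hBB
  obtain ⟨x2, hx2⟩ := alp_le B 864 hB3 er FTH_er (by unfold er; norm_num)
  obtain ⟨x3, hx3⟩ := bet_le B hB3
  refine ⟨max x1 (max x2 (max x3 3)), fun x hx ω hω1 hω2 i c hc c' hc' => ?_⟩
  simp only [max_le_iff] at hx
  obtain ⟨k1, k2, k3, k4⟩ := hx
  have k5 : 1 ≤ x := by omega
  have hxR : (1 : ℝ) ≤ x := by exact_mod_cast k5
  have hlog : 1 ≤ Real.log x := by
    have h1 : Real.exp 1 ≤ x := by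
      have h2 := Real.exp_one_lt_d9
      have h3 : (3 : ℝ) ≤ x := by exact_mod_cast k4
      linarith
    rw [Real.le_log_iff_exp_le (by linarith)]
    exact h1
  have hlog0 : 0 < Real.log x := by linarith
  set z : ℕ := zB B x with hz
  obtain ⟨α, hα⟩ : ∃ α : Fin 4 → ℕ → ℝ, α = fun j r =>
    if j = i then bet x z er ω (c j) (c' j) r / Real.log x else alp x z er (c j) (c' j) r := ⟨_, rfl⟩
  have hαi : ∀ r, α i r = bet x z er ω (c i) (c' i) r / Real.log x := by
    intro r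
    rw [hα]
    exact if_pos rfl
  have hαj : ∀ j, j ≠ i → ∀ r, α j r = alp x z er (c j) (c' j) r := by
    intro j hj r
    rw [hα]
    exact if_neg hj
  have hexp : ∀ j, ((c j : ℝ) + 1 + ((c' j : ℝ) + 1)) * er + ur ≤ 1 := by
    intro j
    have h1 : (c j : ℝ) ≤ 864 := by exact_mod_cast TR_coord c hc j
    have h2 : (c' j : ℝ) ≤ 864 := by exact_mod_cast TR_coord c' hc' j
    have h3 : ((c j : ℝ) + 1 + ((c' j : ℝ) + 1)) * er ≤ 1730 * er :=
      mul_le_mul_of_nonneg_right (by linarith) FTH_er.le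
    have h4 : 1730 * er + ur ≤ 1 := by unfold er ur; norm_num
    linarith
  have key := hx1 x k1 α
    (fun j => (x : ℝ) ^ (((c j : ℝ) + 1 + ((c' j : ℝ) + 1)) * er + if j = i then ur else 0))
    (fun j => Real.one_le_rpow hxR (add_nonneg (mul_nonneg (by positivity) FTH_er.le) (by
      split_ifs
      · exact FTH_ur.le
      · exact le_rfl)))
    (fun j r hr => by
      by_cases hj : j = i
      · subst hj
        rw [hαi] at hr
        have hr' : bet x z er ω (c j) (c' j) r ≠ 0 := fun h0 => hr (by rw [h0, zero_div])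
        beta_reduce
        rw [if_pos rfl]
        exact bet_supp x z k5 er FTH_er ω hω2 (c j) (c' j) r hr'
      · rw [hαj j hj] at hr
        beta_reduce
        rw [if_neg hj, add_zero]
        exact alp_supp x z k5 er FTH_er (c j) (c' j) r hr)
    (fun j r => by
      by_cases hj : j = i
      · subst hj
        rw [hαi, abs_div, abs_of_pos hlog0, div_le_iff₀ hlog0]
        by_cases hr : bet x z er ω (c j) (c' j) r = 0
        · rw [hr, abs_zero]
          positivity
        · have h1 := (bet_supp x z k5 er FTH_er ω hω2 (c j) (c' j) r hr).2.2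
          have h2 : (r : ℝ) ≤ x := by
            refine h1.trans ?_
            calc (x : ℝ) ^ (((c j : ℝ) + 1 + ((c' j : ℝ) + 1)) * er + ur) ≤ (x : ℝ) ^ (1 : ℝ) :=
                  Real.rpow_le_rpow_of_exponent_le hxR (hexp j)
              _ = x := Real.rpow_one _
          have h3 := hx3 x k3 ω hω1 (c j) (TR_coord c hc j) (c' j) (TR_coord c' hc' j) r h2
          refine h3.trans (le_of_eq ?_)
          push_cast
          ring
      · rw [hαj j hj]
        have h1 := hx2 x k2 (c j) (TR_coord c hc j) (c' j) (TR_coord c' hc' j) r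
        refine h1.trans (mul_le_mul_of_nonneg_right ?_ (by positivity))
        push_cast
        norm_num)
    (FTH_prod x k5 i c c' hc hc')
  -- the sum
  have hT : ∑ n ∈ (Ioc x (2 * x)).filter (fun n => ∀ i, Nat.Coprime (n + h i) (primorial z)),
        ∏ j, ∑ r ∈ (n + h j).divisors, α j r = THr h x z ω i c c' / Real.log x := by
    unfold THr NR PR
    rw [sum_div]
    refine sum_congr rfl fun n hn => ?_
    have hn0 : ∀ j, n + h j ≠ 0 := by
      intro j
      have := (mem_Ioc.1 (mem_filter.1 hn).1).1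
      omega
    have e1 : ∑ r ∈ (n + h i).divisors, α i r =
        ps ω (n + h i) * (LC x z er (c i) (n + h i) * LC x z er (c' i) (n + h i)) / Real.log x := by
      rw [bet_id x z k5 er FTH_er ω (c i) (c' i) (n + h i) (hn0 i), sum_div]
      exact sum_congr rfl fun r _ => hαi r
    have e2 : ∏ j ∈ univ.erase i, ∑ r ∈ (n + h j).divisors, α j r =
        ∏ j ∈ univ.erase i, (LC x z er (c j) (n + h j) * LC x z er (c' j) (n + h j)) := by
      refine prod_congr rfl fun j hj => ?_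
      rw [LC_mul x z er (c j) (c' j) (n + h j) (hn0 j)]
      exact sum_congr rfl fun r _ => hαj j (mem_erase.1 hj).1 r
    rw [← mul_prod_erase univ _ (mem_univ i), e1, e2, ← prod_mul_distrib,
      ← mul_prod_erase univ (fun j => LC x z er (c j) (n + h j) * LC x z er (c' j) (n + h j)) (mem_univ i)]
    ring
  have hS : ∏ j, ∑ r ∈ Icc 1 ⌊(x : ℝ) ^ (((c j : ℝ) + 1 + ((c' j : ℝ) + 1)) * er + if j = i then ur else 0)⌋₊,
      α j r / r = Br x z ω (c i) (c' i) / Real.log x * ∏ j ∈ univ.erase i, Sr x z (c j) (c' j) := by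
    rw [← mul_prod_erase univ _ (mem_univ i)]
    congr 1
    · unfold Br
      rw [if_pos rfl, sum_div]
      refine sum_congr rfl fun r _ => ?_
      rw [hαi]
      ring
    · refine prod_congr rfl fun j hj => ?_
      unfold Sr
      rw [if_neg (mem_erase.1 hj).1, add_zero]
      refine sum_congr rfl fun r _ => ?_
      rw [hαj j (mem_erase.1 hj).1]
  rw [hT, hS] at key
  have e : THr h x z ω i c c' - x * VH h z * (Br x z ω (c i) (c' i) * ∏ j ∈ univ.erase i, Sr x z (c j) (c' j)) =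
      Real.log x * (THr h x z ω i c c' / Real.log x -
        x * VH h z * (Br x z ω (c i) (c' i) / Real.log x * ∏ j ∈ univ.erase i, Sr x z (c j) (c' j))) := by
    field_simp
  rw [e, abs_mul, abs_of_pos hlog0]
  calc Real.log x * _ ≤ Real.log x * (x / (Real.log x) ^ (A + 1)) := mul_le_mul_of_nonneg_left key hlog0.le
    _ = x / (Real.log x) ^ A := by
        rw [pow_succ]
        field_simp

end Pool.Agent.Lib.MP_092512_nt.RT
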