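import Pool.Agent.Lib.MP_092512_nt.RT.FGeo
import Pool.Agent.Lib.MP_092512_nt.RT.BLev
import Pool.Agent.Lib.MP_092512_nt.P3.Spec2
import Pool.Agent.Lib.MP_092512_nt.P3.C5
import Pool.Agent.Lib.MP_092512_nt.P3.C1
import Pool.Agent.Lib.MP_092512_nt.RT.AYeq

/-!
# F: asymptotic formula for `TIr` (adapt Lib/.../P3/F2.lean)

PROOF.  `sieve_F` with `k = 4`, `K` large (below), `ε = 1/2000000`, `F = FR x z δ (h i) (c i) (c' i)`, `α_j = alp x z er (c j) (c' j)`, `R_j = x^((c_j + 1 + c'_j + 1) er)`.  `B₀` = the `B₀`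
of `sieve_F` and `3`; `A', K'` of `sieve_F` go into `level_GG` (`ε = 1/2000000`, `Q = ⌊x^(1/2 - 1/2000000)⌋ ≤ x`).  Bound of `|FR|`: `GG_le`: `|GG| ≤ K₁`, at most `K₁` divisors, `|LC| ≤ 2 K₁`
(`lamC_le`), so `|FR| ≤ 4 K₁³`.  Support: `GG_rough`: all prime factors `> x^δ > z`.  `alp_supp`, `alp_le` (`jm = 864`).  Levels: `TRi_level_i`, `TR_level_i`:
`∏_{j ≠ i} R_j ≤ x^((633 + 867) er) = x^(150000/300001)`, and `150000/300001 + 1/2000000 < 1/2 - 1/2000000`, so `(∏ R_j) x^ε ≤ Q` for large `x`.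
Translation: `PR c n * PR c' n = (LC LC')(n + h_i) ∏_{j ≠ i} (LC LC')(n + h_j)` and `LC_mul` for `j ≠ i`; for `j = i` the coprimality of `n + h_i` is automatic when `GG(n + h_i) ≠ 0`.
-/

set_option autoImplicit false

open Finset Filter

open scoped ArithmeticFunction.Moebius

namespace Pool.Agent.Lib.MP_092512_nt.RT

open Pool.Agent.Lib.SW Pool.Agent.Lib.MP_092512_nt.P3

private theorem FTI_er : (0 : ℝ) < er := by unfold er; norm_num

private theorem FTI_LC_le {x z : ℕ} {j m K : ℕ} (hl : ∀ d : ℕ, |lamC x z er j d| ≤ 2)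
    (hm : m.divisors.card ≤ K) : |LC x z er j m| ≤ 2 * K := by
  unfold LC
  calc |∑ d ∈ m.divisors, lamC x z er j d| ≤ ∑ d ∈ m.divisors, |lamC x z er j d| :=
        Finset.abs_sum_le_sum_abs _ _
    _ ≤ ∑ d ∈ m.divisors, (2 : ℝ) := Finset.sum_le_sum fun d _ => hl d
    _ = (m.divisors.card : ℝ) * 2 := by rw [Finset.sum_const, nsmul_eq_mul]
    _ ≤ K * 2 := mul_le_mul_of_nonneg_right (by exact_mod_cast hm) (by norm_num)
    _ = 2 * K := by ring

private theorem FTI_prod (x : ℕ) (hx : 1 ≤ x) (i : Fin 4) (c c' : Fin 4 → ℕ) (hc : c ∈ TRi i)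
    (hc' : c' ∈ TR) :
    ∏ j ∈ univ.erase i, (x : ℝ) ^ (((c j : ℝ) + 1 + ((c' j : ℝ) + 1)) * er) ≤
      (x : ℝ) ^ (150000 / 300001 : ℝ) := by
  have hx0 : (0 : ℝ) < x := by exact_mod_cast hx
  have hx1 : (1 : ℝ) ≤ x := by exact_mod_cast hx
  rw [← Real.rpow_sum_of_pos hx0]
  refine Real.rpow_le_rpow_of_exponent_le hx1 ?_
  have h1 := TRi_level_i i c hc
  have h2 := TR_level_i i c' hc'
  have h3 : (∑ j ∈ univ.erase i, ((c j : ℝ) + 1 + ((c' j : ℝ) + 1))) ≤ 1500 := by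
    have e : ∑ j ∈ univ.erase i, (c j + 1) + ∑ j ∈ univ.erase i, (c' j + 1) ≤ 1500 := by omega
    have e' : ((∑ j ∈ univ.erase i, (c j + 1) + ∑ j ∈ univ.erase i, (c' j + 1) : ℕ) : ℝ) ≤ 1500 := by
      exact_mod_cast e
    push_cast at e'
    rw [sum_add_distrib]
    exact e'
  rw [← sum_mul]
  calc (∑ j ∈ univ.erase i, ((c j : ℝ) + 1 + ((c' j : ℝ) + 1))) * er ≤ 1500 * er :=
        mul_le_mul_of_nonneg_right h3 FTI_er.le
    _ = 150000 / 300001 := by unfold er; norm_num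

private theorem FTI_level : ∃ x₀ : ℕ, ∀ x : ℕ, x₀ ≤ x →
    (x : ℝ) ^ (150000 / 300001 : ℝ) * (x : ℝ) ^ (1 / 2000000 : ℝ) ≤
      (⌊(x : ℝ) ^ (1 / 2 - 1 / 2000000 : ℝ)⌋₊ : ℝ) := by
  have h1 : Filter.Tendsto (fun x : ℕ => (x : ℝ) ^ (1 / 2000000 : ℝ)) Filter.atTop Filter.atTop :=
    (tendsto_rpow_atTop (by norm_num)).comp tendsto_natCast_atTop_atTop
  obtain ⟨x1, hx1⟩ := Filter.eventually_atTop.mp (h1.eventually_ge_atTop 2)
  refine ⟨max x1 1, fun x hx => ?_⟩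
  obtain ⟨k1, k2⟩ := max_le_iff.mp hx
  have hx0 : (0 : ℝ) < x := by exact_mod_cast k2
  have hxR : (1 : ℝ) ≤ x := by exact_mod_cast k2
  have h2 := hx1 x k1
  set a : ℝ := (x : ℝ) ^ (150000 / 300001 : ℝ) * (x : ℝ) ^ (1 / 2000000 : ℝ) with ha
  have ha1 : 1 ≤ a := by
    have e1 := Real.one_le_rpow hxR (show (0 : ℝ) ≤ 150000 / 300001 by norm_num)
    have e2 := Real.one_le_rpow hxR (show (0 : ℝ) ≤ 1 / 2000000 by norm_num)
    calc (1 : ℝ) = 1 * 1 := by norm_num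
      _ ≤ a := mul_le_mul e1 e2 (by norm_num) (by linarith)
  have h3 : a * (x : ℝ) ^ (1 / 2000000 : ℝ) ≤ (x : ℝ) ^ (1 / 2 - 1 / 2000000 : ℝ) := by
    rw [ha, ← Real.rpow_add hx0, ← Real.rpow_add hx0]
    apply Real.rpow_le_rpow_of_exponent_le hxR
    norm_num
  have h4 : 2 * a ≤ (x : ℝ) ^ (1 / 2 - 1 / 2000000 : ℝ) := by
    refine le_trans ?_ h3
    rw [mul_comm]
    exact mul_le_mul_of_nonneg_left h2 (by linarith)
  have h5 := Nat.lt_floor_add_one ((x : ℝ) ^ (1 / 2 - 1 / 2000000 : ℝ))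
  linarith

private theorem FTI_one (h : Fin 4 → ℕ) (hinj : Function.Injective h) (δ : ℝ) (hδ : 0 < δ)
    (hδ1 : δ ≤ er) (A : ℕ) (i : Fin 4) :
    ∃ B₀ : ℕ, ∀ B : ℕ, B₀ ≤ B → ∃ x₀ : ℕ, ∀ x : ℕ, x₀ ≤ x → ∀ c ∈ TRi i, ∀ c' ∈ TR,
      |TIr h x (zB B x) δ i c c' - VH' h (zB B x) * MR x (zB B x) δ (h i) (c i) (c' i) *
        ∏ j ∈ univ.erase i, Sr x (zB B x) (c j) (c' j)| ≤ x / (Real.log x) ^ A := by
  obtain ⟨K1, hK1⟩ := GG_le δ hδ hδ1
  obtain ⟨B1, A', K', hB1⟩ := sieve_F 4 h hinj i (4 * K1 ^ 3 + 4) A (1 / 2000000) (by norm_num)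
  refine ⟨max 3 B1, fun B hB => ?_⟩
  obtain ⟨hB3, hBB⟩ := max_le_iff.1 hB
  obtain ⟨x1, hx1⟩ := hB1 B hBB
  obtain ⟨x2, hx2⟩ := alp_le B 864 hB3 er FTI_er (by unfold er; norm_num)
  obtain ⟨x3, hx3⟩ := lamC_le B 864 hB3 er FTI_er (by unfold er; norm_num)
  obtain ⟨x4, hx4⟩ := level_GG (h i) B hB3 δ hδ hδ1 A' K' (1 / 2000000) (by norm_num)
  obtain ⟨x6, hx6⟩ := FTI_level
  obtain ⟨x7, hx7⟩ := Filter.eventually_atTop.mp (C1_zB_le_rpow B δ hδ)
  refine ⟨max x1 (max x2 (max x3 (max x4 (max x6 (max x7 (max 3 (h i))))))), fun x hx c hc c' hc' => ?_⟩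
  simp only [max_le_iff] at hx
  obtain ⟨k1, k2, k3, k4, k6, k7, k8, k9⟩ := hx
  have k8' : 1 ≤ x := by omega
  have hxR : (1 : ℝ) ≤ x := by exact_mod_cast k8'
  set z : ℕ := zB B x with hz
  have hcT : c ∈ TR := (mem_TRi.mp hc).1
  have hci := TR_coord c hcT i
  have hci' := TR_coord c' hc' i
  -- support
  have hsupp : ∀ m, FR x z δ (h i) (c i) (c' i) m ≠ 0 → x + h i < m ∧ m ≤ 2 * x + h i ∧
      Nat.Coprime m (primorial z) ∧ GG x δ m ≠ 0 := by
    intro m hm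
    unfold FR at hm
    split_ifs at hm with h1
    · have he : GG x δ m ≠ 0 := left_ne_zero_of_mul hm
      have h5 := GG_rough x k8 δ hδ1 m (by omega) (by omega) he
      refine ⟨h1.1, h1.2, ?_, he⟩
      apply Nat.coprime_of_dvd
      intro p hp hpm hpP
      have h6 : p ≤ z := (hp.dvd_primorial_iff).mp hpP
      have h7 := h5 p (Nat.mem_primeFactors.mpr ⟨hp, hpm, by omega⟩)
      have h8 := hx7 x k7
      have h9 : (p : ℝ) ≤ z := by exact_mod_cast h6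
      linarith
    · exact absurd rfl hm
  have hbd : ∀ m, |FR x z δ (h i) (c i) (c' i) m| ≤ ((4 * K1 ^ 3 + 4 : ℕ) : ℝ) := by
    intro m
    by_cases hm : FR x z δ (h i) (c i) (c' i) m = 0
    · rw [hm, abs_zero]
      exact Nat.cast_nonneg _
    · obtain ⟨h1, h2, _, h3⟩ := hsupp m hm
      unfold FR
      rw [if_pos ⟨h1, h2⟩, abs_mul, abs_mul]
      obtain ⟨e1, e2⟩ := hK1 x k8 m (by omega) (by omega)
      have e0 := GG_nonneg x k8 δ m (by omega) (by omega)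
      have e3 : |GG x δ m| ≤ K1 := by rw [abs_of_nonneg e0]; exact e1
      have e4 := FTI_LC_le (m := m) (hx3 x k3 (c i) hci) (e2 h3)
      have e5 := FTI_LC_le (m := m) (hx3 x k3 (c' i) hci') (e2 h3)
      have hK0 : (0 : ℝ) ≤ K1 := Nat.cast_nonneg _
      calc |GG x δ m| * (|LC x z er (c i) m| * |LC x z er (c' i) m|) ≤
            K1 * (2 * K1 * (2 * K1)) :=
            mul_le_mul e3 (mul_le_mul e4 e5 (abs_nonneg _) (by positivity)) (by positivity) hK0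
        _ ≤ ((4 * K1 ^ 3 + 4 : ℕ) : ℝ) := by
            push_cast
            nlinarith
  have hTI : TIr h x z δ i c c' =
      ∑ n ∈ (Ioc x (2 * x)).filter (fun n => ∀ j ≠ i, Nat.Coprime (n + h j) (primorial z)),
        FR x z δ (h i) (c i) (c' i) (n + h i) *
          ∏ j ∈ univ.erase i, ∑ r ∈ (n + h j).divisors, alp x z er (c j) (c' j) r := by
    unfold TIr
    have hsub : NR h x z ⊆
        (Ioc x (2 * x)).filter (fun n => ∀ j ≠ i, Nat.Coprime (n + h j) (primorial z)) := by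
      intro n hn
      unfold NR at hn
      obtain ⟨h1, h2⟩ := mem_filter.mp hn
      exact mem_filter.mpr ⟨h1, fun j _ => h2 j⟩
    rw [← Finset.sum_subset hsub]
    · refine Finset.sum_congr rfl fun n hn => ?_
      unfold NR at hn
      obtain ⟨h1, h2⟩ := mem_filter.mp hn
      have h3 := mem_Ioc.mp h1
      unfold FR PR
      rw [if_pos ⟨by omega, by omega⟩, ← Finset.prod_mul_distrib]
      have e1 : ∏ j, (LC x z er (c j) (n + h j) * LC x z er (c' j) (n + h j)) =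
          (LC x z er (c i) (n + h i) * LC x z er (c' i) (n + h i)) *
            ∏ j ∈ univ.erase i, (LC x z er (c j) (n + h j) * LC x z er (c' j) (n + h j)) :=
        (Finset.mul_prod_erase univ (fun j => LC x z er (c j) (n + h j) * LC x z er (c' j) (n + h j))
          (mem_univ i)).symm
      have e2 : ∏ j ∈ univ.erase i, (LC x z er (c j) (n + h j) * LC x z er (c' j) (n + h j)) =
          ∏ j ∈ univ.erase i, ∑ r ∈ (n + h j).divisors, alp x z er (c j) (c' j) r :=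
        Finset.prod_congr rfl fun j _ => LC_mul x z er (c j) (c' j) (n + h j) (by omega)
      rw [e1, e2]
      ring
    · intro n hn hn'
      have hF : FR x z δ (h i) (c i) (c' i) (n + h i) = 0 := by
        by_contra hne
        obtain ⟨_, _, h3, _⟩ := hsupp _ hne
        apply hn'
        unfold NR
        obtain ⟨h4, h5⟩ := mem_filter.mp hn
        refine mem_filter.mpr ⟨h4, fun j => ?_⟩
        by_cases hj : j = i
        · rw [hj]; exact h3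
        · exact h5 j hj
      rw [hF, zero_mul]
  have hQx : ⌊(x : ℝ) ^ (1 / 2 - 1 / 2000000 : ℝ)⌋₊ ≤ x := by
    have e1 : (x : ℝ) ^ (1 / 2 - 1 / 2000000 : ℝ) ≤ (x : ℝ) ^ (1 : ℝ) :=
      Real.rpow_le_rpow_of_exponent_le hxR (by norm_num)
    rw [Real.rpow_one] at e1
    have e2 := (Nat.floor_le (by positivity : (0 : ℝ) ≤ (x : ℝ) ^ (1 / 2 - 1 / 2000000 : ℝ))).trans e1
    exact_mod_cast e2
  have key := hx1 x k1 ⌊(x : ℝ) ^ (1 / 2 - 1 / 2000000 : ℝ)⌋₊ (FR x z δ (h i) (c i) (c' i)) hQx hbd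
    (fun m hm => by
      obtain ⟨h1, h2, h3, _⟩ := hsupp m hm
      exact ⟨h1, h2, h3⟩)
    (hx4 x k4 (c i) hci (c' i) hci')
    (fun j => alp x z er (c j) (c' j))
    (fun j => (x : ℝ) ^ (((c j : ℝ) + 1 + ((c' j : ℝ) + 1)) * er))
    (fun j => Real.one_le_rpow hxR (mul_nonneg (by positivity) FTI_er.le))
    (fun j r hr => alp_supp x z k8' er FTI_er (c j) (c' j) r hr)
    (fun j r => by
      have e1 := hx2 x k2 (c j) (TR_coord c hcT j) (c' j) (TR_coord c' hc' j) r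
      have e2 : (0 : ℝ) ≤ 3 ^ r.primeFactors.card := by positivity
      refine e1.trans (mul_le_mul_of_nonneg_right ?_ e2)
      push_cast
      have e3 : (0 : ℝ) ≤ K1 := Nat.cast_nonneg _
      have e4 : (0 : ℝ) ≤ (K1 : ℝ) ^ 3 := by positivity
      linarith)
    ((mul_le_mul_of_nonneg_right (FTI_prod x k8' i c c' hc hc') (by positivity)).trans (hx6 x k6))
  rw [hTI]
  exact key

theorem TIr_asymp (h : Fin 4 → ℕ) (hinj : Function.Injective h) (δ : ℝ) (hδ : 0 < δ) (hδ1 : δ ≤ er) (A : ℕ) :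
    ∃ B₀ : ℕ, ∀ B : ℕ, B₀ ≤ B → ∃ x₀ : ℕ, ∀ x : ℕ, x₀ ≤ x → ∀ i : Fin 4, ∀ c ∈ TRi i, ∀ c' ∈ TR,
      |TIr h x (zB B x) δ i c c' - VH' h (zB B x) * MR x (zB B x) δ (h i) (c i) (c' i) *
        ∏ j ∈ univ.erase i, Sr x (zB B x) (c j) (c' j)| ≤ x / (Real.log x) ^ A := by
  choose B₀ hB using FTI_one h hinj δ hδ hδ1 A
  refine ⟨univ.sup B₀, fun B hBB => ?_⟩
  have h1 : ∀ i, B₀ i ≤ B := fun i => (Finset.le_sup (mem_univ i)).trans hBB
  choose x₀ hx using fun i => hB i B (h1 i)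
  refine ⟨univ.sup x₀, fun x hxx i c hc c' hc' => ?_⟩
  exact hx i x ((Finset.le_sup (mem_univ i)).trans hxx) c hc c' hc'

end Pool.Agent.Lib.MP_092512_nt.RT
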