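import Pool.Agent.Lib.MP_092512_nt.RT.FSq
import Pool.Agent.Lib.MP_092512_nt.RT.FTI
import Pool.Agent.Lib.MP_092512_nt.RT.FTZ
import Pool.Agent.Lib.MP_092512_nt.RT.FTH
import Pool.Agent.Lib.MP_092512_nt.RT.FMain
import Pool.Agent.Lib.MP_092512_nt.RT.FSg
import Pool.Agent.Lib.MP_092512_nt.RT.AYge
import Pool.Agent.Lib.MP_092512_nt.RT.CUpper
import Pool.Agent.Lib.MP_092512_nt.RT.ECert

/-!
# F: the lower bound for `SR` (adapt Lib/.../P3/F6.lean)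

PROOF.  `κ := er³ ((11 - 4/ur) er ∑_{TR} fcr² - 4 ∑_{BQ} HU + 4 ∑_{BR} Pf) > 0` (`cert`).  `n₃ = ∑_{BQ} 1`.  Choose `ε > 0` (and `ε < 11 - 4/ur`, `ε < er`), then `δ ≤ er/2` with `δ ≤ δ₀`
of `Y_ge ε` and `8 C δ ≤ ε` (`C` of `UB_small`), such that
`(11 - ε - 4/ur) (er - ε)⁴ ∑ fcr² - 4 (er + ε)³ ∑_{BQ} (HU + ε + ε) + 4 ∑_{BR} min ((er-ε)³ (Pf - ε)) ((er+ε)³ (Pf - ε)) ≥ κ/2`
(continuity at `ε = 0`; `Pf ≥ 0`, if `Pf - ε < 0` use `Yr ≥ 0`: then the term is at least `0 ≥ (er-ε)³ (Pf - ε)`).  `δ`, `ε`, `κ` do not depend on `h`.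
For `h`: `A = 5`, `B` = maximum of `3` and the `B₀` of `TIr_asymp` (for this `δ`), `TZr_asymp`, `THr_asymp`.  For large `x`, `z = zB B x`, `V = Vz z > 0`, `L = log x`, `g_j = V L Sr j j ∈ [er - ε, er + ε]`,
`GG_nonneg` (`n + h_i ∈ (x, 3x]`), `Yr ≥ 0`, `Qr`-terms: `V L Qr(wm) ≤ HU + ε`, `8 V L Qr(ws) ≤ 8 C δ ≤ ε` (and `Qr ≥ 0`, or `HU + ε ≥ 0`).  `SR_ge`, `exp_*`, `*_asymp`, `main_*` (with `V = VH' h z`,
`V = x VH h z`) give `SR ≥ x VH (V L)⁻⁴ (≥ κ/2) - C' x/L⁵`, using `VH = V VH'` (`VH_eq`) and `(x/L) VH' (V L)⁻³ = x VH (V L)⁻⁴`; `x VH (V L)⁻⁴ ≥ c₀ x/L⁴` by the hypothesis.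
-/

set_option autoImplicit false

open Finset Filter

open scoped ArithmeticFunction.Moebius

namespace Pool.Agent.Lib.MP_092512_nt.RT

open Pool.Agent.Lib.SW Pool.Agent.Lib.MP_092512_nt.P3


private theorem FLow_er : (0 : ℝ) < er := by unfold er; norm_num

private theorem FLow_ur : (0 : ℝ) < 11 - 4 / ur := by unfold ur; norm_num

private theorem FLow_eps (T D P nQ nR : ℝ)
    (hκ : 0 < (11 - 4 / ur) * er ^ 4 * T - 4 * er ^ 3 * D + 4 * er ^ 3 * P) :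
    ∃ ε : ℝ, 0 < ε ∧ ε < er ∧ ε < 11 - 4 / ur ∧
      ((11 - 4 / ur) * er ^ 4 * T - 4 * er ^ 3 * D + 4 * er ^ 3 * P) / 2 ≤
      (11 - ε - 4 / ur) * (er - ε) ^ 4 * T - 4 * (er + ε) ^ 3 * (D + nQ * (2 * ε)) +
        4 * (er - ε) ^ 3 * (P - nR * ε) := by
  have hc : ContinuousAt (fun ε : ℝ => (11 - ε - 4 / ur) * (er - ε) ^ 4 * T -
      4 * (er + ε) ^ 3 * (D + nQ * (2 * ε)) + 4 * (er - ε) ^ 3 * (P - nR * ε)) 0 := by
    fun_prop
  have h0 : ((11 - 4 / ur) * er ^ 4 * T - 4 * er ^ 3 * D + 4 * er ^ 3 * P) / 2 <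
      (fun ε : ℝ => (11 - ε - 4 / ur) * (er - ε) ^ 4 * T -
      4 * (er + ε) ^ 3 * (D + nQ * (2 * ε)) + 4 * (er - ε) ^ 3 * (P - nR * ε)) 0 := by
    simp only [sub_zero, mul_zero, add_zero]
    linarith
  have h1 := hc.eventually (lt_mem_nhds h0)
  have h2 : ∀ᶠ ε : ℝ in nhds 0, ε < er := gt_mem_nhds FLow_er
  have h2' : ∀ᶠ ε : ℝ in nhds 0, ε < 11 - 4 / ur := gt_mem_nhds FLow_ur
  have h3 : ∀ᶠ ε : ℝ in nhdsWithin 0 (Set.Ioi 0), ε ∈ Set.Ioi (0 : ℝ) := self_mem_nhdsWithin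
  obtain ⟨ε, ⟨⟨ha, hb⟩, hb'⟩, hc⟩ := ((((h1.and h2).and h2').filter_mono nhdsWithin_le_nhds).and h3).exists
  exact ⟨ε, hc, hb, hb', ha.le⟩

private theorem FLow_bQ {b : Fin 3 → ℕ} (hb : b ∈ BQ) (j : Fin 3) : b j ≤ 864 := by
  have h1 := (mem_BQ.1 hb).2
  have h2 : b j ≤ ∑ j, b j := single_le_sum (f := b) (fun _ _ => Nat.zero_le _) (mem_univ j)
  omega

private theorem FLow_bR {b : Fin 3 → ℕ} (hb : b ∈ BR) (j : Fin 3) : b j ≤ 864 := by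
  have h1 := (mem_BR.1 hb).2
  have h2 : b j ≤ ∑ j, b j := single_le_sum (f := b) (fun _ _ => Nat.zero_le _) (mem_univ j)
  omega

private theorem FLow_omu (k : ℕ) (hk : k ∈ Icc (1 : ℕ) 1128) : 0 ≤ omu k := by
  rw [mem_Icc] at hk
  unfold omu
  split_ifs with h1 h2
  · norm_num
  · norm_num
  · have h3 : (2 : ℝ) ≤ k := by
      have : 2 ≤ k := by omega
      exact_mod_cast this
    have h4 : (k : ℝ) ≤ 1128 := by
      exact_mod_cast hk.2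
    have h5 : (0 : ℝ) < k := by linarith
    have h6 : (1 : ℝ) / 1128 ≤ 1 / k := one_div_le_one_div_of_le h5 h4
    have h7 : (1 : ℝ) / k ≤ 1 := by
      rw [div_le_one h5]
      linarith
    have h8 : 0 ≤ 1 - 1 / (k : ℝ) := by linarith
    have h9 : 0 ≤ 1 / (6 * (k : ℝ) ^ 3) := by positivity
    have h10 : 0 ≤ 1 / (15 * (k : ℝ) ^ 5 * (1 - 1 / k)) := by
      apply div_nonneg zero_le_one
      exact mul_nonneg (by positivity) h8
    linarith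

private theorem FLow_HU (len : ℕ) (v : ℕ → ℝ) : 0 ≤ HU len v := by
  unfold HU
  refine mul_nonneg FLow_er.le (sum_nonneg fun k hk => mul_nonneg (FLow_omu k hk) ?_)
  unfold Dk
  exact sum_nonneg fun _ _ => sq_nonneg _

private theorem FLow_err {α : Type} (S T : Finset α) (a u v : α → α → ℝ) (E : ℝ)
    (h : ∀ c ∈ S, ∀ c' ∈ T, |u c c' - v c c'| ≤ E) :
    |∑ c ∈ S, ∑ c' ∈ T, a c c' * u c c' - ∑ c ∈ S, ∑ c' ∈ T, a c c' * v c c'| ≤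
      (∑ c ∈ S, ∑ c' ∈ T, |a c c'|) * E := by
  rw [← sum_sub_distrib, sum_mul]
  refine (abs_sum_le_sum_abs _ _).trans (sum_le_sum fun c hc => ?_)
  rw [← sum_sub_distrib, sum_mul]
  refine (abs_sum_le_sum_abs _ _).trans (sum_le_sum fun c' hc' => ?_)
  rw [← mul_sub, abs_mul]
  exact mul_le_mul_of_nonneg_left (h c hc c' hc') (abs_nonneg _)

private theorem FLow_main (x z : ℕ) (δ : ℝ) (h : Fin 4 → ℕ) (L V ε κ c₀ : ℝ) (hL : 0 < L) (hV : 0 < V)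
    (hεe : ε < er) (hε0 : 0 < ε) (hεu : ε < 11 - 4 / ur) (hVH : VH h z = V * VH' h z)
    (hc : c₀ * V ^ 4 ≤ VH h z) (hc0 : 0 < c₀)
    (hg : ∀ j ≤ 864, |V * L * Sr x z j j - er| ≤ ε)
    (hY : ∀ i, ∀ b ∈ BR, x / L * (Pf (lenr b) (vz (∑ j, b j)) - ε) ≤ Yr x z δ (h i) b)
    (hY0 : ∀ i, ∀ b ∈ BR, 0 ≤ Yr x z δ (h i) b)
    (hQ : ∀ b ∈ BQ, V * L * (8 * Qr x z (ws x z δ) b + Qr x z (wm x δ) b) ≤ HU (lenr b) (vz (∑ j, b j)) + 2 * ε)
    (hκ : κ ≤ (11 - ε - 4 / ur) * (er - ε) ^ 4 * (∑ c ∈ TR, fcr c ^ 2) -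
      4 * (er + ε) ^ 3 * (∑ b ∈ BQ, (HU (lenr b) (vz (∑ j, b j)) + 2 * ε)) +
        4 * (er - ε) ^ 3 * (∑ b ∈ BR, (Pf (lenr b) (vz (∑ j, b j)) - ε))) (hκ0 : 0 < κ) :
    c₀ * κ * (x / L ^ 4) ≤
      (11 - ε - 4 / ur) * (x * VH h z * ∑ c ∈ TR, fcr c ^ 2 * ∏ j, Sr x z (c j) (c j)) -
      4 * (x * VH h z * ∑ b ∈ BQ, (∏ j, Sr x z (b j) (b j)) * (8 * Qr x z (ws x z δ) b + Qr x z (wm x δ) b)) +
      ∑ i : Fin 4, VH' h z * ∑ b ∈ BR, (∏ j, Sr x z (b j) (b j)) * Yr x z δ (h i) b := by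
  have hVL : 0 < V * L := mul_pos hV hL
  have hx : (0 : ℝ) ≤ x := Nat.cast_nonneg _
  have hVH0 : 0 < VH h z := lt_of_lt_of_le (by positivity) hc
  have hV'0 : 0 < VH' h z := by
    rw [hVH] at hVH0
    exact pos_of_mul_pos_right hVH0 hV.le
  have glo : ∀ j ≤ 864, er - ε ≤ V * L * Sr x z j j := fun j hj => by
    have := (abs_le.1 (hg j hj)).1; linarith
  have ghi : ∀ j ≤ 864, V * L * Sr x z j j ≤ er + ε := fun j hj => by
    have := (abs_le.1 (hg j hj)).2; linarith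
  have he0 : 0 < er - ε := by linarith
  have gpos : ∀ j ≤ 864, 0 ≤ V * L * Sr x z j j := fun j hj => he0.le.trans (glo j hj)
  have hA0 : 0 ≤ 11 - ε - 4 / ur := by linarith
  -- the lines
  have key1 : ∀ i : Fin 4, ∀ b ∈ BR, (er - ε) ^ 3 * (x / L * (Pf (lenr b) (vz (∑ j, b j)) - ε)) ≤
      (V * L) ^ 3 * ((∏ j, Sr x z (b j) (b j)) * Yr x z δ (h i) b) := by
    intro i b hb
    have hp : (V * L) ^ 3 * ∏ j, Sr x z (b j) (b j) = ∏ j : Fin 3, (V * L * Sr x z (b j) (b j)) := by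
      rw [prod_mul_distrib, prod_const, card_univ, Fintype.card_fin]
    have hp3 : (er - ε) ^ 3 ≤ ∏ j : Fin 3, (V * L * Sr x z (b j) (b j)) := by
      calc (er - ε) ^ 3 = ∏ _j : Fin 3, (er - ε) := by rw [prod_const, card_univ, Fintype.card_fin]
        _ ≤ _ := prod_le_prod (fun _ _ => he0.le) (fun j _ => glo _ (FLow_bR hb j))
    rw [← mul_assoc ((V * L) ^ 3), hp]
    calc (er - ε) ^ 3 * (x / L * (Pf (lenr b) (vz (∑ j, b j)) - ε))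
        ≤ (er - ε) ^ 3 * Yr x z δ (h i) b := mul_le_mul_of_nonneg_left (hY i b hb) (by positivity)
      _ ≤ _ := mul_le_mul_of_nonneg_right hp3 (hY0 i b hb)
  have key2 : ∀ c ∈ TR, (er - ε) ^ 4 * fcr c ^ 2 ≤
      (V * L) ^ 4 * (fcr c ^ 2 * ∏ j, Sr x z (c j) (c j)) := by
    intro c hcT
    have hp : (V * L) ^ 4 * ∏ j, Sr x z (c j) (c j) = ∏ j : Fin 4, (V * L * Sr x z (c j) (c j)) := by
      rw [prod_mul_distrib, prod_const, card_univ, Fintype.card_fin]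
    have hp4 : (er - ε) ^ 4 ≤ ∏ j : Fin 4, (V * L * Sr x z (c j) (c j)) := by
      calc (er - ε) ^ 4 = ∏ _j : Fin 4, (er - ε) := by rw [prod_const, card_univ, Fintype.card_fin]
        _ ≤ _ := prod_le_prod (fun _ _ => he0.le) (fun j _ => glo _ (TR_coord c hcT j))
    calc (er - ε) ^ 4 * fcr c ^ 2 = fcr c ^ 2 * (er - ε) ^ 4 := by ring
      _ ≤ fcr c ^ 2 * ((V * L) ^ 4 * ∏ j, Sr x z (c j) (c j)) := by
          rw [hp]; exact mul_le_mul_of_nonneg_left hp4 (sq_nonneg _)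
      _ = _ := by ring
  have key3 : ∀ b ∈ BQ, (V * L) ^ 4 * ((∏ j, Sr x z (b j) (b j)) *
        (8 * Qr x z (ws x z δ) b + Qr x z (wm x δ) b)) ≤
      (er + ε) ^ 3 * (HU (lenr b) (vz (∑ j, b j)) + 2 * ε) := by
    intro b hb
    have hp : (V * L) ^ 3 * ∏ j, Sr x z (b j) (b j) = ∏ j : Fin 3, (V * L * Sr x z (b j) (b j)) := by
      rw [prod_mul_distrib, prod_const, card_univ, Fintype.card_fin]
    have hp3 : ∏ j : Fin 3, (V * L * Sr x z (b j) (b j)) ≤ (er + ε) ^ 3 := by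
      calc ∏ j : Fin 3, (V * L * Sr x z (b j) (b j)) ≤ ∏ _j : Fin 3, (er + ε) :=
            prod_le_prod (fun j _ => gpos _ (FLow_bQ hb j)) (fun j _ => ghi _ (FLow_bQ hb j))
        _ = _ := by rw [prod_const, card_univ, Fintype.card_fin]
    have hp0 : 0 ≤ ∏ j : Fin 3, (V * L * Sr x z (b j) (b j)) :=
      prod_nonneg fun j _ => gpos _ (FLow_bQ hb j)
    have hU : 0 ≤ HU (lenr b) (vz (∑ j, b j)) + 2 * ε := by
      have := FLow_HU (lenr b) (vz (∑ j, b j))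
      linarith
    calc (V * L) ^ 4 * ((∏ j, Sr x z (b j) (b j)) * (8 * Qr x z (ws x z δ) b + Qr x z (wm x δ) b))
        = ((V * L) ^ 3 * ∏ j, Sr x z (b j) (b j)) *
            (V * L * (8 * Qr x z (ws x z δ) b + Qr x z (wm x δ) b)) := by ring
      _ ≤ ((V * L) ^ 3 * ∏ j, Sr x z (b j) (b j)) * (HU (lenr b) (vz (∑ j, b j)) + 2 * ε) := by
          rw [hp]
          exact mul_le_mul_of_nonneg_left (hQ b hb) hp0
      _ ≤ _ := by
          rw [hp]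
          exact mul_le_mul_of_nonneg_right hp3 hU
  have sum1 : ∀ i : Fin 4, (er - ε) ^ 3 * (x / L * ∑ b ∈ BR, (Pf (lenr b) (vz (∑ j, b j)) - ε)) ≤
      (V * L) ^ 3 * ∑ b ∈ BR, (∏ j, Sr x z (b j) (b j)) * Yr x z δ (h i) b := by
    intro i
    rw [mul_sum, mul_sum, mul_sum]
    exact sum_le_sum (key1 i)
  have sum2 : (er - ε) ^ 4 * ∑ c ∈ TR, fcr c ^ 2 ≤
      (V * L) ^ 4 * ∑ c ∈ TR, fcr c ^ 2 * ∏ j, Sr x z (c j) (c j) := by
    rw [mul_sum, mul_sum]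
    exact sum_le_sum key2
  have sum3 : (V * L) ^ 4 * ∑ b ∈ BQ, (∏ j, Sr x z (b j) (b j)) *
        (8 * Qr x z (ws x z δ) b + Qr x z (wm x δ) b) ≤
      (er + ε) ^ 3 * ∑ b ∈ BQ, (HU (lenr b) (vz (∑ j, b j)) + 2 * ε) := by
    rw [mul_sum, mul_sum]
    exact sum_le_sum key3
  set SP : ℝ := ∑ b ∈ BR, (Pf (lenr b) (vz (∑ j, b j)) - ε) with hSP
  set SU : ℝ := ∑ b ∈ BQ, (HU (lenr b) (vz (∑ j, b j)) + 2 * ε) with hSU
  set SF : ℝ := ∑ c ∈ TR, fcr c ^ 2 with hSF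
  set G : ℝ := ∑ c ∈ TR, fcr c ^ 2 * ∏ j, Sr x z (c j) (c j) with hG
  set Q : ℝ := ∑ b ∈ BQ, (∏ j, Sr x z (b j) (b j)) *
        (8 * Qr x z (ws x z δ) b + Qr x z (wm x δ) b) with hQd
  have hM0 : 0 ≤ x * VH h z / (V * L) ^ 4 := by positivity
  have sum1' : ∀ i : Fin 4, x * VH h z / (V * L) ^ 4 * ((er - ε) ^ 3 * SP) ≤
      VH' h z * ∑ b ∈ BR, (∏ j, Sr x z (b j) (b j)) * Yr x z δ (h i) b := by
    intro i
    have h1 := mul_le_mul_of_nonneg_left (sum1 i) (a := VH' h z / (V * L) ^ 3) (by positivity)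
    have e1 : VH' h z / (V * L) ^ 3 * ((V * L) ^ 3 * ∑ b ∈ BR, (∏ j, Sr x z (b j) (b j)) * Yr x z δ (h i) b) =
        VH' h z * ∑ b ∈ BR, (∏ j, Sr x z (b j) (b j)) * Yr x z δ (h i) b := by
      field_simp
    have e2 : VH' h z / (V * L) ^ 3 * ((er - ε) ^ 3 * (x / L * SP)) =
        x * VH h z / (V * L) ^ 4 * ((er - ε) ^ 3 * SP) := by
      rw [hVH]; field_simp
    rw [e1, e2] at h1
    exact h1
  have sum2' : x * VH h z / (V * L) ^ 4 * ((er - ε) ^ 4 * SF) ≤ x * VH h z * G := by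
    have h1 := mul_le_mul_of_nonneg_left sum2 hM0
    have e1 : x * VH h z / (V * L) ^ 4 * ((V * L) ^ 4 * G) = x * VH h z * G := by
      field_simp
    rw [e1] at h1
    exact h1
  have sum3' : x * VH h z * Q ≤ x * VH h z / (V * L) ^ 4 * ((er + ε) ^ 3 * SU) := by
    have h1 := mul_le_mul_of_nonneg_left sum3 hM0
    have e1 : x * VH h z / (V * L) ^ 4 * ((V * L) ^ 4 * Q) = x * VH h z * Q := by
      field_simp
    rw [e1] at h1
    exact h1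
  have hsum : ∑ _i : Fin 4, x * VH h z / (V * L) ^ 4 * ((er - ε) ^ 3 * SP) ≤
      ∑ i : Fin 4, VH' h z * ∑ b ∈ BR, (∏ j, Sr x z (b j) (b j)) * Yr x z δ (h i) b :=
    sum_le_sum (fun i _ => sum1' i)
  rw [sum_const, card_univ, Fintype.card_fin, nsmul_eq_mul] at hsum
  have hbase : c₀ * (x / L ^ 4) ≤ x * VH h z / (V * L) ^ 4 := by
    have e : c₀ * (x / L ^ 4) = x * (c₀ * V ^ 4) / (V * L) ^ 4 := by field_simp
    rw [e]
    gcongr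
  have hfin : c₀ * (x / L ^ 4) * κ ≤ x * VH h z / (V * L) ^ 4 *
      ((11 - ε - 4 / ur) * (er - ε) ^ 4 * SF - 4 * (er + ε) ^ 3 * SU + 4 * (er - ε) ^ 3 * SP) :=
    mul_le_mul hbase hκ hκ0.le hM0
  have e3 : x * VH h z / (V * L) ^ 4 *
      ((11 - ε - 4 / ur) * (er - ε) ^ 4 * SF - 4 * (er + ε) ^ 3 * SU + 4 * (er - ε) ^ 3 * SP) =
      (11 - ε - 4 / ur) * (x * VH h z / (V * L) ^ 4 * ((er - ε) ^ 4 * SF)) -
        4 * (x * VH h z / (V * L) ^ 4 * ((er + ε) ^ 3 * SU)) +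
      ((4 : ℕ) : ℝ) * (x * VH h z / (V * L) ^ 4 * ((er - ε) ^ 3 * SP)) := by
    push_cast; ring
  rw [e3] at hfin
  have e4 : c₀ * κ * (x / L ^ 4) = c₀ * (x / L ^ 4) * κ := by ring
  rw [e4]
  have h5 := mul_le_mul_of_nonneg_left sum2' hA0
  linarith

private theorem FLow_wm (x z : ℕ) (δ : ℝ) (hx : 2 ≤ x) (hz : (z : ℝ) < (x : ℝ) ^ δ) :
    (∀ p, 0 ≤ wm x δ p ∧ wm x δ p ≤ 1) ∧ (∀ p, wm x δ p ≠ 0 → z < p ∧ (p : ℝ) ≤ (x : ℝ) ^ ur) := by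
  have hx1 : (1 : ℝ) < x := by exact_mod_cast hx
  have hl : 0 < Real.log x := Real.log_pos hx1
  have hur : (0 : ℝ) < ur := by unfold ur; norm_num
  constructor
  · intro p
    unfold wm
    split_ifs with h
    · have hp0 : (0 : ℝ) < p := lt_trans (Real.rpow_pos_of_pos (by linarith) _) h.1
      have hp1 : (1 : ℝ) ≤ p := by
        have : 0 < p := by exact_mod_cast hp0
        exact_mod_cast this
      have h1 : 0 ≤ lg x p := div_nonneg (Real.log_nonneg hp1) hl.le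
      have h2 : lg x p ≤ ur := by
        unfold lg
        rw [div_le_iff₀ hl]
        have := Real.log_le_log hp0 h.2
        rwa [Real.log_rpow (by linarith)] at this
      constructor
      · rw [sub_nonneg, div_le_one hur]
        exact h2
      · have : 0 ≤ lg x p / ur := div_nonneg h1 hur.le
        linarith
    · exact ⟨le_refl _, zero_le_one⟩
  · intro p hp
    unfold wm at hp
    split_ifs at hp with h
    · refine ⟨?_, h.2⟩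
      have := hz.trans h.1
      exact_mod_cast this
    · exact absurd rfl hp

private theorem FLow_ws (x z : ℕ) (δ : ℝ) (hx : 2 ≤ x) (hδ : δ ≤ ur) :
    (∀ p, 0 ≤ ws x z δ p ∧ ws x z δ p ≤ 1) ∧ (∀ p, ws x z δ p ≠ 0 → z < p ∧ (p : ℝ) ≤ (x : ℝ) ^ ur) := by
  have hx1 : (1 : ℝ) ≤ x := by
    have : 1 ≤ x := by omega
    exact_mod_cast this
  constructor
  · intro p
    unfold ws
    split_ifs with h
    · exact ⟨zero_le_one, le_refl _⟩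
    · exact ⟨le_refl _, zero_le_one⟩
  · intro p hp
    unfold ws at hp
    split_ifs at hp with h
    · exact ⟨h.1, h.2.trans (Real.rpow_le_rpow_of_exponent_le hx1 hδ)⟩
    · exact absurd rfl hp

theorem SR_lower : ∃ δ : ℝ, 0 < δ ∧ δ ≤ er / 2 ∧ ∃ ε : ℝ, 0 < ε ∧ ∃ κ' : ℝ, 0 < κ' ∧
    ∀ h : Fin 4 → ℕ, Function.Injective h →
    ∀ c₀ : ℝ, 0 < c₀ → ∀ z₀ : ℕ, (∀ z : ℕ, z₀ ≤ z → c₀ * Vz z ^ 4 ≤ VH h z) →
    ∃ B : ℕ, 3 ≤ B ∧ ∃ x₀ : ℕ, ∀ x : ℕ, x₀ ≤ x →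
      c₀ * κ' * (x / (Real.log x) ^ 4) ≤ SR h x (zB B x) δ ε := by
  -- the constant
  have hcert := cert
  have her := FLow_er
  set T : ℝ := ∑ c ∈ TR, fcr c ^ 2 with hT
  set D : ℝ := ∑ b ∈ BQ, HU (lenr b) (vz (∑ j, b j)) with hD
  set P : ℝ := ∑ b ∈ BR, Pf (lenr b) (vz (∑ j, b j)) with hP
  have hκ : 0 < (11 - 4 / ur) * er ^ 4 * T - 4 * er ^ 3 * D + 4 * er ^ 3 * P := by
    have h2 := mul_pos (pow_pos her 3) hcert
    have e : er ^ 3 * ((11 - 4 / ur) * (er * T) - 4 * D + 4 * P) =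
      (11 - 4 / ur) * er ^ 4 * T - 4 * er ^ 3 * D + 4 * er ^ 3 * P := by ring
    rw [e] at h2
    exact h2
  obtain ⟨ε, hε0, hεe, hεu, hεκ⟩ := FLow_eps T D P (BQ.card : ℝ) (BR.card : ℝ) hκ
  set κ : ℝ := ((11 - 4 / ur) * er ^ 4 * T - 4 * er ^ 3 * D + 4 * er ^ 3 * P) / 2 with hκdef
  have hκ0 : 0 < κ := by rw [hκdef]; linarith
  have hκ' : κ ≤ (11 - ε - 4 / ur) * (er - ε) ^ 4 * (∑ c ∈ TR, fcr c ^ 2) -
      4 * (er + ε) ^ 3 * (∑ b ∈ BQ, (HU (lenr b) (vz (∑ j, b j)) + 2 * ε)) +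
        4 * (er - ε) ^ 3 * (∑ b ∈ BR, (Pf (lenr b) (vz (∑ j, b j)) - ε)) := by
    rw [sum_sub_distrib, sum_const, nsmul_eq_mul, sum_add_distrib, sum_const, nsmul_eq_mul]
    exact hεκ
  obtain ⟨δ₀, hδ₀, HY⟩ := Y_ge ε hε0
  obtain ⟨C, hC, HU1⟩ := UB_small
  obtain ⟨δ, hδ, hδ1, hδ2, hδ3⟩ : ∃ δ : ℝ, 0 < δ ∧ δ ≤ er / 2 ∧ δ ≤ δ₀ ∧ 8 * (C * δ) ≤ ε := by
    refine ⟨min (er / 2) (min δ₀ (ε / (8 * C))), ?_, min_le_left _ _, (min_le_right _ _).trans (min_le_left _ _), ?_⟩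
    · exact lt_min (by linarith) (lt_min hδ₀ (by positivity))
    · have h1 : min (er / 2) (min δ₀ (ε / (8 * C))) ≤ ε / (8 * C) := (min_le_right _ _).trans (min_le_right _ _)
      have h2 := mul_le_mul_of_nonneg_left h1 (by positivity : (0 : ℝ) ≤ 8 * C)
      have h3 : 8 * C * (ε / (8 * C)) = ε := by field_simp
      rw [h3] at h2
      linarith
  have hδer : δ ≤ er := by linarith
  have hδur : δ ≤ ur := by
    have : er ≤ ur := by unfold er ur; norm_num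
    linarith
  refine ⟨δ, hδ, hδ1, ε, hε0, κ / 2, by linarith, fun h hinj c₀ hc0 z₀ hVHl => ?_⟩
  obtain ⟨B1, hB1⟩ := TIr_asymp h hinj δ hδ hδer 5
  obtain ⟨B2, hB2⟩ := TZr_asymp h hinj 5
  obtain ⟨B3, hB3⟩ := THr_asymp h hinj 5
  obtain ⟨B, hB3', hB1', hB2', hB3''⟩ : ∃ B : ℕ, 3 ≤ B ∧ B1 ≤ B ∧ B2 ≤ B ∧ B3 ≤ B :=
    ⟨3 + B1 + B2 + B3, by omega, by omega, by omega, by omega⟩
  obtain ⟨x1, hx1⟩ := hB1 B hB1'
  obtain ⟨x2, hx2⟩ := hB2 B hB2'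
  obtain ⟨x3, hx3⟩ := hB3 B hB3''
  obtain ⟨x4, hx4⟩ := Sr_eq B hB3' ε hε0
  choose x5 hx5 using fun i : Fin 4 => HY δ hδ hδ2 B hB3' (h i)
  obtain ⟨x6, hx6⟩ := UB_main B hB3' δ hδ hδ1 ε hε0
  obtain ⟨x7, hx7⟩ := HU1 B hB3' δ hδ hδ1
  set C1 : ℝ := ∑ i : Fin 4, ∑ c ∈ TRi i, ∑ c' ∈ TR,
    |fcr c * fcr c' * (2 - if c' ∈ TRi i then 1 else 0)| with hC1
  set C2 : ℝ := ∑ c ∈ TR, ∑ c' ∈ TR, |fcr c * fcr c'| with hC2
  have hC10 : 0 ≤ C1 := by positivity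
  have hC20 : 0 ≤ C2 := by positivity
  set CC : ℝ := (11 - ε - 4 / ur) * C2 + 36 * C2 + C1 with hCC
  have hA0 : 0 ≤ 11 - ε - 4 / ur := by linarith
  have hCC0 : 0 ≤ CC := by
    have := mul_nonneg hA0 hC20
    linarith
  have ht : Filter.Tendsto (fun x : ℕ => Real.log x) Filter.atTop Filter.atTop :=
    Real.tendsto_log_atTop.comp tendsto_natCast_atTop_atTop
  have hev : ∀ᶠ x : ℕ in atTop, (x1 ≤ x ∧ x2 ≤ x ∧ x3 ≤ x ∧ x4 ≤ x) ∧ (∀ i, x5 i ≤ x) ∧ (x6 ≤ x ∧ x7 ≤ x ∧ 3 ≤ x) ∧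
      (∀ i, h i ≤ x) ∧ 2 * CC / (c₀ * κ) + 1 ≤ Real.log x ∧ z₀ ≤ zB B x ∧ (zB B x : ℝ) < (x : ℝ) ^ δ := by
    have e1 : ∀ i : Fin 4, ∀ᶠ x : ℕ in atTop, x5 i ≤ x := fun i => eventually_ge_atTop _
    have e2 : ∀ i : Fin 4, ∀ᶠ x : ℕ in atTop, h i ≤ x := fun i => eventually_ge_atTop _
    filter_upwards [eventually_ge_atTop x1, eventually_ge_atTop x2, eventually_ge_atTop x3, eventually_ge_atTop x4,
      eventually_all.2 e1, eventually_ge_atTop x6, eventually_ge_atTop x7, eventually_ge_atTop 3, eventually_all.2 e2,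
      ht.eventually_ge_atTop (2 * CC / (c₀ * κ) + 1), (C1_zB_tendsto B (by omega)).eventually_ge_atTop z₀,
      C1_zB_le_rpow B δ hδ] with x a1 a2 a3 a4 a5 a6 a7 a8 a9 a10 a11 a12
    exact ⟨⟨a1, a2, a3, a4⟩, a5, ⟨a6, a7, a8⟩, a9, a10, a11, a12⟩
  obtain ⟨X0, hX0⟩ := eventually_atTop.1 hev
  refine ⟨B, hB3', X0, fun x hx => ?_⟩
  obtain ⟨⟨k1, k2, k3, k4⟩, k5, ⟨k6, k7, k8⟩, k9, hL6, k11, k12⟩ := hX0 x hx
  set z : ℕ := zB B x with hz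
  set L : ℝ := Real.log x with hLdef
  have hL1 : 1 ≤ L := by
    have : 0 ≤ 2 * CC / (c₀ * κ) := by positivity
    linarith
  have hL : 0 < L := by linarith
  have hV : 0 < Vz z := div_pos (Nat.cast_pos.2 (Nat.totient_pos.2 (primorial_pos z)))
    (Nat.cast_pos.2 (primorial_pos z))
  have hx0 : (0 : ℝ) ≤ x := Nat.cast_nonneg _
  -- nonnegativity of the weight
  have GGpos : ∀ m : ℕ, x < m → m ≤ 3 * x → 0 ≤ GG x δ m := fun m h1 h2 => GG_nonneg x k8 δ m h1 h2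
  have hpos : ∀ n ∈ NR h x z, ∀ i, 0 ≤ GG x δ (n + h i) := by
    intro n hn i
    have hn' := mem_Ioc.1 (mem_filter.1 hn).1
    have := k9 i
    exact GGpos _ (by omega) (by omega)
  have hY0 : ∀ i, ∀ b ∈ BR, 0 ≤ Yr x z δ (h i) b := by
    intro i b _
    unfold Yr
    refine sum_nonneg fun m hm => ?_
    have hm' := mem_Ioc.1 hm
    have := k9 i
    exact mul_nonneg (GGpos m (by omega) (by omega)) (sq_nonneg _)
  have horth : ∀ j ≤ 864, ∀ j' ≤ 864, j ≠ j' → Sr x z j j' = 0 :=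
    fun j _ j' _ hj => Sr_ne x z (by omega) j j' hj
  have hQ : ∀ b ∈ BQ, Vz z * L * (8 * Qr x z (ws x z δ) b + Qr x z (wm x δ) b) ≤
      HU (lenr b) (vz (∑ j, b j)) + 2 * ε := by
    intro b hb
    have h1 := hx6 x k6 b hb
    have h2 := hx7 x k7 b hb
    have e : Vz z * L * (8 * Qr x z (ws x z δ) b + Qr x z (wm x δ) b) =
      8 * (Vz z * L * Qr x z (ws x z δ) b) + Vz z * L * Qr x z (wm x δ) b := by ring
    rw [e]
    linarith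
  have hmain := FLow_main x z δ h L (Vz z) ε κ c₀ hL hV hεe hε0 hεu (VH_eq 4 (by norm_num) h z) (hVHl z k11) hc0
    (hx4 x k4) (fun i b hb => hx5 i x (k5 i) b hb) hY0 hQ hκ' hκ0
  -- error terms
  set E : ℝ := x / L ^ 5 with hE
  have hE0 : 0 ≤ E := by positivity
  have err1 : ∀ i : Fin 4, VH' h z * ∑ b ∈ BR, (∏ j, Sr x z (b j) (b j)) * Yr x z δ (h i) b -
      (∑ c ∈ TRi i, ∑ c' ∈ TR, |fcr c * fcr c' * (2 - if c' ∈ TRi i then 1 else 0)|) * E ≤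
      ∑ n ∈ NR h x z, GG x δ (n + h i) * (WRi h x z i n * (2 * WR h x z n - WRi h x z i n)) := by
    intro i
    have h1 := FLow_err (TRi i) TR (fun c c' => fcr c * fcr c' * (2 - if c' ∈ TRi i then 1 else 0))
      (fun c c' => TIr h x z δ i c c')
      (fun c c' => VH' h z * MR x z δ (h i) (c i) (c' i) * ∏ j ∈ univ.erase i, Sr x z (c j) (c' j)) E
      (fun c hc c' hc' => hx1 x k1 i c hc c' hc')
    rw [main_i x z (h i) (k9 i) δ i horth (VH' h z)] at h1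
    rw [exp_i]
    have := (abs_le.1 h1).1
    linarith
  have err2 : x * VH h z * (∑ c ∈ TR, fcr c ^ 2 * ∏ j, Sr x z (c j) (c j)) - C2 * E ≤
      ∑ n ∈ NR h x z, WR h x z n ^ 2 := by
    have h1 := FLow_err TR TR (fun c c' => fcr c * fcr c') (fun c c' => TZr h x z c c')
      (fun c c' => x * VH h z * ∏ j, Sr x z (c j) (c' j)) E
      (fun c hc c' hc' => hx2 x k2 c hc c' hc')
    rw [main_0 x z horth (x * VH h z)] at h1
    rw [exp_0]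
    have := (abs_le.1 h1).1
    linarith
  have err3 : ∀ ω : ℕ → ℝ, (∀ p, 0 ≤ ω p ∧ ω p ≤ 1) → (∀ p, ω p ≠ 0 → z < p ∧ (p : ℝ) ≤ (x : ℝ) ^ ur) →
      ∀ i : Fin 4, ∑ n ∈ NR h x z, ps ω (n + h i) * WR h x z n ^ 2 ≤
        x * VH h z * (∑ b ∈ BQ, (∏ j, Sr x z (b j) (b j)) * Qr x z ω b) + C2 * E := by
    intro ω hω1 hω2 i
    have h1 := FLow_err TR TR (fun c c' => fcr c * fcr c') (fun c c' => THr h x z ω i c c')
      (fun c c' => x * VH h z * (Br x z ω (c i) (c' i) * ∏ j ∈ univ.erase i, Sr x z (c j) (c' j))) E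
      (fun c hc c' hc' => hx3 x k3 ω hω1 hω2 i c hc c' hc')
    rw [main_h x z ω i horth (x * VH h z)] at h1
    rw [exp_h]
    have := (abs_le.1 h1).2
    linarith
  obtain ⟨w1, w2⟩ := FLow_wm x z δ (by omega) k12
  obtain ⟨w3, w4⟩ := FLow_ws x z δ (by omega) hδur
  have hSR := SR_ge h x z δ ε hpos
  have hsum : ∑ i : Fin 4, VH' h z * ∑ b ∈ BR, (∏ j, Sr x z (b j) (b j)) * Yr x z δ (h i) b - C1 * E ≤
      ∑ i, ∑ n ∈ NR h x z, GG x δ (n + h i) * (WRi h x z i n * (2 * WR h x z n - WRi h x z i n)) := by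
    rw [hC1, sum_mul, ← sum_sub_distrib]
    exact sum_le_sum (fun i _ => err1 i)
  have hsum3 : ∑ i : Fin 4, (8 * ∑ n ∈ NR h x z, ps (ws x z δ) (n + h i) * WR h x z n ^ 2 +
          ∑ n ∈ NR h x z, ps (wm x δ) (n + h i) * WR h x z n ^ 2) ≤
      4 * (x * VH h z * ∑ b ∈ BQ, (∏ j, Sr x z (b j) (b j)) * (8 * Qr x z (ws x z δ) b + Qr x z (wm x δ) b)) +
        36 * C2 * E := by
    have h1 : ∀ i : Fin 4, (8 * ∑ n ∈ NR h x z, ps (ws x z δ) (n + h i) * WR h x z n ^ 2 +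
          ∑ n ∈ NR h x z, ps (wm x δ) (n + h i) * WR h x z n ^ 2) ≤
        x * VH h z * ∑ b ∈ BQ, (∏ j, Sr x z (b j) (b j)) * (8 * Qr x z (ws x z δ) b + Qr x z (wm x δ) b) +
          9 * C2 * E := by
      intro i
      have a1 := err3 (ws x z δ) w3 w4 i
      have a2 := err3 (wm x δ) w1 w2 i
      have e : ∑ b ∈ BQ, (∏ j, Sr x z (b j) (b j)) * (8 * Qr x z (ws x z δ) b + Qr x z (wm x δ) b) =
          8 * ∑ b ∈ BQ, (∏ j, Sr x z (b j) (b j)) * Qr x z (ws x z δ) b +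
            ∑ b ∈ BQ, (∏ j, Sr x z (b j) (b j)) * Qr x z (wm x δ) b := by
        rw [mul_sum, ← sum_add_distrib]
        exact sum_congr rfl fun b _ => by ring
      rw [e]
      linarith
    have h2 := sum_le_sum (s := (univ : Finset (Fin 4))) (fun i _ => h1 i)
    rw [sum_const, card_univ, Fintype.card_fin, nsmul_eq_mul] at h2
    push_cast at h2
    linarith
  have hA := mul_le_mul_of_nonneg_left err2 hA0
  have hfin : c₀ * κ * (x / L ^ 4) - CC * E ≤ SR h x z δ ε := by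
    have e : CC * E = (11 - ε - 4 / ur) * (C2 * E) + 36 * C2 * E + C1 * E := by rw [hCC]; ring
    rw [e]
    rw [mul_sub] at hA
    linarith
  have hEb : CC * E ≤ c₀ * κ / 2 * (x / L ^ 4) := by
    have h1 : CC ≤ c₀ * κ / 2 * L := by
      have h2 : 2 * CC / (c₀ * κ) ≤ L := by linarith
      rw [div_le_iff₀ (by positivity)] at h2
      linarith
    calc CC * E ≤ c₀ * κ / 2 * L * E := mul_le_mul_of_nonneg_right h1 hE0
      _ = c₀ * κ / 2 * (x / L ^ 4) := by rw [hE]; field_simp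
  linarith

end Pool.Agent.Lib.MP_092512_nt.RT
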