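import Pool.Agent.Lib.MP_092512_nt.RT.Defs

/-!
# F: opening the square (adapt Lib/.../P3/F1.lean)

PROOFS.  `SR_ge`: `BK = (11 - ε - 4/ur) - ∑_i (8 ps ws + ps wm) + ∑_i GG`, and `GG WR² - GG WRi (2 WR - WRi) = GG (WR - WRi)² ≥ 0`.
`exp_i`: `WRi (2 WR - WRi) = ∑_{c ∈ TRi} ∑_{c' ∈ TR} fcr c fcr c' (2 - 1[c' ∈ TRi]) PR c PR c'` (`TRi i ⊆ TR`), then exchange with the sum over `n`.  `exp_0`, `exp_h` the same for
`WR²`.
-/

set_option autoImplicit false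

open Finset Filter

open scoped ArithmeticFunction.Moebius

namespace Pool.Agent.Lib.MP_092512_nt.RT

open Pool.Agent.Lib.SW Pool.Agent.Lib.MP_092512_nt.P3

theorem SR_ge (h : Fin 4 → ℕ) (x z : ℕ) (δ ε : ℝ) (hpos : ∀ n ∈ NR h x z, ∀ i, 0 ≤ GG x δ (n + h i)) :
    (11 - ε - 4 / ur) * ∑ n ∈ NR h x z, WR h x z n ^ 2 -
        ∑ i, (8 * ∑ n ∈ NR h x z, ps (ws x z δ) (n + h i) * WR h x z n ^ 2 +
          ∑ n ∈ NR h x z, ps (wm x δ) (n + h i) * WR h x z n ^ 2) +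
        ∑ i, ∑ n ∈ NR h x z, GG x δ (n + h i) * (WRi h x z i n * (2 * WR h x z n - WRi h x z i n)) ≤
      SR h x z δ ε := by
  have e1 : ∑ i : Fin 4, (8 * ∑ n ∈ NR h x z, ps (ws x z δ) (n + h i) * WR h x z n ^ 2 +
      ∑ n ∈ NR h x z, ps (wm x δ) (n + h i) * WR h x z n ^ 2) =
      ∑ n ∈ NR h x z, ∑ i : Fin 4, (8 * ps (ws x z δ) (n + h i) + ps (wm x δ) (n + h i)) *
        WR h x z n ^ 2 := by
    rw [sum_comm]
    refine sum_congr rfl fun i _ => ?_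
    rw [mul_sum, ← sum_add_distrib]
    refine sum_congr rfl fun n _ => ?_
    ring
  rw [e1, mul_sum, sum_comm (s := (univ : Finset (Fin 4))), ← sum_sub_distrib, ← sum_add_distrib]
  unfold SR
  refine sum_le_sum fun n hn => ?_
  have h1 : ∑ i : Fin 4, GG x δ (n + h i) * (WRi h x z i n * (2 * WR h x z n - WRi h x z i n)) ≤
      ∑ i : Fin 4, GG x δ (n + h i) * WR h x z n ^ 2 := by
    refine sum_le_sum fun i _ => ?_
    have h0 := hpos n hn i
    nlinarith [mul_nonneg h0 (sq_nonneg (WR h x z n - WRi h x z i n))]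
  have h2 : BK h x z δ ε n * WR h x z n ^ 2 = (11 - ε - 4 / ur) * WR h x z n ^ 2 -
      ∑ i : Fin 4, (8 * ps (ws x z δ) (n + h i) + ps (wm x δ) (n + h i)) * WR h x z n ^ 2 +
      ∑ i : Fin 4, GG x δ (n + h i) * WR h x z n ^ 2 := by
    unfold BK
    rw [← sum_mul, ← sum_mul, sum_sub_distrib, sum_add_distrib, sum_const, card_univ, Fintype.card_fin,
      nsmul_eq_mul]
    push_cast
    ring
  rw [h2]
  linarith

private theorem FSq_sub (i : Fin 4) : TRi i ⊆ TR := by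
  intro c hc
  exact (mem_TRi.mp hc).1

private theorem FSq_ite (h : Fin 4 → ℕ) (x z : ℕ) (i : Fin 4) (n : ℕ) :
    2 * WR h x z n - WRi h x z i n =
      ∑ c' ∈ TR, fcr c' * (2 - if c' ∈ TRi i then 1 else 0) * PR h x z c' n := by
  have h1 : WRi h x z i n = ∑ c' ∈ TR, if c' ∈ TRi i then fcr c' * PR h x z c' n else 0 := by
    unfold WRi
    rw [← sum_filter]
    refine sum_congr ?_ fun _ _ => rfl
    ext c
    rw [mem_filter]
    exact ⟨fun hc => ⟨FSq_sub i hc, hc⟩, fun hc => hc.2⟩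
  rw [h1]
  unfold WR
  rw [mul_sum, ← sum_sub_distrib]
  refine sum_congr rfl fun c _ => ?_
  split_ifs <;> ring

theorem exp_i (h : Fin 4 → ℕ) (x z : ℕ) (δ : ℝ) (i : Fin 4) :
    ∑ n ∈ NR h x z, GG x δ (n + h i) * (WRi h x z i n * (2 * WR h x z n - WRi h x z i n)) =
      ∑ c ∈ TRi i, ∑ c' ∈ TR, fcr c * fcr c' * (2 - if c' ∈ TRi i then 1 else 0) * TIr h x z δ i c c' := by
  have h1 : ∀ n ∈ NR h x z, GG x δ (n + h i) * (WRi h x z i n * (2 * WR h x z n - WRi h x z i n)) =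
      ∑ c ∈ TRi i, ∑ c' ∈ TR, fcr c * fcr c' * (2 - if c' ∈ TRi i then 1 else 0) *
        (GG x δ (n + h i) * (PR h x z c n * PR h x z c' n)) := by
    intro n _
    rw [FSq_ite]
    unfold WRi
    rw [sum_mul_sum, mul_sum]
    refine sum_congr rfl fun c _ => ?_
    rw [mul_sum]
    refine sum_congr rfl fun c' _ => ?_
    ring
  rw [sum_congr rfl h1, sum_comm]
  refine sum_congr rfl fun c _ => ?_
  rw [sum_comm]
  refine sum_congr rfl fun c' _ => ?_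
  unfold TIr
  rw [mul_sum]

private theorem FSq_two (h : Fin 4 → ℕ) (x z : ℕ) (G : ℕ → ℝ) :
    ∑ n ∈ NR h x z, G n * WR h x z n ^ 2 =
      ∑ c ∈ TR, ∑ c' ∈ TR, fcr c * fcr c' * ∑ n ∈ NR h x z, G n * (PR h x z c n * PR h x z c' n) := by
  have h1 : ∀ n ∈ NR h x z, G n * WR h x z n ^ 2 =
      ∑ c ∈ TR, ∑ c' ∈ TR, fcr c * fcr c' * (G n * (PR h x z c n * PR h x z c' n)) := by
    intro n _
    rw [sq]
    unfold WR
    rw [sum_mul_sum, mul_sum]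
    refine sum_congr rfl fun c _ => ?_
    rw [mul_sum]
    refine sum_congr rfl fun c' _ => ?_
    ring
  rw [sum_congr rfl h1, sum_comm]
  refine sum_congr rfl fun c _ => ?_
  rw [sum_comm]
  refine sum_congr rfl fun c' _ => ?_
  rw [mul_sum]

theorem exp_0 (h : Fin 4 → ℕ) (x z : ℕ) :
    ∑ n ∈ NR h x z, WR h x z n ^ 2 = ∑ c ∈ TR, ∑ c' ∈ TR, fcr c * fcr c' * TZr h x z c c' := by
  have h1 := FSq_two h x z (fun _ => 1)
  simp only [one_mul] at h1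
  exact h1

theorem exp_h (h : Fin 4 → ℕ) (x z : ℕ) (ω : ℕ → ℝ) (i : Fin 4) :
    ∑ n ∈ NR h x z, ps ω (n + h i) * WR h x z n ^ 2 =
      ∑ c ∈ TR, ∑ c' ∈ TR, fcr c * fcr c' * THr h x z ω i c c' :=
  FSq_two h x z (fun n => ps ω (n + h i))

end Pool.Agent.Lib.MP_092512_nt.RT
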