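import Pool.Agent.Lib.MP_092512_nt.RT.FBr
import Pool.Agent.Lib.MP_092512_nt.RT.FGeo
import Pool.Agent.Lib.MP_092512_nt.P3.C4

/-!
# F: upper bound for `SR` by the number of good `n` (adapt Lib/.../P3/F7.lean)

PROOF.  `BK_le`: only the `n` with all prime factors of all `n + h_i` `> x^δ` and `∑ ω ≤ 10` contribute a positive amount, and it is at most `7 WR²`.  For these `n`, `n + h_i ≤ 3x` has at most
`2/δ` prime factors with multiplicity and at most `2^(2/δ)` divisors, `|LC| ≤ 2^(1+2/δ)` (`lamC_le`, `jm = 864`), so `|WR| ≤ M := 2^(4(1+2/δ)) ∑_{TR} |fcr|`.  The `n` among them which are not good have a prime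
`p > x^δ` with `p² ∣ n + h_i` for some `i`: their number is at most `∑_i ∑_{x^δ < p, p² ≤ 3x} (x/p² + 1) ≤ 4 (x · 2/x^δ + 2 √(3x)) ≤ C x^(1-δ)` (`δ ≤ 1/2`; integers `d` instead of primes `p`).
-/

set_option autoImplicit false

open Finset Filter

open scoped ArithmeticFunction.Moebius

namespace Pool.Agent.Lib.MP_092512_nt.RT

open Pool.Agent.Lib.SW Pool.Agent.Lib.MP_092512_nt.P3

/-- multiples of `q` in a shifted interval -/
private theorem FUp_mult (x H q : ℕ) (hq : 0 < q) :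
    ((((Ioc x (2 * x)).filter (fun n => q ∣ n + H)).card : ℕ) : ℝ) ≤ (x : ℝ) / q + 1 := by
  have h1 : ((Ioc x (2 * x)).filter (fun n => q ∣ n + H)).card ≤
      (Ioc ((x + H) / q) ((2 * x + H) / q)).card := by
    refine card_le_card_of_injOn (fun n => (n + H) / q) ?_ ?_
    · intro n hn
      obtain ⟨h2, k, hk⟩ := mem_filter.1 hn
      rw [mem_Ioc] at h2
      have h3 : (n + H) / q = k := by rw [hk, Nat.mul_div_cancel_left _ hq]
      rw [mem_coe, mem_Ioc]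
      show (x + H) / q < (n + H) / q ∧ (n + H) / q ≤ (2 * x + H) / q
      constructor
      · rw [h3, Nat.div_lt_iff_lt_mul hq, mul_comm, ← hk]
        omega
      · exact Nat.div_le_div_right (by omega)
    · intro n hn n' hn' hnn
      obtain ⟨-, k, hk⟩ := mem_filter.1 hn
      obtain ⟨-, k', hk'⟩ := mem_filter.1 hn'
      have h3 : (n + H) / q = k := by rw [hk, Nat.mul_div_cancel_left _ hq]
      have h4 : (n' + H) / q = k' := by rw [hk', Nat.mul_div_cancel_left _ hq]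
      have h5 : k = k' := by rw [← h3, ← h4]; exact hnn
      subst h5
      omega
  rw [Nat.card_Ioc] at h1
  have hqr : (0 : ℝ) < q := by exact_mod_cast hq
  have h2 : (((2 * x + H) / q : ℕ) : ℝ) ≤ ((2 * x + H : ℕ) : ℝ) / q := Nat.cast_div_le
  have h3 : ((x + H : ℕ) : ℝ) / q < (((x + H) / q : ℕ) : ℝ) + 1 := by
    rw [div_lt_iff₀ hqr]
    have h4 := Nat.lt_mul_div_succ (x + H) hq
    have h5 : ((x + H : ℕ) : ℝ) < ((q * ((x + H) / q + 1) : ℕ) : ℝ) := by exact_mod_cast h4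
    push_cast at h5 ⊢
    linarith
  have h6 : (x + H) / q ≤ (2 * x + H) / q := Nat.div_le_div_right (by omega)
  have h7 : ((((Ioc x (2 * x)).filter (fun n => q ∣ n + H)).card : ℕ) : ℝ) ≤
      (((2 * x + H) / q : ℕ) : ℝ) - (((x + H) / q : ℕ) : ℝ) := by
    rw [← Nat.cast_sub h6]
    exact_mod_cast h1
  have h8 : ((2 * x + H : ℕ) : ℝ) / q - ((x + H : ℕ) : ℝ) / q = (x : ℝ) / q := by
    rw [← sub_div]
    push_cast
    congr 1
    ring
  linarith

open Classical in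
/-- integers with a large square divisor -/
private theorem FUp_cnt (δ : ℝ) (hδ : 0 < δ) (hδ1 : δ ≤ 1 / 2) (x H : ℕ) (hx : 3 ≤ x)
    (hx2 : 2 ≤ (x : ℝ) ^ δ) :
    ((((Ioc x (2 * x)).filter (fun n => ∃ d : ℕ, (x : ℝ) ^ δ < d ∧ d ^ 2 ≤ 3 * x ∧ d ^ 2 ∣ n + H)).card : ℕ) : ℝ) ≤
      4 * (x : ℝ) ^ (1 - δ) := by
  have hxr : (3 : ℝ) ≤ x := by exact_mod_cast hx
  have hx0 : (0 : ℝ) < x := by linarith
  have hx1 : (1 : ℝ) ≤ x := by linarith
  set D : ℕ := ⌊(x : ℝ) ^ δ⌋₊ with hD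
  have hD1 : (x : ℝ) ^ δ < (D : ℝ) + 1 := Nat.lt_floor_add_one _
  have hD2 : (x : ℝ) ^ δ / 2 ≤ D := by linarith
  have hD0 : D ≠ 0 := by
    intro h
    rw [h, Nat.cast_zero] at hD2
    linarith
  have hDr : (0 : ℝ) < D := by linarith
  set E : ℕ := Nat.sqrt (3 * x) with hE
  have hsub : (Ioc x (2 * x)).filter (fun n => ∃ d : ℕ, (x : ℝ) ^ δ < d ∧ d ^ 2 ≤ 3 * x ∧ d ^ 2 ∣ n + H) ⊆
      (Ioc D E).biUnion (fun d => (Ioc x (2 * x)).filter (fun n => d ^ 2 ∣ n + H)) := by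
    intro n hn
    obtain ⟨h1, d, h2, h3, h4⟩ := mem_filter.1 hn
    rw [mem_biUnion]
    refine ⟨d, mem_Ioc.2 ⟨?_, ?_⟩, mem_filter.2 ⟨h1, h4⟩⟩
    · have h5 : (D : ℝ) < d := lt_of_le_of_lt (Nat.floor_le (by positivity)) h2
      exact_mod_cast h5
    · rw [hE, Nat.le_sqrt']
      exact h3
  have h1 : ((((Ioc x (2 * x)).filter
      (fun n => ∃ d : ℕ, (x : ℝ) ^ δ < d ∧ d ^ 2 ≤ 3 * x ∧ d ^ 2 ∣ n + H)).card : ℕ) : ℝ) ≤
      ∑ d ∈ Ioc D E, ((x : ℝ) / ((d : ℝ) ^ 2) + 1) := by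
    calc _ ≤ ((((Ioc D E).biUnion (fun d => (Ioc x (2 * x)).filter (fun n => d ^ 2 ∣ n + H))).card : ℕ) : ℝ) := by
          exact_mod_cast card_le_card hsub
      _ ≤ ((∑ d ∈ Ioc D E, ((Ioc x (2 * x)).filter (fun n => d ^ 2 ∣ n + H)).card : ℕ) : ℝ) := by
          exact_mod_cast card_biUnion_le
      _ = ∑ d ∈ Ioc D E, ((((Ioc x (2 * x)).filter (fun n => d ^ 2 ∣ n + H)).card : ℕ) : ℝ) := by
          push_cast
          rfl
      _ ≤ _ := by
          refine sum_le_sum fun d hd => ?_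
          have hd0 : 0 < d := by
            have := (mem_Ioc.1 hd).1
            omega
          have h2 := FUp_mult x H (d ^ 2) (by positivity)
          rw [Nat.cast_pow] at h2
          exact h2
  have hE1 : (E : ℝ) ≤ 2 * (x : ℝ) ^ (1 - δ) := by
    have h2 : (E : ℝ) ≤ Real.sqrt ((3 * x : ℕ) : ℝ) := by
      refine Real.le_sqrt_of_sq_le ?_
      have h3 : E ^ 2 ≤ 3 * x := by
        rw [hE]
        exact Nat.sqrt_le' _
      exact_mod_cast h3
    have h3 : Real.sqrt ((3 * x : ℕ) : ℝ) ≤ 2 * Real.sqrt x := by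
      have h4 : Real.sqrt ((3 * x : ℕ) : ℝ) ≤ Real.sqrt (2 ^ 2 * x) := by
        refine Real.sqrt_le_sqrt ?_
        push_cast
        linarith
      rw [Real.sqrt_mul (by norm_num), Real.sqrt_sq (by norm_num)] at h4
      exact h4
    have h4 : Real.sqrt x ≤ (x : ℝ) ^ (1 - δ) := by
      rw [Real.sqrt_eq_rpow]
      exact Real.rpow_le_rpow_of_exponent_le hx1 (by linarith)
    linarith
  have h2 : ∑ d ∈ Ioc D E, (x : ℝ) / ((d : ℝ) ^ 2) ≤ 2 * (x : ℝ) ^ (1 - δ) := by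
    rcases le_or_gt D E with h3 | h3
    · have h4 := sum_Ioc_inv_sq_le_sub (α := ℝ) hD0 h3
      have h5 : (0 : ℝ) ≤ ((E : ℝ))⁻¹ := by positivity
      have h6 : ∑ d ∈ Ioc D E, ((d : ℝ) ^ 2)⁻¹ ≤ 2 / (x : ℝ) ^ δ := by
        have h7 : ((D : ℝ))⁻¹ ≤ 2 / (x : ℝ) ^ δ := by
          rw [inv_le_iff_one_le_mul₀ hDr, div_mul_eq_mul_div, one_le_div (by positivity)]
          linarith
        linarith
      calc ∑ d ∈ Ioc D E, (x : ℝ) / ((d : ℝ) ^ 2) = x * ∑ d ∈ Ioc D E, ((d : ℝ) ^ 2)⁻¹ := by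
            rw [mul_sum]
            refine sum_congr rfl fun d _ => ?_
            rw [div_eq_mul_inv]
        _ ≤ x * (2 / (x : ℝ) ^ δ) := mul_le_mul_of_nonneg_left h6 hx0.le
        _ = 2 * (x : ℝ) ^ (1 - δ) := by
            rw [Real.rpow_sub hx0, Real.rpow_one]
            ring
    · rw [Ioc_eq_empty (by omega), sum_empty]
      positivity
  have h3 : ∑ d ∈ Ioc D E, ((x : ℝ) / ((d : ℝ) ^ 2) + 1) ≤ 4 * (x : ℝ) ^ (1 - δ) := by
    rw [sum_add_distrib, sum_const, nsmul_eq_mul, mul_one, Nat.card_Ioc]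
    have h4 : ((E - D : ℕ) : ℝ) ≤ E := by exact_mod_cast Nat.sub_le E D
    linarith
  exact h1.trans h3

private theorem FUp_fac (δ : ℝ) (hδ : 0 < δ) (x m : ℕ) (hx : 3 ≤ x) (hm : m ≠ 0) (hm3 : m ≤ 3 * x) {p : ℕ}
    (hpx : (x : ℝ) ^ δ < p) : m.factorization p ≤ ⌈2 / δ⌉₊ := by
  have hxr : (3 : ℝ) ≤ x := by exact_mod_cast hx
  have hx0 : (0 : ℝ) ≤ x := by linarith
  have h1 : p ^ (m.factorization p) ≤ m := Nat.le_of_dvd (Nat.pos_of_ne_zero hm) (Nat.ordProj_dvd m p)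
  have h2 : (p : ℝ) ^ (m.factorization p) ≤ (x : ℝ) ^ 2 := by
    have h3 : ((p ^ (m.factorization p) : ℕ) : ℝ) ≤ ((3 * x : ℕ) : ℝ) := by exact_mod_cast h1.trans hm3
    push_cast at h3
    nlinarith
  have h3 : ((x : ℝ) ^ δ) ^ (m.factorization p) ≤ (p : ℝ) ^ (m.factorization p) :=
    pow_le_pow_left₀ (by positivity) hpx.le _
  have h4 : (x : ℝ) ^ (δ * (m.factorization p : ℝ)) ≤ (x : ℝ) ^ ((2 : ℕ) : ℝ) := by
    rw [Real.rpow_mul hx0, Real.rpow_natCast, Real.rpow_natCast]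
    exact h3.trans h2
  have h5 : δ * (m.factorization p : ℝ) ≤ ((2 : ℕ) : ℝ) :=
    (Real.rpow_le_rpow_left_iff (by linarith)).1 h4
  have h6 : (m.factorization p : ℝ) ≤ 2 / δ := by
    rw [le_div_iff₀ hδ]
    push_cast at h5
    linarith
  exact_mod_cast h6.trans (Nat.le_ceil _)

private theorem FUp_div (K m : ℕ) (hm : m ≠ 0) (h : m.primeFactors.card ≤ 10)
    (hK : ∀ p ∈ m.primeFactors, m.factorization p ≤ K) : m.divisors.card ≤ (K + 1) ^ 10 := by
  rw [Nat.card_divisors hm]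
  calc ∏ p ∈ m.primeFactors, (m.factorization p + 1) ≤ ∏ _p ∈ m.primeFactors, (K + 1) := by
        refine prod_le_prod' fun p hp => ?_
        have := hK p hp
        omega
    _ = (K + 1) ^ m.primeFactors.card := by rw [prod_const]
    _ ≤ (K + 1) ^ 10 := Nat.pow_le_pow_right (by omega) h

private theorem FUp_LC (x z j m K : ℕ) (hK : m.divisors.card ≤ K)
    (hl : ∀ d : ℕ, |lamC x z er j d| ≤ 2) : |LC x z er j m| ≤ 2 * K := by
  unfold LC
  refine (abs_sum_le_sum_abs _ _).trans ?_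
  calc ∑ d ∈ m.divisors, |lamC x z er j d| ≤ ∑ _d ∈ m.divisors, (2 : ℝ) :=
        sum_le_sum fun d _ => hl d
    _ = (m.divisors.card : ℝ) * 2 := by rw [sum_const, nsmul_eq_mul]
    _ ≤ K * 2 := by
        refine mul_le_mul_of_nonneg_right ?_ (by norm_num)
        exact_mod_cast hK
    _ = 2 * K := by ring

/-- all prime factors are large, and there are at most ten of them -/
private def FUp_tame (h : Fin 4 → ℕ) (x : ℕ) (δ : ℝ) (n : ℕ) : Prop :=
  (∀ i, ∀ p ∈ (n + h i).primeFactors, (x : ℝ) ^ δ < p) ∧ ∑ i, (n + h i).primeFactors.card ≤ 10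

private theorem FUp_WR (δ : ℝ) (hδ : 0 < δ) (h : Fin 4 → ℕ) (x z n : ℕ) (hx : 3 ≤ x)
    (hr : ∀ i, x < n + h i ∧ n + h i ≤ 3 * x) (hg : FUp_tame h x δ n)
    (hl : ∀ j ≤ 864, ∀ d : ℕ, |lamC x z er j d| ≤ 2) :
    WR h x z n ^ 2 ≤ (∑ c ∈ TR, |fcr c| * (2 * ((⌈2 / δ⌉₊ + 1) ^ 10 : ℕ)) ^ 4) ^ 2 := by
  have h1 : |WR h x z n| ≤ ∑ c ∈ TR, |fcr c| * (2 * ((⌈2 / δ⌉₊ + 1) ^ 10 : ℕ)) ^ 4 := by
    unfold WR
    refine (abs_sum_le_sum_abs _ _).trans ?_
    refine sum_le_sum fun c hc => ?_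
    rw [abs_mul]
    refine mul_le_mul_of_nonneg_left ?_ (abs_nonneg _)
    unfold PR
    rw [abs_prod]
    calc ∏ i, |LC x z er (c i) (n + h i)| ≤
          ∏ _i : Fin 4, ((2 : ℝ) * ((⌈2 / δ⌉₊ + 1) ^ 10 : ℕ)) := by
          refine prod_le_prod (fun i _ => abs_nonneg _) fun i _ => ?_
          have h2 : n + h i ≠ 0 := by
            have := (hr i).1
            omega
          refine FUp_LC x z (c i) (n + h i) _ (FUp_div _ _ h2 ?_ ?_) (hl _ (TR_coord c hc i))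
          · exact (single_le_sum (f := fun i => (n + h i).primeFactors.card)
              (fun _ _ => Nat.zero_le _) (mem_univ i)).trans hg.2
          · intro p hp
            exact FUp_fac δ hδ x _ hx h2 (hr i).2 (hg.1 i p hp)
      _ = (2 * ((⌈2 / δ⌉₊ + 1) ^ 10 : ℕ)) ^ 4 := by rw [prod_const, card_univ, Fintype.card_fin]
  rw [← sq_abs (WR h x z n)]
  exact pow_le_pow_left₀ (abs_nonneg _) h1 2

open Classical in
private theorem FUp_set (δ : ℝ) (h : Fin 4 → ℕ) (x : ℕ) (hh : ∀ i, h i ≤ x) :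
    (Ioc x (2 * x)).filter (fun n => FUp_tame h x δ n) ⊆
      (Ioc x (2 * x)).filter (fun n => good h x δ n) ∪
      univ.biUnion (fun i : Fin 4 => (Ioc x (2 * x)).filter
        (fun n => ∃ d : ℕ, (x : ℝ) ^ δ < d ∧ d ^ 2 ≤ 3 * x ∧ d ^ 2 ∣ n + h i)) := by
  intro n hn
  obtain ⟨h1, h2⟩ := mem_filter.1 hn
  rw [mem_union]
  by_cases hg : good h x δ n
  · exact Or.inl (mem_filter.2 ⟨h1, hg⟩)
  · right
    have h3 : ∃ i, ¬ Squarefree (n + h i) := by
      by_contra hcon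
      push Not at hcon
      exact hg ⟨fun i => ⟨hcon i, h2.1 i⟩, h2.2⟩
    obtain ⟨i, hi⟩ := h3
    rw [mem_biUnion]
    refine ⟨i, mem_univ i, mem_filter.2 ⟨h1, ?_⟩⟩
    rw [mem_Ioc] at h1
    have hi0 : n + h i ≠ 0 := by omega
    rw [Nat.squarefree_iff_prime_squarefree] at hi
    push Not at hi
    obtain ⟨p, hp, hpd⟩ := hi
    have hpd2 : p ^ 2 ∣ n + h i := by rw [sq]; exact hpd
    refine ⟨p, h2.1 i p (Nat.mem_primeFactors.2 ⟨hp, (dvd_mul_right p p).trans hpd, hi0⟩), ?_, hpd2⟩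
    have h4 := Nat.le_of_dvd (Nat.pos_of_ne_zero hi0) hpd2
    have h5 := hh i
    omega

open Classical in
theorem SR_upper (δ ε : ℝ) (hδ : 0 < δ) (hδ1 : δ ≤ er / 2) (hε : 0 < ε) : ∃ C : ℝ, 0 < C ∧
    ∀ (h : Fin 4 → ℕ) (B : ℕ), 3 ≤ B → ∃ x₀ : ℕ, ∀ x : ℕ, x₀ ≤ x →
      SR h x (zB B x) δ ε ≤ C * (((Ioc x (2 * x)).filter (fun n => good h x δ n)).card : ℝ) +
        C * (x : ℝ) ^ (1 - δ) := by
  set G : ℝ := (∑ c ∈ TR, |fcr c| * (2 * ((⌈2 / δ⌉₊ + 1) ^ 10 : ℕ)) ^ 4) ^ 2 with hG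
  have hG0 : 0 ≤ G := sq_nonneg _
  refine ⟨112 * G + 1, by positivity, fun h B hB => ?_⟩
  have her : (0 : ℝ) < er := by unfold er; norm_num
  have hδ2 : δ ≤ 1 / 2 := hδ1.trans (by unfold er; norm_num)
  obtain ⟨x1, hBK⟩ := BK_le h δ ε hδ hδ1 hε
  obtain ⟨x2, hlam⟩ := lamC_le B 864 hB er her (by unfold er; norm_num)
  have t1 : Tendsto (fun x : ℕ => (x : ℝ) ^ δ) atTop atTop :=
    (tendsto_rpow_atTop hδ).comp tendsto_natCast_atTop_atTop
  obtain ⟨x3, h3⟩ := eventually_atTop.1 (t1.eventually_ge_atTop 2)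
  refine ⟨max (max x1 x2) (max x3 (max 3 (∑ i, h i))), ?_⟩
  intro x hx
  have hx1 : x1 ≤ x := (le_max_left _ _).trans ((le_max_left _ _).trans hx)
  have hx2 : x2 ≤ x := (le_max_right _ _).trans ((le_max_left _ _).trans hx)
  have hx3 : x3 ≤ x := (le_max_left _ _).trans ((le_max_right _ _).trans hx)
  have hx4 : 3 ≤ x := (le_max_left _ _).trans ((le_max_right _ _).trans ((le_max_right _ _).trans hx))
  have hx5 : ∑ i, h i ≤ x :=
    (le_max_right _ _).trans ((le_max_right _ _).trans ((le_max_right _ _).trans hx))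
  have hh : ∀ i, h i ≤ x := fun i =>
    le_trans (single_le_sum (f := h) (fun _ _ => Nat.zero_le _) (mem_univ i)) hx5
  have hterm : ∀ n ∈ NR h x (zB B x), BK h x (zB B x) δ ε n * WR h x (zB B x) n ^ 2 ≤
      if FUp_tame h x δ n then 7 * G else 0 := by
    intro n hn
    obtain ⟨b1, b2, b3⟩ := hBK x hx1 (zB B x) n hn
    have hn' := mem_Ioc.mp (mem_filter.mp hn).1
    have hrange : ∀ i, x < n + h i ∧ n + h i ≤ 3 * x := fun i => by
      have := hh i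
      omega
    have hw0 : 0 ≤ WR h x (zB B x) n ^ 2 := sq_nonneg _
    by_cases hg : FUp_tame h x δ n
    · rw [if_pos hg]
      have h4 := FUp_WR δ hδ h x (zB B x) n hx4 hrange hg (fun j hj d => hlam x hx2 j hj d)
      calc BK h x (zB B x) δ ε n * WR h x (zB B x) n ^ 2 ≤ 7 * WR h x (zB B x) n ^ 2 :=
            mul_le_mul_of_nonneg_right b1 hw0
        _ ≤ 7 * G := mul_le_mul_of_nonneg_left h4 (by norm_num)
    · rw [if_neg hg]
      refine mul_nonpos_of_nonpos_of_nonneg ?_ hw0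
      by_cases h5 : ∃ i, ∃ p ∈ (n + h i).primeFactors, (p : ℝ) ≤ (x : ℝ) ^ δ
      · exact b2 h5
      · refine b3 ?_
        by_contra hcon
        push Not at hcon h5
        exact hg ⟨h5, hcon⟩
  have hcard : ((((Ioc x (2 * x)).filter (fun n => FUp_tame h x δ n)).card : ℕ) : ℝ) ≤
      (((Ioc x (2 * x)).filter (fun n => good h x δ n)).card : ℝ) + 16 * (x : ℝ) ^ (1 - δ) := by
    have h5 : ∀ i : Fin 4, ((((Ioc x (2 * x)).filter
        (fun n => ∃ d : ℕ, (x : ℝ) ^ δ < d ∧ d ^ 2 ≤ 3 * x ∧ d ^ 2 ∣ n + h i)).card : ℕ) : ℝ) ≤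
        4 * (x : ℝ) ^ (1 - δ) := fun i => FUp_cnt δ hδ hδ2 x (h i) hx4 (h3 x hx3)
    calc ((((Ioc x (2 * x)).filter (fun n => FUp_tame h x δ n)).card : ℕ) : ℝ)
        ≤ (((Ioc x (2 * x)).filter (fun n => good h x δ n) ∪
          univ.biUnion (fun i : Fin 4 => (Ioc x (2 * x)).filter
            (fun n => ∃ d : ℕ, (x : ℝ) ^ δ < d ∧ d ^ 2 ≤ 3 * x ∧ d ^ 2 ∣ n + h i))).card : ℝ) := by
          exact_mod_cast card_le_card (FUp_set δ h x hh)
      _ ≤ ((((Ioc x (2 * x)).filter (fun n => good h x δ n)).card +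
          (univ.biUnion (fun i : Fin 4 => (Ioc x (2 * x)).filter
            (fun n => ∃ d : ℕ, (x : ℝ) ^ δ < d ∧ d ^ 2 ≤ 3 * x ∧ d ^ 2 ∣ n + h i))).card : ℕ) : ℝ) := by
          exact_mod_cast card_union_le _ _
      _ ≤ ((((Ioc x (2 * x)).filter (fun n => good h x δ n)).card +
          ∑ i : Fin 4, ((Ioc x (2 * x)).filter
            (fun n => ∃ d : ℕ, (x : ℝ) ^ δ < d ∧ d ^ 2 ≤ 3 * x ∧ d ^ 2 ∣ n + h i)).card : ℕ) : ℝ) := by
          exact_mod_cast Nat.add_le_add_left card_biUnion_le _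
      _ ≤ (((Ioc x (2 * x)).filter (fun n => good h x δ n)).card : ℝ) +
          ∑ _i : Fin 4, 4 * (x : ℝ) ^ (1 - δ) := by
          rw [Nat.cast_add, Nat.cast_sum]
          exact add_le_add le_rfl (sum_le_sum fun i _ => h5 i)
      _ = _ := by
          rw [sum_const, card_univ, Fintype.card_fin]
          ring
  have hc0 : (0 : ℝ) ≤ (((Ioc x (2 * x)).filter (fun n => good h x δ n)).card : ℝ) := Nat.cast_nonneg _
  have hxp : (0 : ℝ) ≤ (x : ℝ) ^ (1 - δ) := by positivity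
  calc SR h x (zB B x) δ ε ≤ ∑ n ∈ NR h x (zB B x), (if FUp_tame h x δ n then 7 * G else 0) := by
        unfold SR
        exact sum_le_sum hterm
    _ ≤ ∑ n ∈ Ioc x (2 * x), (if FUp_tame h x δ n then 7 * G else 0) := by
        refine sum_le_sum_of_subset_of_nonneg (filter_subset _ _) fun n _ _ => ?_
        split_ifs
        · positivity
        · exact le_rfl
    _ = 7 * G * ((((Ioc x (2 * x)).filter (fun n => FUp_tame h x δ n)).card : ℕ) : ℝ) := by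
        rw [← sum_filter, sum_const, nsmul_eq_mul, mul_comm]
    _ ≤ 7 * G * ((((Ioc x (2 * x)).filter (fun n => good h x δ n)).card : ℝ) +
          16 * (x : ℝ) ^ (1 - δ)) := mul_le_mul_of_nonneg_left hcard (by positivity)
    _ ≤ _ := by nlinarith [mul_nonneg hG0 hc0, mul_nonneg hG0 hxp]

end Pool.Agent.Lib.MP_092512_nt.RT
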