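import Pool.Agent.Lib.MP_092512_nt.RT.FLow
import Pool.Agent.Lib.MP_092512_nt.RT.FUp
import Pool.Agent.Lib.MP_092512_nt.RT.FCount
import Pool.Agent.Lib.MP_092512_nt.P3.G1

/-!
# F: the theorem (adapt Lib/.../P3/F8.lean and G4.lean)

PROOF.  `x = N/2` (natural division), `Ioc x (2x) ⊆ Icc 1 N`, `x ≥ N/3`, `log x ≤ log N`; `κ = δ/2`: `x^δ ≥ N^(δ/2)` for large `N`.  `SR_lower`, `SR_upper`, and `C x^(1-δ) ≤ (c₀ κ'/2) x/(log x)^4` for large `x`.  Then as G4: `S` from `sing`,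
`c₀ = S/2`, `VH = SgR Vz^4`.
-/

set_option autoImplicit false

open Finset Filter

open scoped ArithmeticFunction.Moebius

namespace Pool.Agent.Lib.MP_092512_nt.RT

open Pool.Agent.Lib.SW Pool.Agent.Lib.MP_092512_nt.P3

private theorem FThm_large (δ a : ℝ) (hδ : 0 < δ) : ∃ x₀ : ℕ, ∀ x : ℕ, x₀ ≤ x →
    a * (Real.log x) ^ 4 ≤ (x : ℝ) ^ δ := by
  have h1 : ∀ᶠ x : ℝ in atTop, ‖Real.log x‖ ≤ 1 * ‖x ^ (δ / 8)‖ :=
    (isLittleO_log_rpow_atTop (show 0 < δ / 8 by positivity)).bound one_pos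
  have h2 : ∀ᶠ x : ℝ in atTop, |a| ≤ x ^ (δ / 2) :=
    (tendsto_rpow_atTop (show 0 < δ / 2 by positivity)).eventually_ge_atTop _
  have h3 := tendsto_natCast_atTop_atTop.eventually ((h1.and h2).and (eventually_ge_atTop (1 : ℝ)))
  obtain ⟨x₀, hx⟩ := eventually_atTop.1 h3
  refine ⟨x₀, fun x hxx => ?_⟩
  obtain ⟨⟨h4, h5⟩, h6⟩ := hx x hxx
  have hx0 : (0 : ℝ) < x := by linarith
  have hp8 : 0 < (x : ℝ) ^ (δ / 8) := Real.rpow_pos_of_pos hx0 _
  have hlog : 0 ≤ Real.log x := Real.log_nonneg h6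
  rw [one_mul, Real.norm_of_nonneg hlog, Real.norm_of_nonneg hp8.le] at h4
  have h7 : (Real.log x) ^ 4 ≤ (x : ℝ) ^ (δ / 2) := by
    calc (Real.log x) ^ 4 ≤ ((x : ℝ) ^ (δ / 8)) ^ 4 := pow_le_pow_left₀ hlog h4 4
      _ = (x : ℝ) ^ (δ / 2) := by
        rw [← Real.rpow_natCast, ← Real.rpow_mul hx0.le]
        congr 1
        push_cast
        ring
  calc a * (Real.log x) ^ 4 ≤ |a| * (Real.log x) ^ 4 :=
        mul_le_mul_of_nonneg_right (le_abs_self a) (by positivity)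
    _ ≤ (x : ℝ) ^ (δ / 2) * (x : ℝ) ^ (δ / 2) :=
        mul_le_mul h5 h7 (by positivity) (Real.rpow_nonneg hx0.le _)
    _ = (x : ℝ) ^ δ := by
        rw [← Real.rpow_add hx0]
        congr 1
        ring

open Classical in
theorem ten_sing : ∃ c C κ : ℝ, 0 < c ∧ 0 < C ∧ 0 < κ ∧ ∀ h : Fin 4 → ℕ, Function.Injective h →
    (∀ p : ℕ, p.Prime → nuh h univ p < p) →
    ∃ S : ℝ, 0 < S ∧ Tendsto (SgR h) atTop (nhds S) ∧ ∃ N₀ : ℕ, ∀ N : ℕ, N₀ ≤ N →
      c * S * (N / (Real.log N) ^ 4) ≤ (((Icc 1 N).filter (fun n =>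
        (∀ i, Squarefree (n + h i) ∧ ∀ p ∈ (n + h i).primeFactors, (N : ℝ) ^ κ < p) ∧
          ∑ i, (n + h i).primeFactors.card ≤ 10)).card : ℝ) ∧
      (((Icc 1 N).filter (fun n => ∀ i, ∀ p ∈ (n + h i).primeFactors,
        (N : ℝ) ^ κ < p)).card : ℝ) ≤ C * S * (N / (Real.log N) ^ 4) := by
  obtain ⟨δ, hδ, hδ1, ε, hε, κ0, hκ0, HL⟩ := SR_lower
  obtain ⟨C, hC, HU⟩ := SR_upper δ ε hδ hδ1 hε
  obtain ⟨C2, hC2, HC⟩ := count_up (δ / 2) (by positivity) (by
    unfold er at hδ1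
    linarith [show (100 : ℝ) / 300001 / 2 / 2 ≤ 1 / 252 by norm_num])
  refine ⟨κ0 / (12 * C), 2 * C2, δ / 2, by positivity, by positivity, by positivity,
    fun h hinj hadm => ?_⟩
  obtain ⟨S, hS, hlim⟩ := sing h hinj hadm
  refine ⟨S, hS, hlim, ?_⟩
  obtain ⟨z1, hz1⟩ := eventually_atTop.1 (hlim.eventually (lt_mem_nhds (show S / 2 < S by linarith)))
  obtain ⟨z2, hz2⟩ := eventually_atTop.1 (hlim.eventually (gt_mem_nhds (show S < 2 * S by linarith)))
  obtain ⟨B, hB, x1, hlow⟩ := HL h hinj (S / 2) (by positivity) z1 (fun z hz => by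
    rw [VH_SgR]
    exact mul_le_mul_of_nonneg_right (hz1 z hz).le (pow_nonneg (Vz_pos z).le 4))
  obtain ⟨x2, hup⟩ := HU h B hB
  obtain ⟨x3, hlarge⟩ := FThm_large δ (C / (S / 2 * κ0 / 2)) hδ
  obtain ⟨N2, hN2⟩ := HC h hinj (2 * S) (by positivity) z2 (fun z hz => by
    rw [VH_SgR]
    exact mul_le_mul_of_nonneg_right (hz2 z hz).le (pow_nonneg (Vz_pos z).le 4))
  refine ⟨2 * x1 + 2 * x2 + 2 * x3 + N2 + 20, fun N hN => ⟨?_, ?_⟩⟩
  · obtain ⟨x, hx⟩ : ∃ x : ℕ, x = N / 2 := ⟨_, rfl⟩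
    have hxN : 2 * x ≤ N := by omega
    have hxN' : N ≤ 3 * x := by omega
    have hx1 : x1 ≤ x := by omega
    have hx2 : x2 ≤ x := by omega
    have hx3 : x3 ≤ x := by omega
    have hx4 : 3 ≤ x := by omega
    have hNR : (20 : ℝ) ≤ N := by exact_mod_cast (by omega : 20 ≤ N)
    have hN0 : (0 : ℝ) < N := by linarith
    have hxR : (N : ℝ) ≤ 3 * x := by exact_mod_cast hxN'
    have hx0 : (0 : ℝ) < x := by linarith
    have hxN2 : (x : ℝ) ≤ N := by exact_mod_cast (by omega : x ≤ N)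
    have hx3R : (3 : ℝ) ≤ x := by exact_mod_cast hx4
    have hpow : (N : ℝ) ^ (δ / 2) ≤ (x : ℝ) ^ δ := by
      have h1 : (N : ℝ) ≤ (x : ℝ) ^ 2 := by nlinarith
      calc (N : ℝ) ^ (δ / 2) ≤ ((x : ℝ) ^ 2) ^ (δ / 2) :=
            Real.rpow_le_rpow hN0.le h1 (by positivity)
        _ = (x : ℝ) ^ δ := by
            rw [← Real.rpow_natCast, ← Real.rpow_mul hx0.le]
            congr 1
            push_cast
            ring
    have hlow' := hlow x hx1
    have hup' := hup x hx2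
    have hlg := hlarge x hx3
    have hcard : (((Ioc x (2 * x)).filter (fun n => good h x δ n)).card : ℝ) ≤
        (((Icc 1 N).filter (fun n =>
        (∀ i, Squarefree (n + h i) ∧ ∀ p ∈ (n + h i).primeFactors, (N : ℝ) ^ (δ / 2) < p) ∧
          ∑ i, (n + h i).primeFactors.card ≤ 10)).card : ℝ) := by
      have : ((Ioc x (2 * x)).filter (fun n => good h x δ n)).card ≤
          ((Icc 1 N).filter (fun n =>
          (∀ i, Squarefree (n + h i) ∧ ∀ p ∈ (n + h i).primeFactors, (N : ℝ) ^ (δ / 2) < p) ∧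
            ∑ i, (n + h i).primeFactors.card ≤ 10)).card := by
        refine card_le_card fun n hn => ?_
        rw [mem_filter, mem_Ioc] at hn
        rw [mem_filter, mem_Icc]
        obtain ⟨h1, h2⟩ := hn.2
        exact ⟨⟨by omega, by omega⟩, fun i => ⟨(h1 i).1, fun p hp =>
          lt_of_le_of_lt hpow ((h1 i).2 p hp)⟩, h2⟩
      exact_mod_cast this
    have hlogx : 0 < Real.log x := Real.log_pos (by linarith)
    have hlogN : Real.log x ≤ Real.log N := Real.log_le_log hx0 hxN2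
    have hmain : (N : ℝ) / 3 / (Real.log N) ^ 4 ≤ x / (Real.log x) ^ 4 := by
      calc (N : ℝ) / 3 / (Real.log N) ^ 4 ≤ x / (Real.log N) ^ 4 := by
            refine div_le_div_of_nonneg_right (by linarith) (by positivity)
        _ ≤ x / (Real.log x) ^ 4 := by
            refine div_le_div_of_nonneg_left hx0.le (by positivity) ?_
            exact pow_le_pow_left₀ hlogx.le hlogN 4
    -- the error term
    have herr : C * (x : ℝ) ^ (1 - δ) ≤ S / 2 * κ0 / 2 * (x / (Real.log x) ^ 4) := by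
      have h1 : (x : ℝ) ^ (1 - δ) * (x : ℝ) ^ δ = x := by
        rw [← Real.rpow_add hx0, sub_add_cancel, Real.rpow_one]
      have hq : 0 < (x : ℝ) ^ (1 - δ) := Real.rpow_pos_of_pos hx0 _
      have ha : 0 < S / 2 * κ0 / 2 := by positivity
      have h2 : C * (Real.log x) ^ 4 ≤ S / 2 * κ0 / 2 * (x : ℝ) ^ δ := by
        have e : C / (S / 2 * κ0 / 2) * (Real.log x) ^ 4 = C * (Real.log x) ^ 4 / (S / 2 * κ0 / 2) := by
          ring
        rw [e, div_le_iff₀ ha] at hlg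
        linarith
      rw [← mul_div_assoc, le_div_iff₀ (by positivity)]
      calc C * (x : ℝ) ^ (1 - δ) * (Real.log x) ^ 4 = (x : ℝ) ^ (1 - δ) * (C * (Real.log x) ^ 4) := by ring
        _ ≤ (x : ℝ) ^ (1 - δ) * (S / 2 * κ0 / 2 * (x : ℝ) ^ δ) := mul_le_mul_of_nonneg_left h2 hq.le
        _ = S / 2 * κ0 / 2 * ((x : ℝ) ^ (1 - δ) * (x : ℝ) ^ δ) := by ring
        _ = S / 2 * κ0 / 2 * x := by rw [h1]
    have h5 : S / 2 * κ0 / 2 * ((N : ℝ) / 3 / (Real.log N) ^ 4) ≤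
        C * (((Ioc x (2 * x)).filter (fun n => good h x δ n)).card : ℝ) := by
      have h6 := mul_le_mul_of_nonneg_left hmain (show 0 ≤ S / 2 * κ0 / 2 by positivity)
      linarith
    have h6 : κ0 / (12 * C) * S * (N / (Real.log N) ^ 4) =
        S / 2 * κ0 / 2 * ((N : ℝ) / 3 / (Real.log N) ^ 4) / C := by
      field_simp
      ring
    rw [h6, div_le_iff₀ hC]
    calc _ ≤ C * (((Ioc x (2 * x)).filter (fun n => good h x δ n)).card : ℝ) := h5
      _ ≤ C * _ := mul_le_mul_of_nonneg_left hcard hC.le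
      _ = _ := mul_comm _ _
  · have := hN2 N (by omega)
    have e : 2 * C2 * S * (N / (Real.log N) ^ 4) = C2 * (2 * S * (N / (Real.log N) ^ 4)) := by ring
    rw [e]
    refine le_trans (le_of_eq ?_) this
    refine congrArg (fun s : Finset ℕ => ((s.card : ℕ) : ℝ)) ?_
    ext n
    simp only [mem_filter]

end Pool.Agent.Lib.MP_092512_nt.RT
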